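import Pool.Agent.MTV.LibA

/-!
# Antipode identity and reversal
-/

open scoped TensorProduct

namespace Pool.MTV

/-- First letters. -/
private theorem ant_step (p : Word) (x y : SignType) (q : Word) :
    sh (x :: p) (y :: q) = pre x (sh p (y :: q)) + pre y (sh (x :: p) q) := lib_sh_cons x y p q

/-- Sum over the splittings of v, where a reversed word p stands on the left. -/
private noncomputable def antS (p : Word) : Word → V
  | [] => sh p []
  | y :: q => sh p (y :: q) - antS (y :: p) q

private theorem antS_eq (p v : Word) :
    antS p v = ∑ i ∈ Finset.range (v.length + 1),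
      ((-1 : ℝ) ^ i) • sh ((v.take i).reverse ++ p) (v.drop i) := by
  induction v generalizing p with
  | nil => simp [antS]
  | cons y q ih =>
    rw [antS, ih, List.length_cons, Finset.sum_range_succ' _ (q.length + 1)]
    simp only [List.take_succ_cons, List.reverse_cons, List.append_assoc, List.singleton_append,
      List.drop_succ_cons, pow_succ, mul_neg, mul_one, neg_smul, Finset.sum_neg_distrib,
      List.take_zero, List.reverse_nil, List.nil_append, List.drop_zero, pow_zero, one_smul]
    abel

private theorem antS_tele (x : SignType) (p v : Word) :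
    antS (x :: p) v = pre x (sh p v) := by
  induction v generalizing x p with
  | nil => simp [antS]
  | cons y q ih =>
    rw [antS, ih, ant_step]
    abel

theorem thm_anti : St_anti := by
  intro w hw
  cases w with
  | nil => exact absurd rfl hw
  | cons y q =>
    have h := antS_eq [] (y :: q)
    simp only [List.append_nil] at h
    rw [← h, antS, antS_tele]
    simp

theorem thm_charRev : St_charRev := by
  intro c hc w
  rcases eq_or_ne w [] with rfl | hw
  · simp [hc.one]
  · have h := congrArg c (thm_anti w hw)
    obtain ⟨n, hn⟩ : ∃ n, w.length = n + 1 := ⟨w.length - 1, by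
      have := List.length_pos_iff.2 hw; omega⟩
    rw [map_sum, map_zero, hn, Finset.sum_range_succ, Finset.sum_range_succ'] at h
    have hmid : ∑ k ∈ Finset.range n,
        c ((-1 : ℝ) ^ (k + 1) • sh (w.take (k + 1)).reverse (w.drop (k + 1))) = 0 := by
      apply Finset.sum_eq_zero
      intro k hk
      have hk' := Finset.mem_range.1 hk
      rw [map_smul, hc.sh, smul_zero]
      · intro h0
        have := congrArg List.length h0
        simp [hn] at this
      · intro h0
        have := congrArg List.length h0
        simp [hn] at this
        omega
    rw [hmid] at h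
    have e1 : w.take (n + 1) = w := by rw [← hn]; exact List.take_length
    have e2 : w.drop (n + 1) = [] := by rw [← hn]; exact List.drop_length
    rw [e1, e2] at h
    simp only [pow_zero, one_smul, List.take_zero, List.reverse_nil, List.drop_zero,
      lib_sh_nil_left, lib_sh_nil_right, map_smul, smul_eq_mul, zero_add] at h
    rw [hn]
    have hs : ((-1 : ℝ) ^ (n + 1)) * ((-1 : ℝ) ^ (n + 1)) = 1 := by
      rw [← mul_pow]; simp
    have h2 : c (wd w.reverse) = ((-1 : ℝ) ^ (n + 1)) * ((-1 : ℝ) ^ (n + 1)) * c (wd w.reverse) := by
      rw [hs, one_mul]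
    rw [h2, mul_assoc]
    have h3 : (-1 : ℝ) ^ (n + 1) * c (wd w.reverse) = - c (wd w) := by linarith
    rw [h3]; ring

private theorem ant_mp_toL (x : SignType) (hx : x ≠ 0) (y : V) : toL x y = mp x y := by
  refine lib_ext' (f := toL x) (g := mp x) ?_ y
  intro w
  rw [lib_toL, lib_mp, lib_toPt_of_ne hx]

theorem thm_charTo (h1 : St_shMap) (h2 : St_shLen) : St_charTo := by
  intro c hc x u v hu hv
  by_cases hx : x = 0
  · subst hx
    have hmem := h2 u v
    have hpos : 0 < u.length + v.length := by
      have := List.length_pos_iff.2 hu; omega
    have key : toL 0 (sh u v) = 0 := by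
      refine lib_lenEq_ind (P := fun z => toL 0 z = 0) _ hmem ?_ ?_ ?_ ?_
      · simp
      · intro w hw
        rw [lib_toL, lib_toPt_zero]
        rintro rfl
        simp at hw
        omega
      · intro a b ha hb; rw [map_add, ha, hb, add_zero]
      · intro r a ha; rw [map_smul, ha, smul_zero]
    rw [key, map_zero]
  · rw [ant_mp_toL x hx, h1]
    exact hc.sh _ _ (by simpa using hu) (by simpa using hv)

end Pool.MTV
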