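import Pool.Agent.MTV.StA2

/-!
# Algebra: library of basic lemmas (simp lemmas for the values on words, extensionality, induction)
-/

open scoped TensorProduct

namespace Pool.MTV

/-! ### extensionality and induction -/

theorem lib_ext {M : Type*} [AddCommMonoid M] [Module ℝ M] {f g : V →ₗ[ℝ] M}
    (h : ∀ w : Word, f (wd w) = g (wd w)) : f = g := by
  apply Finsupp.lhom_ext
  intro w r
  have e : (Finsupp.single w r : V) = r • wd w := by simp [wd]
  rw [e, map_smul, map_smul, h]

/-- Extensionality at a given element. -/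
theorem lib_ext' {M : Type*} [AddCommMonoid M] [Module ℝ M] {f g : V →ₗ[ℝ] M}
    (h : ∀ w : Word, f (wd w) = g (wd w)) (x : V) : f x = g x := by rw [lib_ext h]

/-- Induction over V. -/
theorem lib_ind {P : V → Prop} (x : V) (h0 : P 0) (hw : ∀ w : Word, P (wd w))
    (ha : ∀ x y, P x → P y → P (x + y)) (hs : ∀ (r : ℝ) x, P x → P (r • x)) : P x := by
  induction x using Finsupp.induction_linear with
  | zero => exact h0
  | add f g hf hg => exact ha f g hf hg
  | single w r =>
    have e : (Finsupp.single w r : V) = r • wd w := by simp [wd]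
    rw [e]; exact hs r _ (hw w)

/-- Extensionality on the tensor product. -/
theorem lib_text {M : Type*} [AddCommMonoid M] [Module ℝ M] {f g : V ⊗[ℝ] V →ₗ[ℝ] M}
    (h : ∀ u v : Word, f (wd u ⊗ₜ[ℝ] wd v) = g (wd u ⊗ₜ[ℝ] wd v)) : f = g := by
  apply TensorProduct.ext
  apply lib_ext
  intro u
  apply lib_ext
  intro v
  simpa using h u v

/-- Elements of lenEq n are combinations of words of length n. -/
theorem lib_lenEq_span (n : ℕ) : lenEq n = Submodule.span ℝ (wd '' {w : Word | w.length = n}) := by
  unfold lenEq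
  rw [Finsupp.supported_eq_span_single]
  rfl

theorem lib_lenLe_span (n : ℕ) : lenLe n = Submodule.span ℝ (wd '' {w : Word | w.length ≤ n}) := by
  unfold lenLe
  rw [Finsupp.supported_eq_span_single]
  rfl

/-- Induction over lenEq n. -/
theorem lib_lenEq_ind {n : ℕ} {P : V → Prop} (x : V) (hx : x ∈ lenEq n) (h0 : P 0)
    (hw : ∀ w : Word, w.length = n → P (wd w))
    (ha : ∀ x y, P x → P y → P (x + y)) (hs : ∀ (r : ℝ) x, P x → P (r • x)) : P x := by
  rw [lib_lenEq_span] at hx
  refine Submodule.span_induction ?_ h0 (fun x y _ _ hx hy => ha x y hx hy) (fun r x _ hx => hs r x hx) hx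
  rintro _ ⟨w, hw', rfl⟩
  exact hw w hw'

/-- Induction over lenLe n. -/
theorem lib_lenLe_ind {n : ℕ} {P : V → Prop} (x : V) (hx : x ∈ lenLe n) (h0 : P 0)
    (hw : ∀ w : Word, w.length ≤ n → P (wd w))
    (ha : ∀ x y, P x → P y → P (x + y)) (hs : ∀ (r : ℝ) x, P x → P (r • x)) : P x := by
  rw [lib_lenLe_span] at hx
  refine Submodule.span_induction ?_ h0 (fun x y _ _ hx hy => ha x y hx hy) (fun r x _ hx => hs r x hx) hx
  rintro _ ⟨w, hw', rfl⟩
  exact hw w hw'

theorem lib_wd_mem_lenEq {w : Word} {n : ℕ} (h : w.length = n) : wd w ∈ lenEq n := by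
  rw [lib_lenEq_span]; exact Submodule.subset_span ⟨w, h, rfl⟩

theorem lib_wd_mem_lenLe {w : Word} {n : ℕ} (h : w.length ≤ n) : wd w ∈ lenLe n := by
  rw [lib_lenLe_span]; exact Submodule.subset_span ⟨w, h, rfl⟩

theorem lib_lenEq_le_lenLe {n m : ℕ} (h : n ≤ m) : lenEq n ≤ lenLe m := by
  rw [lib_lenEq_span, lib_lenLe_span]
  apply Submodule.span_mono
  apply Set.image_mono
  intro w hw
  exact le_trans (le_of_eq hw) h

theorem lib_lenLe_mono {n m : ℕ} (h : n ≤ m) : lenLe n ≤ lenLe m := by
  rw [lib_lenLe_span, lib_lenLe_span]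
  apply Submodule.span_mono
  apply Set.image_mono
  intro w hw
  exact le_trans hw h

/-- Every element has bounded length. -/
theorem lib_exists_lenLe (x : V) : ∃ n, x ∈ lenLe n := by
  refine lib_ind (P := fun x => ∃ n, x ∈ lenLe n) x ⟨0, Submodule.zero_mem _⟩
    (fun w => ⟨w.length, lib_wd_mem_lenLe le_rfl⟩) ?_ ?_
  · rintro x y ⟨n, hn⟩ ⟨m, hm⟩
    exact ⟨max n m, Submodule.add_mem _ (lib_lenLe_mono (le_max_left _ _) hn)
      (lib_lenLe_mono (le_max_right _ _) hm)⟩
  · rintro r x ⟨n, hn⟩
    exact ⟨n, Submodule.smul_mem _ _ hn⟩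

/-! ### values on words -/

@[simp] theorem lib_lc {M : Type*} [AddCommMonoid M] [Module ℝ M] (f : Word → M) (w : Word) :
    Finsupp.linearCombination ℝ f (wd w) = f w := by simp [wd]

@[simp] theorem lib_pre (a : SignType) (w : Word) : pre a (wd w) = wd (a :: w) := by
  simp [pre, wd, Finsupp.lmapDomain_apply, Finsupp.mapDomain_single]

@[simp] theorem lib_app (a : SignType) (w : Word) : app a (wd w) = wd (w ++ [a]) := by
  simp [app, wd, Finsupp.lmapDomain_apply, Finsupp.mapDomain_single]

@[simp] theorem lib_rv (w : Word) : rv (wd w) = wd w.reverse := by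
  simp [rv, wd, Finsupp.lmapDomain_apply, Finsupp.mapDomain_single]

@[simp] theorem lib_mp (a : SignType) (w : Word) : mp a (wd w) = wd (w.map (fun x => a * x)) := by
  simp [mp, wd, Finsupp.lmapDomain_apply, Finsupp.mapDomain_single]

@[simp] theorem lib_blk (a : SignType) (m : ℕ) (w : Word) :
    blk a m (wd w) = wd (a :: (List.replicate m 0 ++ w)) := by
  simp [blk, wd, Finsupp.lmapDomain_apply, Finsupp.mapDomain_single]

@[simp] theorem lib_mul (u v : Word) : mul (wd u) (wd v) = sh u v := by
  simp [mul]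

@[simp] theorem lib_Per (w : Word) : Per (wd w) = per w := by simp [Per]

@[simp] theorem lib_coact (w : Word) : coact (wd w) = cop 1 0 [] w := by simp [coact]

@[simp] theorem lib_DL (c : V →ₗ[ℝ] ℝ) (a b : SignType) (w : Word) : DL c a b (wd w) = Dw c b a w := by
  simp [DL]

@[simp] theorem lib_D (c : V →ₗ[ℝ] ℝ) (w : Word) : D c (wd w) = Dw c 1 0 w := by simp [D]

@[simp] theorem lib_toL (a : SignType) (w : Word) : toL a (wd w) = toPt a w := by simp [toL]

@[simp] theorem lib_IL (a b : SignType) (w : Word) : IL a b (wd w) = II a w b := by simp [IL]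

@[simp] theorem lib_anti (w : Word) : anti (wd w) = ((-1 : ℝ) ^ w.length) • wd w.reverse := by
  simp [anti]

@[simp] theorem lib_decL (w : Word) : decL (wd w) = dec w := by simp [decL]

@[simp] theorem lib_ptL (e : SignType) (w : Word) : ptL e (wd w) = pt e w := by simp [ptL]

@[simp] theorem lib_copL (b a : SignType) (w : Word) : copL b a (wd w) = cop b a [] w := by simp [copL]

theorem lib_coact_eq : coact = copL 1 0 := rfl

theorem lib_D_eq (c : V →ₗ[ℝ] ℝ) : D c = DL c 0 1 := rfl

@[simp] theorem lib_SL (f : V →ₗ[ℝ] ℝ) (w : Word) :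
    SL f (wd w) = ∑ i ∈ Finset.range (w.length + 1), f (wd (w.take i)) • wd (w.drop i) := by simp [SL]

@[simp] theorem lib_chiF (c : V →ₗ[ℝ] ℝ) (w : Word) :
    chiF c (wd w) =
      ∑ j ∈ Finset.range (w.length + 1), ((-1 : ℝ) ^ j / (j.factorial : ℝ)) * Per (((D c) ^ j) (wd w)) := by
  simp [chiF]

@[simp] theorem lib_eps (w : Word) : eps (wd w) = if w = [] then (1 : ℝ) else 0 := by simp [eps]

@[simp] theorem lib_hom (r : ℕ) (c : V →ₗ[ℝ] ℝ) (w : Word) :
    hom r c (wd w) = if w.length = r then c (wd w) else 0 := by simp [hom]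

@[simp] theorem lib_lft (lam : V →ₗ[ℝ] ℝ) (x y : V) : lft lam (x ⊗ₜ[ℝ] y) = lam x • y := by simp [lft]

@[simp] theorem lib_mulT (x y : V) : mulT (x ⊗ₜ[ℝ] y) = mul x y := by simp [mulT]

theorem lib_stepB (e : SignType) (x : V) (t : V ⊗[ℝ] V) : stepB e x t = step x e t := by
  simp [stepB, step, TensorProduct.mapBilinear]

@[simp] theorem lib_step (e : SignType) (x u v : V) :
    step x e (u ⊗ₜ[ℝ] v) = mul x u ⊗ₜ[ℝ] pre e v := by simp [step]

@[simp] theorem lib_GG (a b e : SignType) (u v : V) :
    GG a b e (u ⊗ₜ[ℝ] v) = step (IL a e u) e (copL b e v) := by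
  simp [GG, lib_stepB]

/-! ### shuffles with the empty word -/

@[simp] theorem lib_sh_nil_left (v : Word) : sh [] v = wd v := by simp [sh]

@[simp] theorem lib_sh_nil_right (u : Word) : sh u [] = wd u := by cases u <;> simp [sh]

theorem lib_sh_cons (a b : SignType) (u v : Word) :
    sh (a :: u) (b :: v) = pre a (sh u (b :: v)) + pre b (sh (a :: u) v) := by simp [sh]

@[simp] theorem lib_mul_one_left (x : V) : mul (wd []) x = x := by
  refine lib_ext' (f := mul (wd [])) (g := LinearMap.id) ?_ x
  intro w; simp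

@[simp] theorem lib_mul_one_right (x : V) : mul x (wd []) = x := by
  refine lib_ext' (f := mul.flip (wd [])) (g := LinearMap.id) ?_ x
  intro w; simp

/-! ### end points -/

@[simp] theorem lib_toPt_one (w : Word) : toPt 1 w = wd w := by
  simp [toPt]

@[simp] theorem lib_toPt_zero_nil : toPt 0 [] = wd [] := by simp [toPt]

theorem lib_toPt_zero {w : Word} (h : w ≠ []) : toPt 0 w = 0 := by simp [toPt, h]

@[simp] theorem lib_toPt_zero_cons (a : SignType) (w : Word) : toPt 0 (a :: w) = 0 := by simp [toPt]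

@[simp] theorem lib_toPt_nil (a : SignType) : toPt a [] = wd [] := by
  unfold toPt; split <;> simp

theorem lib_toPt_of_ne {a : SignType} (h : a ≠ 0) (w : Word) :
    toPt a w = wd (w.map (fun x => a * x)) := by simp [toPt, h]

@[simp] theorem lib_toL_one : toL 1 = LinearMap.id := lib_ext (by intro w; simp)

@[simp] theorem lib_ev_zero (c : V →ₗ[ℝ] ℝ) (a : SignType) (p : Word) : ev c 0 (a :: p) = 0 := by
  simp [ev]

@[simp] theorem lib_ev_one (c : V →ₗ[ℝ] ℝ) (p : Word) : ev c 1 p = c (wd p) := by simp [ev]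

@[simp] theorem lib_II_nil (a b : SignType) : II a [] b = wd [] := by simp [II]

@[simp] theorem lib_cop_nil (b a : SignType) (p : Word) : cop b a p [] = II a p b ⊗ₜ[ℝ] wd [] := rfl

theorem lib_cop_cons (b a c : SignType) (p w : Word) :
    cop b a p (c :: w) = cop b a (p ++ [c]) w + step (II a p c) c (cop b c [] w) := rfl

@[simp] theorem lib_Dw_nil (c : V →ₗ[ℝ] ℝ) (b a : SignType) : Dw c b a [] = 0 := rfl

theorem lib_Dw_cons (c : V →ₗ[ℝ] ℝ) (b a x : SignType) (w : Word) :
    Dw c b a (x :: w) = Pr c a b (x :: w) + pre x (Dw c b x w) := rfl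

@[simp] theorem lib_dec_nil : dec [] = wd [] ⊗ₜ[ℝ] wd [] := by simp [dec]

theorem lib_dec_cons (x : SignType) (w : Word) :
    dec (x :: w) = wd [] ⊗ₜ[ℝ] wd (x :: w) + TensorProduct.map (pre x) LinearMap.id (dec w) := by
  unfold dec
  rw [List.length_cons, Finset.sum_range_succ']
  simp only [List.take_succ_cons, List.drop_succ_cons, List.take_zero, List.drop_zero, map_sum,
    TensorProduct.map_tmul, lib_pre, LinearMap.id_coe, id_eq]
  rw [add_comm]

@[simp] theorem lib_pt_nil (e : SignType) : pt e [] = 0 := rfl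

theorem lib_pt_cons (e x : SignType) (w : Word) :
    pt e (x :: w) = (if x = e then wd [] ⊗ₜ[ℝ] wd w else 0) +
      TensorProduct.map (pre x) LinearMap.id (pt e w) := rfl

/-! ### the parts of given weight -/

/-- part n as a linear map. -/
noncomputable def partL (n : ℕ) : V →ₗ[ℝ] V where
  toFun := part n
  map_add' x y := by unfold part; exact Finsupp.filter_add
  map_smul' r x := by unfold part; simp [Finsupp.filter_smul]

@[simp] theorem lib_partL (n : ℕ) (x : V) : partL n x = part n x := rfl

@[simp] theorem lib_part_wd (n : ℕ) (w : Word) : part n (wd w) = if w.length = n then wd w else 0 := by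
  unfold part wd
  split_ifs with h
  · exact Finsupp.filter_single_of_pos _ h
  · exact Finsupp.filter_single_of_neg _ h

theorem lib_part_mem (n : ℕ) (x : V) : part n x ∈ lenEq n := by
  refine lib_ind (P := fun x => part n x ∈ lenEq n) x ?_ ?_ ?_ ?_
  · rw [← lib_partL, map_zero]; exact Submodule.zero_mem _
  · intro w; rw [lib_part_wd]
    split_ifs with h
    · exact lib_wd_mem_lenEq h
    · exact Submodule.zero_mem _
  · intro x y hx hy; rw [← lib_partL, map_add]; exact Submodule.add_mem _ hx hy
  · intro r x hx; rw [← lib_partL, map_smul]; exact Submodule.smul_mem _ _ hx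

theorem lib_part_of_mem {n : ℕ} {x : V} (h : x ∈ lenEq n) (m : ℕ) :
    part m x = if n = m then x else 0 := by
  have key : ∀ m : ℕ, partL m x = if n = m then x else 0 := by
    intro m
    refine lib_lenEq_ind (P := fun x => partL m x = if n = m then x else 0) x h ?_ ?_ ?_ ?_
    · simp only [map_zero, ite_self]
    · intro w hw; rw [lib_partL, lib_part_wd, hw]
    · intro x y hx hy
      simp only [map_add, hx, hy]; split_ifs <;> simp
    · intro r x hx
      simp only [map_smul, hx]; split_ifs <;> simp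
  simpa using key m

/-- Every element is the sum of its parts. -/
theorem lib_sum_part {n : ℕ} {x : V} (h : x ∈ lenLe n) :
    ∑ m ∈ Finset.range (n + 1), part m x = x := by
  have key : ∑ m ∈ Finset.range (n + 1), partL m x = x := by
    refine lib_lenLe_ind (P := fun x => ∑ m ∈ Finset.range (n + 1), partL m x = x) x h ?_ ?_ ?_ ?_
    · simp only [map_zero, Finset.sum_const_zero]
    · intro w hw
      simp only [lib_partL, lib_part_wd]
      rw [Finset.sum_ite_eq, if_pos (Finset.mem_range.2 (Nat.lt_succ_of_le hw))]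
    · intro x y hx hy
      simp only [map_add, Finset.sum_add_distrib, hx, hy]
    · intro r x hx
      simp only [map_smul, ← Finset.smul_sum, hx]
  simpa using key

end Pool.MTV
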