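import Pool.Agent.MTV.StA2
import Pool.Agent.MTV.LibA

/-!
# Cuts and the signed reversal of words
-/

open scoped TensorProduct

namespace Pool.MTV

private theorem AntiD_pre (e : SignType) (y : V) : anti (pre e y) = - app e (anti y) := by
  refine lib_ext' (f := anti ∘ₗ pre e) (g := -(app e ∘ₗ anti)) ?_ y
  intro w
  simp only [LinearMap.comp_apply, LinearMap.neg_apply, lib_pre, lib_anti, map_smul, lib_app,
    List.length_cons, List.reverse_cons, pow_succ]
  rw [mul_neg, mul_one, neg_smul]

private theorem AntiD_last (b : SignType) (u : Word) : u.reverse.getLastD b = hd b u := by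
  cases u with
  | nil => rfl
  | cons x u => simp [hd]

private theorem AntiD_ev (h1 : St_charRev) (c : V →ₗ[ℝ] ℝ) (hc : InfChar c) (x : SignType)
    (p : Word) : ev c x p.reverse = - ((-1 : ℝ) ^ p.length) * ev c x p := by
  unfold ev
  by_cases hx : x = 0
  · subst hx
    by_cases hp : p = []
    · subst hp
      simp [hc.one]
    · have hp' : p.reverse ≠ [] := by simpa using hp
      rw [lib_toPt_zero hp, lib_toPt_zero hp']
      simp
  · rw [lib_toPt_of_ne hx, lib_toPt_of_ne hx, List.map_reverse, h1 c hc, List.length_map]

/-- ANTID -/
theorem thm_antiD (h1 : St_charRev) (h2 : St_lastD) : St_antiD := by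
  intro c hc a x
  refine lib_ext' (f := DL c 0 a ∘ₗ anti) (g := anti ∘ₗ DL c a 0) ?_ x
  intro w
  simp only [LinearMap.comp_apply, lib_anti, map_smul, lib_DL]
  induction w generalizing a with
  | nil => simp
  | cons e w ih =>
    rw [List.reverse_cons, h2 c 0 a e w.reverse, lib_Dw_cons, map_add, AntiD_pre, ← ih e, smul_add,
      add_comm]
    refine congrArg₂ (· + ·) ?_ ?_
    · unfold Pr
      rw [Finset.smul_sum, map_sum, List.length_reverse, List.length_cons,
        ← Finset.sum_range_reflect]
      refine Finset.sum_congr rfl fun j hj => ?_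
      rw [Finset.mem_range] at hj
      have e1 : w.length + 1 - 1 - j = w.length - j := by omega
      have e2 : (w.reverse ++ [e]).drop (w.length - j) = ((e :: w).take (j + 1)).reverse := by
        rw [← List.reverse_cons, List.drop_reverse, List.length_cons]
        congr 2
        omega
      have e3 : w.reverse.take (w.length - j) = ((e :: w).drop (j + 1)).reverse := by
        rw [List.take_reverse, List.drop_succ_cons]
        congr 2
        omega
      have e4 : ((e :: w).take (j + 1)).length = j + 1 := by
        rw [List.length_take, List.length_cons]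
        omega
      have e5 : ((e :: w).drop (j + 1)).length = w.length - j := by
        rw [List.length_drop, List.length_cons]
        omega
      rw [e1, e2, e3, AntiD_last, AntiD_ev h1 c hc, AntiD_ev h1 c hc, map_smul, lib_anti, e4, e5,
        smul_smul, smul_smul]
      congr 1
      obtain ⟨k, hk⟩ : ∃ k, w.length = j + k := ⟨w.length - j, by omega⟩
      rw [hk, Nat.add_sub_cancel_left]
      have e6 : ((-1 : ℝ)) ^ j * (-1) ^ j = 1 := by
        rw [← mul_pow]; simp
      simp only [pow_add, pow_one]
      linear_combination (((-1 : ℝ)) ^ k * (ev c (hd 0 (List.drop (j + 1) (e :: w))) (List.take (j + 1) (e :: w)) - ev c a (List.take (j + 1) (e :: w)))) * e6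
    · rw [List.length_cons, map_smul, pow_succ, mul_neg, mul_one, neg_smul]

end Pool.MTV
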