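import Pool.Agent.MTV.StA2

/-!
# The shape of the coaction
-/

open scoped TensorProduct

namespace Pool.MTV

private theorem cl_wd_mem {n : ℕ} {w : Word} (h : w.length = n) : wd w ∈ lenEq n :=
  Finsupp.single_mem_supported ℝ 1 h

private theorem cl_span (n : ℕ) :
    lenEq n = Submodule.span ℝ (wd '' {w : Word | w.length = n}) :=
  Finsupp.supported_eq_span_single ℝ _

private theorem cl_mul_wd (u v : Word) : mul (wd u) (wd v) = sh u v := by
  unfold mul wd
  rw [Finsupp.linearCombination_single, one_smul, Finsupp.linearCombination_single, one_smul]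

private theorem cl_mul_one (x : V) : mul (wd []) x = x := by
  have h : mul (wd []) = LinearMap.id := by
    refine Finsupp.lhom_ext' fun w => LinearMap.ext_ring ?_
    show mul (wd []) (wd w) = wd w
    rw [cl_mul_wd, sh]
  rw [h, LinearMap.id_apply]

private theorem cl_pre (a : SignType) (w : Word) : pre a (wd w) = wd (a :: w) := by
  unfold pre wd
  rw [Finsupp.lmapDomain_apply, Finsupp.mapDomain_single]

private theorem cl_mul_mem (h1 : St_shLen) {m n : ℕ} {x y : V} (hx : x ∈ lenEq m)
    (hy : y ∈ lenEq n) : mul x y ∈ lenEq (m + n) := by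
  rw [cl_span] at hx hy
  induction hx using Submodule.span_induction with
  | mem x hx =>
    obtain ⟨u, hu, rfl⟩ := hx
    induction hy using Submodule.span_induction with
    | mem y hy =>
      obtain ⟨v, hv, rfl⟩ := hy
      rw [Set.mem_ofPred_eq] at hu hv
      rw [cl_mul_wd, ← hu, ← hv]
      exact h1 u v
    | zero =>
      rw [map_zero]
      exact zero_mem _
    | add y z _ _ hy hz =>
      rw [map_add]
      exact add_mem hy hz
    | smul r y _ hy =>
      rw [map_smul]
      exact Submodule.smul_mem _ _ hy
  | zero =>
    rw [map_zero, LinearMap.zero_apply]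
    exact zero_mem _
  | add x z _ _ hx hz =>
    rw [map_add, LinearMap.add_apply]
    exact add_mem hx hz
  | smul r x _ hx =>
    rw [map_smul, LinearMap.smul_apply]
    exact Submodule.smul_mem _ _ hx

private theorem cl_toPt (a : SignType) (w : Word) : toPt a w ∈ lenEq w.length := by
  unfold toPt
  split_ifs with h1 h2
  · rw [h2]
    exact cl_wd_mem rfl
  · exact zero_mem _
  · exact cl_wd_mem (List.length_map _)

private theorem cl_II (h1 : St_shLen) (a b : SignType) (w : Word) : II a w b ∈ lenEq w.length := by
  unfold II
  refine Submodule.sum_mem _ fun i hi => Submodule.smul_mem _ _ ?_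
  have h2 := cl_mul_mem h1 (cl_toPt a (w.take i).reverse) (cl_toPt b (w.drop i))
  have h3 : (w.take i).reverse.length + (w.drop i).length = w.length := by
    rw [List.length_reverse, List.length_take, List.length_drop]
    have := Finset.mem_range.1 hi
    omega
  rwa [h3] at h2

private theorem cl_II_nil (a b : SignType) : II a [] b = wd [] := by
  unfold II
  have h : ∀ c : SignType, toPt c [] = wd [] := by
    intro c
    unfold toPt
    rw [if_pos rfl, List.map_nil, ite_self]
  simp only [List.length_nil, zero_add, Finset.range_one, Finset.sum_singleton, pow_zero, one_smul,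
    List.take_nil, List.drop_nil, List.reverse_nil, h, cl_mul_one]

private theorem cl_II_zero_one (w : Word) : II 0 w 1 = wd w := by
  unfold II
  rw [Finset.sum_range_succ']
  have h0 : ∀ i ∈ Finset.range w.length, ((-1 : ℝ) ^ (i + 1)) •
      mul (toPt 0 (w.take (i + 1)).reverse) (toPt 1 (w.drop (i + 1))) = 0 := by
    intro i hi
    have h1 : toPt 0 (w.take (i + 1)).reverse = 0 := by
      unfold toPt
      rw [if_pos rfl, if_neg]
      intro h2
      have h3 := congrArg List.length h2
      rw [List.length_reverse, List.length_take, List.length_nil] at h3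
      have := Finset.mem_range.1 hi
      omega
    rw [h1, map_zero, LinearMap.zero_apply, smul_zero]
  rw [Finset.sum_eq_zero h0, zero_add, pow_zero, one_smul, List.take_zero, List.drop_zero,
    List.reverse_nil]
  have h1 : toPt 0 [] = wd [] := by
    unfold toPt
    rw [if_pos rfl, if_pos rfl]
  have h2 : toPt 1 w = wd w := by
    unfold toPt
    rw [if_neg (by decide)]
    congr 1
    conv_rhs => rw [← List.map_id w]
    refine List.map_congr_left fun x _ => ?_
    rw [one_mul, id]
  rw [h1, h2, cl_mul_one]

/-- Span of the products of words of total length `n`. -/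
private noncomputable def clU (n : ℕ) : Submodule ℝ (V ⊗[ℝ] V) :=
  Submodule.span ℝ {t | ∃ u v : Word, u.length + v.length = n ∧ t = wd u ⊗ₜ[ℝ] wd v}

private noncomputable def clT (n : ℕ) : Submodule ℝ (V ⊗[ℝ] V) :=
  Submodule.span ℝ {t | ∃ u v : Word, u ≠ [] ∧ v ≠ [] ∧ u.length + v.length = n ∧
    t = wd u ⊗ₜ[ℝ] wd v}

private theorem cl_T_le (n : ℕ) : clT n ≤ clU n := by
  refine Submodule.span_mono ?_
  rintro t ⟨u, v, -, -, h, rfl⟩
  exact ⟨u, v, h, rfl⟩

/-- A tensor with homogeneous left factor. -/
private theorem cl_memU {k n : ℕ} {x : V} (hx : x ∈ lenEq k) (v : Word) (hn : k + v.length = n) :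
    x ⊗ₜ[ℝ] wd v ∈ clU n := by
  rw [cl_span] at hx
  induction hx using Submodule.span_induction with
  | mem x hx =>
    obtain ⟨u, hu, rfl⟩ := hx
    exact Submodule.subset_span ⟨u, v, by rw [← hn, ← hu], rfl⟩
  | zero =>
    rw [TensorProduct.zero_tmul]
    exact zero_mem _
  | add x z _ _ hx hz =>
    rw [TensorProduct.add_tmul]
    exact add_mem hx hz
  | smul r x _ hx =>
    rw [← TensorProduct.smul_tmul']
    exact Submodule.smul_mem _ _ hx

private theorem cl_memT {k n : ℕ} {x : V} (hx : x ∈ lenEq k) (hk : 0 < k) (v : Word)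
    (hv : v ≠ []) (hn : k + v.length = n) : x ⊗ₜ[ℝ] wd v ∈ clT n := by
  rw [cl_span] at hx
  induction hx using Submodule.span_induction with
  | mem x hx =>
    obtain ⟨u, hu, rfl⟩ := hx
    rw [Set.mem_ofPred_eq] at hu
    refine Submodule.subset_span ⟨u, v, ?_, hv, by rw [← hn, ← hu], rfl⟩
    rintro rfl
    rw [List.length_nil] at hu
    omega
  | zero =>
    rw [TensorProduct.zero_tmul]
    exact zero_mem _
  | add x z _ _ hx hz =>
    rw [TensorProduct.add_tmul]
    exact add_mem hx hz
  | smul r x _ hx =>
    rw [← TensorProduct.smul_tmul']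
    exact Submodule.smul_mem _ _ hx

private theorem cl_step (x : V) (c : SignType) (y : V) (v : Word) :
    step x c (y ⊗ₜ[ℝ] wd v) = mul x y ⊗ₜ[ℝ] wd (c :: v) := by
  unfold step
  rw [TensorProduct.map_tmul, cl_pre]

private theorem cl_stepU (h1 : St_shLen) {k n : ℕ} {x : V} (hx : x ∈ lenEq k) (c : SignType)
    {t : V ⊗[ℝ] V} (ht : t ∈ clU n) : step x c t ∈ clU (k + n + 1) := by
  unfold clU at ht
  induction ht using Submodule.span_induction with
  | mem t ht =>
    obtain ⟨u, v, huv, rfl⟩ := ht
    rw [cl_step]
    refine cl_memU (cl_mul_mem h1 hx (cl_wd_mem rfl)) _ ?_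
    rw [List.length_cons]
    omega
  | zero =>
    rw [map_zero]
    exact zero_mem _
  | add x z _ _ hx hz =>
    rw [map_add]
    exact add_mem hx hz
  | smul r x _ hx =>
    rw [map_smul]
    exact Submodule.smul_mem _ _ hx

private theorem cl_stepT (h1 : St_shLen) {k n : ℕ} {x : V} (hx : x ∈ lenEq k) (hk : 0 < k)
    (c : SignType) {t : V ⊗[ℝ] V} (ht : t ∈ clU n) : step x c t ∈ clT (k + n + 1) := by
  unfold clU at ht
  induction ht using Submodule.span_induction with
  | mem t ht =>
    obtain ⟨u, v, huv, rfl⟩ := ht
    rw [cl_step]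
    refine cl_memT (cl_mul_mem h1 hx (cl_wd_mem rfl)) (by omega) _ (List.cons_ne_nil _ _) ?_
    rw [List.length_cons]
    omega
  | zero =>
    rw [map_zero]
    exact zero_mem _
  | add x z _ _ hx hz =>
    rw [map_add]
    exact add_mem hx hz
  | smul r x _ hx =>
    rw [map_smul]
    exact Submodule.smul_mem _ _ hx

private theorem cl_stepT' {n : ℕ} (c : SignType) {t : V ⊗[ℝ] V} (ht : t ∈ clT n) :
    step (wd []) c t ∈ clT (n + 1) := by
  unfold clT at ht
  induction ht using Submodule.span_induction with
  | mem t ht =>
    obtain ⟨u, v, hu, hv, huv, rfl⟩ := ht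
    rw [cl_step, cl_mul_one]
    refine Submodule.subset_span ⟨u, c :: v, hu, List.cons_ne_nil _ _, ?_, rfl⟩
    rw [List.length_cons]
    omega
  | zero =>
    rw [map_zero]
    exact zero_mem _
  | add x z _ _ hx hz =>
    rw [map_add]
    exact add_mem hx hz
  | smul r x _ hx =>
    rw [map_smul]
    exact Submodule.smul_mem _ _ hx

private theorem cl_copU (h1 : St_shLen) (b : SignType) (w : Word) : ∀ (a : SignType) (p : Word),
    cop b a p w ∈ clU (p.length + w.length) := by
  induction w with
  | nil =>
    intro a p
    rw [cop]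
    exact cl_memU (cl_II h1 a b p) _ rfl
  | cons c w ih =>
    intro a p
    rw [cop]
    refine add_mem ?_ ?_
    · have h2 := ih a (p ++ [c])
      have h3 : (p ++ [c]).length + w.length = p.length + (c :: w).length := by
        rw [List.length_append, List.length_cons, List.length_cons, List.length_nil]
        omega
      rwa [h3] at h2
    · have h2 := cl_stepU h1 (cl_II h1 a c p) c (ih c [])
      have h3 : p.length + (([] : Word).length + w.length) + 1 = p.length + (c :: w).length := by
        rw [List.length_cons, List.length_nil]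
        omega
      rwa [h3] at h2

private theorem cl_copT (h1 : St_shLen) (b : SignType) (w : Word) : ∀ (a : SignType) (p : Word),
    p ≠ [] → cop b a p w - II a (p ++ w) b ⊗ₜ[ℝ] wd [] ∈ clT (p.length + w.length) := by
  induction w with
  | nil =>
    intro a p hp
    rw [cop, List.append_nil, sub_self]
    exact zero_mem _
  | cons c w ih =>
    intro a p hp
    rw [cop]
    have h2 := ih a (p ++ [c]) (by simp)
    have h3 : (p ++ [c]).length + w.length = p.length + (c :: w).length := by
      rw [List.length_append, List.length_cons, List.length_cons, List.length_nil]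
      omega
    have h4 := cl_stepT h1 (cl_II h1 a c p) (List.length_pos_iff.2 hp) c (cl_copU h1 b w c [])
    have h5 : p.length + (([] : Word).length + w.length) + 1 = p.length + (c :: w).length := by
      rw [List.length_cons, List.length_nil]
      omega
    rw [h3, List.append_assoc, List.singleton_append] at h2
    rw [h5] at h4
    have h6 := add_mem h2 h4
    convert h6 using 1
    abel

private theorem cl_copN (h1 : St_shLen) (b : SignType) (w : Word) : ∀ (a : SignType), w ≠ [] →
    cop b a [] w - II a w b ⊗ₜ[ℝ] wd [] - wd [] ⊗ₜ[ℝ] wd w ∈ clT w.length := by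
  induction w with
  | nil =>
    intro a h
    exact absurd rfl h
  | cons c w ih =>
    intro a _
    rw [cop, List.nil_append, cl_II_nil]
    have h2 := cl_copT h1 b w a [c] (List.cons_ne_nil _ _)
    have h3 : [c].length + w.length = (c :: w).length := by
      rw [List.length_cons, List.length_cons, List.length_nil]
      omega
    rw [h3, List.singleton_append] at h2
    have h4 : step (wd []) c (cop b c [] w) - wd [] ⊗ₜ[ℝ] wd (c :: w) ∈ clT (c :: w).length := by
      rcases eq_or_ne w [] with rfl | hw
      · rw [cop, cl_II_nil, cl_step, cl_mul_one, sub_self]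
        exact zero_mem _
      · have h5 := cl_stepT' c (ih c hw)
        rw [map_sub, map_sub, cl_step, cl_step, cl_mul_one, cl_mul_one] at h5
        have h6 : II c w b ⊗ₜ[ℝ] wd [c] ∈ clT (w.length + 1) :=
          cl_memT (cl_II h1 c b w) (List.length_pos_iff.2 hw) [c] (List.cons_ne_nil _ _) rfl
        have h7 := add_mem h5 h6
        rw [List.length_cons]
        convert h7 using 1
        abel
    have h5 := add_mem h2 h4
    convert h5 using 1
    abel

theorem thm_coLen (h1 : St_shLen) : St_coLen := by
  have hc : ∀ w : Word, coact (wd w) = cop 1 0 [] w := by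
    intro w
    unfold coact wd
    rw [Finsupp.linearCombination_single, one_smul]
  refine ⟨?_, fun w hw => ?_⟩
  · rw [hc, cop, cl_II_nil]
  · rw [hc]
    have h2 := cl_copN h1 1 w 0 hw
    rwa [cl_II_zero_one] at h2

end Pool.MTV
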