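import Pool.Agent.MTV.StA2

/-!
# MTV: cuts of general integrals
-/

set_option autoImplicit false

open scoped TensorProduct

namespace Pool.MTV

theorem CompI_tensor (h1 : St_deriv) (h3 : St_toD) (h4 : St_antiD) (c : V →ₗ[ℝ] ℝ)
    (hc : InfChar c) (a b : SignType) (t : V ⊗[ℝ] V) :
    D c (mulT (TensorProduct.map (toL a ∘ₗ anti) (toL b) t)) =
      mulT (TensorProduct.map (toL a ∘ₗ anti) (toL b)
        (TensorProduct.map (DL c a 0) LinearMap.id t +
          TensorProduct.map LinearMap.id (DL c 0 b) t)) := by
  induction t using TensorProduct.induction_on with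
  | zero => simp only [map_zero, add_zero]
  | tmul y z =>
    simp only [TensorProduct.map_tmul, map_add, LinearMap.id_apply, LinearMap.comp_apply]
    unfold mulT
    simp only [TensorProduct.lift.tmul]
    have e := h1 c hc 0 1 (toL a (anti y)) (toL b z)
    have e1 := h3 c hc a (anti y)
    have e2 := h3 c hc b z
    have e3 := h4 c hc a y
    unfold D at e1 e2
    unfold D
    rw [e, e1, e2, e3]
  | add x y hx hy =>
    simp only [map_add] at hx hy ⊢
    rw [hx, hy]
    abel

theorem thm_compI (h1 : St_deriv) (h2 : St_decD) (h3 : St_toD) (h4 : St_antiD)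
    (h5 : St_ILdec) : St_compI := by
  intro c hc a b x
  rw [h5 a b x, h5 a b (DL c a b x), h2 c hc a b x]
  exact CompI_tensor h1 h3 h4 c hc a b (decL x)

end Pool.MTV
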