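import Pool.Agent.MTV.StA2
import Pool.Agent.MTV.LibA

/-!
# The coaction commutes with the derivation D c
-/

open scoped TensorProduct

namespace Pool.MTV

/-- The derivation and the operator step. -/
private theorem CopD_step (h1 : St_deriv) (c : V →ₗ[ℝ] ℝ) (hc : InfChar c) (y : V) (e : SignType)
    (t : V ⊗[ℝ] V) :
    TensorProduct.map (D c) LinearMap.id (step y e t) =
      step (D c y) e t + step y e (TensorProduct.map (D c) LinearMap.id t) := by
  have key : (TensorProduct.map (D c) LinearMap.id) ∘ₗ (step y e) =
      step (D c y) e + (step y e) ∘ₗ (TensorProduct.map (D c) LinearMap.id) := by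
    apply lib_text
    intro u v
    simp only [LinearMap.coe_comp, Function.comp_apply, LinearMap.add_apply, lib_step,
      TensorProduct.map_tmul, LinearMap.id_coe, id_eq]
    rw [lib_D_eq, h1 c hc 0 1 y (wd u), TensorProduct.add_tmul]
  exact LinearMap.congr_fun key t

/-- The right factors of pt e w are words shorter than w. -/
private theorem CopD_pt_mem (e : SignType) (w : Word) :
    pt e w ∈ Submodule.span ℝ {t : V ⊗[ℝ] V | ∃ (u : V) (v : Word), v.length < w.length ∧
      t = u ⊗ₜ[ℝ] wd v} := by
  induction w with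
  | nil => rw [lib_pt_nil]; exact Submodule.zero_mem _
  | cons x w ih =>
    rw [lib_pt_cons]
    apply Submodule.add_mem
    · split_ifs with h
      · exact Submodule.subset_span ⟨wd [], w, by simp, rfl⟩
      · exact Submodule.zero_mem _
    · have hle : Submodule.span ℝ {t : V ⊗[ℝ] V | ∃ (u : V) (v : Word), v.length < w.length ∧
          t = u ⊗ₜ[ℝ] wd v} ≤ Submodule.comap (TensorProduct.map (pre x) LinearMap.id)
          (Submodule.span ℝ {t : V ⊗[ℝ] V | ∃ (u : V) (v : Word), v.length < (x :: w).length ∧
            t = u ⊗ₜ[ℝ] wd v}) := by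
        rw [Submodule.span_le]
        rintro t ⟨u, v, hv, rfl⟩
        refine Submodule.subset_span ⟨pre x u, v, ?_, ?_⟩
        · simp only [List.length_cons]; omega
        · simp
      exact hle ih

/-- The general statement. -/
private theorem CopD_gen (h1 : St_deriv) (h2 : St_ptD) (h3 : St_compI) (h4 : St_copU)
    (c : V →ₗ[ℝ] ℝ) (hc : InfChar c) (n : ℕ) :
    ∀ w : Word, w.length ≤ n → ∀ a b : SignType,
      TensorProduct.map (D c) LinearMap.id (copL b a (wd w)) = copL b a (DL c a b (wd w)) := by
  induction n with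
  | zero =>
    intro w hw a b
    have hw0 : w = [] := List.length_eq_zero_iff.1 (Nat.le_zero.1 hw)
    subst hw0
    rw [h4 a b (wd []), h4 a b (DL c a b (wd []))]
    simp only [TensorProduct.map_tmul, LinearMap.id_coe, id_eq, lib_ptL, lib_pt_nil,
      map_zero, Finset.sum_const_zero, add_zero, lib_DL, lib_Dw_nil, lib_IL, lib_II_nil]
    rw [lib_D]
    simp
  | succ n ih =>
    intro w hw a b
    rw [h4 a b (wd w), h4 a b (DL c a b (wd w)), map_add, TensorProduct.map_tmul,
      h3 c hc a b (wd w), LinearMap.id_coe, id_eq, map_sum]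
    congr 1
    apply Finset.sum_congr rfl
    intro e _
    rw [h2 c hc a b e (wd w), map_add, lib_ptL]
    have hle : Submodule.span ℝ {t : V ⊗[ℝ] V | ∃ (u : V) (v : Word), v.length < w.length ∧
          t = u ⊗ₜ[ℝ] wd v} ≤ LinearMap.eqLocus
          ((TensorProduct.map (D c) LinearMap.id) ∘ₗ (GG a b e))
            ((GG a b e) ∘ₗ (TensorProduct.map (DL c a e) LinearMap.id) +
              (GG a b e) ∘ₗ (TensorProduct.map LinearMap.id (DL c e b))) := by
      rw [Submodule.span_le]
      rintro t ⟨u, v, hv, rfl⟩
      rw [SetLike.mem_coe, LinearMap.mem_eqLocus]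
      simp only [LinearMap.add_apply, LinearMap.coe_comp, Function.comp_apply,
        TensorProduct.map_tmul, LinearMap.id_coe, id_eq, lib_GG]
      rw [CopD_step h1 c hc, h3 c hc a e u, ih v (by omega) e b]
    have hmem := hle (CopD_pt_mem e w)
    rw [LinearMap.mem_eqLocus] at hmem
    simpa only [LinearMap.add_apply, LinearMap.coe_comp, Function.comp_apply] using hmem

/-- The coaction commutes with D c. -/
theorem thm_copD (h1 : St_deriv) (h2 : St_ptD) (h3 : St_compI) (h4 : St_copU) : St_copD := by
  intro c hc x
  have key : (TensorProduct.map (D c) LinearMap.id) ∘ₗ coact = coact ∘ₗ (D c) := by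
    apply lib_ext
    intro w
    have h := CopD_gen h1 h2 h3 h4 c hc w.length w le_rfl 0 1
    exact h
  exact LinearMap.congr_fun key x

end Pool.MTV
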