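import Pool.Agent.MTV.StA2
import Pool.Agent.MTV.LibA

/-!
# The first chosen letter in the coaction
-/

open scoped TensorProduct

namespace Pool.MTV

/-- Put a word in front. -/
private noncomputable def CopU_pw (p : Word) : V →ₗ[ℝ] V :=
  Finsupp.lmapDomain ℝ ℝ (fun w : Word => p ++ w)

private theorem CopU_pw_wd (p w : Word) : CopU_pw p (wd w) = wd (p ++ w) := by
  simp [CopU_pw, wd, Finsupp.lmapDomain_apply, Finsupp.mapDomain_single]

private theorem CopU_pw_nil : CopU_pw [] = LinearMap.id := by
  apply lib_ext
  intro w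
  rw [CopU_pw_wd]
  simp

private theorem CopU_pw_comp (p : Word) (c : SignType) :
    CopU_pw p ∘ₗ pre c = CopU_pw (p ++ [c]) := by
  apply lib_ext
  intro w
  rw [LinearMap.comp_apply, lib_pre, CopU_pw_wd, CopU_pw_wd]
  simp

private theorem CopU_map_map (p : Word) (c : SignType) (t : V ⊗[ℝ] V) :
    TensorProduct.map (CopU_pw p) LinearMap.id (TensorProduct.map (pre c) LinearMap.id t) =
      TensorProduct.map (CopU_pw (p ++ [c])) LinearMap.id t := by
  rw [← CopU_pw_comp]
  rw [← LinearMap.comp_apply, ← TensorProduct.map_comp, LinearMap.comp_id]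

private theorem CopU_gen (b a : SignType) (w : Word) : ∀ p : Word,
    cop b a p w = IL a b (wd (p ++ w)) ⊗ₜ[ℝ] wd [] +
      ∑ e : SignType, GG a b e (TensorProduct.map (CopU_pw p) LinearMap.id (pt e w)) := by
  induction w with
  | nil =>
    intro p
    simp
  | cons c w ih =>
    intro p
    rw [lib_cop_cons, ih (p ++ [c])]
    have e1 : ∀ e : SignType,
        GG a b e (TensorProduct.map (CopU_pw p) LinearMap.id (pt e (c :: w))) =
          (if c = e then step (II a p c) c (cop b c [] w) else 0) +
          GG a b e (TensorProduct.map (CopU_pw (p ++ [c])) LinearMap.id (pt e w)) := by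
      intro e
      rw [lib_pt_cons, map_add, map_add, CopU_map_map]
      congr 1
      by_cases h : c = e
      · subst h
        rw [if_pos rfl, if_pos rfl, TensorProduct.map_tmul, CopU_pw_wd, List.append_nil, lib_GG,
          lib_IL, LinearMap.id_apply, lib_copL]
      · rw [if_neg h, if_neg h, map_zero, map_zero]
    rw [Finset.sum_congr rfl (fun e _ => e1 e), Finset.sum_add_distrib]
    rw [Finset.sum_ite_eq, if_pos (Finset.mem_univ c)]
    rw [List.append_assoc, List.singleton_append]
    abel

theorem thm_copU : St_copU := by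
  intro a b x
  refine lib_ext' (f := copL b a)
    (g := (TensorProduct.mk ℝ V V).flip (wd []) ∘ₗ IL a b + ∑ e : SignType, GG a b e ∘ₗ ptL e)
    ?_ x |>.trans ?_
  · intro w
    have h := CopU_gen b a w []
    rw [CopU_pw_nil] at h
    rw [lib_copL, h]
    simp
  · simp

end Pool.MTV
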