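import Pool.Agent.MTV.StA2

/-!
# Cuts and splittings (sections 4 of the blueprint): St_decD and St_ptD
-/

open scoped TensorProduct

namespace Pool.MTV

section DecD

private lemma DecD_pre (a : SignType) (w : Word) : pre a (wd w) = wd (a :: w) := by
  simp [pre, wd, Finsupp.lmapDomain_apply, Finsupp.mapDomain_single]

private lemma DecD_lc {M : Type*} [AddCommMonoid M] [Module ℝ M] (f : Word → M) (w : Word) :
    Finsupp.linearCombination ℝ f (wd w) = f w := by
  simp [wd, Finsupp.linearCombination_single]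

private lemma DecD_ext {M : Type*} [AddCommMonoid M] [Module ℝ M] {f g : V →ₗ[ℝ] M}
    (h : ∀ w : Word, f (wd w) = g (wd w)) : f = g := by
  refine Finsupp.lhom_ext' fun w => LinearMap.ext_ring ?_
  simpa [wd] using h w

private lemma DecD_ext_apply {M : Type*} [AddCommMonoid M] [Module ℝ M] {f g : V →ₗ[ℝ] M}
    (h : ∀ w : Word, f (wd w) = g (wd w)) (x : V) : f x = g x := by
  rw [DecD_ext h]

/-- Cuts starting at the first letter, with a word p already in front of the block. -/
private noncomputable def DecD_P (c : V →ₗ[ℝ] ℝ) (a b : SignType) (p w : Word) : V :=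
  ∑ i ∈ Finset.range w.length,
    (ev c (hd b (w.drop (i + 1))) (p ++ w.take (i + 1)) - ev c a (p ++ w.take (i + 1))) •
      wd (w.drop (i + 1))

private noncomputable def DecD_PL (c : V →ₗ[ℝ] ℝ) (a b : SignType) (p : Word) : V →ₗ[ℝ] V :=
  Finsupp.linearCombination ℝ (DecD_P c a b p)

private noncomputable def DecD_H (f : SignType → ℝ) (e : SignType) : V →ₗ[ℝ] V :=
  Finsupp.linearCombination ℝ (fun u : Word => f (hd e u) • wd u)

private lemma DecD_P_nil (c : V →ₗ[ℝ] ℝ) (a b : SignType) (p : Word) :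
    DecD_P c a b p [] = 0 := by
  simp [DecD_P]

private lemma DecD_P_cons (c : V →ₗ[ℝ] ℝ) (a b : SignType) (p : Word) (x : SignType) (w : Word) :
    DecD_P c a b p (x :: w) =
      (ev c (hd b w) (p ++ [x]) - ev c a (p ++ [x])) • wd w + DecD_P c a b (p ++ [x]) w := by
  unfold DecD_P
  rw [List.length_cons, Finset.sum_range_succ', add_comm]
  refine congrArg₂ _ ?_ (Finset.sum_congr rfl fun i _ => ?_)
  · simp
  · simp [List.append_assoc]

private lemma DecD_Pr (c : V →ₗ[ℝ] ℝ) (a b : SignType) (w : Word) :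
    Pr c a b w = DecD_P c a b [] w := by
  simp [Pr, DecD_P]

/-- The recursion for the operator of the cuts at the start. -/
private lemma DecD_PL_pre (c : V →ₗ[ℝ] ℝ) (a b : SignType) (p : Word) (x : SignType) :
    (DecD_PL c a b p) ∘ₗ pre x =
      DecD_H (fun y => ev c y (p ++ [x]) - ev c a (p ++ [x])) b + DecD_PL c a b (p ++ [x]) := by
  refine DecD_ext fun w => ?_
  simp only [LinearMap.comp_apply, LinearMap.add_apply, DecD_pre, DecD_PL, DecD_H, DecD_lc,
    DecD_P_cons]

private lemma DecD_DL_wd (c : V →ₗ[ℝ] ℝ) (a b : SignType) (w : Word) :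
    DL c a b (wd w) = Dw c b a w := by
  simp [DL, DecD_lc]

private lemma DecD_DL_pre (c : V →ₗ[ℝ] ℝ) (a b : SignType) (x : SignType) :
    (DL c a b) ∘ₗ pre x = (DecD_PL c a b []) ∘ₗ pre x + (pre x) ∘ₗ (DL c x b) := by
  refine DecD_ext fun w => ?_
  simp only [LinearMap.comp_apply, LinearMap.add_apply, DecD_pre, DecD_DL_wd, DecD_PL, DecD_lc,
    Dw, DecD_Pr]

/-! ### deconcatenation -/

private lemma DecD_decL_wd (w : Word) : decL (wd w) = dec w := by
  simp [decL, DecD_lc]

private lemma DecD_dec_nil : dec [] = wd [] ⊗ₜ[ℝ] wd [] := by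
  simp [dec]

private lemma DecD_dec_cons (x : SignType) (w : Word) :
    dec (x :: w) = wd [] ⊗ₜ[ℝ] wd (x :: w) +
      TensorProduct.map (pre x) LinearMap.id (dec w) := by
  unfold dec
  rw [List.length_cons, Finset.sum_range_succ', add_comm, map_sum]
  congr 1
  refine Finset.sum_congr rfl fun i _ => ?_
  simp [DecD_pre]

private lemma DecD_decL_pre (x : SignType) (y : V) :
    decL (pre x y) = wd [] ⊗ₜ[ℝ] pre x y + TensorProduct.map (pre x) LinearMap.id (decL y) := by
  have h : decL ∘ₗ pre x = (TensorProduct.mk ℝ V V (wd [])) ∘ₗ pre x +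
      (TensorProduct.map (pre x) LinearMap.id) ∘ₗ decL := by
    refine DecD_ext fun w => ?_
    simp only [LinearMap.comp_apply, LinearMap.add_apply, DecD_pre, DecD_decL_wd, DecD_dec_cons,
      TensorProduct.mk_apply]
  exact congrArg (fun g : V →ₗ[ℝ] V ⊗[ℝ] V => g y) h

private lemma DecD_H_pre (f : SignType → ℝ) (e x : SignType) :
    (DecD_H f e) ∘ₗ pre x = f x • pre x := by
  refine DecD_ext fun w => ?_
  simp only [LinearMap.comp_apply, LinearMap.smul_apply, DecD_pre, DecD_H, DecD_lc, hd]

private lemma DecD_H_nil (f : SignType → ℝ) (e : SignType) :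
    DecD_H f e (wd []) = f e • wd [] := by
  simp only [DecD_H, DecD_lc, hd]

private lemma DecD_map_pre (g : V →ₗ[ℝ] V) (x : SignType) (t : V ⊗[ℝ] V) :
    TensorProduct.map g LinearMap.id (TensorProduct.map (pre x) LinearMap.id t) =
      TensorProduct.map (g ∘ₗ pre x) LinearMap.id t := by
  rw [← LinearMap.comp_apply, ← TensorProduct.map_comp]
  rfl

private lemma DecD_H_dec (f : SignType → ℝ) (b : SignType) (w : Word) :
    TensorProduct.map (DecD_H f 0) LinearMap.id (dec w) =
      f (hd b w) • dec w - (f (hd b w) - f 0) • (wd [] ⊗ₜ[ℝ] wd w) := by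
  cases w with
  | nil =>
    rw [DecD_dec_nil, TensorProduct.map_tmul, DecD_H_nil, LinearMap.id_apply,
      ← TensorProduct.smul_tmul', sub_smul (f (hd b [])) (f 0) (wd [] ⊗ₜ[ℝ] wd [])]
    abel
  | cons x w =>
    rw [DecD_dec_cons, map_add, TensorProduct.map_tmul, DecD_H_nil, DecD_map_pre, DecD_H_pre,
      TensorProduct.map_smul_left, LinearMap.smul_apply, LinearMap.id_apply,
      sub_smul (f (hd b (x :: w))) (f 0) (wd [] ⊗ₜ[ℝ] wd (x :: w)), smul_add,
      ← TensorProduct.smul_tmul']
    simp only [hd]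
    abel

private lemma DecD_PL_wd (c : V →ₗ[ℝ] ℝ) (a b : SignType) (p w : Word) :
    DecD_PL c a b p (wd w) = DecD_P c a b p w := by
  simp only [DecD_PL, DecD_lc]

private lemma DecD_ev_zero (c : V →ₗ[ℝ] ℝ) (p : Word) (hp : p ≠ []) : ev c 0 p = 0 := by
  simp [ev, toPt, hp]

private lemma DecD_dec_P (c : V →ₗ[ℝ] ℝ) (a b : SignType) (w : Word) :
    ∀ p : Word, decL (DecD_P c a b p w) =
      TensorProduct.map (DecD_PL c a 0 p) LinearMap.id (dec w) +
        wd [] ⊗ₜ[ℝ] DecD_P c 0 b p w := by
  induction w with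
  | nil =>
    intro p
    rw [DecD_P_nil, DecD_P_nil, DecD_dec_nil, TensorProduct.map_tmul, DecD_PL_wd, DecD_P_nil]
    simp
  | cons x w ih =>
    intro p
    rw [DecD_P_cons, map_add, map_smul, DecD_decL_wd, ih, DecD_P_cons, DecD_dec_cons, map_add,
      TensorProduct.map_tmul, DecD_PL_wd, DecD_P_nil, TensorProduct.zero_tmul, zero_add,
      DecD_map_pre, DecD_PL_pre, TensorProduct.map_add_left, LinearMap.add_apply,
      DecD_H_dec _ b, DecD_ev_zero c (p ++ [x]) (by simp), TensorProduct.tmul_add,
      TensorProduct.tmul_smul]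
    simp only [sub_zero, zero_sub]
    have : (ev c (hd b w) (p ++ [x]) - ev c a (p ++ [x]) - -ev c a (p ++ [x])) =
      ev c (hd b w) (p ++ [x]) := by ring
    rw [this]
    abel

private lemma DecD_main (c : V →ₗ[ℝ] ℝ) (b : SignType) (w : Word) : ∀ a : SignType,
    decL (Dw c b a w) =
      TensorProduct.map (DL c a 0) LinearMap.id (dec w) +
        TensorProduct.map LinearMap.id (DL c 0 b) (dec w) := by
  induction w with
  | nil =>
    intro a
    rw [DecD_dec_nil, TensorProduct.map_tmul, TensorProduct.map_tmul, DecD_DL_wd, DecD_DL_wd]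
    simp [Dw]
  | cons x w ih =>
    intro a
    have h1 : Dw c b a (x :: w) = Pr c a b (x :: w) + pre x (Dw c b x w) := rfl
    have h2 : Dw c b 0 (x :: w) = Pr c 0 b (x :: w) + pre x (Dw c b x w) := rfl
    have h3 : TensorProduct.map LinearMap.id (DL c 0 b)
        (TensorProduct.map (pre x) LinearMap.id (dec w)) =
        TensorProduct.map (pre x) LinearMap.id
          (TensorProduct.map LinearMap.id (DL c 0 b) (dec w)) := by
      rw [← LinearMap.comp_apply, ← LinearMap.comp_apply, ← TensorProduct.map_comp,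
        ← TensorProduct.map_comp]
      rfl
    have h4 : TensorProduct.map ((pre x) ∘ₗ (DL c x 0)) LinearMap.id (dec w) =
        TensorProduct.map (pre x) LinearMap.id
          (TensorProduct.map (DL c x 0) LinearMap.id (dec w)) := by
      rw [← LinearMap.comp_apply, ← TensorProduct.map_comp]
      rfl
    have h5 : TensorProduct.map (DecD_PL c a 0 []) LinearMap.id (dec (x :: w)) =
        TensorProduct.map (DecD_PL c a 0 [] ∘ₗ pre x) LinearMap.id (dec w) := by
      rw [DecD_dec_cons, map_add, TensorProduct.map_tmul, DecD_PL_wd, DecD_P_nil,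
        TensorProduct.zero_tmul, zero_add, DecD_map_pre]
    rw [h1, map_add, DecD_decL_pre, ih x, DecD_Pr, DecD_dec_P, h5]
    have h6 : Dw c 0 a [] = 0 := rfl
    have hR1 : TensorProduct.map (DL c a 0) LinearMap.id (dec (x :: w)) =
        TensorProduct.map (DecD_PL c a 0 [] ∘ₗ pre x) LinearMap.id (dec w) +
        TensorProduct.map (pre x) LinearMap.id
          (TensorProduct.map (DL c x 0) LinearMap.id (dec w)) := by
      rw [DecD_dec_cons, map_add, TensorProduct.map_tmul, DecD_DL_wd, h6,
        TensorProduct.zero_tmul, zero_add, DecD_map_pre, DecD_DL_pre, TensorProduct.map_add_left,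
        LinearMap.add_apply, h4]
    have hR2 : TensorProduct.map LinearMap.id (DL c 0 b) (dec (x :: w)) =
        wd [] ⊗ₜ[ℝ] DecD_P c 0 b [] (x :: w) + wd [] ⊗ₜ[ℝ] (pre x) (Dw c b x w) +
        TensorProduct.map (pre x) LinearMap.id
          (TensorProduct.map LinearMap.id (DL c 0 b) (dec w)) := by
      rw [DecD_dec_cons, map_add, TensorProduct.map_tmul, DecD_DL_wd, h2, DecD_Pr, h3,
        LinearMap.id_apply, TensorProduct.tmul_add]
    rw [hR1, hR2, map_add]
    abel

theorem thm_decD : St_decD := by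
  intro c _ a b x
  have h : decL ∘ₗ DL c a b = (TensorProduct.map (DL c a 0) LinearMap.id +
      TensorProduct.map LinearMap.id (DL c 0 b)) ∘ₗ decL := by
    refine DecD_ext fun w => ?_
    simp only [LinearMap.comp_apply, LinearMap.add_apply, DecD_DL_wd, DecD_decL_wd]
    exact DecD_main c b w a
  exact congrArg (fun g : V →ₗ[ℝ] V ⊗[ℝ] V => g x) h

/-! ### splittings at a letter -/

private lemma DecD_ptL_wd (e : SignType) (w : Word) : ptL e (wd w) = pt e w := by
  simp only [ptL, DecD_lc]

private lemma DecD_pt_cons (e x : SignType) (w : Word) :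
    pt e (x :: w) = (if x = e then wd [] ⊗ₜ[ℝ] wd w else 0) +
      TensorProduct.map (pre x) LinearMap.id (pt e w) := rfl

private lemma DecD_ptL_pre (e x : SignType) (y : V) :
    ptL e (pre x y) = (if x = e then wd [] ⊗ₜ[ℝ] y else 0) +
      TensorProduct.map (pre x) LinearMap.id (ptL e y) := by
  by_cases hx : x = e
  · have h : ptL e ∘ₗ pre x = TensorProduct.mk ℝ V V (wd []) +
        (TensorProduct.map (pre x) LinearMap.id) ∘ₗ ptL e := by
      refine DecD_ext fun w => ?_
      simp only [LinearMap.comp_apply, LinearMap.add_apply, DecD_pre, DecD_ptL_wd, DecD_pt_cons,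
        TensorProduct.mk_apply, if_pos hx]
    rw [if_pos hx]
    exact congrArg (fun g : V →ₗ[ℝ] V ⊗[ℝ] V => g y) h
  · have h : ptL e ∘ₗ pre x = (TensorProduct.map (pre x) LinearMap.id) ∘ₗ ptL e := by
      refine DecD_ext fun w => ?_
      simp only [LinearMap.comp_apply, DecD_pre, DecD_ptL_wd, DecD_pt_cons, if_neg hx, zero_add]
    rw [if_neg hx, zero_add]
    exact congrArg (fun g : V →ₗ[ℝ] V ⊗[ℝ] V => g y) h

private lemma DecD_H_pt (f : SignType → ℝ) (e b : SignType) (w : Word) :
    TensorProduct.map (DecD_H f e) LinearMap.id (pt e w) = f (hd b w) • pt e w := by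
  cases w with
  | nil => simp [pt]
  | cons x w =>
    rw [DecD_pt_cons, map_add, DecD_map_pre, DecD_H_pre, TensorProduct.map_smul_left,
      LinearMap.smul_apply, smul_add]
    congr 1
    by_cases hx : x = e
    · rw [if_pos hx, TensorProduct.map_tmul, DecD_H_nil, LinearMap.id_apply,
        ← TensorProduct.smul_tmul', hx]
      rfl
    · rw [if_neg hx, map_zero, smul_zero]

private lemma DecD_pt_P (c : V →ₗ[ℝ] ℝ) (a b e : SignType) (w : Word) :
    ∀ p : Word, ptL e (DecD_P c a b p w) =
      TensorProduct.map (DecD_PL c a e p) LinearMap.id (pt e w) := by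
  induction w with
  | nil =>
    intro p
    rw [DecD_P_nil]
    simp [pt]
  | cons x w ih =>
    intro p
    have h0 : TensorProduct.map (DecD_PL c a e p) LinearMap.id
        (if x = e then wd [] ⊗ₜ[ℝ] wd w else (0 : V ⊗[ℝ] V)) = 0 := by
      split_ifs
      · rw [TensorProduct.map_tmul, DecD_PL_wd, DecD_P_nil, TensorProduct.zero_tmul]
      · rw [map_zero]
    rw [DecD_P_cons, map_add, map_smul, DecD_ptL_wd, ih, DecD_pt_cons, map_add, h0, zero_add,
      DecD_map_pre, DecD_PL_pre, TensorProduct.map_add_left, LinearMap.add_apply,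
      DecD_H_pt _ e b]

private lemma DecD_ptmain (c : V →ₗ[ℝ] ℝ) (b e : SignType) (w : Word) : ∀ a : SignType,
    ptL e (Dw c b a w) =
      TensorProduct.map (DL c a e) LinearMap.id (pt e w) +
        TensorProduct.map LinearMap.id (DL c e b) (pt e w) := by
  induction w with
  | nil =>
    intro a
    simp [pt, Dw]
  | cons x w ih =>
    intro a
    have h1 : Dw c b a (x :: w) = Pr c a b (x :: w) + pre x (Dw c b x w) := rfl
    have h3 : TensorProduct.map LinearMap.id (DL c e b)
        (TensorProduct.map (pre x) LinearMap.id (pt e w)) =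
        TensorProduct.map (pre x) LinearMap.id
          (TensorProduct.map LinearMap.id (DL c e b) (pt e w)) := by
      rw [← LinearMap.comp_apply, ← LinearMap.comp_apply, ← TensorProduct.map_comp,
        ← TensorProduct.map_comp]
      rfl
    have h4 : TensorProduct.map ((pre x) ∘ₗ (DL c x e)) LinearMap.id (pt e w) =
        TensorProduct.map (pre x) LinearMap.id
          (TensorProduct.map (DL c x e) LinearMap.id (pt e w)) := by
      rw [← LinearMap.comp_apply, ← TensorProduct.map_comp]
      rfl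
    have h5 : TensorProduct.map (DecD_PL c a e []) LinearMap.id (pt e (x :: w)) =
        TensorProduct.map (DecD_PL c a e [] ∘ₗ pre x) LinearMap.id (pt e w) := by
      rw [DecD_pt_cons, map_add, DecD_map_pre]
      split_ifs
      · rw [TensorProduct.map_tmul, DecD_PL_wd, DecD_P_nil, TensorProduct.zero_tmul, zero_add]
      · rw [map_zero, zero_add]
    have h6 : TensorProduct.map (DL c a e) LinearMap.id
        (if x = e then wd [] ⊗ₜ[ℝ] wd w else (0 : V ⊗[ℝ] V)) = 0 := by
      split_ifs
      · rw [TensorProduct.map_tmul, DecD_DL_wd]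
        simp [Dw]
      · rw [map_zero]
    have h7 : TensorProduct.map LinearMap.id (DL c e b)
        (if x = e then wd [] ⊗ₜ[ℝ] wd w else (0 : V ⊗[ℝ] V)) =
        (if x = e then wd [] ⊗ₜ[ℝ] Dw c b x w else (0 : V ⊗[ℝ] V)) := by
      split_ifs with hx
      · rw [TensorProduct.map_tmul, DecD_DL_wd, LinearMap.id_apply, hx]
      · rw [map_zero]
    rw [h1, map_add, DecD_ptL_pre, ih x, DecD_Pr, DecD_pt_P, h5]
    have hR1 : TensorProduct.map (DL c a e) LinearMap.id (pt e (x :: w)) =
        TensorProduct.map (DecD_PL c a e [] ∘ₗ pre x) LinearMap.id (pt e w) +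
        TensorProduct.map (pre x) LinearMap.id
          (TensorProduct.map (DL c x e) LinearMap.id (pt e w)) := by
      rw [DecD_pt_cons, map_add, h6, zero_add, DecD_map_pre, DecD_DL_pre,
        TensorProduct.map_add_left, LinearMap.add_apply, h4]
    have hR2 : TensorProduct.map LinearMap.id (DL c e b) (pt e (x :: w)) =
        (if x = e then wd [] ⊗ₜ[ℝ] Dw c b x w else (0 : V ⊗[ℝ] V)) +
        TensorProduct.map (pre x) LinearMap.id
          (TensorProduct.map LinearMap.id (DL c e b) (pt e w)) := by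
      rw [DecD_pt_cons, map_add, h7, h3]
    rw [hR1, hR2, map_add]
    abel

theorem thm_ptD : St_ptD := by
  intro c _ a b e x
  have h : ptL e ∘ₗ DL c a b = (TensorProduct.map (DL c a e) LinearMap.id +
      TensorProduct.map LinearMap.id (DL c e b)) ∘ₗ ptL e := by
    refine DecD_ext fun w => ?_
    simp only [LinearMap.comp_apply, LinearMap.add_apply, DecD_DL_wd, DecD_ptL_wd]
    exact DecD_ptmain c b e w a
  exact congrArg (fun g : V →ₗ[ℝ] V ⊗[ℝ] V => g x) h

end DecD

end Pool.MTV
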