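import Pool.Agent.MTV.StA2

/-!
# The cuts are derivations of the shuffle product
-/

open scoped TensorProduct

namespace Pool.MTV

/-- Remove the first letter if it is z. -/
private noncomputable def Der_del (z : SignType) : V →ₗ[ℝ] V :=
  Finsupp.linearCombination ℝ (fun w : Word =>
    match w with
    | [] => (0 : V)
    | y :: w' => if y = z then wd w' else 0)

private theorem Der_lc (f : Word → V) (w : Word) :
    (Finsupp.linearCombination ℝ f) (wd w) = f w := by
  unfold wd
  rw [Finsupp.linearCombination_single, one_smul]

private theorem Der_lcR (f : Word → ℝ) (w : Word) :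
    (Finsupp.linearCombination ℝ f) (wd w) = f w := by
  unfold wd
  rw [Finsupp.linearCombination_single, one_smul]

private theorem Der_del_nil (z : SignType) : Der_del z (wd []) = 0 := Der_lc _ _

private theorem Der_del_cons (z y : SignType) (w : Word) :
    Der_del z (wd (y :: w)) = if y = z then wd w else 0 := Der_lc _ _

private theorem Der_pre_wd (a : SignType) (w : Word) : pre a (wd w) = wd (a :: w) := by
  unfold pre wd
  rw [Finsupp.lmapDomain_apply, Finsupp.mapDomain_single]

private theorem Der_lin {f g : V →ₗ[ℝ] V} (h : ∀ w : Word, f (wd w) = g (wd w)) (x : V) :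
    f x = g x := by
  have : f = g := by
    apply Finsupp.lhom_ext
    intro w r
    have e : (Finsupp.single w r : V) = r • wd w := by
      unfold wd
      rw [Finsupp.smul_single, smul_eq_mul, mul_one]
    rw [e, map_smul, map_smul, h]
  rw [this]

private theorem Der_linR {f g : V →ₗ[ℝ] ℝ} (h : ∀ w : Word, f (wd w) = g (wd w)) (x : V) :
    f x = g x := by
  have : f = g := by
    apply Finsupp.lhom_ext
    intro w r
    have e : (Finsupp.single w r : V) = r • wd w := by
      unfold wd
      rw [Finsupp.smul_single, smul_eq_mul, mul_one]
    rw [e, map_smul, map_smul, h]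
  rw [this]

/-- two bilinear maps which agree on words are equal -/
private theorem Der_bil {f g : V →ₗ[ℝ] V →ₗ[ℝ] V}
    (h : ∀ u v : Word, f (wd u) (wd v) = g (wd u) (wd v)) (x y : V) : f x y = g x y := by
  have h1 : ∀ v : Word, f.flip (wd v) x = g.flip (wd v) x := fun v =>
    Der_lin (f := f.flip (wd v)) (g := g.flip (wd v)) (fun u => h u v) x
  exact Der_lin (f := f x) (g := g x) h1 y

private theorem Der_del_pre (z a : SignType) (x : V) :
    Der_del z (pre a x) = if a = z then x else 0 := by
  by_cases h : a = z
  · rw [if_pos h]
    refine Der_lin (f := (Der_del z).comp (pre a)) (g := LinearMap.id) (fun w => ?_) x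
    rw [LinearMap.comp_apply, Der_pre_wd, Der_del_cons, if_pos h]
    rfl
  · rw [if_neg h]
    refine Der_lin (f := (Der_del z).comp (pre a)) (g := 0) (fun w => ?_) x
    rw [LinearMap.comp_apply, Der_pre_wd, Der_del_cons, if_neg h]
    rfl

private theorem Der_mul_wd (u v : Word) : mul (wd u) (wd v) = sh u v := by
  unfold mul wd
  rw [Finsupp.linearCombination_single, one_smul, Finsupp.linearCombination_single, one_smul]

private theorem Der_mul_nil (x : V) : mul (wd []) x = x := by
  refine Der_lin (f := mul (wd [])) (g := LinearMap.id) (fun w => ?_) x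
  rw [Der_mul_wd, sh]
  rfl

/-- del is a derivation -/
private theorem Der_del_mul (h1 : St_mulFirst) (h2 : St_mulComm) (z : SignType) (x y : V) :
    Der_del z (mul x y) = mul (Der_del z x) y + mul x (Der_del z y) := by
  refine Der_bil (f := mul.compr₂ (Der_del z))
    (g := mul.comp (Der_del z) + mul.compl₂ (Der_del z)) (fun u v => ?_) x y
  show Der_del z (mul (wd u) (wd v)) = mul (Der_del z (wd u)) (wd v) + mul (wd u) (Der_del z (wd v))
  cases u with
  | nil =>
    rw [Der_mul_nil, Der_del_nil, map_zero, LinearMap.zero_apply, zero_add, Der_mul_nil]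
  | cons a u =>
    cases v with
    | nil =>
      rw [h2 (wd (a :: u)) (wd []), Der_mul_nil, Der_del_nil, map_zero, add_zero,
        h2 _ (wd []), Der_mul_nil]
    | cons b v =>
      have e := h1 a b (wd u) v
      rw [Der_pre_wd] at e
      rw [e, map_add, Der_del_pre, Der_del_pre, Der_del_cons, Der_del_cons]
      congr 1
      · by_cases h : a = z
        · rw [if_pos h, if_pos h]
        · rw [if_neg h, if_neg h, map_zero, LinearMap.zero_apply]
      · by_cases h : b = z
        · rw [if_pos h, if_pos h]
        · rw [if_neg h, if_neg h, map_zero]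

private theorem Der_del_apply (z : SignType) (x : V) (w : Word) :
    Der_del z x w = x (z :: w) := by
  refine Der_linR (f := (Finsupp.lapply w).comp (Der_del z)) (g := Finsupp.lapply (z :: w))
    (fun u => ?_) x
  show Der_del z (wd u) w = wd u (z :: w)
  cases u with
  | nil =>
    rw [Der_del_nil]
    simp [wd]
  | cons y u =>
    rw [Der_del_cons]
    by_cases h : y = z
    · subst h
      simp only [if_true, wd, Finsupp.single_apply, List.cons.injEq, true_and]
    · rw [if_neg h]
      simp [wd, h]

private theorem Der_eps_apply (x : V) : eps x = x [] := by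
  refine Der_linR (f := eps) (g := Finsupp.lapply []) (fun u => ?_) x
  show eps (wd u) = wd u []
  unfold eps
  rw [Der_lcR]
  simp only [wd, Finsupp.single_apply]

private theorem Der_zero {x : V} (h0 : eps x = 0) (h : ∀ z, Der_del z x = 0) : x = 0 := by
  ext w
  cases w with
  | nil => rw [← Der_eps_apply, h0]; rfl
  | cons z w => rw [← Der_del_apply, h z]; rfl

private theorem Der_eps_pre (a : SignType) (x : V) : eps (pre a x) = 0 := by
  refine Der_linR (f := eps.comp (pre a)) (g := 0) (fun u => ?_) x
  rw [LinearMap.comp_apply, Der_pre_wd]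
  unfold eps
  rw [Der_lcR]
  simp

private theorem Der_eps_wd (u : Word) : eps (wd u) = if u = [] then 1 else 0 := by
  unfold eps
  rw [Der_lcR]

private theorem Der_toL_wd (a : SignType) (u : Word) : toL a (wd u) = toPt a u := Der_lc _ _

/-- the functional f_a -/
private noncomputable def Der_f (c : V →ₗ[ℝ] ℝ) (a : SignType) : V →ₗ[ℝ] ℝ := c.comp (toL a)

private theorem Der_f_wd (c : V →ₗ[ℝ] ℝ) (a : SignType) (u : Word) :
    Der_f c a (wd u) = ev c a u := by
  unfold Der_f ev
  rw [LinearMap.comp_apply, Der_toL_wd]

private theorem Der_f_nil (c : V →ₗ[ℝ] ℝ) (hc : InfChar c) (a : SignType) :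
    Der_f c a (wd []) = 0 := by
  rw [Der_f_wd]
  unfold ev toPt
  by_cases h : a = 0
  · rw [if_pos h, if_pos rfl, hc.one]
  · rw [if_neg h, List.map_nil, hc.one]

private theorem Der_f_inf (h3 : St_charTo) (c : V →ₗ[ℝ] ℝ) (hc : InfChar c) (a : SignType) :
    InfChar (Der_f c a) where
  one := Der_f_nil c hc a
  sh u v hu hv := h3 c hc a u v hu hv

private theorem Der_SL (c : V →ₗ[ℝ] ℝ) (hc : InfChar c) (a : SignType) (w : Word) :
    SL (Der_f c a) (wd w) =
      ∑ i ∈ Finset.range w.length, ev c a (w.take (i + 1)) • wd (w.drop (i + 1)) := by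
  unfold SL
  rw [Der_lc, Finset.sum_range_succ']
  rw [List.take_zero, Der_f_nil c hc a, zero_smul, add_zero]
  refine Finset.sum_congr rfl fun i _ => ?_
  rw [Der_f_wd]

private theorem Der_DL (c : V →ₗ[ℝ] ℝ) (a b : SignType) (w : Word) :
    DL c a b (wd w) = Dw c b a w := Der_lc _ _

/-- Dw + SL on a word -/
private theorem Der_sum (c : V →ₗ[ℝ] ℝ) (hc : InfChar c) (a b x : SignType) (w : Word) :
    DL c a b (wd (x :: w)) + SL (Der_f c a) (wd (x :: w)) =
      (∑ i ∈ Finset.range (x :: w).length,
        ev c (hd b ((x :: w).drop (i + 1))) ((x :: w).take (i + 1)) • wd ((x :: w).drop (i + 1))) +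
      pre x (Dw c b x w) := by
  rw [Der_DL, Der_SL c hc, Dw, Pr, add_right_comm, ← Finset.sum_add_distrib]
  congr 1
  refine Finset.sum_congr rfl fun i _ => ?_
  rw [← add_smul, sub_add_cancel]

private theorem Der_nil (c : V →ₗ[ℝ] ℝ) (hc : InfChar c) (a b : SignType) :
    DL c a b (wd []) + SL (Der_f c a) (wd []) = 0 := by
  rw [Der_DL, Der_SL c hc, Dw]
  simp

private theorem Der_indep (c : V →ₗ[ℝ] ℝ) (hc : InfChar c) (a a' b : SignType) (x : V) :
    DL c a b x + SL (Der_f c a) x = DL c a' b x + SL (Der_f c a') x := by
  refine Der_lin (f := DL c a b + SL (Der_f c a)) (g := DL c a' b + SL (Der_f c a'))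
    (fun w => ?_) x
  show DL c a b (wd w) + SL (Der_f c a) (wd w) = DL c a' b (wd w) + SL (Der_f c a') (wd w)
  cases w with
  | nil => rw [Der_nil c hc, Der_nil c hc]
  | cons x w => rw [Der_sum c hc, Der_sum c hc]

private theorem Der_epsE (c : V →ₗ[ℝ] ℝ) (hc : InfChar c) (a b : SignType) (x : V) :
    eps (DL c a b x + SL (Der_f c a) x) = Der_f c b x := by
  refine Der_linR (f := eps.comp (DL c a b + SL (Der_f c a))) (g := Der_f c b) (fun w => ?_) x
  show eps (DL c a b (wd w) + SL (Der_f c a) (wd w)) = Der_f c b (wd w)
  cases w with
  | nil => rw [Der_nil c hc, map_zero, Der_f_nil c hc]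
  | cons x w =>
    rw [Der_sum c hc, map_add, Der_eps_pre, add_zero, map_sum]
    rw [List.length_cons, Finset.sum_range_succ, Finset.sum_eq_zero, zero_add]
    · rw [map_smul, Der_eps_wd, Der_f_wd]
      have e1 : (x :: w).drop (w.length + 1) = [] := by simp
      have e2 : (x :: w).take (w.length + 1) = x :: w := by simp
      rw [e1, e2, if_pos rfl, hd, smul_eq_mul, mul_one]
    · intro i hi
      rw [Finset.mem_range] at hi
      rw [map_smul, Der_eps_wd, if_neg, smul_zero]
      intro h
      have := congrArg List.length h
      simp only [List.length_drop, List.length_cons, List.length_nil] at this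
      omega

/-- the cuts commute with del -/
private theorem Der_comm (c : V →ₗ[ℝ] ℝ) (z b : SignType) (x : V) :
    Der_del z (DL c z b x) = DL c z b (Der_del z x) := by
  refine Der_lin (f := (Der_del z).comp (DL c z b)) (g := (DL c z b).comp (Der_del z))
    (fun w => ?_) x
  show Der_del z (DL c z b (wd w)) = DL c z b (Der_del z (wd w))
  cases w with
  | nil => rw [Der_DL, Dw, map_zero, Der_del_nil, map_zero]
  | cons x w =>
    rw [Der_DL, Dw, map_add, Der_del_pre, Der_del_cons]
    have h0 : Der_del z (Pr c z b (x :: w)) = 0 := by
      unfold Pr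
      rw [map_sum]
      refine Finset.sum_eq_zero fun i _ => ?_
      rw [map_smul]
      cases h : (x :: w).drop (i + 1) with
      | nil => rw [Der_del_nil, smul_zero]
      | cons y v =>
        rw [Der_del_cons]
        by_cases hy : y = z
        · rw [hd, hy, sub_self, zero_smul]
        · rw [if_neg hy, smul_zero]
    rw [h0, zero_add]
    by_cases h : x = z
    · rw [if_pos h, if_pos h, Der_DL, h]
    · rw [if_neg h, if_neg h, map_zero]

/-- the defect -/
private noncomputable def Der_De (c : V →ₗ[ℝ] ℝ) (a b : SignType) (x y : V) : V :=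
  DL c a b (mul x y) - mul (DL c a b x) y - mul x (DL c a b y)

theorem thm_deriv (h1 : St_mulFirst) (h2 : St_mulComm) (h3 : St_charTo) (h4 : St_Sder) :
    St_deriv := by
  intro c hc a b x y
  -- independence of the first letter
  have hind : ∀ (a a' : SignType) (x y : V), Der_De c a b x y = Der_De c a' b x y := by
    intro a a' x y
    have e : ∀ x, DL c a b x = DL c a' b x + SL (Der_f c a') x - SL (Der_f c a) x := fun x => by
      rw [← Der_indep c hc a a' b x]
      abel
    unfold Der_De
    rw [e (mul x y), e x, e y, h4 (Der_f c a) (Der_f_inf h3 c hc a),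
      h4 (Der_f c a') (Der_f_inf h3 c hc a')]
    simp only [map_sub, map_add, LinearMap.sub_apply, LinearMap.add_apply]
    abel
  -- words
  have hw : ∀ (n : ℕ) (u v : Word), u.length + v.length = n → ∀ a, Der_De c a b (wd u) (wd v) = 0 := by
    intro n
    induction n using Nat.strong_induction_on with
    | _ n ih =>
      intro u v huv a
      apply Der_zero
      · -- the empty word
        have e : Der_De c a b (wd u) (wd v) =
            (DL c a b (mul (wd u) (wd v)) + SL (Der_f c a) (mul (wd u) (wd v))) -
            mul (DL c a b (wd u) + SL (Der_f c a) (wd u)) (wd v) -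
            mul (wd u) (DL c a b (wd v) + SL (Der_f c a) (wd v)) := by
          rw [h4 (Der_f c a) (Der_f_inf h3 c hc a)]
          unfold Der_De
          simp only [map_add, LinearMap.add_apply]
          abel
        have hm : ∀ x y : V, eps (mul x y) = eps x * eps y := by
          intro x y
          have hb : ∀ (u : Word) (y : V), eps (mul (wd u) y) = eps (wd u) * eps y := by
            intro u y
            refine Der_linR (f := eps.comp (mul (wd u))) (g := (eps (wd u)) • eps) (fun v => ?_) y
            show eps (mul (wd u) (wd v)) = eps (wd u) * eps (wd v)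
            cases u with
            | nil => rw [Der_mul_nil, Der_eps_wd [], if_pos rfl, one_mul]
            | cons s u =>
              cases v with
              | nil => rw [h2, Der_mul_nil, Der_eps_wd [], if_pos rfl, mul_one]
              | cons t v =>
                rw [Der_mul_wd, sh, map_add, Der_eps_pre, Der_eps_pre, Der_eps_wd, if_neg (by simp)]
                ring
          have := Der_linR (f := eps.comp (mul.flip y)) (g := (eps y) • eps) (fun u => by
            show eps (mul (wd u) y) = eps y * eps (wd u)
            rw [hb, mul_comm]) x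
          rw [mul_comm]
          exact this
        rw [e, map_sub, map_sub, Der_epsE c hc, hm, hm, Der_epsE c hc, Der_epsE c hc, Der_mul_wd]
        rw [Der_eps_wd, Der_eps_wd]
        by_cases hu : u = []
        · subst hu
          rw [if_pos rfl, Der_f_nil c hc, zero_mul, sub_zero, one_mul, ← Der_mul_wd, Der_mul_nil,
            sub_self]
        · by_cases hv : v = []
          · subst hv
            rw [if_pos rfl, Der_f_nil c hc, mul_zero, sub_zero, mul_one, ← Der_mul_wd, h2,
              Der_mul_nil, sub_self]
          · rw [if_neg hu, if_neg hv, mul_zero, zero_mul, sub_zero, sub_zero]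
            exact (Der_f_inf h3 c hc b).sh u v hu hv
      · intro z
        rw [hind a z]
        have e : Der_del z (Der_De c z b (wd u) (wd v)) =
            Der_De c z b (Der_del z (wd u)) (wd v) + Der_De c z b (wd u) (Der_del z (wd v)) := by
          unfold Der_De
          rw [map_sub, map_sub, Der_comm, Der_del_mul h1 h2, Der_del_mul h1 h2, Der_del_mul h1 h2,
            Der_comm, Der_comm]
          simp only [map_add]
          abel
        have z1 : ∀ y : V, Der_De c z b 0 y = 0 := by
          intro y
          unfold Der_De
          simp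
        have z2 : ∀ y : V, Der_De c z b y 0 = 0 := by
          intro y
          unfold Der_De
          simp
        rw [e]
        have p1 : Der_De c z b (Der_del z (wd u)) (wd v) = 0 := by
          cases u with
          | nil => rw [Der_del_nil, z1]
          | cons s u =>
            rw [Der_del_cons]
            by_cases hs : s = z
            · rw [if_pos hs]
              rw [List.length_cons] at huv
              exact ih (u.length + v.length) (by omega) u v rfl z
            · rw [if_neg hs, z1]
        have p2 : Der_De c z b (wd u) (Der_del z (wd v)) = 0 := by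
          cases v with
          | nil => rw [Der_del_nil, z2]
          | cons s v =>
            rw [Der_del_cons]
            by_cases hs : s = z
            · rw [if_pos hs]
              rw [List.length_cons] at huv
              exact ih (u.length + v.length) (by omega) u v rfl z
            · rw [if_neg hs, z2]
        rw [p1, p2, add_zero]
  refine Der_bil (f := mul.compr₂ (DL c a b))
    (g := mul.comp (DL c a b) + mul.compl₂ (DL c a b)) (fun u v => ?_) x y
  show DL c a b (mul (wd u) (wd v)) = mul (DL c a b (wd u)) (wd v) + mul (wd u) (DL c a b (wd v))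
  have h := hw _ u v rfl a
  unfold Der_De at h
  rw [sub_sub, sub_eq_zero] at h
  exact h

end Pool.MTV
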