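import Pool.Agent.MTV.StA2

/-!
# Homogeneous parts of the derivations D c
-/

open scoped TensorProduct

namespace Pool.MTV

private lemma Dhom_hom_wd (c : V →ₗ[ℝ] ℝ) (r : ℕ) (w : Word) :
    hom r c (wd w) = if w.length = r then c (wd w) else 0 := by
  simp only [hom, wd, Finsupp.linearCombination_single, one_smul]

private lemma Dhom_ev (c : V →ₗ[ℝ] ℝ) (r : ℕ) (x : SignType) (p : Word) :
    ev (hom r c) x p = if p.length = r then ev c x p else 0 := by
  unfold ev toPt
  by_cases hx : x = 0
  · rw [if_pos hx]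
    by_cases hp : p = []
    · rw [if_pos hp, hp, Dhom_hom_wd]
    · rw [if_neg hp]
      simp
  · rw [if_neg hx, Dhom_hom_wd, List.length_map]

private lemma Dhom_wd_mem (w : Word) (n : ℕ) (h : w.length = n) : wd w ∈ lenEq n := by
  unfold wd lenEq
  exact Finsupp.single_mem_supported ℝ 1 h

private lemma Dhom_pre_mem (x : SignType) (n : ℕ) (y : V) (h : y ∈ lenEq n) :
    pre x y ∈ lenEq (n + 1) := by
  have h1 : lenEq n ≤ (lenEq (n + 1)).comap (pre x) := by
    unfold lenEq
    rw [Finsupp.supported_eq_span_single, Submodule.span_le]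
    rintro _ ⟨w, hw, rfl⟩
    simp only [Submodule.comap_coe, Set.mem_preimage, SetLike.mem_coe]
    unfold pre
    rw [Finsupp.lmapDomain_apply, Finsupp.mapDomain_single]
    refine Finsupp.single_mem_supported ℝ 1 ?_
    have hw' : w.length = n := hw
    show (x :: w).length = n + 1
    simp [hw']
  exact h1 h

private lemma Dhom_Pr_mem (c : V →ₗ[ℝ] ℝ) (r : ℕ) (a b : SignType) (w : Word) :
    Pr (hom r c) a b w ∈ lenEq (w.length - r) := by
  unfold Pr
  refine Submodule.sum_mem _ fun i hi => ?_
  have hi' : i < w.length := Finset.mem_range.1 hi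
  have hlen : (w.take (i + 1)).length = i + 1 := by
    rw [List.length_take]; omega
  rw [Dhom_ev, Dhom_ev, hlen]
  by_cases hr : i + 1 = r
  · refine Submodule.smul_mem _ _ (Dhom_wd_mem _ _ ?_)
    rw [List.length_drop, hr]
  · rw [if_neg hr, if_neg hr, sub_zero, zero_smul]
    exact Submodule.zero_mem _

private lemma Dhom_Pr_zero (c : V →ₗ[ℝ] ℝ) (r : ℕ) (a b : SignType) (w : Word)
    (h : w.length < r) : Pr (hom r c) a b w = 0 := by
  unfold Pr
  refine Finset.sum_eq_zero fun i hi => ?_
  have hi' : i < w.length := Finset.mem_range.1 hi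
  have hlen : (w.take (i + 1)).length = i + 1 := by
    rw [List.length_take]; omega
  have hr : ¬ i + 1 = r := by omega
  rw [Dhom_ev, Dhom_ev, hlen, if_neg hr, if_neg hr, sub_zero, zero_smul]

private lemma Dhom_Dw (c : V →ₗ[ℝ] ℝ) (b : SignType) (r : ℕ) (w : Word) : ∀ a : SignType,
    (r ≤ w.length → Dw (hom r c) b a w ∈ lenEq (w.length - r)) ∧
      (w.length < r → Dw (hom r c) b a w = 0) := by
  induction w with
  | nil =>
      intro a
      refine ⟨fun _ => ?_, fun _ => ?_⟩
      · simp only [Dw]
        exact Submodule.zero_mem _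
      · simp only [Dw]
  | cons x w ih =>
      intro a
      refine ⟨fun h => ?_, fun h => ?_⟩
      · simp only [Dw]
        refine Submodule.add_mem _ (Dhom_Pr_mem c r a b (x :: w)) ?_
        by_cases hr : r ≤ w.length
        · have h1 := Dhom_pre_mem x _ _ ((ih x).1 hr)
          have h2 : (x :: w).length - r = w.length - r + 1 := by
            rw [List.length_cons]; omega
          rw [h2]
          exact h1
        · rw [(ih x).2 (by omega), map_zero]
          exact Submodule.zero_mem _
      · rw [List.length_cons] at h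
        simp only [Dw]
        rw [Dhom_Pr_zero c r a b (x :: w) (by rw [List.length_cons]; exact h),
          (ih x).2 (by omega), map_zero, add_zero]

/-- A cut with hom r c removes exactly r letters. -/
theorem thm_Dhom : St_Dhom := by
  intro c a b r n x hx
  have hx' : ∀ w ∈ x.support, w.length = n := fun w hw =>
    (Finsupp.mem_supported ℝ x).1 hx (Finset.mem_coe.2 hw)
  unfold DL
  rw [Finsupp.linearCombination_apply, Finsupp.sum]
  refine ⟨fun h => ?_, fun h => ?_⟩
  · refine Submodule.sum_mem _ fun w hw => Submodule.smul_mem _ _ ?_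
    have h1 := (Dhom_Dw c b r w a).1 (by rw [hx' w hw]; exact h)
    rw [hx' w hw] at h1
    exact h1
  · refine Finset.sum_eq_zero fun w hw => ?_
    rw [(Dhom_Dw c b r w a).2 (by rw [hx' w hw]; exact h), smul_zero]

private lemma Dhom_lin (c : V →ₗ[ℝ] ℝ) (y : V) :
    c y = ∑ w ∈ y.support, y w * c (wd w) := by
  have h1 : Finsupp.linearCombination ℝ (fun w : Word => c (wd w)) = c := by
    refine Finsupp.lhom_ext' fun w => LinearMap.ext_ring ?_
    simp [wd]
  have h2 : c y = Finsupp.linearCombination ℝ (fun w : Word => c (wd w)) y := by rw [h1]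
  rw [h2, Finsupp.linearCombination_apply, Finsupp.sum]
  simp only [smul_eq_mul]

/-- The homogeneous parts of an infinitesimal character are infinitesimal characters. -/
theorem thm_homInf (h1 : St_shLen) : St_homInf := by
  intro c hc r
  refine ⟨?_, fun u v hu hv => ?_⟩
  · rw [Dhom_hom_wd, hc.one, ite_self]
  · have hm : ∀ w ∈ (sh u v).support, w.length = u.length + v.length := fun w hw =>
      (Finsupp.mem_supported ℝ (sh u v)).1 (h1 u v) (Finset.mem_coe.2 hw)
    rw [Dhom_lin]
    by_cases hr : u.length + v.length = r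
    · rw [← hc.sh u v hu hv, Dhom_lin c]
      refine Finset.sum_congr rfl fun w hw => ?_
      rw [Dhom_hom_wd, hm w hw, if_pos hr]
    · refine Finset.sum_eq_zero fun w hw => ?_
      rw [Dhom_hom_wd, hm w hw, if_neg hr, mul_zero]

private lemma Dhom_evsum (c : V →ₗ[ℝ] ℝ) (n : ℕ) (x : SignType) (p : Word)
    (h1 : 1 ≤ p.length) (h2 : p.length ≤ n) :
    ev c x p = ∑ r ∈ Finset.Icc 1 n, ev (hom r c) x p := by
  simp only [Dhom_ev]
  rw [Finset.sum_ite_eq, if_pos (Finset.mem_Icc.2 ⟨h1, h2⟩)]

private lemma Dhom_Prsum (c : V →ₗ[ℝ] ℝ) (n : ℕ) (a b : SignType) (w : Word)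
    (h : w.length ≤ n) :
    Pr c a b w = ∑ r ∈ Finset.Icc 1 n, Pr (hom r c) a b w := by
  unfold Pr
  rw [Finset.sum_comm]
  refine Finset.sum_congr rfl fun i hi => ?_
  have hi' : i < w.length := Finset.mem_range.1 hi
  have hlen : (w.take (i + 1)).length = i + 1 := by
    rw [List.length_take]; omega
  rw [Dhom_evsum c n _ (w.take (i + 1)) (by omega) (by omega),
    Dhom_evsum c n a (w.take (i + 1)) (by omega) (by omega), ← Finset.sum_sub_distrib,
    Finset.sum_smul]

private lemma Dhom_Dwsum (c : V →ₗ[ℝ] ℝ) (n : ℕ) (b : SignType) (w : Word) :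
    ∀ a : SignType, w.length ≤ n → Dw c b a w = ∑ r ∈ Finset.Icc 1 n, Dw (hom r c) b a w := by
  induction w with
  | nil =>
      intro a _
      simp only [Dw, Finset.sum_const_zero]
  | cons x w ih =>
      intro a h
      rw [List.length_cons] at h
      simp only [Dw]
      rw [Finset.sum_add_distrib, ← map_sum, ← ih x (by omega),
        ← Dhom_Prsum c n a b (x :: w) (by rw [List.length_cons]; exact h)]

/-- D c is the sum of its homogeneous parts. -/
theorem thm_Dsum : St_Dsum := by
  intro c n x hx
  have hx' : ∀ w ∈ x.support, w.length ≤ n := fun w hw =>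
    (Finsupp.mem_supported ℝ x).1 hx (Finset.mem_coe.2 hw)
  unfold Dr D DL
  simp only [Finsupp.linearCombination_apply, Finsupp.sum]
  rw [Finset.sum_comm]
  refine Finset.sum_congr rfl fun w hw => ?_
  rw [← Finset.smul_sum, ← Dhom_Dwsum c n 1 w 0 (hx' w hw)]

end Pool.MTV
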