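import Pool.Agent.MTV.StA2
import Pool.Agent.MTV.LibA

/-!
# KA: the elements killed by all eps o D_l
-/

open scoped TensorProduct

namespace Pool.MTV

/-- The functional u tensor v ↦ χ u * ξ v. -/
private noncomputable def KA_P (χ ξ : V →ₗ[ℝ] ℝ) : V ⊗[ℝ] V →ₗ[ℝ] ℝ :=
  TensorProduct.lift ((LinearMap.mul ℝ ℝ).compl₁₂ χ ξ)

private theorem KA_P_tmul (χ ξ : V →ₗ[ℝ] ℝ) (u v : V) :
    KA_P χ ξ (u ⊗ₜ[ℝ] v) = χ u * ξ v := by
  simp [KA_P]

/-- The coaction is homogeneous. -/
private theorem KA_shape (h4 : St_coLen) (w : Word) : coact (wd w) ∈ Submodule.span ℝ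
    {t | ∃ u v : Word, u.length + v.length = w.length ∧ t = wd u ⊗ₜ[ℝ] wd v} := by
  by_cases hw : w = []
  · subst hw
    rw [h4.1]
    exact Submodule.subset_span ⟨[], [], rfl, rfl⟩
  · have h := h4.2 w hw
    have e : coact (wd w) = (coact (wd w) - wd w ⊗ₜ[ℝ] wd [] - wd [] ⊗ₜ[ℝ] wd w) +
        wd w ⊗ₜ[ℝ] wd [] + wd [] ⊗ₜ[ℝ] wd w := by abel
    rw [e]
    refine Submodule.add_mem _ (Submodule.add_mem _ (Submodule.span_mono ?_ h)
      (Submodule.subset_span ⟨w, [], by simp, rfl⟩)) (Submodule.subset_span ⟨[], w, by simp, rfl⟩)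
    rintro t ⟨u, v, -, -, h1, h2⟩
    exact ⟨u, v, h1, h2⟩

private theorem KA_odd (h4 : St_coLen) (χ ξ : V →ₗ[ℝ] ℝ)
    (h1 : ∀ w : Word, Odd w.length → χ (wd w) = 0) (h2 : ∀ w : Word, Odd w.length → ξ (wd w) = 0)
    (w : Word) (hw : Odd w.length) : KA_P χ ξ (coact (wd w)) = 0 := by
  have key : ∀ t ∈ Submodule.span ℝ
      {t | ∃ u v : Word, u.length + v.length = w.length ∧ t = wd u ⊗ₜ[ℝ] wd v},
      KA_P χ ξ t = 0 := by
    intro t ht
    induction ht using Submodule.span_induction with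
    | mem t ht =>
      obtain ⟨u, v, hv, rfl⟩ := ht
      rw [KA_P_tmul]
      rw [← hv] at hw
      rcases Nat.even_or_odd u.length with hu | hu
      · rw [h2 v ((Nat.odd_add.1 hw).not.1 (by simpa using hu) |> fun h => by simpa using h), mul_zero]
      · rw [h1 u hu, zero_mul]
    | zero => rw [map_zero]
    | add x y _ _ hx hy => rw [map_add, hx, hy, add_zero]
    | smul r x _ hx => rw [map_smul, hx, smul_zero]
  exact key _ (KA_shape h4 w)

private theorem KA_xi (h4 : St_coLen) (χ : V →ₗ[ℝ] ℝ) (hone : χ (wd []) = 1)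
    (hodd : ∀ w : Word, Odd w.length → χ (wd w) = 0) (n : ℕ) :
    ∃ ξ : V →ₗ[ℝ] ℝ, ξ (wd []) = 1 ∧ (∀ w : Word, Odd w.length → ξ (wd w) = 0) ∧
      ∀ w : Word, w.length ≤ n → KA_P χ ξ (coact (wd w)) = eps (wd w) := by
  induction n with
  | zero =>
    refine ⟨eps, by simp, fun w hw => ?_, fun w hw => ?_⟩
    · rw [lib_eps, if_neg]
      rintro rfl
      simp at hw
    · have : w = [] := List.length_eq_zero_iff.1 (by omega)
      subst this
      rw [h4.1, KA_P_tmul, hone, one_mul]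
  | succ n ih =>
    obtain ⟨ξ, a1, a2, a3⟩ := ih
    obtain ⟨ξ', hξ'⟩ : ∃ ξ' : V →ₗ[ℝ] ℝ, ∀ w : Word, ξ' (wd w) =
        if w.length = n + 1 then ξ (wd w) - KA_P χ ξ (coact (wd w)) else ξ (wd w) :=
      ⟨Finsupp.linearCombination ℝ (fun w : Word =>
        if w.length = n + 1 then ξ (wd w) - KA_P χ ξ (coact (wd w)) else ξ (wd w)),
        fun w => by rw [lib_lc]⟩
    have b0 : ∀ w : Word, w.length ≠ n + 1 → ξ' (wd w) = ξ (wd w) := fun w hw => by
      rw [hξ', if_neg hw]
    have b1 : ∀ w : Word, w.length = n + 1 →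
        ξ' (wd w) = ξ (wd w) - KA_P χ ξ (coact (wd w)) := fun w hw => by
      rw [hξ', if_pos hw]
    have key : ∀ t ∈ Submodule.span ℝ {t | ∃ u v : Word, v.length ≤ n ∧ t = wd u ⊗ₜ[ℝ] wd v},
        KA_P χ ξ' t = KA_P χ ξ t := by
      intro t ht
      induction ht using Submodule.span_induction with
      | mem t ht =>
        obtain ⟨u, v, hv, rfl⟩ := ht
        rw [KA_P_tmul, KA_P_tmul, b0 v (by omega)]
      | zero => rw [map_zero, map_zero]
      | add x y _ _ hx hy => rw [map_add, map_add, hx, hy]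
      | smul r x _ hx => rw [map_smul, map_smul, hx]
    refine ⟨ξ', by rw [b0 _ (by simp), a1], fun w hw => ?_, fun w hw => ?_⟩
    · by_cases hn : w.length = n + 1
      · rw [b1 w hn, a2 w hw, KA_odd h4 χ ξ hodd a2 w hw, sub_zero]
      · rw [b0 w hn, a2 w hw]
    · by_cases hn : w.length = n + 1
      · have hne : w ≠ [] := by
          rintro rfl
          simp at hn
        have h := h4.2 w hne
        have e1 := key _ (Submodule.span_mono (by
          rintro t ⟨u, v, hu, hv, h1, h2⟩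
          refine ⟨u, v, ?_, h2⟩
          have := List.length_pos_iff.2 hu
          omega) h)
        rw [map_sub, map_sub, map_sub, map_sub, KA_P_tmul, KA_P_tmul, KA_P_tmul, KA_P_tmul,
          b0 [] (by simp), b1 w hn, a1, hone] at e1
        rw [lib_eps, if_neg hne]
        linarith
      · rw [key _ (Submodule.span_mono (by
          rintro t ⟨u, v, h1, h2⟩
          exact ⟨u, v, by omega, h2⟩) (KA_shape h4 w)), a3 w (by omega)]

/-- The map u tensor v ↦ xi(v)/z^(|v|/2) zeta2^(|v|/2) u. -/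
private noncomputable def KA_sig (ξ : V →ₗ[ℝ] ℝ) (z : ℝ) : V ⊗[ℝ] V →ₗ[ℝ] V :=
  TensorProduct.lift (LinearMap.flip (Finsupp.linearCombination ℝ (fun v : Word =>
    ((ξ (wd v) / z ^ (v.length / 2)) •
      (((mul zeta2 : Module.End ℝ V) ^ (v.length / 2) : Module.End ℝ V) : V →ₗ[ℝ] V)))))

private theorem KA_sig_tmul (ξ : V →ₗ[ℝ] ℝ) (z : ℝ) (u : V) (v : Word) :
    KA_sig ξ z (u ⊗ₜ[ℝ] wd v) = (ξ (wd v) / z ^ (v.length / 2)) •
      ((mul zeta2 : Module.End ℝ V) ^ (v.length / 2) : Module.End ℝ V) u := by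
  simp [KA_sig]

private theorem KA_comm (f : Module.End ℝ V) (h : ∀ y, f (mul zeta2 y) = mul zeta2 (f y)) (k : ℕ)
    (y : V) : f (((mul zeta2 : Module.End ℝ V) ^ k : Module.End ℝ V) y) =
      ((mul zeta2 : Module.End ℝ V) ^ k : Module.End ℝ V) (f y) := by
  induction k generalizing y with
  | zero => rfl
  | succ k ih =>
    rw [pow_succ, Module.End.mul_apply, Module.End.mul_apply, ih, h]

private theorem KA_sig_comm (ξ : V →ₗ[ℝ] ℝ) (z : ℝ) (f : V →ₗ[ℝ] V)
    (h : ∀ y, f (mul zeta2 y) = mul zeta2 (f y)) (t : V ⊗[ℝ] V) :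
    f (KA_sig ξ z t) = KA_sig ξ z (TensorProduct.map f LinearMap.id t) := by
  have e : f ∘ₗ KA_sig ξ z = KA_sig ξ z ∘ₗ TensorProduct.map f LinearMap.id := by
    apply lib_text
    intro u v
    rw [LinearMap.comp_apply, LinearMap.comp_apply, KA_sig_tmul, TensorProduct.map_tmul,
      LinearMap.id_apply, KA_sig_tmul, map_smul, KA_comm f h]
  exact LinearMap.congr_fun e t

private theorem KA_chi_sig (χ ξ : V →ₗ[ℝ] ℝ) (hmul : ∀ x y : V, χ (mul x y) = χ x * χ y)
    (hz : χ zeta2 ≠ 0) (t : V ⊗[ℝ] V) : χ (KA_sig ξ (χ zeta2) t) = KA_P χ ξ t := by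
  have e : χ ∘ₗ KA_sig ξ (χ zeta2) = KA_P χ ξ := by
    apply lib_text
    intro u v
    have hp : ∀ (k : ℕ) (y : V),
        χ (((mul zeta2 : Module.End ℝ V) ^ k : Module.End ℝ V) y) = χ zeta2 ^ k * χ y := by
      intro k
      induction k with
      | zero =>
        intro y
        rw [pow_zero, pow_zero, Module.End.one_apply, one_mul]
      | succ k ih =>
        intro y
        rw [pow_succ, Module.End.mul_apply, ih, hmul, pow_succ, mul_assoc]
    rw [LinearMap.comp_apply, KA_sig_tmul, KA_P_tmul, map_smul, hp, smul_eq_mul]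
    field_simp
  exact LinearMap.congr_fun e t

private theorem KA_mul_mem (h6 : St_shLen) {m n : ℕ} {x y : V} (hx : x ∈ lenEq m)
    (hy : y ∈ lenEq n) : mul x y ∈ lenEq (m + n) := by
  refine lib_lenEq_ind (P := fun x => mul x y ∈ lenEq (m + n)) x hx ?_ ?_ ?_ ?_
  · rw [map_zero, LinearMap.zero_apply]
    exact Submodule.zero_mem _
  · intro w hw
    refine lib_lenEq_ind (P := fun y => mul (wd w) y ∈ lenEq (m + n)) y hy ?_ ?_ ?_ ?_
    · rw [map_zero]
      exact Submodule.zero_mem _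
    · intro v hv
      rw [lib_mul, ← hw, ← hv]
      exact h6 w v
    · intro a b ha hb
      rw [map_add]
      exact Submodule.add_mem _ ha hb
    · intro r a ha
      rw [map_smul]
      exact Submodule.smul_mem _ _ ha
  · intro a b ha hb
    rw [map_add, LinearMap.add_apply]
    exact Submodule.add_mem _ ha hb
  · intro r a ha
    rw [map_smul, LinearMap.smul_apply]
    exact Submodule.smul_mem _ _ ha

private theorem KA_pow_mem (h6 : St_shLen) (k n : ℕ) (x : V) (hx : x ∈ lenEq n) :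
    ((mul zeta2 : Module.End ℝ V) ^ k : Module.End ℝ V) x ∈ lenEq (n + 2 * k) := by
  induction k with
  | zero => simpa using hx
  | succ k ih =>
    rw [pow_succ', Module.End.mul_apply]
    have h := KA_mul_mem h6 (m := 2) (x := zeta2) (lib_wd_mem_lenEq rfl) ih
    have e : 2 + (n + 2 * k) = n + 2 * (k + 1) := by ring
    rwa [e] at h

private theorem KA_sig_mem (h6 : St_shLen) (h4 : St_coLen) (ξ : V →ₗ[ℝ] ℝ) (z : ℝ)
    (hξ : ∀ w : Word, Odd w.length → ξ (wd w) = 0) (w : Word) :
    KA_sig ξ z (coact (wd w)) ∈ lenEq w.length := by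
  have key : ∀ t ∈ Submodule.span ℝ
      {t | ∃ u v : Word, u.length + v.length = w.length ∧ t = wd u ⊗ₜ[ℝ] wd v},
      KA_sig ξ z t ∈ lenEq w.length := by
    intro t ht
    induction ht using Submodule.span_induction with
    | mem t ht =>
      obtain ⟨u, v, hv, rfl⟩ := ht
      rw [KA_sig_tmul]
      rcases Nat.even_or_odd v.length with he | ho
      · refine Submodule.smul_mem _ _ ?_
        have h := KA_pow_mem h6 (v.length / 2) u.length (wd u) (lib_wd_mem_lenEq rfl)
        have e : u.length + 2 * (v.length / 2) = w.length := by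
          rw [Nat.mul_div_cancel' he.two_dvd, hv]
        rwa [e] at h
      · rw [hξ v ho, zero_div, zero_smul]
        exact Submodule.zero_mem _
    | zero =>
      rw [map_zero]
      exact Submodule.zero_mem _
    | add x y _ _ hx hy =>
      rw [map_add]
      exact Submodule.add_mem _ hx hy
    | smul r x _ hx =>
      rw [map_smul]
      exact Submodule.smul_mem _ _ hx
  exact key _ (KA_shape h4 w)

private theorem KA_sub_sig (h4 : St_coLen) (ξ : V →ₗ[ℝ] ℝ) (z : ℝ) (h1 : ξ (wd []) = 1)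
    (hξ : ∀ w : Word, Odd w.length → ξ (wd w) = 0) (w : Word) :
    wd w - KA_sig ξ z (coact (wd w)) ∈ LinearMap.range (mul zeta2) := by
  have hr : ∀ u v : Word, v ≠ [] →
      KA_sig ξ z (wd u ⊗ₜ[ℝ] wd v) ∈ LinearMap.range (mul zeta2) := by
    intro u v hv
    rw [KA_sig_tmul]
    rcases Nat.even_or_odd v.length with he | ho
    · refine Submodule.smul_mem _ _ ?_
      obtain ⟨k, hk⟩ : ∃ k, v.length / 2 = k + 1 := by
        have := List.length_pos_iff.2 hv
        obtain ⟨m, hm⟩ := he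
        exact ⟨m - 1, by omega⟩
      rw [hk, pow_succ', Module.End.mul_apply]
      exact ⟨_, rfl⟩
    · rw [hξ v ho, zero_div, zero_smul]
      exact Submodule.zero_mem _
  have h0 : ∀ u : Word, KA_sig ξ z (wd u ⊗ₜ[ℝ] wd []) = wd u := by
    intro u
    rw [KA_sig_tmul, h1]
    simp
  by_cases hw : w = []
  · subst hw
    rw [h4.1, h0, sub_self]
    exact Submodule.zero_mem _
  · have key : ∀ t ∈ Submodule.span ℝ {t | ∃ u v : Word, u ≠ [] ∧ v ≠ [] ∧
        u.length + v.length = w.length ∧ t = wd u ⊗ₜ[ℝ] wd v},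
        KA_sig ξ z t ∈ LinearMap.range (mul zeta2) := by
      intro t ht
      induction ht using Submodule.span_induction with
      | mem t ht =>
        obtain ⟨u, v, -, hv, -, rfl⟩ := ht
        exact hr u v hv
      | zero =>
        rw [map_zero]
        exact Submodule.zero_mem _
      | add x y _ _ hx hy =>
        rw [map_add]
        exact Submodule.add_mem _ hx hy
      | smul r x _ hx =>
        rw [map_smul]
        exact Submodule.smul_mem _ _ hx
    have h := key _ (h4.2 w hw)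
    rw [map_sub, map_sub, h0] at h
    have e : wd w - KA_sig ξ z (coact (wd w)) =
        -(KA_sig ξ z (coact (wd w)) - wd w - KA_sig ξ z (wd [] ⊗ₜ[ℝ] wd w)) -
          KA_sig ξ z (wd [] ⊗ₜ[ℝ] wd w) := by abel
    rw [e]
    exact Submodule.sub_mem _ (Submodule.neg_mem _ h) (hr [] w hw)

private theorem KA_Dr_mem (h3 : St_Dhom) (c : V →ₗ[ℝ] ℝ) (r n : ℕ) (x : V) (hx : x ∈ lenLe n) :
    Dr c r x ∈ lenLe n := by
  refine lib_lenLe_ind (P := fun x => Dr c r x ∈ lenLe n) x hx ?_ ?_ ?_ ?_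
  · rw [map_zero]
    exact Submodule.zero_mem _
  · intro w hw
    have h := h3 c 0 1 r w.length (wd w) (lib_wd_mem_lenEq rfl)
    by_cases hr : r ≤ w.length
    · exact lib_lenEq_le_lenLe (by omega) (h.1 hr)
    · have e : Dr c r (wd w) = 0 := h.2 (by omega)
      rw [e]
      exact Submodule.zero_mem _
  · intro a b ha hb
    rw [map_add]
    exact Submodule.add_mem _ ha hb
  · intro s a ha
    rw [map_smul]
    exact Submodule.smul_mem _ _ ha

private theorem KA_Dl_mem (h3 : St_Dhom) (c : V →ₗ[ℝ] ℝ) (l : List ℕ) (n : ℕ) (x : V)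
    (hx : x ∈ lenLe n) : Dl c l x ∈ lenLe n := by
  induction l generalizing x with
  | nil => exact hx
  | cons r l ih => exact ih _ (KA_Dr_mem h3 c r n x hx)

theorem thm_KA (h1 : St_copD) (h2 : St_homInf) (h3 : St_Dhom) (h4 : St_coLen) (h5 : St_zetaD)
    (h6 : St_shLen) (h7 : St_PerZeta2) : St_KA := by
  intro c χ hs n x hx hl
  have hz : χ zeta2 ≠ 0 := by
    rw [h5.2 c χ hs]
    exact h7
  obtain ⟨ξ, a1, a2, a3⟩ := KA_xi h4 χ hs.one hs.even n
  -- the map s commutes with the derivations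
  have hcomm : ∀ r : ℕ, Odd r → ∀ y : V, Dr c r (KA_sig ξ (χ zeta2) (coact y)) =
      KA_sig ξ (χ zeta2) (coact (Dr c r y)) := by
    intro r hr y
    have hi := h2 c hs.inf r
    have h0 : hom r c (wd [1, 0]) = 0 := by
      rw [lib_hom, if_neg]
      rintro rfl
      exact absurd hr (by decide)
    have hd : ∀ y, Dr c r (mul zeta2 y) = mul zeta2 (Dr c r y) := (h5.1 _ hi h0).2
    rw [KA_sig_comm ξ (χ zeta2) (Dr c r) hd]
    have hc : TensorProduct.map (Dr c r) LinearMap.id (coact y) = coact (Dr c r y) := h1 _ hi y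
    rw [hc]
  have hcommL : ∀ l : List ℕ, (∀ r ∈ l, Odd r) → ∀ y : V,
      Dl c l (KA_sig ξ (χ zeta2) (coact y)) = KA_sig ξ (χ zeta2) (coact (Dl c l y)) := by
    intro l
    induction l with
    | nil =>
      intro _ y
      rfl
    | cons r l ih =>
      intro hr y
      show Dl c l (Dr c r (KA_sig ξ (χ zeta2) (coact y))) =
        KA_sig ξ (χ zeta2) (coact (Dl c l (Dr c r y)))
      rw [hcomm r (hr r (List.mem_cons_self ..)), ih (fun s hs => hr s (List.mem_cons_of_mem _ hs))]
  -- the value of chi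
  have hchi : ∀ y ∈ lenLe n, χ (KA_sig ξ (χ zeta2) (coact y)) = eps y := by
    intro y hy
    rw [KA_chi_sig χ ξ hs.mul hz]
    refine lib_lenLe_ind (P := fun y => KA_P χ ξ (coact y) = eps y) y hy ?_ a3 ?_ ?_
    · rw [map_zero, map_zero, map_zero]
    · intro a b ha hb
      rw [map_add, map_add, map_add, ha, hb]
    · intro s a ha
      rw [map_smul, map_smul, map_smul, ha]
  refine ⟨KA_sig ξ (χ zeta2) (coact x), ?_, fun l hl' => ?_, ?_⟩
  · refine lib_lenEq_ind (P := fun x => KA_sig ξ (χ zeta2) (coact x) ∈ lenEq n) x hx ?_ ?_ ?_ ?_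
    · rw [map_zero, map_zero]
      exact Submodule.zero_mem _
    · intro w hw
      rw [← hw]
      exact KA_sig_mem h6 h4 ξ _ a2 w
    · intro a b ha hb
      rw [map_add, map_add]
      exact Submodule.add_mem _ ha hb
    · intro s a ha
      rw [map_smul, map_smul]
      exact Submodule.smul_mem _ _ ha
  · rw [hcommL l hl', hchi _ (KA_Dl_mem h3 c l n x (lib_lenEq_le_lenLe le_rfl hx)), hl l hl']
  · refine lib_ind (P := fun x => x - KA_sig ξ (χ zeta2) (coact x) ∈
      LinearMap.range (mul zeta2)) x ?_ ?_ ?_ ?_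
    · rw [map_zero, map_zero, sub_zero]
      exact Submodule.zero_mem _
    · intro w
      exact KA_sub_sig h4 ξ _ a1 a2 w
    · intro a b ha hb
      have e : a + b - KA_sig ξ (χ zeta2) (coact (a + b)) =
          (a - KA_sig ξ (χ zeta2) (coact a)) + (b - KA_sig ξ (χ zeta2) (coact b)) := by
        rw [map_add, map_add]
        abel
      rw [e]
      exact Submodule.add_mem _ ha hb
    · intro s a ha
      have e : s • a - KA_sig ξ (χ zeta2) (coact (s • a)) =
          s • (a - KA_sig ξ (χ zeta2) (coact a)) := by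
        rw [map_smul, map_smul, smul_sub]
      rw [e]
      exact Submodule.smul_mem _ _ ha

end Pool.MTV
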