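import Pool.Agent.MTV.StA2

/-!
# MTV [LastD]: the recursion of the cuts for the last letter
-/

open scoped TensorProduct

namespace Pool.MTV

private theorem LastD_pre (a : SignType) (w : Word) : pre a (wd w) = wd (a :: w) := by
  unfold pre wd
  rw [Finsupp.lmapDomain_apply, Finsupp.mapDomain_single]

private theorem LastD_app (a : SignType) (w : Word) : app a (wd w) = wd (w ++ [a]) := by
  unfold app wd
  rw [Finsupp.lmapDomain_apply, Finsupp.mapDomain_single]

private theorem LastD_comm (a e : SignType) (z : V) : pre a (app e z) = app e (pre a z) := by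
  unfold pre app
  rw [Finsupp.lmapDomain_apply, Finsupp.lmapDomain_apply, Finsupp.lmapDomain_apply,
    Finsupp.lmapDomain_apply, ← Finsupp.mapDomain_comp, ← Finsupp.mapDomain_comp]
  rfl

private theorem LastD_hd (b e : SignType) (l : Word) : hd b (l ++ [e]) = hd e l := by
  cases l <;> rfl

private theorem LastD_Pr (c : V →ₗ[ℝ] ℝ) (a b e x : SignType) (w : Word) :
    Pr c a b (x :: (w ++ [e])) = app e (Pr c a e (x :: w)) +
      (ev c b (x :: (w ++ [e])) - ev c a (x :: (w ++ [e]))) • wd [] := by
  unfold Pr
  rw [map_sum, List.length_cons, List.length_append, List.length_singleton,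
    Finset.sum_range_succ]
  congr 1
  · rw [List.length_cons]
    apply Finset.sum_congr rfl
    intro i hi
    have hi' : i ≤ w.length := Nat.lt_succ_iff.mp (Finset.mem_range.mp hi)
    rw [map_smul, LastD_app, List.drop_succ_cons, List.take_succ_cons, List.drop_succ_cons,
      List.take_succ_cons, List.drop_append_of_le_length hi', List.take_append_of_le_length hi',
      LastD_hd]
  · rw [List.drop_succ_cons, List.take_succ_cons]
    have h1 : (w ++ [e]).take (w.length + 1) = w ++ [e] := by
      apply List.take_of_length_le
      simp
    have h2 : (w ++ [e]).drop (w.length + 1) = [] := by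
      apply List.drop_of_length_le
      simp
    rw [h1, h2]
    rfl

theorem thm_lastD : St_lastD := by
  intro c a b e w
  induction w generalizing a with
  | nil =>
    show Pr c a b [e] + pre e 0 = app e 0 + _
    rw [map_zero, map_zero, add_zero, zero_add]
    unfold Pr
    simp [hd]
  | cons x w ih =>
    show Pr c a b (x :: (w ++ [e])) + pre x (Dw c b x (w ++ [e])) =
      app e (Pr c a e (x :: w) + pre x (Dw c e x w)) + _
    rw [ih x, LastD_Pr, map_add, map_add, LastD_comm, List.length_cons,
      Finset.sum_range_succ' _ (w.length + 1), map_sum]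
    have h1 : ∀ i, pre x ((ev c b ((w ++ [e]).drop i) -
          ev c ((w.take i).getLastD x) ((w ++ [e]).drop i)) • wd (w.take i)) =
        (ev c b ((x :: w ++ [e]).drop (i + 1)) -
          ev c (((x :: w).take (i + 1)).getLastD a) ((x :: w ++ [e]).drop (i + 1))) •
            wd ((x :: w).take (i + 1)) := by
      intro i
      rw [map_smul, LastD_pre, List.take_succ_cons, List.cons_append, List.drop_succ_cons,
        List.getLastD_cons]
    rw [Finset.sum_congr rfl fun i _ => h1 i]
    have h2 : (ev c b ((x :: w ++ [e]).drop 0) -
          ev c (((x :: w).take 0).getLastD a) ((x :: w ++ [e]).drop 0)) • wd ((x :: w).take 0) =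
        (ev c b (x :: (w ++ [e])) - ev c a (x :: (w ++ [e]))) • wd [] := rfl
    rw [h2]
    abel

end Pool.MTV
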