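import Pool.Agent.MTV.LibA

/-!
# Leib: the functional Per o exp(-D c) is multiplicative
-/

set_option autoImplicit false

open scoped TensorProduct

namespace Pool.MTV

private theorem Leib_pre_mem {n : ℕ} (a : SignType) (x : V) (hx : x ∈ lenLe n) :
    pre a x ∈ lenLe (n + 1) := by
  refine lib_lenLe_ind (P := fun x => pre a x ∈ lenLe (n + 1)) x hx ?_ ?_ ?_ ?_
  · rw [map_zero]; exact Submodule.zero_mem _
  · intro w hw
    rw [lib_pre]
    exact lib_wd_mem_lenLe (by simp only [List.length_cons]; omega)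
  · intro x y hx hy; rw [map_add]; exact Submodule.add_mem _ hx hy
  · intro r x hx; rw [map_smul]; exact Submodule.smul_mem _ _ hx

private theorem Leib_Dw (c : V →ₗ[ℝ] ℝ) (b : SignType) (w : Word) :
    ∀ a : SignType, Dw c b a w ∈ lenLe (w.length - 1) := by
  induction w with
  | nil => intro a; rw [lib_Dw_nil]; exact Submodule.zero_mem _
  | cons x w ih =>
    intro a
    rw [lib_Dw_cons, List.length_cons, Nat.add_sub_cancel]
    refine Submodule.add_mem _ ?_ ?_
    · unfold Pr
      refine Submodule.sum_mem _ fun i _ => Submodule.smul_mem _ _ (lib_wd_mem_lenLe ?_)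
      simp only [List.drop_succ_cons, List.length_drop]
      omega
    · by_cases hw : w = []
      · subst hw
        rw [lib_Dw_nil, map_zero]
        exact Submodule.zero_mem _
      · have h1 := Leib_pre_mem x _ (ih x)
        have h2 : 0 < w.length := List.length_pos_of_ne_nil hw
        rwa [Nat.sub_add_cancel h2] at h1

private theorem Leib_D_mem (c : V →ₗ[ℝ] ℝ) (n : ℕ) (x : V) (hx : x ∈ lenLe (n + 1)) :
    D c x ∈ lenLe n := by
  refine lib_lenLe_ind (P := fun x => D c x ∈ lenLe n) x hx ?_ ?_ ?_ ?_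
  · rw [map_zero]; exact Submodule.zero_mem _
  · intro w hw
    rw [lib_D]
    exact lib_lenLe_mono (by omega) (Leib_Dw c 1 w 0)
  · intro x y hx hy; rw [map_add]; exact Submodule.add_mem _ hx hy
  · intro r x hx; rw [map_smul]; exact Submodule.smul_mem _ _ hx

private theorem Leib_D_zero (c : V →ₗ[ℝ] ℝ) (x : V) (hx : x ∈ lenLe 0) : D c x = 0 := by
  refine lib_lenLe_ind (P := fun x => D c x = 0) x hx ?_ ?_ ?_ ?_
  · rw [map_zero]
  · intro w hw
    have : w = [] := List.length_eq_zero_iff.mp (Nat.le_zero.mp hw)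
    rw [this, lib_D, lib_Dw_nil]
  · intro x y hx hy; rw [map_add, hx, hy, add_zero]
  · intro r x hx; rw [map_smul, hx, smul_zero]

private theorem Leib_nil (c : V →ₗ[ℝ] ℝ) (n : ℕ) : ∀ x : V, x ∈ lenLe n →
    ((D c) ^ (n + 1)) x = 0 := by
  induction n with
  | zero =>
    intro x hx
    rw [zero_add, pow_one]
    exact Leib_D_zero c x hx
  | succ n ih =>
    intro x hx
    rw [pow_succ, Module.End.mul_apply]
    exact ih _ (Leib_D_mem c n x hx)

private theorem Leib_nil' (c : V →ₗ[ℝ] ℝ) (n : ℕ) (x : V) (hx : x ∈ lenLe n) (j : ℕ)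
    (hj : n < j) : ((D c) ^ j) x = 0 := by
  obtain ⟨k, rfl⟩ := Nat.exists_eq_add_of_le (Nat.succ_le_of_lt hj)
  rw [Nat.succ_eq_add_one, add_comm, pow_add, Module.End.mul_apply, Leib_nil c n x hx, map_zero]

private theorem Leib_chi (c : V →ₗ[ℝ] ℝ) (n : ℕ) (x : V) (hx : x ∈ lenLe n) (M : ℕ)
    (hM : n < M) :
    chiF c x = ∑ j ∈ Finset.range M, ((-1 : ℝ) ^ j / (j.factorial : ℝ)) * Per (((D c) ^ j) x) := by
  refine lib_lenLe_ind (P := fun x => chiF c x =
    ∑ j ∈ Finset.range M, ((-1 : ℝ) ^ j / (j.factorial : ℝ)) * Per (((D c) ^ j) x)) x hx ?_ ?_ ?_ ?_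
  · simp only [map_zero, mul_zero, Finset.sum_const_zero]
  · intro w hw
    rw [lib_chiF]
    refine Finset.sum_subset (Finset.range_mono (by omega)) fun j _ hj => ?_
    rw [Finset.mem_range, not_lt] at hj
    rw [Leib_nil' c w.length (wd w) (lib_wd_mem_lenLe le_rfl) j (by omega), map_zero, mul_zero]
  · intro x y hx hy
    simp only [map_add, hx, hy, mul_add, Finset.sum_add_distrib]
  · intro r x hx
    simp only [map_smul, hx, smul_eq_mul, Finset.mul_sum]
    exact Finset.sum_congr rfl fun j _ => by ring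

private theorem Leib_mul_mem (h2 : St_shLen) {n m : ℕ} (x y : V) (hx : x ∈ lenLe n)
    (hy : y ∈ lenLe m) : mul x y ∈ lenLe (n + m) := by
  refine lib_lenLe_ind (P := fun x => mul x y ∈ lenLe (n + m)) x hx ?_ ?_ ?_ ?_
  · rw [map_zero]; exact Submodule.zero_mem _
  · intro u hu
    refine lib_lenLe_ind (P := fun y => mul (wd u) y ∈ lenLe (n + m)) y hy ?_ ?_ ?_ ?_
    · rw [map_zero]; exact Submodule.zero_mem _
    · intro v hv
      rw [lib_mul]
      exact lib_lenEq_le_lenLe (by omega) (h2 u v)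
    · intro x y hx hy; rw [map_add]; exact Submodule.add_mem _ hx hy
    · intro r x hx; rw [map_smul]; exact Submodule.smul_mem _ _ hx
  · intro x y hx hy; rw [map_add, LinearMap.add_apply]; exact Submodule.add_mem _ hx hy
  · intro r x hx; rw [map_smul, LinearMap.smul_apply]; exact Submodule.smul_mem _ _ hx

private theorem Leib_iter (h1 : St_deriv) (c : V →ₗ[ℝ] ℝ) (hc : InfChar c) (x y : V) (j : ℕ) :
    ((D c) ^ j) (mul x y) = ∑ p ∈ Finset.HasAntidiagonal.antidiagonal j,
      j.choose p.1 • mul (((D c) ^ p.1) x) (((D c) ^ p.2) y) := by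
  induction j with
  | zero => simp
  | succ j ih =>
    have hd : ∀ x y : V, D c (mul x y) = mul (D c x) y + mul x (D c y) := fun x y => h1 c hc 0 1 x y
    rw [pow_succ', Module.End.mul_apply, ih, map_sum,
      Finset.sum_antidiagonal_choose_succ_nsmul
        (fun k l => mul (((D c) ^ k) x) (((D c) ^ l) y)) j, ← Finset.sum_add_distrib]
    refine Finset.sum_congr rfl fun p hp => ?_
    have h3 : j.choose p.2 = j.choose p.1 := by
      rw [Finset.HasAntidiagonal.mem_antidiagonal] at hp
      exact Nat.choose_symm_of_eq_add (by omega)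
    rw [map_nsmul, hd, smul_add, h3, pow_succ', pow_succ', Module.End.mul_apply,
      Module.End.mul_apply, add_comm]

private theorem Leib_cauchy (a b : ℕ → ℝ) (n m : ℕ) (ha : ∀ k, n < k → a k = 0)
    (hb : ∀ l, m < l → b l = 0) :
    ∑ j ∈ Finset.range (n + m + 1), ∑ p ∈ Finset.HasAntidiagonal.antidiagonal j, a p.1 * b p.2 =
      (∑ k ∈ Finset.range (n + 1), a k) * ∑ l ∈ Finset.range (m + 1), b l := by
  rw [Finset.sum_mul_sum, ← Finset.sum_product',
    ← Finset.sum_fiberwise_of_maps_to (s := Finset.range (n + 1) ×ˢ Finset.range (m + 1))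
      (t := Finset.range (n + m + 1)) (g := fun p : ℕ × ℕ => p.1 + p.2)]
  · refine Finset.sum_congr rfl fun j _ => ?_
    symm
    refine Finset.sum_subset ?_ ?_
    · intro p hp
      rw [Finset.mem_filter] at hp
      exact Finset.HasAntidiagonal.mem_antidiagonal.mpr hp.2
    · intro p hp hn
      rw [Finset.HasAntidiagonal.mem_antidiagonal] at hp
      rw [Finset.mem_filter, Finset.mem_product, Finset.mem_range, Finset.mem_range] at hn
      by_cases h1 : n < p.1
      · rw [ha _ h1, zero_mul]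
      · by_cases h2 : m < p.2
        · rw [hb _ h2, mul_zero]
        · exact absurd ⟨⟨by omega, by omega⟩, hp⟩ hn
  · intro p hp
    rw [Finset.mem_product, Finset.mem_range, Finset.mem_range] at hp
    rw [Finset.mem_range]
    omega

theorem thm_Leib (h1 : St_deriv) (h2 : St_shLen) : St_Leib := by
  intro hPM hPO c hc
  refine ⟨fun x y => ?_, ?_, Leib_chi c, Leib_nil' c, Leib_D_mem c⟩
  · obtain ⟨n, hn⟩ := lib_exists_lenLe x
    obtain ⟨m, hm⟩ := lib_exists_lenLe y
    rw [Leib_chi c (n + m) _ (Leib_mul_mem h2 x y hn hm) (n + m + 1) (Nat.lt_succ_self _),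
      Leib_chi c n x hn (n + 1) (Nat.lt_succ_self _),
      Leib_chi c m y hm (m + 1) (Nat.lt_succ_self _),
      ← Leib_cauchy _ _ n m (fun k hk => by rw [Leib_nil' c n x hn k hk, map_zero, mul_zero])
        (fun l hl => by rw [Leib_nil' c m y hm l hl, map_zero, mul_zero])]
    refine Finset.sum_congr rfl fun j _ => ?_
    rw [Leib_iter h1 c hc, map_sum, Finset.mul_sum]
    refine Finset.sum_congr rfl fun p hp => ?_
    rw [Finset.HasAntidiagonal.mem_antidiagonal] at hp
    subst hp
    rw [map_nsmul, hPM, nsmul_eq_mul, Nat.cast_add_choose ℝ, pow_add]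
    have e1 : ((p.1 + p.2).factorial : ℝ) ≠ 0 := by positivity
    have e2 : (p.1.factorial : ℝ) ≠ 0 := by positivity
    have e3 : (p.2.factorial : ℝ) ≠ 0 := by positivity
    field_simp
  · rw [lib_chiF]
    have h3 : Per (wd []) = 1 := hPO
    simp [h3]

end Pool.MTV
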