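import Pool.Agent.MTV.LibA

/-!
# MTV SDER: the operator `SL f` is a derivation if `f` is an infinitesimal character

`SL f (sh u v)` is the sum over all pairs of initial segments of `u`, `v` (any `f`), then only the pairs with an
empty initial segment survive.
-/

open scoped TensorProduct

namespace Pool.MTV

/-- the first letter of the argument of `SL f` -/
private theorem Sder_pre (f : V →ₗ[ℝ] ℝ) (x : SignType) (A : V) :
    SL f (pre x A) = f (wd []) • pre x A + SL (f.comp (pre x)) A := by
  refine lib_ext' (f := (SL f).comp (pre x))
    (g := f (wd []) • pre x + SL (f.comp (pre x))) (fun w => ?_) A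
  simp only [LinearMap.comp_apply, LinearMap.add_apply, LinearMap.smul_apply, lib_pre, lib_SL,
    List.length_cons]
  rw [Finset.sum_range_succ']
  simp only [List.take_succ_cons, List.drop_succ_cons, List.take_zero, List.drop_zero]
  rw [add_comm]

/-- the general formula for `SL f` on a shuffle -/
private theorem Sder_sh (n : ℕ) : ∀ (f : V →ₗ[ℝ] ℝ) (u v : Word), u.length + v.length = n →
    SL f (sh u v) = ∑ i ∈ Finset.range (u.length + 1), ∑ j ∈ Finset.range (v.length + 1),
      f (sh (u.take i) (v.take j)) • sh (u.drop i) (v.drop j) := by
  induction n with
  | zero =>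
    intro f u v h
    have hu : u = [] := List.length_eq_zero_iff.1 (by omega)
    have hv : v = [] := List.length_eq_zero_iff.1 (by omega)
    subst hu; subst hv
    simp
  | succ n ih =>
    intro f u v h
    cases u with
    | nil => simp
    | cons x u' =>
      cases v with
      | nil => simp
      | cons y v' =>
        simp only [List.length_cons] at h
        have e1 := ih (f.comp (pre x)) u' (y :: v') (by simp only [List.length_cons]; omega)
        have e2 := ih (f.comp (pre y)) (x :: u') v' (by simp only [List.length_cons]; omega)
        rw [lib_sh_cons, map_add, Sder_pre, Sder_pre, e1, e2]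
        simp only [List.length_cons, LinearMap.comp_apply]
        have r1 : ∀ i : ℕ, (∑ j ∈ Finset.range (v'.length + 1 + 1),
            f (pre x (sh (u'.take i) ((y :: v').take j))) • sh (u'.drop i) ((y :: v').drop j)) =
            (∑ j ∈ Finset.range (v'.length + 1),
              f (pre x (sh (u'.take i) (y :: v'.take j))) • sh (u'.drop i) (v'.drop j)) +
            f (wd (x :: u'.take i)) • sh (u'.drop i) (y :: v') := by
          intro i
          rw [Finset.sum_range_succ']
          simp only [List.take_succ_cons, List.drop_succ_cons, List.take_zero, List.drop_zero,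
            lib_sh_nil_right, lib_pre]
        have r3 : ∀ i : ℕ, (∑ j ∈ Finset.range (v'.length + 1 + 1),
            f (sh ((x :: u').take (i + 1)) ((y :: v').take j)) •
              sh ((x :: u').drop (i + 1)) ((y :: v').drop j)) =
            ((∑ j ∈ Finset.range (v'.length + 1),
              f (pre x (sh (u'.take i) (y :: v'.take j))) • sh (u'.drop i) (v'.drop j)) +
            ∑ j ∈ Finset.range (v'.length + 1),
              f (pre y (sh (x :: u'.take i) (v'.take j))) • sh (u'.drop i) (v'.drop j)) +
            f (wd (x :: u'.take i)) • sh (u'.drop i) (y :: v') := by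
          intro i
          rw [Finset.sum_range_succ', ← Finset.sum_add_distrib]
          congr 1
          · refine Finset.sum_congr rfl (fun j _ => ?_)
            simp only [List.take_succ_cons, List.drop_succ_cons, lib_sh_cons, map_add, add_smul]
          · simp only [List.take_succ_cons, List.drop_succ_cons, List.take_zero, List.drop_zero,
              lib_sh_nil_right]
        have r4 : (∑ j ∈ Finset.range (v'.length + 1 + 1),
            f (sh ((x :: u').take 0) ((y :: v').take j)) •
              sh ((x :: u').drop 0) ((y :: v').drop j)) =
            (∑ j ∈ Finset.range (v'.length + 1),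
              f (wd (y :: v'.take j)) • sh (x :: u') (v'.drop j)) +
            f (wd []) • (pre x (sh u' (y :: v')) + pre y (sh (x :: u') v')) := by
          rw [Finset.sum_range_succ']
          simp only [List.take_succ_cons, List.drop_succ_cons, List.take_zero, List.drop_zero,
            lib_sh_nil_left]
          rw [lib_sh_cons x y u' v']
        have r2 : (∑ i ∈ Finset.range (u'.length + 1 + 1), ∑ j ∈ Finset.range (v'.length + 1),
            f (pre y (sh ((x :: u').take i) (v'.take j))) • sh ((x :: u').drop i) (v'.drop j)) =
            (∑ i ∈ Finset.range (u'.length + 1), ∑ j ∈ Finset.range (v'.length + 1),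
              f (pre y (sh (x :: u'.take i) (v'.take j))) • sh (u'.drop i) (v'.drop j)) +
            ∑ j ∈ Finset.range (v'.length + 1),
              f (wd (y :: v'.take j)) • sh (x :: u') (v'.drop j) := by
          rw [Finset.sum_range_succ']
          simp only [List.take_succ_cons, List.drop_succ_cons, List.take_zero, List.drop_zero,
            lib_sh_nil_left, lib_pre]
        rw [Finset.sum_range_succ' (fun i => ∑ j ∈ Finset.range (v'.length + 1 + 1),
          f (sh ((x :: u').take i) ((y :: v').take j)) • sh ((x :: u').drop i) ((y :: v').drop j)),
          r4, r2]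
        rw [Finset.sum_congr rfl (fun i _ => r1 i), Finset.sum_congr rfl (fun i _ => r3 i)]
        simp only [Finset.sum_add_distrib, smul_add]
        abel

/-- the derivation property on words -/
private theorem Sder_words (f : V →ₗ[ℝ] ℝ) (hf : InfChar f) (u v : Word) :
    SL f (sh u v) = mul (SL f (wd u)) (wd v) + mul (wd u) (SL f (wd v)) := by
  rw [Sder_sh _ f u v rfl, Finset.sum_range_succ']
  have hz : ∀ i ∈ Finset.range u.length, (∑ j ∈ Finset.range (v.length + 1),
      f (sh (u.take (i + 1)) (v.take j)) • sh (u.drop (i + 1)) (v.drop j)) =
      f (wd (u.take (i + 1))) • sh (u.drop (i + 1)) v := by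
    intro i hi
    have hi' := Finset.mem_range.1 hi
    rw [Finset.sum_range_succ']
    rw [Finset.sum_eq_zero, zero_add]
    · simp
    · intro j hj
      have hj' := Finset.mem_range.1 hj
      rw [hf.sh, zero_smul]
      · intro h0
        have := congrArg List.length h0
        simp only [List.length_take, List.length_nil] at this
        omega
      · intro h0
        have := congrArg List.length h0
        simp only [List.length_take, List.length_nil] at this
        omega
  rw [Finset.sum_congr rfl hz]
  simp only [lib_SL, map_sum, LinearMap.sum_apply, map_smul, LinearMap.smul_apply, lib_mul,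
    List.take_zero, List.drop_zero, lib_sh_nil_left]
  rw [Finset.sum_range_succ' (fun i => f (wd (u.take i)) • sh (u.drop i) v)]
  simp only [List.take_zero, List.drop_zero, hf.one, zero_smul, add_zero]

theorem thm_Sder (_h1 : St_mulFirst) (_h2 : St_mulComm) : St_Sder := by
  intro f hf x y
  have key : ∀ (u : Word) (y : V), SL f (mul (wd u) y) = mul (SL f (wd u)) y + mul (wd u) (SL f y) := by
    intro u y
    refine lib_ext' (f := (SL f).comp (mul (wd u)))
      (g := mul (SL f (wd u)) + (mul (wd u)).comp (SL f)) (fun v => ?_) y
    simp only [LinearMap.comp_apply, LinearMap.add_apply, lib_mul]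
    exact Sder_words f hf u v
  refine lib_ext' (f := (SL f).comp (mul.flip y))
    (g := (mul.flip y).comp (SL f) + mul.flip (SL f y)) (fun u => ?_) x
  simp only [LinearMap.comp_apply, LinearMap.add_apply, LinearMap.flip_apply]
  exact key u y

end Pool.MTV
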