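import Pool.Agent.MTV.StA2

/-!
# SEP: linear algebra

A tensor t all of whose contractions (lam tensor id) t, lam in S, lie in B is in A tensor T + T tensor B if the common
kernel of S is contained in A.
-/

open scoped TensorProduct

namespace Pool.MTV

private lemma Sep_key {E : Type*} [AddCommGroup E] [Module ℝ E] (B : Submodule ℝ E) {κ : Type*}
    [DecidableEq κ] (bas : Module.Basis κ ℝ (E ⧸ B)) (lam : E →ₗ[ℝ] ℝ) (t : E ⊗[ℝ] E) (i : κ) :
    lam (TensorProduct.equivFinsuppOfBasisRight bas (LinearMap.lTensor E B.mkQ t) i) =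
      bas.repr (B.mkQ (((TensorProduct.lid ℝ E).toLinearMap.comp
        (TensorProduct.map lam LinearMap.id)) t)) i := by
  induction t with
  | zero => simp
  | tmul x y =>
    rw [LinearMap.lTensor_tmul, TensorProduct.equivFinsuppOfBasisRight_apply_tmul_apply]
    simp [mul_comm]
  | add x y hx hy =>
    simp only [map_add, Finsupp.add_apply] at hx hy ⊢
    rw [hx, hy]

private lemma Sep_gen {E : Type*} [AddCommGroup E] [Module ℝ E] (A B : Submodule ℝ E)
    (S : Set (E →ₗ[ℝ] ℝ)) (hS : ∀ x : E, (∀ lam ∈ S, lam x = 0) → x ∈ A) (t : E ⊗[ℝ] E)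
    (ht : ∀ lam ∈ S, ((TensorProduct.lid ℝ E).toLinearMap.comp
        (TensorProduct.map lam LinearMap.id)) t ∈ B) :
    t ∈ Submodule.span ℝ {t : E ⊗[ℝ] E | ∃ a ∈ A, ∃ b ∈ (⊤ : Submodule ℝ E), t = a ⊗ₜ[ℝ] b} ⊔
      Submodule.span ℝ {t : E ⊗[ℝ] E | ∃ a ∈ (⊤ : Submodule ℝ E), ∃ b ∈ B, t = a ⊗ₜ[ℝ] b} := by
  classical
  have bas := Module.Basis.ofVectorSpace ℝ (E ⧸ B)
  obtain ⟨p, hp⟩ : ∃ p, p = TensorProduct.equivFinsuppOfBasisRight bas
    (LinearMap.lTensor E B.mkQ t) := ⟨_, rfl⟩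
  have hpA : ∀ i, p i ∈ A := by
    intro i
    apply hS
    intro lam hlam
    rw [hp, Sep_key]
    have h := ht lam hlam
    have h2 : B.mkQ (((TensorProduct.lid ℝ E).toLinearMap.comp
        (TensorProduct.map lam LinearMap.id)) t) = 0 := by
      rw [Submodule.mkQ_apply, Submodule.Quotient.mk_eq_zero]
      exact h
    rw [h2, map_zero, Finsupp.zero_apply]
  choose e he using fun i => Submodule.mkQ_surjective B (bas i)
  have hs : LinearMap.lTensor E B.mkQ (p.sum fun i m => m ⊗ₜ[ℝ] e i) =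
      LinearMap.lTensor E B.mkQ t := by
    have h1 : (TensorProduct.equivFinsuppOfBasisRight bas).symm p =
        LinearMap.lTensor E B.mkQ t := by
      rw [hp, LinearEquiv.symm_apply_apply]
    rw [← h1, TensorProduct.equivFinsuppOfBasisRight_symm_apply]
    unfold Finsupp.sum
    rw [map_sum]
    apply Finset.sum_congr rfl
    intro i _
    rw [LinearMap.lTensor_tmul, he]
  have hk : t - (p.sum fun i m => m ⊗ₜ[ℝ] e i) ∈ LinearMap.ker (LinearMap.lTensor E B.mkQ) := by
    rw [LinearMap.mem_ker, map_sub, hs, sub_self]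
  rw [lTensor_mkQ] at hk
  obtain ⟨u, hu⟩ := hk
  have h3 : LinearMap.lTensor E B.subtype u ∈
      Submodule.span ℝ {t : E ⊗[ℝ] E | ∃ a ∈ (⊤ : Submodule ℝ E), ∃ b ∈ B, t = a ⊗ₜ[ℝ] b} := by
    clear hu
    induction u with
    | zero => rw [map_zero]; exact Submodule.zero_mem _
    | tmul x y =>
      rw [LinearMap.lTensor_tmul]
      apply Submodule.subset_span
      exact ⟨x, Submodule.mem_top, B.subtype y, y.2, rfl⟩
    | add x y hx hy => rw [map_add]; exact Submodule.add_mem _ hx hy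
  have h4 : (p.sum fun i m => m ⊗ₜ[ℝ] e i) ∈
      Submodule.span ℝ {t : E ⊗[ℝ] E | ∃ a ∈ A, ∃ b ∈ (⊤ : Submodule ℝ E), t = a ⊗ₜ[ℝ] b} := by
    unfold Finsupp.sum
    apply Submodule.sum_mem
    intro i _
    apply Submodule.subset_span
    exact ⟨p i, hpA i, e i, Submodule.mem_top, rfl⟩
  have h5 : t = (p.sum fun i m => m ⊗ₜ[ℝ] e i) + LinearMap.lTensor E B.subtype u := by
    rw [hu]; abel
  rw [h5]
  exact Submodule.add_mem_sup h4 h3

theorem thm_Sep : St_Sep := by
  intro A B S hS t ht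
  exact Sep_gen A B S hS t ht

end Pool.MTV
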