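import Pool.Agent.MTV.StA2

/-!
# MTV, module ShB: the shuffle product by last letters, and reversal
-/

set_option autoImplicit false

open scoped TensorProduct

namespace Pool.MTV

private theorem ShB_pre (a : SignType) (w : Word) : pre a (wd w) = wd (a :: w) := by
  simp [pre, wd, Finsupp.lmapDomain_apply, Finsupp.mapDomain_single]

private theorem ShB_app (a : SignType) (w : Word) : app a (wd w) = wd (w ++ [a]) := by
  simp [app, wd, Finsupp.lmapDomain_apply, Finsupp.mapDomain_single]

private theorem ShB_rv (w : Word) : rv (wd w) = wd w.reverse := by
  simp [rv, wd, Finsupp.lmapDomain_apply, Finsupp.mapDomain_single]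

private theorem ShB_pre_app (a b : SignType) (x : V) : pre a (app b x) = app b (pre a x) := by
  simp only [pre, app, Finsupp.lmapDomain_apply, ← Finsupp.mapDomain_comp]
  rfl

private theorem ShB_rv_pre (a : SignType) (x : V) : rv (pre a x) = app a (rv x) := by
  simp only [pre, app, rv, Finsupp.lmapDomain_apply, ← Finsupp.mapDomain_comp]
  congr 1
  funext w
  simp

private theorem ShB_nil_left (v : Word) : sh [] v = wd v := by
  simp [sh]

private theorem ShB_nil_right (u : Word) : sh u [] = wd u := by
  cases u <;> simp [sh]

private theorem ShB_cons (a b : SignType) (u v : Word) :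
    sh (a :: u) (b :: v) = pre a (sh u (b :: v)) + pre b (sh (a :: u) v) := by
  simp [sh]

theorem thm_shLast : St_shLast := by
  intro a b u
  induction u with
  | nil =>
    intro v
    induction v with
    | nil =>
      simp only [List.nil_append]
      rw [ShB_cons, ShB_nil_left, ShB_nil_right, ShB_pre, ShB_pre, ShB_app, ShB_app, add_comm]
      rfl
    | cons y v ih =>
      simp only [List.nil_append, List.cons_append] at ih ⊢
      rw [ShB_cons, ih, ShB_cons, ShB_nil_left, ShB_nil_left, ShB_nil_left]
      simp only [map_add, ShB_pre, ShB_app, ShB_pre_app, List.cons_append]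
      abel
  | cons x u ihu =>
    intro v
    induction v with
    | nil =>
      have h := ihu []
      simp only [List.nil_append, List.cons_append] at h ⊢
      rw [ShB_cons, h, ShB_cons, ShB_nil_right, ShB_nil_right, ShB_nil_right]
      simp only [map_add, ShB_pre, ShB_app, ShB_pre_app, List.cons_append]
      abel
    | cons y v ihv =>
      have h := ihu (y :: v)
      simp only [List.cons_append] at h ihv ⊢
      rw [ShB_cons, h, ihv, ShB_cons, ShB_cons]
      simp only [map_add, ShB_pre_app]
      abel

theorem thm_shRev : St_shRev := by
  intro u
  induction u with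
  | nil =>
    intro v
    rw [ShB_nil_left, ShB_rv, List.reverse_nil, ShB_nil_left]
  | cons a u ihu =>
    intro v
    induction v with
    | nil => rw [ShB_nil_right, ShB_rv, List.reverse_nil, ShB_nil_right]
    | cons b v ihv =>
      rw [ShB_cons, map_add, ShB_rv_pre, ShB_rv_pre, ihu (b :: v), ihv, List.reverse_cons,
        List.reverse_cons, thm_shLast]

end Pool.MTV
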