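import Pool.Agent.MTV.LibA

/-!
# The factorisation of the period map
-/

open scoped TensorProduct

namespace Pool.MTV

private theorem Split_ev_add (c h : V →ₗ[ℝ] ℝ) (x : SignType) (p : Word) :
    ev (c + h) x p = ev c x p + ev h x p := rfl

private theorem Split_Dadd (c h : V →ₗ[ℝ] ℝ) (b : SignType) (w : Word) :
    ∀ a, Dw (c + h) b a w = Dw c b a w + Dw h b a w := by
  induction w with
  | nil => intro a; simp
  | cons x w ih =>
    intro a
    rw [lib_Dw_cons, lib_Dw_cons, lib_Dw_cons, ih x, map_add]
    have hP : Pr (c + h) a b (x :: w) = Pr c a b (x :: w) + Pr h a b (x :: w) := by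
      unfold Pr
      rw [← Finset.sum_add_distrib]
      refine Finset.sum_congr rfl fun i _ => ?_
      rw [Split_ev_add, Split_ev_add, ← add_smul]
      congr 1
      ring
    rw [hP]
    abel

private theorem Split_hom_lenEq (r m : ℕ) (f : V →ₗ[ℝ] ℝ) {x : V} (hx : x ∈ lenEq m) :
    hom r f x = if m = r then f x else 0 := by
  refine lib_lenEq_ind (P := fun x => hom r f x = if m = r then f x else 0) x hx ?_ ?_ ?_ ?_
  · simp
  · intro w hw
    rw [lib_hom, hw]
  · intro x y hx hy
    rw [map_add, hx, hy, map_add]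
    split_ifs <;> simp
  · intro r' x hx
    rw [map_smul, hx, map_smul]
    split_ifs <;> simp

private theorem Split_toPt_mem (a : SignType) {w : Word} (hw : w ≠ []) :
    toPt a w ∈ lenEq w.length := by
  by_cases ha : a = 0
  · subst ha
    rw [lib_toPt_zero hw]
    exact Submodule.zero_mem _
  · rw [lib_toPt_of_ne ha]
    exact lib_wd_mem_lenEq (by simp)

/-- Agreement on words of length at most n. -/
private def SplitAg (n : ℕ) (c c' : V →ₗ[ℝ] ℝ) : Prop := ∀ w : Word, w.length ≤ n → c (wd w) = c' (wd w)

private theorem Split_Ag_apply {n : ℕ} {c c' : V →ₗ[ℝ] ℝ} (h : SplitAg n c c') {x : V}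
    (hx : x ∈ lenLe n) : c x = c' x := by
  refine lib_lenLe_ind (P := fun x => c x = c' x) x hx (by simp) h ?_ ?_
  · intro x y hx hy
    rw [map_add, map_add, hx, hy]
  · intro r x hx
    rw [map_smul, map_smul, hx]

private theorem Split_D_eq (h2 : St_Dsum) {n : ℕ} {c c' : V →ₗ[ℝ] ℝ} (h : SplitAg n c c') {x : V}
    (hx : x ∈ lenLe n) : D c x = D c' x := by
  rw [h2 c n x hx, h2 c' n x hx]
  refine Finset.sum_congr rfl fun r hr => ?_
  have hh : hom r c = hom r c' := by
    apply lib_ext
    intro w
    rw [lib_hom, lib_hom]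
    split_ifs with hw
    · exact h w (by rw [hw]; exact (Finset.mem_Icc.1 hr).2)
    · rfl
  unfold Dr
  rw [hh]

private theorem Split_pow_eq (h2 : St_Dsum) {n : ℕ} {c c' : V →ₗ[ℝ] ℝ} (h : SplitAg n c c')
    (hm : ∀ x ∈ lenLe n, D c' x ∈ lenLe n) (j : ℕ) :
    ∀ x ∈ lenLe n, ((D c) ^ j) x = ((D c') ^ j) x := by
  induction j with
  | zero => intro x _; simp
  | succ j ih =>
    intro x hx
    rw [pow_succ, pow_succ, Module.End.mul_apply, Module.End.mul_apply, Split_D_eq h2 h hx]
    exact ih _ (hm x hx)

/-- The cuts of a word of length N by a functional of weight N. -/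
private theorem Split_D_top (h1 : St_Dhom) (f : V →ₗ[ℝ] ℝ) {w : Word} (hw : w ≠ []) :
    D (hom w.length f) (wd w) = f (wd w) • wd [] := by
  cases w with
  | nil => exact absurd rfl hw
  | cons x w =>
    rw [lib_D, lib_Dw_cons]
    have e1 : Dw (hom (x :: w).length f) 1 x w = 0 := by
      have := (h1 f x 1 (x :: w).length w.length (wd w) (lib_wd_mem_lenEq rfl)).2 (by simp)
      rwa [lib_DL] at this
    rw [e1, map_zero, add_zero]
    unfold Pr
    rw [List.length_cons, Finset.sum_range_succ]
    have e2 : ∑ i ∈ Finset.range w.length,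
        (ev (hom (w.length + 1) f) (hd 1 ((x :: w).drop (i + 1))) ((x :: w).take (i + 1)) -
          ev (hom (w.length + 1) f) 0 ((x :: w).take (i + 1))) • wd ((x :: w).drop (i + 1)) = 0 := by
      refine Finset.sum_eq_zero fun i hi => ?_
      have hi' := Finset.mem_range.1 hi
      have hl : ((x :: w).take (i + 1)).length = i + 1 := by
        rw [List.length_take, List.length_cons]
        omega
      have hne : (x :: w).take (i + 1) ≠ [] := by
        intro h
        rw [h] at hl
        simp at hl
      have hz : ∀ y : SignType, ev (hom (w.length + 1) f) y ((x :: w).take (i + 1)) = 0 := by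
        intro y
        unfold ev
        rw [Split_hom_lenEq _ _ f (Split_toPt_mem y hne), hl, if_neg (by omega)]
      rw [hz, hz, sub_zero, zero_smul]
    rw [e2, zero_add]
    have e3 : (x :: w).take (w.length + 1) = x :: w := by
      rw [List.take_of_length_le]
      simp
    have e4 : (x :: w).drop (w.length + 1) = [] := by
      rw [List.drop_eq_nil_iff]
      simp
    rw [e3, e4]
    change (ev (hom (w.length + 1) f) 1 (x :: w) - ev (hom (w.length + 1) f) 0 (x :: w)) • wd [] =
      f (wd (x :: w)) • wd []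
    rw [lib_ev_one, lib_ev_zero, lib_hom, sub_zero]
    rw [if_pos (by simp)]

/-- Data of one step. -/
private structure SplitInv (N : ℕ) (c : V →ₗ[ℝ] ℝ) : Prop where
  inf : InfChar c
  even : ∀ w : Word, Even w.length → c (wd w) = 0
  chi : ∀ w : Word, Odd w.length → w.length < N → chiF c (wd w) = 0

private theorem Split_chi_eq (h2 : St_Dsum) (h5 : St_Leib) (hM : St_PerMul) (hO : St_PerOne) {n : ℕ}
    {c c' : V →ₗ[ℝ] ℝ} (hc : InfChar c) (hc' : InfChar c') (h : SplitAg n c c') {x : V}
    (hx : x ∈ lenLe n) : chiF c x = chiF c' x := by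
  obtain ⟨-, -, h3, -, -⟩ := h5 hM hO c hc
  obtain ⟨-, -, h3', -, h5'⟩ := h5 hM hO c' hc'
  rw [h3 n x hx (n + 1) (Nat.lt_succ_self n), h3' n x hx (n + 1) (Nat.lt_succ_self n)]
  refine Finset.sum_congr rfl fun j _ => ?_
  rw [Split_pow_eq h2 h (fun x hx => h5' n x (lib_lenLe_mono (Nat.le_succ n) hx)) j x hx]

private theorem Split_step (h1 : St_Dhom) (h2 : St_Dsum) (h4 : St_shLen)
    (h5 : St_Leib) (hM : St_PerMul) (hO : St_PerOne) {N : ℕ} (hN : Odd N) {c : V →ₗ[ℝ] ℝ}
    (hc : SplitInv N c) : SplitInv (N + 1) (c + hom N (chiF c)) := by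
  obtain ⟨hmul, hone, hsum, hzero, hlow⟩ := h5 hM hO c hc.inf
  have hinf : InfChar (hom N (chiF c)) := by
    constructor
    · rw [lib_hom, if_neg]
      intro h
      rw [← h] at hN
      simp at hN
    · intro u v hu hv
      rw [Split_hom_lenEq N _ _ (h4 u v)]
      split_ifs with h
      · rw [← lib_mul, hmul]
        have hu' : 0 < u.length := List.length_pos_iff.2 hu
        have hv' : 0 < v.length := List.length_pos_iff.2 hv
        rcases Nat.even_or_odd u.length with he | ho
        · have hov : Odd v.length := by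
            rw [← h] at hN
            exact (Nat.odd_add.1 (by rwa [add_comm] at hN)).2 he
          rw [hc.chi v hov (by omega), mul_zero]
        · rw [hc.chi u ho (by omega), zero_mul]
      · rfl
  have hinf' : InfChar (c + hom N (chiF c)) := by
    constructor
    · rw [LinearMap.add_apply, hc.inf.one, hinf.one, add_zero]
    · intro u v hu hv
      rw [LinearMap.add_apply, hc.inf.sh u v hu hv, hinf.sh u v hu hv, add_zero]
  have hAg : ∀ n, n < N → SplitAg n (c + hom N (chiF c)) c := by
    intro n hn w hw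
    rw [LinearMap.add_apply, lib_hom, if_neg (by omega), add_zero]
  refine ⟨hinf', ?_, ?_⟩
  · intro w hw
    rw [LinearMap.add_apply, hc.even w hw, lib_hom, if_neg, add_zero]
    intro h
    rw [h] at hw
    exact (Nat.not_even_iff_odd.2 hN) hw
  · intro w hw hlt
    by_cases hwN : w.length = N
    · -- the new length
      have hwne : w ≠ [] := by
        rintro rfl
        simp at hw
      have hD : D (c + hom N (chiF c)) (wd w) = D c (wd w) + chiF c (wd w) • wd [] := by
        rw [← Split_D_top h1 (chiF c) hwne, hwN, lib_D, lib_D, lib_D, Split_Dadd]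
      obtain ⟨M, rfl⟩ : ∃ M, N = M + 1 := ⟨N - 1, by
        have : 0 < N := hN.pos
        omega⟩
      have hDw : D c (wd w) ∈ lenLe M := hlow M (wd w) (lib_wd_mem_lenLe hwN.le)
      have hpow : ∀ j, ((D (c + hom (M + 1) (chiF c))) ^ (j + 1)) (wd w) =
          ((D c) ^ (j + 1)) (wd w) + (if j = 0 then chiF c (wd w) • wd [] else 0) := by
        intro j
        rw [pow_succ, pow_succ, Module.End.mul_apply, Module.End.mul_apply, hD, map_add]
        rw [Split_pow_eq h2 (hAg M (Nat.lt_succ_self M))
          (fun x hx => hlow M x (lib_lenLe_mono (Nat.le_succ M) hx)) j _ hDw]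
        congr 1
        cases j with
        | zero => simp
        | succ j =>
          rw [if_neg (Nat.succ_ne_zero j), map_smul, pow_succ, Module.End.mul_apply, lib_D,
            lib_Dw_nil, map_zero, smul_zero]
      have e1 : chiF (c + hom (M + 1) (chiF c)) (wd w) =
          chiF c (wd w) - chiF c (wd w) * Per (wd []) := by
        rw [lib_chiF, hwN]
        have e2 := lib_chiF c w
        rw [hwN] at e2
        rw [Finset.sum_range_succ'] at e2 ⊢
        have e3 : ∀ j ∈ Finset.range (M + 1),
            ((-1 : ℝ) ^ (j + 1) / ((j + 1).factorial : ℝ)) *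
              Per (((D (c + hom (M + 1) (chiF c))) ^ (j + 1)) (wd w)) =
            ((-1 : ℝ) ^ (j + 1) / ((j + 1).factorial : ℝ)) * Per (((D c) ^ (j + 1)) (wd w)) +
            (if j = 0 then - (chiF c (wd w) * Per (wd [])) else 0) := by
          intro j _
          rw [hpow j, map_add, mul_add]
          congr 1
          split_ifs with hj
          · subst hj
            rw [map_smul, smul_eq_mul]
            simp
          · simp
        rw [Finset.sum_congr rfl e3, Finset.sum_add_distrib]
        rw [Finset.sum_ite_eq' (Finset.range (M + 1)) 0 (fun _ => - (chiF c (wd w) * Per (wd [])))]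
        rw [if_pos (Finset.mem_range.2 (Nat.succ_pos M))]
        simp only [pow_zero] at e2 ⊢
        linarith [e2]
      rw [e1, hO, mul_one, sub_self]
    · have hlt' : w.length < N := by omega
      rw [Split_chi_eq h2 h5 hM hO hinf' hc.inf (hAg w.length hlt') (lib_wd_mem_lenLe le_rfl)]
      exact hc.chi w hw hlt'

open Classical in
/-- The approximations of c. -/
private noncomputable def SplitC : ℕ → (V →ₗ[ℝ] ℝ)
  | 0 => 0
  | N + 1 => if Odd N then SplitC N + hom N (chiF (SplitC N)) else SplitC N

private theorem Split_inv (h1 : St_Dhom) (h2 : St_Dsum) (h4 : St_shLen)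
    (h5 : St_Leib) (hM : St_PerMul) (hO : St_PerOne) (N : ℕ) : SplitInv N (SplitC N) := by
  induction N with
  | zero =>
    refine ⟨⟨rfl, fun _ _ _ _ => rfl⟩, fun _ _ => rfl, fun w _ h => absurd h (Nat.not_lt_zero _)⟩
  | succ N ih =>
    by_cases hN : Odd N
    · have e : SplitC (N + 1) = SplitC N + hom N (chiF (SplitC N)) := by
        conv_lhs => unfold SplitC
        rw [if_pos hN]
      rw [e]
      exact Split_step h1 h2 h4 h5 hM hO hN ih
    · have e : SplitC (N + 1) = SplitC N := by
        conv_lhs => unfold SplitC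
        rw [if_neg hN]
      rw [e]
      refine ⟨ih.inf, ih.even, fun w hw hlt => ih.chi w hw ?_⟩
      have : w.length ≠ N := by
        intro h
        rw [h] at hw
        exact hN hw
      omega

private theorem Split_stable (w : Word) (k : ℕ) :
    SplitC (w.length + 1 + k) (wd w) = SplitC (w.length + 1) (wd w) := by
  induction k with
  | zero => rfl
  | succ k ih =>
    rw [← ih]
    by_cases hN : Odd (w.length + 1 + k)
    · have e : SplitC (w.length + 1 + (k + 1)) = SplitC (w.length + 1 + k) +
          hom (w.length + 1 + k) (chiF (SplitC (w.length + 1 + k))) := by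
        rw [← add_assoc]
        conv_lhs => unfold SplitC
        rw [if_pos hN]
      rw [e, LinearMap.add_apply, lib_hom, if_neg (by omega), add_zero]
    · have e : SplitC (w.length + 1 + (k + 1)) = SplitC (w.length + 1 + k) := by
        rw [← add_assoc]
        conv_lhs => unfold SplitC
        rw [if_neg hN]
      rw [e]

private theorem Split_bin (k : ℕ) :
    ∑ p ∈ Finset.HasAntidiagonal.antidiagonal k, (1 / (p.1.factorial : ℝ)) * ((-1 : ℝ) ^ p.2 / (p.2.factorial : ℝ)) =
      if k = 0 then 1 else 0 := by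
  have h1 : ∑ p ∈ Finset.HasAntidiagonal.antidiagonal k,
      (1 / (p.1.factorial : ℝ)) * ((-1 : ℝ) ^ p.2 / (p.2.factorial : ℝ)) =
      (1 / (k.factorial : ℝ)) * (1 + (-1 : ℝ)) ^ k := by
    rw [Commute.add_pow' (Commute.all (1 : ℝ) (-1)) k, Finset.mul_sum]
    refine Finset.sum_congr rfl fun p hp => ?_
    have hp' := Finset.HasAntidiagonal.mem_antidiagonal.1 hp
    have hc := Nat.add_choose_mul_factorial_mul_factorial p.2 p.1
    rw [add_comm p.2 p.1, hp'] at hc
    have hc' : ((k.choose p.1 : ℕ) : ℝ) * (p.2.factorial : ℝ) * (p.1.factorial : ℝ) =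
        (k.factorial : ℝ) := by exact_mod_cast hc
    have f1 : (p.1.factorial : ℝ) ≠ 0 := by exact_mod_cast Nat.factorial_ne_zero _
    have f2 : (p.2.factorial : ℝ) ≠ 0 := by exact_mod_cast Nat.factorial_ne_zero _
    have f3 : (k.factorial : ℝ) ≠ 0 := by exact_mod_cast Nat.factorial_ne_zero _
    rw [nsmul_eq_mul, one_pow, one_mul]
    have hC : ((k.choose p.1 : ℕ) : ℝ) = (k.factorial : ℝ) / ((p.2.factorial : ℝ) *
        (p.1.factorial : ℝ)) := by
      rw [eq_div_iff (mul_ne_zero f2 f1), ← mul_assoc]
      exact hc'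
    rw [hC]
    field_simp
  rw [h1]
  split_ifs with h
  · subst h
    simp
  · rw [add_neg_cancel, zero_pow h, mul_zero]

private theorem Split_sum (n : ℕ) (P : ℕ → ℝ) (hP : ∀ k, n < k → P k = 0) :
    ∑ j ∈ Finset.range (n + 1), (1 / (j.factorial : ℝ)) *
      ∑ i ∈ Finset.range (n + 1), ((-1 : ℝ) ^ i / (i.factorial : ℝ)) * P (i + j) = P 0 := by
  have e1 : ∑ j ∈ Finset.range (n + 1), (1 / (j.factorial : ℝ)) *
      ∑ i ∈ Finset.range (n + 1), ((-1 : ℝ) ^ i / (i.factorial : ℝ)) * P (i + j) =
      ∑ p ∈ Finset.range (n + 1) ×ˢ Finset.range (n + 1),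
        ((1 / (p.1.factorial : ℝ)) * ((-1 : ℝ) ^ p.2 / (p.2.factorial : ℝ))) * P (p.1 + p.2) := by
    rw [Finset.sum_product]
    refine Finset.sum_congr rfl fun j _ => ?_
    rw [Finset.mul_sum]
    refine Finset.sum_congr rfl fun i _ => ?_
    rw [add_comm i j]
    ring
  rw [e1]
  rw [← Finset.sum_fiberwise_of_maps_to (s := Finset.range (n + 1) ×ˢ Finset.range (n + 1))
    (t := Finset.range (2 * n + 1)) (g := fun p : ℕ × ℕ => p.1 + p.2)]
  · have e2 : ∀ k ∈ Finset.range (2 * n + 1),
        ∑ p ∈ (Finset.range (n + 1) ×ˢ Finset.range (n + 1)).filter (fun p => p.1 + p.2 = k),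
          ((1 / (p.1.factorial : ℝ)) * ((-1 : ℝ) ^ p.2 / (p.2.factorial : ℝ))) * P (p.1 + p.2) =
        if k = 0 then P 0 else 0 := by
      intro k _
      have e3 : ∑ p ∈ (Finset.range (n + 1) ×ˢ Finset.range (n + 1)).filter
            (fun p => p.1 + p.2 = k),
          ((1 / (p.1.factorial : ℝ)) * ((-1 : ℝ) ^ p.2 / (p.2.factorial : ℝ))) * P (p.1 + p.2) =
          (∑ p ∈ (Finset.range (n + 1) ×ˢ Finset.range (n + 1)).filter (fun p => p.1 + p.2 = k),
            (1 / (p.1.factorial : ℝ)) * ((-1 : ℝ) ^ p.2 / (p.2.factorial : ℝ))) * P k := by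
        rw [Finset.sum_mul]
        refine Finset.sum_congr rfl fun p hp => ?_
        rw [(Finset.mem_filter.1 hp).2]
      rw [e3]
      by_cases hk : k ≤ n
      · have e4 : (Finset.range (n + 1) ×ˢ Finset.range (n + 1)).filter
            (fun p => p.1 + p.2 = k) = Finset.HasAntidiagonal.antidiagonal k := by
          ext p
          simp only [Finset.mem_filter, Finset.mem_product, Finset.mem_range,
            Finset.HasAntidiagonal.mem_antidiagonal]
          constructor
          · exact fun h => h.2
          · intro h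
            exact ⟨⟨by omega, by omega⟩, h⟩
        rw [e4, Split_bin]
        split_ifs with h
        · rw [h, one_mul]
        · rw [zero_mul]
      · rw [hP k (by omega), mul_zero, if_neg (by omega)]
    rw [Finset.sum_congr rfl e2, Finset.sum_ite_eq' (Finset.range (2 * n + 1)) 0 (fun _ => P 0)]
    rw [if_pos (Finset.mem_range.2 (Nat.succ_pos _))]
  · intro p hp
    simp only [Finset.mem_product, Finset.mem_range] at hp ⊢
    omega

theorem thm_Split (h1 : St_Dhom) (h2 : St_Dsum) (_h3 : St_homInf) (h4 : St_shLen) (h5 : St_Leib) :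
    St_Split := by
  intro hM hO
  have hinv := Split_inv h1 h2 h4 h5 hM hO
  let c : V →ₗ[ℝ] ℝ := Finsupp.linearCombination ℝ (fun w : Word => SplitC (w.length + 1) (wd w))
  have hcw : ∀ w, c (wd w) = SplitC (w.length + 1) (wd w) := fun w => lib_lc _ w
  have hAg : ∀ n, SplitAg n c (SplitC (n + 1)) := by
    intro n w hw
    rw [hcw]
    obtain ⟨k, hk⟩ := Nat.exists_eq_add_of_le hw
    rw [hk, ← Split_stable w k]
    congr 2
    omega
  have hinf : InfChar c := by
    constructor
    · rw [hcw]
      exact (hinv _).inf.one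
    · intro u v hu hv
      rw [Split_Ag_apply (hAg (u.length + v.length)) (lib_lenEq_le_lenLe le_rfl (h4 u v))]
      exact (hinv _).inf.sh u v hu hv
  obtain ⟨hmul, hone, hsum, hzero, hlow⟩ := h5 hM hO c hinf
  refine ⟨c, chiF c, hinf, ?_, hmul, hone, ?_, ?_⟩
  · intro w hw
    rw [hcw]
    exact (hinv _).even w hw
  · intro w hw
    rw [Split_chi_eq h2 h5 hM hO hinf (hinv (w.length + 1)).inf (hAg w.length)
      (lib_wd_mem_lenLe le_rfl)]
    exact (hinv (w.length + 1)).chi w hw (Nat.lt_succ_self _)
  · intro n x hx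
    have hmem : ∀ j, ((D c) ^ j) x ∈ lenLe n := by
      intro j
      induction j with
      | zero => simpa using hx
      | succ j ih =>
        rw [pow_succ', Module.End.mul_apply]
        exact hlow n _ (lib_lenLe_mono (Nat.le_succ n) ih)
    have e1 : ∀ j ∈ Finset.range (n + 1), (1 / (j.factorial : ℝ)) * chiF c (((D c) ^ j) x) =
        (1 / (j.factorial : ℝ)) * ∑ i ∈ Finset.range (n + 1),
          ((-1 : ℝ) ^ i / (i.factorial : ℝ)) * (fun k => Per (((D c) ^ k) x)) (i + j) := by
      intro j _
      rw [hsum n _ (hmem j) (n + 1) (Nat.lt_succ_self n)]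
      congr 1
      refine Finset.sum_congr rfl fun i _ => ?_
      change _ = ((-1 : ℝ) ^ i / (i.factorial : ℝ)) * Per (((D c) ^ (i + j)) x)
      rw [pow_add, Module.End.mul_apply]
    rw [Finset.sum_congr rfl e1, Split_sum n (fun k => Per (((D c) ^ k) x))]
    · simp
    · intro k hk
      rw [hzero n x hx k hk, map_zero]

end Pool.MTV
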