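import Pool.Agent.MTV.StA2

/-!
# Cuts and homotheties
-/

open scoped TensorProduct

namespace Pool.MTV

private theorem ToD_ext {M : Type} [AddCommMonoid M] [Module ℝ M] (f g : V →ₗ[ℝ] M)
    (h : ∀ w : Word, f (wd w) = g (wd w)) : f = g := by
  refine Finsupp.lhom_ext fun w r => ?_
  have h1 : (Finsupp.single w r : V) = r • wd w := by
    rw [wd, Finsupp.smul_single, smul_eq_mul, mul_one]
  rw [h1, map_smul, map_smul, h w]

private theorem ToD_lc {M : Type} [AddCommMonoid M] [Module ℝ M] (f : Word → M) (w : Word) :
    Finsupp.linearCombination ℝ f (wd w) = f w := by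
  rw [wd, Finsupp.linearCombination_single, one_smul]

private theorem ToD_pre (x : SignType) (w : Word) : pre x (wd w) = wd (x :: w) := by
  rw [pre, wd, Finsupp.lmapDomain_apply, Finsupp.mapDomain_single]
  rfl

private theorem ToD_toPt_nil (a : SignType) : toPt a [] = wd [] := by
  unfold toPt
  simp

private theorem ToD_cases (b : SignType) : b = 1 ∨ b = -1 ∨ b = 0 := by
  revert b
  decide

private theorem ToD_toPt_neg (y : SignType) (p : Word) :
    toPt (-y) (p.map (fun x => -1 * x)) = toPt y p := by
  unfold toPt
  by_cases hy : y = 0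
  · subst hy
    simp
  · have hy' : -y ≠ 0 := by
      revert hy
      revert y
      decide
    rw [if_neg hy', if_neg hy, List.map_map]
    congr 2
    funext x
    show -y * (-1 * x) = y * x
    revert x y
    decide

private theorem ToD_hd_neg (v : Word) :
    hd 1 (v.map (fun x => -1 * x)) = - hd (-1) v := by
  cases v with
  | nil => simp [hd]
  | cons x v =>
    simp only [List.map_cons, hd]
    revert x
    decide

private theorem ToD_toL_pre (x : SignType) (y : V) :
    toL (-1) (pre x y) = pre (-1 * x) (toL (-1) y) := by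
  have : (toL (-1)) ∘ₗ (pre x) = (pre (-1 * x)) ∘ₗ (toL (-1)) := by
    apply ToD_ext
    intro w
    rw [LinearMap.comp_apply, LinearMap.comp_apply, ToD_pre, toL, ToD_lc, ToD_lc]
    unfold toPt
    rw [if_neg (by decide), if_neg (by decide), ToD_pre, List.map_cons]
  exact LinearMap.congr_fun this y

private theorem ToD_neg (c : V →ₗ[ℝ] ℝ) (w : Word) : ∀ a : SignType,
    Dw c 1 (-a) (w.map (fun x => -1 * x)) = toL (-1) (Dw c (-1) a w) := by
  induction w with
  | nil =>
    intro a
    simp [Dw]
  | cons x w ih =>
    intro a
    rw [List.map_cons, Dw, Dw, map_add, ToD_toL_pre]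
    have hx : -1 * x = - x := by
      revert x
      decide
    congr 1
    · rw [Pr, Pr, map_sum, ← List.map_cons (f := fun x => -1 * x), List.length_map]
      refine Finset.sum_congr rfl fun i _ => ?_
      rw [map_smul, toL, ToD_lc, ← List.map_take, ← List.map_drop]
      congr 1
      · rw [ToD_hd_neg]
        unfold ev
        rw [ToD_toPt_neg, ToD_toPt_neg]
    · rw [hx, ih x]

private theorem ToD_zero_pre (x : SignType) (y : V) : toL 0 (pre x y) = 0 := by
  have : (toL 0) ∘ₗ (pre x) = 0 := by
    apply ToD_ext
    intro w
    rw [LinearMap.comp_apply, ToD_pre, toL, ToD_lc]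
    simp [toPt]
  exact LinearMap.congr_fun this y

private theorem ToD_zero (c : V →ₗ[ℝ] ℝ) (b a : SignType) (w : Word) :
    toL 0 (Dw c b a w) = (ev c b w - ev c a w) • wd [] := by
  cases w with
  | nil =>
    unfold ev
    rw [ToD_toPt_nil, ToD_toPt_nil, sub_self, zero_smul, Dw, map_zero]
  | cons x w =>
    rw [Dw, map_add, ToD_zero_pre, add_zero, Pr, map_sum]
    rw [Finset.sum_eq_single w.length]
    · rw [map_smul, toL, ToD_lc]
      have h1 : (x :: w).take (w.length + 1) = x :: w := by simp
      have h2 : (x :: w).drop (w.length + 1) = [] := by simp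
      rw [h1, h2, ToD_toPt_nil, hd]
    · intro i hi hne
      rw [map_smul, toL, ToD_lc]
      have h1 : i < w.length := by
        rw [Finset.mem_range, List.length_cons] at hi
        omega
      have h2 : (x :: w).drop (i + 1) ≠ [] := by
        rw [List.drop_succ_cons, Ne, List.drop_eq_nil_iff]
        omega
      unfold toPt
      rw [if_pos rfl, if_neg h2, smul_zero]
    · intro h
      exfalso
      apply h
      simp

theorem thm_toD : St_toD := by
  intro c hc b x
  have : (D c) ∘ₗ (toL b) = (toL b) ∘ₗ (DL c 0 b) := by
    apply ToD_ext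
    intro w
    rw [LinearMap.comp_apply, LinearMap.comp_apply]
    have e1 : toL b (wd w) = toPt b w := by rw [toL, ToD_lc]
    have e2 : DL c 0 b (wd w) = Dw c b 0 w := by rw [DL, ToD_lc]
    rw [e1, e2]
    have e3 : ∀ v : Word, D c (wd v) = Dw c 1 0 v := fun v => by rw [D, DL, ToD_lc]
    rcases ToD_cases b with hb | hb | hb
    · subst hb
      have h1 : ∀ v : Word, toPt 1 v = wd v := by
        intro v
        unfold toPt
        rw [if_neg (by decide)]
        simp
      have h2 : toL 1 = LinearMap.id := by
        apply ToD_ext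
        intro v
        rw [toL, ToD_lc, h1]
        rfl
      rw [h1, h2, e3]
      rfl
    · subst hb
      have h1 : toPt (-1) w = wd (w.map (fun x => -1 * x)) := by
        unfold toPt
        rw [if_neg (by decide)]
      rw [h1, e3, ← ToD_neg]
      rfl
    · subst hb
      rw [ToD_zero, sub_self, zero_smul]
      unfold toPt
      rw [if_pos rfl]
      split_ifs
      · rw [e3, Dw]
      · rw [map_zero]
  exact LinearMap.congr_fun this x

theorem thm_ILdec : St_ILdec := by
  intro a b x
  have : IL a b = mulT ∘ₗ (TensorProduct.map (toL a ∘ₗ anti) (toL b)) ∘ₗ decL := by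
    apply ToD_ext
    intro w
    rw [LinearMap.comp_apply, LinearMap.comp_apply]
    have e1 : IL a b (wd w) = II a w b := by rw [IL, ToD_lc]
    have e2 : decL (wd w) = dec w := by rw [decL, ToD_lc]
    rw [e1, e2, II, dec, map_sum, map_sum]
    refine Finset.sum_congr rfl fun i hi => ?_
    have hi' : i ≤ w.length := by
      rw [Finset.mem_range] at hi
      omega
    rw [TensorProduct.map_tmul, LinearMap.comp_apply]
    have e3 : anti (wd (w.take i)) = ((-1 : ℝ) ^ i) • wd (w.take i).reverse := by
      rw [anti, ToD_lc, List.length_take, min_eq_left hi']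
    have e4 : ∀ (y : SignType) (v : Word), toL y (wd v) = toPt y v := fun y v => by
      rw [toL, ToD_lc]
    rw [e3, map_smul, e4, e4, mulT, TensorProduct.lift.tmul, map_smul, LinearMap.smul_apply]
  exact LinearMap.congr_fun this x

end Pool.MTV
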