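import Pool.Agent.MTV.StA2

/-!
# ZetaD: the derivations kill zeta(2)
-/

open scoped TensorProduct

namespace Pool.MTV

private theorem ZetaD_zero (c : V →ₗ[ℝ] ℝ) (hc : c (wd [1, 0]) = 0) : D c zeta2 = 0 := by
  have h1 : D c zeta2 = Dw c 1 0 [1, 0] := by
    unfold D DL zeta2 wd
    rw [Finsupp.linearCombination_single, one_smul]
  rw [h1]
  have h2 : Dw c 1 1 [0] = 0 := by
    simp [Dw, Pr, hd]
  have h3 : Pr c 0 1 [1, 0] = 0 := by
    have h4 : ev c 1 [1, 0] = 0 := by
      have : toPt 1 [1, 0] = wd [1, 0] := by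
        simp [toPt]
      rw [ev, this, hc]
    have h5 : ev c 0 [1, 0] = 0 := by
      simp [ev, toPt]
    simp [Pr, hd, Finset.sum_range_succ, h4, h5]
  change Pr c 0 1 [1, 0] + pre 1 (Dw c 1 1 [0]) = 0
  rw [h2, h3]
  simp

theorem thm_zetaD (h1 : St_deriv) : St_zetaD := by
  refine ⟨fun c hc h0 => ?_, fun c χ hs => ?_⟩
  · have h2 := ZetaD_zero c h0
    refine ⟨h2, fun y => ?_⟩
    have h3 := h1 c hc 0 1 zeta2 y
    change D c (mul zeta2 y) = mul (D c zeta2) y + mul zeta2 (D c y) at h3
    rw [h3, h2]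
    simp
  · have h0 : c (wd [1, 0]) = 0 := hs.odd _ (by decide)
    have h2 := ZetaD_zero c h0
    have hmem : zeta2 ∈ lenLe 2 := by
      unfold zeta2 wd lenLe
      rw [Finsupp.mem_supported]
      refine (Finset.coe_subset.mpr Finsupp.support_single_subset).trans ?_
      simp
    have h3 := hs.exp 2 zeta2 hmem
    simp only [Finset.sum_range_succ, Finset.sum_range_zero, pow_zero, pow_one, pow_two,
      Module.End.one_apply, Module.End.mul_apply, h2, map_zero, mul_zero, add_zero,
      Nat.factorial_zero, Nat.cast_one, div_one, one_mul, zero_add] at h3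
    exact h3.symm

end Pool.MTV
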