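import Pool.Agent.MTV.ShA
import Pool.Agent.MTV.ShB
import Pool.Agent.MTV.Ant
import Pool.Agent.MTV.Sder
import Pool.Agent.MTV.Der
import Pool.Agent.MTV.DecD
import Pool.Agent.MTV.LastD
import Pool.Agent.MTV.ToD
import Pool.Agent.MTV.AntiD
import Pool.Agent.MTV.CompI
import Pool.Agent.MTV.CopU
import Pool.Agent.MTV.CopD
import Pool.Agent.MTV.Dhom
import Pool.Agent.MTV.Leib
import Pool.Agent.MTV.Split
import Pool.Agent.MTV.Sep
import Pool.Agent.MTV.CoLen
import Pool.Agent.MTV.ZetaD
import Pool.Agent.MTV.KA
import Pool.Agent.MTV.KK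

/-!
# The algebra half, assembled
-/

namespace Pool.MTV

theorem all_charTo : St_charTo := thm_charTo thm_shMap thm_shLen

theorem all_Sder : St_Sder := thm_Sder thm_mulFirst thm_mulComm

theorem all_deriv : St_deriv := thm_deriv thm_mulFirst thm_mulComm all_charTo all_Sder

theorem all_antiD : St_antiD := thm_antiD thm_charRev thm_lastD

theorem all_compI : St_compI := thm_compI all_deriv thm_decD thm_toD all_antiD thm_ILdec

theorem all_copD : St_copD := thm_copD all_deriv thm_ptD all_compI thm_copU

theorem all_homInf : St_homInf := thm_homInf thm_shLen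

theorem all_Leib : St_Leib := thm_Leib all_deriv thm_shLen

theorem all_Split : St_Split := thm_Split thm_Dhom thm_Dsum all_homInf thm_shLen all_Leib

theorem all_coLen : St_coLen := thm_coLen thm_shLen

theorem all_zetaD : St_zetaD := thm_zetaD all_deriv

theorem all_KA (h : St_PerZeta2) : St_KA :=
  thm_KA all_copD all_homInf thm_Dhom all_coLen all_zetaD thm_shLen h

/-- Homogeneous elements killed by all chi o D_l are relations. -/
theorem all_K (h : St_PerZeta2) : St_K :=
  thm_K all_copD all_homInf thm_Dhom thm_Dsum all_coLen thm_Sep (all_KA h)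

end Pool.MTV
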