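import Pool.Agent.MTV.StA2

/-!
# Algebra: the subspace K (St_K)
-/

open scoped TensorProduct

namespace Pool.MTV

/-! ### parts -/

private theorem KK_mem_lenEq {n : ℕ} {x : V} : x ∈ lenEq n ↔ ∀ w ∈ x.support, w.length = n := by
  unfold lenEq
  rw [Finsupp.mem_supported]
  rfl

private theorem KK_mem_lenLe {n : ℕ} {x : V} : x ∈ lenLe n ↔ ∀ w ∈ x.support, w.length ≤ n := by
  unfold lenLe
  rw [Finsupp.mem_supported]
  rfl

private theorem KK_le {n : ℕ} {x : V} (h : x ∈ lenEq n) : x ∈ lenLe n := by
  rw [KK_mem_lenLe]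
  intro w hw
  exact (KK_mem_lenEq.1 h w hw).le

private theorem KK_part_mem (n : ℕ) (x : V) : part n x ∈ lenEq n := by
  rw [KK_mem_lenEq]
  intro w hw
  unfold part at hw
  rw [Finsupp.support_filter, Finset.mem_filter] at hw
  exact hw.2

private theorem KK_part_self {n : ℕ} {x : V} (h : x ∈ lenEq n) : part n x = x := by
  unfold part
  rw [Finsupp.filter_eq_self_iff]
  intro w hw
  exact KK_mem_lenEq.1 h w (Finsupp.mem_support_iff.2 hw)

private theorem KK_part_ne {n m : ℕ} {x : V} (h : x ∈ lenEq n) (hm : m ≠ n) : part m x = 0 := by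
  unfold part
  rw [Finsupp.filter_eq_zero_iff]
  intro w hw
  by_contra hc
  exact hm (hw.symm.trans (KK_mem_lenEq.1 h w (Finsupp.mem_support_iff.2 hc)))

private theorem KK_part_add (n : ℕ) (x y : V) : part n (x + y) = part n x + part n y := by
  unfold part
  exact Finsupp.filter_add

private theorem KK_part_smul (n : ℕ) (r : ℝ) (x : V) : part n (r • x) = r • part n x := by
  unfold part
  exact Finsupp.filter_smul

private theorem KK_part_zero (n : ℕ) : part n 0 = 0 := by
  unfold part
  exact Finsupp.filter_zero _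

private theorem KK_sum_parts (x : V) : ∃ N : ℕ, x = ∑ n ∈ Finset.range N, part n x := by
  refine ⟨x.support.sup (fun w => w.length) + 1, ?_⟩
  ext w
  rw [Finsupp.finsetSum_apply]
  by_cases hw : w ∈ x.support
  · have h1 : w.length ∈ Finset.range (x.support.sup (fun w => w.length) + 1) := by
      rw [Finset.mem_range]
      exact Nat.lt_succ_of_le (Finset.le_sup (f := fun w : Word => w.length) hw)
    rw [Finset.sum_eq_single_of_mem _ h1]
    · unfold part
      rw [Finsupp.filter_apply_pos]
      rfl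
    · intro m _ hm
      unfold part
      rw [Finsupp.filter_apply_neg]
      exact fun h => hm h.symm
  · have h0 : x w = 0 := by
      by_contra hc
      exact hw (Finsupp.mem_support_iff.2 hc)
    rw [h0]
    symm
    apply Finset.sum_eq_zero
    intro m _
    unfold part
    by_cases h : w.length = m
    · rw [Finsupp.filter_apply_pos (fun w : Word => w.length = m) x h, h0]
    · rw [Finsupp.filter_apply_neg (fun w : Word => w.length = m) x h]

/-! ### the zero functional -/

private theorem KK_D_zero : D 0 = 0 := by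
  have h1 : ∀ (b a : SignType) (w : Word), Dw 0 b a w = 0 := by
    intro b a w
    induction w generalizing a with
    | nil => rfl
    | cons x w ih =>
      unfold Dw
      rw [ih x, map_zero, add_zero]
      unfold Pr ev
      simp
  unfold D DL
  apply Finsupp.lhom_ext
  intro w r
  rw [Finsupp.linearCombination_single, h1]
  simp

private theorem KK_hom_even {c χ : V →ₗ[ℝ] ℝ} (hs : Split c χ) {r : ℕ} (hr : Even r) :
    hom r c = 0 := by
  unfold hom
  apply Finsupp.lhom_ext
  intro w a
  rw [Finsupp.linearCombination_single]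
  by_cases h : w.length = r
  · rw [if_pos h, hs.odd w (h ▸ hr)]
    simp
  · rw [if_neg h]
    simp

private theorem KK_Dr_even {c χ : V →ₗ[ℝ] ℝ} (hs : Split c χ) {r : ℕ} (hr : Even r) (x : V) :
    Dr c r x = 0 := by
  unfold Dr
  rw [KK_hom_even hs hr, KK_D_zero]
  rfl

/-! ### products of the derivations -/

private theorem KK_Dl_append (c : V →ₗ[ℝ] ℝ) (l l' : List ℕ) (x : V) :
    Dl c (l ++ l') x = Dl c l' (Dl c l x) := by
  induction l generalizing x with
  | nil => rfl
  | cons r l ih =>
    rw [List.cons_append]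
    show Dl c (l ++ l') (Dr c r x) = Dl c l' (Dl c l (Dr c r x))
    exact ih _

private theorem KK_Dl_hom (h3 : St_Dhom) (c : V →ₗ[ℝ] ℝ) (l : List ℕ) (n : ℕ) (x : V)
    (hx : x ∈ lenEq n) :
    (l.sum ≤ n → Dl c l x ∈ lenEq (n - l.sum)) ∧ (n < l.sum → Dl c l x = 0) := by
  induction l generalizing x n with
  | nil =>
    refine ⟨fun _ => ?_, fun h => by simp at h⟩
    rw [List.sum_nil, Nat.sub_zero]
    exact hx
  | cons r l ih =>
    have h := h3 c 0 1 r n x hx
    rw [List.sum_cons]
    show (r + l.sum ≤ n → Dl c l (Dr c r x) ∈ _) ∧ (_ → Dl c l (Dr c r x) = 0)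
    by_cases hr : r ≤ n
    · have h4 : Dr c r x ∈ lenEq (n - r) := h.1 hr
      obtain ⟨i1, i2⟩ := ih (n - r) (Dr c r x) h4
      refine ⟨fun h5 => ?_, fun h5 => i2 (by omega)⟩
      have h6 := i1 (by omega)
      rwa [Nat.sub_sub] at h6
    · have h4 : Dr c r x = 0 := h.2 (by omega)
      rw [h4, map_zero]
      exact ⟨fun _ => Submodule.zero_mem _, fun _ => rfl⟩

private theorem KK_eps_ne {n : ℕ} (hn : n ≠ 0) {x : V} (hx : x ∈ lenEq n) : eps x = 0 := by
  unfold eps
  rw [Finsupp.linearCombination_apply]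
  apply Finset.sum_eq_zero
  intro w hw
  have h1 := KK_mem_lenEq.1 hx w hw
  have h2 : w ≠ [] := by
    rintro rfl
    exact hn h1.symm
  simp only [if_neg h2, smul_zero]

private theorem KK_eps_Dl (h3 : St_Dhom) (c : V →ₗ[ℝ] ℝ) (l : List ℕ) (n : ℕ) (x : V)
    (hx : x ∈ lenEq n) (hn : n ≠ l.sum) : eps (Dl c l x) = 0 := by
  obtain ⟨h4, h5⟩ := KK_Dl_hom h3 c l n x hx
  rcases lt_or_ge n l.sum with h | h
  · rw [h5 h, map_zero]
  · exact KK_eps_ne (by omega) (h4 h)

/-! ### the subspace -/

private noncomputable def KK_J (c χ : V →ₗ[ℝ] ℝ) : Submodule ℝ V where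
  carrier := {x | ∀ (n : ℕ) (l : List ℕ), (∀ r ∈ l, Odd r) → χ (Dl c l (part n x)) = 0}
  add_mem' := by
    intro x y hx hy n l hl
    rw [KK_part_add, map_add, map_add, hx n l hl, hy n l hl, add_zero]
  zero_mem' := by
    intro n l _
    rw [KK_part_zero, map_zero, map_zero]
  smul_mem' := by
    intro r x hx n l hl
    rw [KK_part_smul, map_smul, map_smul, hx n l hl, smul_zero]

private theorem KK_mem_J {c χ : V →ₗ[ℝ] ℝ} {x : V} : x ∈ KK_J c χ ↔
    ∀ (n : ℕ) (l : List ℕ), (∀ r ∈ l, Odd r) → χ (Dl c l (part n x)) = 0 := Iff.rfl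

private theorem KK_mem_J_of {c χ : V →ₗ[ℝ] ℝ} {n : ℕ} {x : V} (hx : x ∈ lenEq n)
    (h : ∀ l : List ℕ, (∀ r ∈ l, Odd r) → χ (Dl c l x) = 0) : x ∈ KK_J c χ := by
  rw [KK_mem_J]
  intro m l hl
  by_cases hm : m = n
  · rw [hm, KK_part_self hx]
    exact h l hl
  · rw [KK_part_ne hx hm, map_zero, map_zero]

private theorem KK_graded {c χ : V →ₗ[ℝ] ℝ} {x : V} (hx : x ∈ KK_J c χ) (n : ℕ) :
    part n x ∈ KK_J c χ :=
  KK_mem_J_of (KK_part_mem n x) (fun l hl => hx n l hl)

/-! ### the period map -/

private theorem KK_pow (h3 : St_Dhom) (h4 : St_Dsum) {c χ : V →ₗ[ℝ] ℝ} (hs : Split c χ) (j : ℕ) :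
    ∀ (n : ℕ) (y : V), y ∈ lenEq n → (∀ l : List ℕ, (∀ r ∈ l, Odd r) → χ (Dl c l y) = 0) →
      χ (((D c) ^ j) y) = 0 := by
  induction j with
  | zero =>
    intro n y _ h
    rw [pow_zero]
    exact h [] (by simp)
  | succ j ih =>
    intro n y hy h
    rw [pow_succ, Module.End.mul_apply, h4 c n y (KK_le hy), map_sum, map_sum]
    apply Finset.sum_eq_zero
    intro r hr
    rw [Finset.mem_Icc] at hr
    rcases Nat.even_or_odd r with he | ho
    · rw [KK_Dr_even hs he, map_zero, map_zero]
    · refine ih (n - r) (Dr c r y) ((h3 c 0 1 r n y hy).1 hr.2) ?_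
      intro l hl
      have h5 := h (r :: l) (by
        intro a ha
        rcases List.mem_cons.1 ha with rfl | ha
        · exact ho
        · exact hl a ha)
      exact h5

private theorem KK_per (h3 : St_Dhom) (h4 : St_Dsum) {c χ : V →ₗ[ℝ] ℝ} (hs : Split c χ) (n : ℕ)
    (y : V) (hy : y ∈ lenEq n) (h : ∀ l : List ℕ, (∀ r ∈ l, Odd r) → χ (Dl c l y) = 0) :
    Per y = 0 := by
  rw [hs.exp n y (KK_le hy)]
  apply Finset.sum_eq_zero
  intro j _
  rw [KK_pow h3 h4 hs j n y hy h, mul_zero]

/-! ### the coaction -/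

private theorem KK_lft_wd (lam : V →ₗ[ℝ] ℝ) (x y : V) : lft lam (x ⊗ₜ[ℝ] y) = lam x • y := by
  unfold lft
  simp

private theorem KK_counit (h5 : St_coLen) (x : V) : lft eps (coact x) = x := by
  have h1 : ∀ w : Word, lft eps (coact (wd w)) = wd w := by
    intro w
    have e1 : eps (wd []) = 1 := by
      unfold eps wd
      rw [Finsupp.linearCombination_single]
      simp
    by_cases hw : w = []
    · rw [hw, h5.1, KK_lft_wd, e1, one_smul]
    · have e2 : ∀ u : Word, u ≠ [] → eps (wd u) = 0 := by
        intro u hu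
        unfold eps wd
        rw [Finsupp.linearCombination_single, if_neg hu]
        simp
      have h2 := h5.2 w hw
      have h3 : ∀ t ∈ Submodule.span ℝ {t : V ⊗[ℝ] V | ∃ u v : Word, u ≠ [] ∧ v ≠ [] ∧
          u.length + v.length = w.length ∧ t = wd u ⊗ₜ[ℝ] wd v}, lft eps t = 0 := by
        intro t ht
        induction ht using Submodule.span_induction with
        | mem t ht =>
          obtain ⟨u, v, hu, _, _, rfl⟩ := ht
          rw [KK_lft_wd, e2 u hu, zero_smul]
        | zero => exact map_zero _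
        | add x y _ _ hx hy => rw [map_add, hx, hy, add_zero]
        | smul r x _ hx => rw [map_smul, hx, smul_zero]
      have h4 := h3 _ h2
      rw [map_sub, map_sub, KK_lft_wd, KK_lft_wd, e1, e2 w hw, one_smul, zero_smul, sub_zero,
        sub_eq_zero] at h4
      exact h4
  have h2 : (lft eps).comp coact = LinearMap.id := by
    apply Finsupp.lhom_ext
    intro w r
    have h3 : (Finsupp.single w r : V) = r • wd w := by
      unfold wd
      rw [Finsupp.smul_single, smul_eq_mul, mul_one]
    rw [h3, LinearMap.comp_apply, map_smul, map_smul, h1, LinearMap.id_apply]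
  exact LinearMap.congr_fun h2 x

private theorem KK_lft_comp (lam : V →ₗ[ℝ] ℝ) (f : V →ₗ[ℝ] V) (t : V ⊗[ℝ] V) :
    lft (lam ∘ₗ f) t = lft lam (TensorProduct.map f LinearMap.id t) := by
  induction t using TensorProduct.induction_on with
  | zero => simp
  | tmul x y =>
    rw [TensorProduct.map_tmul, KK_lft_wd, KK_lft_wd]
    rfl
  | add x y hx hy => rw [map_add, map_add, map_add, hx, hy]

private theorem KK_coact_Dl (h1 : St_copD) (h2 : St_homInf) {c : V →ₗ[ℝ] ℝ} (hc : InfChar c)
    (l : List ℕ) (x : V) :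
    TensorProduct.map (Dl c l) LinearMap.id (coact x) = coact (Dl c l x) := by
  induction l generalizing x with
  | nil =>
    show TensorProduct.map LinearMap.id LinearMap.id (coact x) = coact x
    rw [TensorProduct.map_id]
    rfl
  | cons r l ih =>
    show TensorProduct.map ((Dl c l).comp (Dr c r)) LinearMap.id (coact x) =
      coact (Dl c l (Dr c r x))
    have h4 : TensorProduct.map (Dr c r) LinearMap.id (coact x) = coact (Dr c r x) :=
      h1 (hom r c) (h2 c hc r) x
    rw [← ih, ← h4]
    have h3 : (TensorProduct.map ((Dl c l).comp (Dr c r)) (LinearMap.id : V →ₗ[ℝ] V)) =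
        (TensorProduct.map (Dl c l) LinearMap.id).comp
          (TensorProduct.map (Dr c r) LinearMap.id) := by
      rw [← TensorProduct.map_comp, LinearMap.id_comp]
    rw [h3]
    rfl

private theorem KK_stable (h1 : St_copD) (h2 : St_homInf) (h3 : St_Dhom) (h5 : St_coLen)
    (h6 : St_Sep) (h7 : St_KA) {c χ : V →ₗ[ℝ] ℝ} (hs : Split c χ) (n : ℕ) (x : V)
    (hx : x ∈ lenEq n) (hxJ : ∀ l : List ℕ, (∀ r ∈ l, Odd r) → χ (Dl c l x) = 0) :
    coact x ∈ tens (KK_J c χ ⊔ LinearMap.range (mul zeta2)) ⊤ ⊔ tens ⊤ (KK_J c χ) := by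
  refine h6 (KK_J c χ ⊔ LinearMap.range (mul zeta2)) (KK_J c χ)
    {lam | ∃ l : List ℕ, (∀ r ∈ l, Odd r) ∧ lam = eps ∘ₗ Dl c l} ?_ (coact x) ?_
  · intro y hy
    obtain ⟨N, hN⟩ := KK_sum_parts y
    have hp : ∀ m, part m y ∈ KK_J c χ ⊔ LinearMap.range (mul zeta2) := by
      intro m
      obtain ⟨k, hk1, hk2, hk3⟩ := h7 c χ hs m (part m y) (KK_part_mem m y) (by
        intro l hl
        by_cases hm : m = l.sum
        · have h8 : eps (Dl c l y) = 0 := hy _ ⟨l, hl, rfl⟩
          by_cases hmN : m < N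
          · rw [hN, map_sum, map_sum, Finset.sum_eq_single_of_mem m (Finset.mem_range.2 hmN)] at h8
            · exact h8
            · intro m' _ hm'
              exact KK_eps_Dl h3 c l m' _ (KK_part_mem m' y) (by omega)
          · have h9 : part m y = 0 := by
              rw [hN]
              have h10 : ∀ s : Finset ℕ, part m (∑ n ∈ s, part n y) = ∑ n ∈ s, part m (part n y) := by
                intro s
                induction s using Finset.induction_on with
                | empty => simp [KK_part_zero]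
                | insert a s ha ih =>
                  rw [Finset.sum_insert ha, Finset.sum_insert ha, KK_part_add, ih]
              rw [h10]
              apply Finset.sum_eq_zero
              intro m' hm'
              rw [Finset.mem_range] at hm'
              exact KK_part_ne (KK_part_mem m' y) (by omega)
            rw [h9, map_zero, map_zero]
        · exact KK_eps_Dl h3 c l m _ (KK_part_mem m y) hm)
      have h11 : part m y = k + (part m y - k) := by abel
      rw [h11]
      exact Submodule.add_mem_sup (KK_mem_J_of hk1 hk2) hk3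
    rw [hN]
    exact Submodule.sum_mem _ (fun m _ => hp m)
  · rintro lam ⟨l, hl, rfl⟩
    rw [KK_lft_comp, KK_coact_Dl h1 h2 hs.inf, KK_counit h5]
    obtain ⟨i1, i2⟩ := KK_Dl_hom h3 c l n x hx
    rcases lt_or_ge n l.sum with h | h
    · rw [i2 h]
      exact Submodule.zero_mem _
    · refine KK_mem_J_of (i1 h) ?_
      intro l' hl'
      rw [← KK_Dl_append]
      apply hxJ
      intro r hr
      rcases List.mem_append.1 hr with hr | hr
      · exact hl r hr
      · exact hl' r hr

/-- The module KK. -/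
theorem thm_K (h1 : St_copD) (h2 : St_homInf) (h3 : St_Dhom) (h4 : St_Dsum) (h5 : St_coLen)
    (h6 : St_Sep) (h7 : St_KA) : St_K := by
  intro c χ hs n x hx hxJ
  have hJ : IsRelations (KK_J c χ) := by
    refine ⟨fun x hx n => KK_graded hx n, ?_, ?_⟩
    · intro x hx
      obtain ⟨N, hN⟩ := KK_sum_parts x
      rw [hN, map_sum]
      apply Finset.sum_eq_zero
      intro m _
      exact KK_per h3 h4 hs m _ (KK_part_mem m x) (fun l hl => hx m l hl)
    · intro x hx
      obtain ⟨N, hN⟩ := KK_sum_parts x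
      rw [hN, map_sum]
      apply Submodule.sum_mem
      intro m _
      exact KK_stable h1 h2 h3 h5 h6 h7 hs m _ (KK_part_mem m x) (fun l hl => hx m l hl)
  exact le_sSup (a := KK_J c χ) hJ (KK_mem_J_of hx hxJ)

end Pool.MTV
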