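import Pool.Agent.MTV.StP

/-!
# MTV [L1]: the iterated integrals on (0, 1): derivative and growth at 0
-/

open Filter Topology MeasureTheory Set

namespace Pool.MTV

private theorem L1_log_pow (m : ℕ) : ∃ C : ℝ, 0 ≤ C ∧ ∀ z : ℝ, 0 < z → z ≤ 1 →
    |Real.log z ^ m| ≤ C * z ^ (-(1 / 4) : ℝ) := by
  rcases Nat.eq_zero_or_pos m with rfl | hm
  · refine ⟨1, zero_le_one, fun z hz hz1 => ?_⟩
    rw [pow_zero, abs_one, one_mul]
    exact Real.one_le_rpow_of_pos_of_le_one_of_nonpos hz hz1 (by norm_num)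
  · have hm0 : (0 : ℝ) < m := by exact_mod_cast hm
    refine ⟨(4 * m) ^ m, by positivity, fun z hz hz1 => ?_⟩
    have h1 := Real.abs_log_mul_self_rpow_lt z (1 / (4 * m)) hz hz1 (by positivity)
    have h2 : |Real.log z| * z ^ (1 / (4 * (m : ℝ))) ≤ 4 * m := by
      rw [abs_mul, abs_of_pos (Real.rpow_pos_of_pos hz _)] at h1
      have h3 : 1 / (1 / (4 * (m : ℝ))) = 4 * m := one_div_one_div _
      rw [h3] at h1
      exact h1.le
    have h4 : (|Real.log z| * z ^ (1 / (4 * (m : ℝ)))) ^ m ≤ (4 * m) ^ m :=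
      pow_le_pow_left₀ (by positivity) h2 m
    have h5 : (z ^ (1 / (4 * (m : ℝ)))) ^ m = z ^ ((1 / 4) : ℝ) := by
      rw [← Real.rpow_natCast, ← Real.rpow_mul hz.le]
      congr 1
      field_simp
    rw [mul_pow, h5] at h4
    rw [abs_pow, Real.rpow_neg hz.le, ← div_eq_mul_inv, le_div_iff₀ (Real.rpow_pos_of_pos hz _)]
    exact h4

private theorem L1_den (a : SignType) (t : ℝ) (h0 : 0 < t) (h1 : t < 1) :
    t - ((a : SignType) : ℝ) ≠ 0 := by
  cases a
  · simpa using h0.ne'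
  · have h2 : t - ((SignType.neg : SignType) : ℝ) = t + 1 := by simp
    rw [show ((SignType.neg : SignType) : ℝ) = -1 from rfl]
    intro h3
    linarith
  · rw [show ((SignType.pos : SignType) : ℝ) = 1 from rfl]
    intro h3
    linarith

/-- the growth at zero of a function -/
private def L1_G (w : Word) (f : ℝ → ℝ) : Prop := ∃ C : ℝ, 0 ≤ C ∧ ∀ z : ℝ, 0 < z → z ≤ 1 / 2 →
  |f z| ≤ C * z ^ (-(1 / 4) : ℝ) ∧ ((∃ b ∈ w, b ≠ 0) → |f z| ≤ C * z ^ ((1 / 2) : ℝ))

private theorem L1_int (w : Word) (a : SignType) (f : ℝ → ℝ)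
    (hG : L1_G w f) (hne : ∃ b ∈ a :: w, b ≠ 0) :
    ∃ C : ℝ, 0 ≤ C ∧ ∀ t : ℝ, 0 < t → t ≤ 1 / 2 →
      |f t / (t - ((a : SignType) : ℝ))| ≤ C * t ^ (-(1 / 2) : ℝ) := by
  obtain ⟨C, hC, hb⟩ := hG
  refine ⟨2 * C, by positivity, fun t ht ht2 => ?_⟩
  have hp2 : 0 < t ^ (-(1 / 2) : ℝ) := Real.rpow_pos_of_pos ht _
  have h14 : t ^ (-(1 / 4) : ℝ) ≤ t ^ (-(1 / 2) : ℝ) :=
    Real.rpow_le_rpow_of_exponent_ge ht (by linarith) (by norm_num)
  have h12 : t ^ ((1 / 2) : ℝ) ≤ t ^ (-(1 / 2) : ℝ) :=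
    Real.rpow_le_rpow_of_exponent_ge ht (by linarith) (by norm_num)
  have hft : |f t| ≤ C * t ^ (-(1 / 2) : ℝ) :=
    le_trans (hb t ht ht2).1 (mul_le_mul_of_nonneg_left h14 hC)
  rw [abs_div]
  cases a
  · -- a = 0
    have hw : ∃ b ∈ w, b ≠ 0 := by
      obtain ⟨b, hbm, hb0⟩ := hne
      rcases List.mem_cons.1 hbm with h | h
      · exact absurd h hb0
      · exact ⟨b, h, hb0⟩
    have h1 := (hb t ht ht2).2 hw
    have h2 : t - ((SignType.zero : SignType) : ℝ) = t := by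
      rw [show ((SignType.zero : SignType) : ℝ) = 0 from rfl, sub_zero]
    rw [h2, abs_of_pos ht, div_le_iff₀ ht]
    have h3 : t ^ (-(1 / 2) : ℝ) * t = t ^ ((1 / 2) : ℝ) := by
      nth_rewrite 2 [← Real.rpow_one t]
      rw [← Real.rpow_add ht]
      norm_num
    calc |f t| ≤ C * t ^ ((1 / 2) : ℝ) := h1
      _ ≤ 2 * C * t ^ ((1 / 2) : ℝ) := by
          have h4 : 0 ≤ C * t ^ ((1 / 2) : ℝ) := by positivity
          linarith
      _ = 2 * C * t ^ (-(1 / 2) : ℝ) * t := by rw [mul_assoc (2 * C), h3]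
  · rw [show ((SignType.neg : SignType) : ℝ) = -1 from rfl]
    have h2 : (1 : ℝ) / 2 ≤ |t - -1| := by
      rw [abs_of_pos (by linarith)]
      linarith
    rw [div_le_iff₀ (by linarith)]
    calc |f t| ≤ 2 * C * t ^ (-(1 / 2) : ℝ) * (1 / 2) := by linarith
      _ ≤ 2 * C * t ^ (-(1 / 2) : ℝ) * |t - -1| :=
          mul_le_mul_of_nonneg_left h2 (by positivity)
  · rw [show ((SignType.pos : SignType) : ℝ) = 1 from rfl]
    have h2 : (1 : ℝ) / 2 ≤ |t - 1| := by
      rw [abs_of_neg (by linarith)]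
      linarith
    rw [div_le_iff₀ (by linarith)]
    calc |f t| ≤ 2 * C * t ^ (-(1 / 2) : ℝ) * (1 / 2) := by linarith
      _ ≤ 2 * C * t ^ (-(1 / 2) : ℝ) * |t - 1| :=
          mul_le_mul_of_nonneg_left h2 (by positivity)

private theorem L1_ii0 (g : ℝ → ℝ) (hg : ContinuousOn g (Ioo 0 1)) (C : ℝ)
    (hb : ∀ t : ℝ, 0 < t → t ≤ 1 / 2 → |g t| ≤ C * t ^ (-(1 / 2) : ℝ)) (z : ℝ) (hz : 0 < z)
    (hz1 : z < 1) : IntervalIntegrable g volume 0 z := by
  have hr : IntervalIntegrable (fun t : ℝ => C * t ^ (-(1 / 2) : ℝ)) volume 0 (min z (1 / 2)) :=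
    (intervalIntegral.intervalIntegrable_rpow' (by norm_num)).const_mul C
  have hm : 0 < min z (1 / 2) := lt_min hz (by norm_num)
  have hmz : min z (1 / 2) ≤ z := min_le_left _ _
  have hm2 : min z (1 / 2) ≤ 1 / 2 := min_le_right _ _
  have h1 : IntervalIntegrable g volume 0 (min z (1 / 2)) := by
    rw [intervalIntegrable_iff_integrableOn_Ioc_of_le hm.le] at hr ⊢
    refine Integrable.mono' hr ?_ ?_
    · refine (hg.mono fun t ht => ⟨ht.1, ?_⟩).aestronglyMeasurable measurableSet_Ioc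
      exact lt_of_le_of_lt (le_trans ht.2 hmz) hz1
    · filter_upwards [ae_restrict_mem measurableSet_Ioc] with t ht
      rw [Real.norm_eq_abs]
      exact hb t ht.1 (le_trans ht.2 hm2)
  refine h1.trans (ContinuousOn.intervalIntegrable (hg.mono fun t ht => ?_))
  rw [uIcc_of_le hmz] at ht
  exact ⟨lt_of_lt_of_le hm ht.1, lt_of_le_of_lt ht.2 hz1⟩

private theorem L1_ibd (g : ℝ → ℝ) (C : ℝ)
    (hb : ∀ t : ℝ, 0 < t → t ≤ 1 / 2 → |g t| ≤ C * t ^ (-(1 / 2) : ℝ)) (z : ℝ) (hz : 0 < z)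
    (hz2 : z ≤ 1 / 2) : |∫ t in (0 : ℝ)..z, g t| ≤ 2 * C * z ^ ((1 / 2) : ℝ) := by
  have hr : IntervalIntegrable (fun t : ℝ => C * t ^ (-(1 / 2) : ℝ)) volume 0 z :=
    (intervalIntegral.intervalIntegrable_rpow' (by norm_num)).const_mul C
  have h1 : ‖∫ t in (0 : ℝ)..z, g t‖ ≤ ∫ t in (0 : ℝ)..z, C * t ^ (-(1 / 2) : ℝ) := by
    refine intervalIntegral.norm_integral_le_of_norm_le hz.le ?_ hr
    filter_upwards with t ht
    rw [Real.norm_eq_abs]
    exact hb t ht.1 (le_trans ht.2 hz2)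
  rw [Real.norm_eq_abs] at h1
  refine le_trans h1 (le_of_eq ?_)
  rw [intervalIntegral.integral_const_mul, integral_rpow (Or.inl (by norm_num))]
  have h2 : (-(1 / 2) : ℝ) + 1 = 1 / 2 := by norm_num
  rw [h2, Real.zero_rpow (by norm_num), sub_zero]
  ring

private theorem L1_all (w : Word) (hw : ∀ b ∈ w, b = 0) (z : ℝ) :
    Lr w z = Real.log z ^ w.length / (w.length.factorial : ℝ) := by
  cases w with
  | nil => simp [Lr]
  | cons a w =>
    rw [Lr, if_pos hw, List.length_cons]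

/-- continuity, growth at zero and derivative -/
private theorem L1_main (w : Word) : ContinuousOn (Lr w) (Ioo 0 1) ∧ L1_G w (Lr w) ∧
    ∀ (a : SignType) (z : ℝ), 0 < z → z < 1 →
      HasDerivAt (Lr (a :: w)) (Lr w z / (z - ((a : SignType) : ℝ))) z := by
  -- the derivative from the other two
  have hder : ∀ (w : Word), ContinuousOn (Lr w) (Ioo 0 1) → L1_G w (Lr w) →
      ∀ (a : SignType) (z : ℝ), 0 < z → z < 1 →
        HasDerivAt (Lr (a :: w)) (Lr w z / (z - ((a : SignType) : ℝ))) z := by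
    intro w hc hG a z hz hz1
    by_cases hall : ∀ b ∈ a :: w, b = 0
    · have ha : a = 0 := hall a (List.mem_cons_self)
      have hw : ∀ b ∈ w, b = 0 := fun b hb => hall b (List.mem_cons_of_mem a hb)
      have h1 : Lr (a :: w) = fun z => Real.log z ^ (w.length + 1) /
          ((w.length + 1).factorial : ℝ) := by
        funext z
        rw [Lr, if_pos hall]
      rw [h1, L1_all w hw, ha]
      have h2 := ((Real.hasDerivAt_log hz.ne').pow (w.length + 1)).div_const
        ((w.length + 1).factorial : ℝ)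
      have h3 : ((w.length + 1 : ℕ) : ℝ) * Real.log z ^ (w.length + 1 - 1) * z⁻¹ /
          ((w.length + 1).factorial : ℝ) =
          Real.log z ^ w.length / (w.length.factorial : ℝ) / (z - ((0 : SignType) : ℝ)) := by
        rw [SignType.coe_zero, sub_zero, Nat.factorial_succ, Nat.add_sub_cancel]
        have h4 : ((w.length + 1 : ℕ) : ℝ) ≠ 0 := by positivity
        have h5 : (w.length.factorial : ℝ) ≠ 0 := by positivity
        push_cast at h4 ⊢
        field_simp
      rw [← h3]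
      exact h2
    · have h1 : Lr (a :: w) = fun z => ∫ t in (0 : ℝ)..z, Lr w t / (t - ((a : SignType) : ℝ)) := by
        funext z
        rw [Lr, if_neg hall]
      rw [h1]
      have hne : ∃ b ∈ a :: w, b ≠ 0 := by
        push Not at hall
        exact hall
      obtain ⟨C, hC, hb⟩ := L1_int w a (Lr w) hG hne
      have hcg : ContinuousOn (fun t : ℝ => Lr w t / (t - ((a : SignType) : ℝ))) (Ioo 0 1) :=
        hc.div (continuousOn_id.sub continuousOn_const) fun t ht => L1_den a t ht.1 ht.2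
      have hii := L1_ii0 _ hcg C hb z hz hz1
      have hnhds : Ioo (0 : ℝ) 1 ∈ 𝓝 z := Ioo_mem_nhds hz hz1
      exact intervalIntegral.integral_hasDerivAt_right hii
        (hcg.stronglyMeasurableAtFilter isOpen_Ioo z ⟨hz, hz1⟩) (hcg.continuousAt hnhds)
  induction w with
  | nil =>
    have h1 : ContinuousOn (Lr []) (Ioo 0 1) := by
      have h2 : Lr [] = fun _ => 1 := by
        funext z
        rw [Lr]
      rw [h2]
      exact continuousOn_const
    have h3 : L1_G [] (Lr []) := by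
      refine ⟨1, zero_le_one, fun z hz hz2 => ⟨?_, fun ⟨b, hb, _⟩ => absurd hb (by simp)⟩⟩
      rw [Lr, abs_one, one_mul]
      exact Real.one_le_rpow_of_pos_of_le_one_of_nonpos hz (by linarith) (by norm_num)
    exact ⟨h1, h3, hder [] h1 h3⟩
  | cons a w ih =>
    obtain ⟨hc, hG, hd⟩ := ih
    have h1 : ContinuousOn (Lr (a :: w)) (Ioo 0 1) := fun z hz =>
      (hd a z hz.1 hz.2).continuousAt.continuousWithinAt
    have h3 : L1_G (a :: w) (Lr (a :: w)) := by
      by_cases hall : ∀ b ∈ a :: w, b = 0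
      · obtain ⟨C, hC, hb⟩ := L1_log_pow (w.length + 1)
        refine ⟨C, hC, fun z hz hz2 => ⟨?_, fun ⟨b, hb, hb0⟩ => absurd (hall b hb) hb0⟩⟩
        rw [Lr, if_pos hall, abs_div]
        have h4 : (1 : ℝ) ≤ |((w.length + 1).factorial : ℝ)| := by
          rw [abs_of_nonneg (Nat.cast_nonneg _)]
          exact_mod_cast Nat.one_le_iff_ne_zero.2 (Nat.factorial_ne_zero _)
        exact le_trans (div_le_self (abs_nonneg _) h4) (hb z hz (by linarith))
      · have hne : ∃ b ∈ a :: w, b ≠ 0 := by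
          push Not at hall
          exact hall
        obtain ⟨C, hC, hb⟩ := L1_int w a (Lr w) hG hne
        refine ⟨2 * C, by positivity, fun z hz hz2 => ?_⟩
        have h4 : |Lr (a :: w) z| ≤ 2 * C * z ^ ((1 / 2) : ℝ) := by
          rw [Lr, if_neg hall]
          exact L1_ibd _ C hb z hz hz2
        refine ⟨le_trans h4 ?_, fun _ => h4⟩
        exact mul_le_mul_of_nonneg_left (Real.rpow_le_rpow_of_exponent_ge hz (by linarith)
          (by norm_num)) (by positivity)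
    exact ⟨h1, h3, hder (a :: w) h1 h3⟩

/-- Growth at 0. -/
theorem thm_Lzero : St_Lzero := by
  intro w
  obtain ⟨C, hC, hb⟩ := (L1_main w.reverse).2.1
  refine ⟨C, fun z hz hz2 => ⟨(hb z hz hz2).1, fun ⟨b, hbw, hb0⟩ => ?_⟩⟩
  exact (hb z hz hz2).2 ⟨b, List.mem_reverse.2 hbw, hb0⟩

/-- The last letter: L (w a) is a primitive of L w / (t - a). -/
theorem thm_Lderiv : St_Lderiv := by
  intro w a z hz hz1
  have h1 := (L1_main w.reverse).2.2 a z hz hz1
  have h2 : L (w ++ [a]) = Lr (a :: w.reverse) := by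
    funext z
    rw [L, List.reverse_append]
    rfl
  rw [h2]
  exact h1

end Pool.MTV
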