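import Pool.Agent.MTV.StP

/-!
# MTV [L2]: expansion of the iterated integrals at 1
-/

open Filter Topology MeasureTheory Set

set_option linter.unusedVariables false

namespace Pool.MTV

private theorem L2_log_pow (m : ℕ) : ∃ C : ℝ, 0 ≤ C ∧ ∀ z : ℝ, 0 < z → z ≤ 1 →
    |Real.log z ^ m| ≤ C * z ^ (-(1 / 2) : ℝ) := by
  rcases Nat.eq_zero_or_pos m with rfl | hm
  · refine ⟨1, zero_le_one, fun z hz hz1 => ?_⟩
    rw [pow_zero, abs_one, one_mul]
    exact Real.one_le_rpow_of_pos_of_le_one_of_nonpos hz hz1 (by norm_num)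
  · have hm0 : (0 : ℝ) < m := by exact_mod_cast hm
    refine ⟨(2 * m) ^ m, by positivity, fun z hz hz1 => ?_⟩
    have h1 := Real.abs_log_mul_self_rpow_lt z (1 / (2 * m)) hz hz1 (by positivity)
    have h2 : |Real.log z| * z ^ (1 / (2 * (m : ℝ))) ≤ 2 * m := by
      rw [abs_mul, abs_of_pos (Real.rpow_pos_of_pos hz _)] at h1
      have h3 : 1 / (1 / (2 * (m : ℝ))) = 2 * m := one_div_one_div _
      rw [h3] at h1
      exact h1.le
    have h4 : (|Real.log z| * z ^ (1 / (2 * (m : ℝ)))) ^ m ≤ (2 * m) ^ m :=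
      pow_le_pow_left₀ (by positivity) h2 m
    have h5 : (z ^ (1 / (2 * (m : ℝ)))) ^ m = z ^ ((1 / 2) : ℝ) := by
      rw [← Real.rpow_natCast, ← Real.rpow_mul hz.le]
      congr 1
      field_simp
    rw [mul_pow, h5] at h4
    rw [abs_pow, Real.rpow_neg hz.le, ← div_eq_mul_inv, le_div_iff₀ (Real.rpow_pos_of_pos hz _)]
    exact h4

private theorem L2_poly (P : Polynomial ℝ) : ∃ C : ℝ, 0 ≤ C ∧ ∀ x : ℝ, 0 < x → x ≤ 1 →
    |P.eval (Real.log x)| ≤ C * x ^ (-(1 / 2) : ℝ) := by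
  induction P using Polynomial.induction_on' with
  | add p q hp hq =>
    obtain ⟨C1, h1, hb1⟩ := hp
    obtain ⟨C2, h2, hb2⟩ := hq
    refine ⟨C1 + C2, add_nonneg h1 h2, fun x hx hx1 => ?_⟩
    rw [Polynomial.eval_add, add_mul]
    exact (abs_add_le _ _).trans (add_le_add (hb1 x hx hx1) (hb2 x hx hx1))
  | monomial n a =>
    obtain ⟨C, hC, hb⟩ := L2_log_pow n
    refine ⟨|a| * C, mul_nonneg (abs_nonneg _) hC, fun x hx hx1 => ?_⟩
    rw [Polynomial.eval_monomial, abs_mul, mul_assoc]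
    exact mul_le_mul_of_nonneg_left (hb x hx hx1) (abs_nonneg _)

private theorem L2_prim (P : Polynomial ℝ) : ∃ Q : Polynomial ℝ, Polynomial.derivative Q = P := by
  induction P using Polynomial.induction_on' with
  | add p q hp hq =>
    obtain ⟨Q1, rfl⟩ := hp
    obtain ⟨Q2, rfl⟩ := hq
    exact ⟨Q1 + Q2, Polynomial.derivative_add⟩
  | monomial n a =>
    refine ⟨Polynomial.monomial (n + 1) (a / ((n : ℝ) + 1)), ?_⟩
    rw [Polynomial.derivative_monomial]
    have h : ((n : ℝ) + 1) ≠ 0 := by positivity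
    have h2 : a / ((n : ℝ) + 1) * ((n + 1 : ℕ) : ℝ) = a := by
      push_cast
      field_simp
    rw [h2, Nat.add_sub_cancel]

private theorem L2_sqrt (z : ℝ) (hz : z < 1) :
    HasDerivAt (fun z : ℝ => (1 - z) ^ ((1 / 2) : ℝ)) (-(1 / 2) * (1 - z) ^ (-(1 / 2) : ℝ)) z := by
  have h1 : HasDerivAt (fun z : ℝ => 1 - z) (-1) z := by
    simpa using (hasDerivAt_id z).const_sub 1
  have h2 := h1.rpow_const (p := (1 / 2 : ℝ)) (Or.inl (by linarith))
  have h3 : (-1 : ℝ) * (1 / 2) * (1 - z) ^ ((1 / 2 : ℝ) - 1) =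
      -(1 / 2) * (1 - z) ^ (-(1 / 2) : ℝ) := by
    norm_num
  rw [← h3]
  exact h2

/-- a function with small derivative near one converges -/
private theorem L2_conv (G g : ℝ → ℝ) (C : ℝ) (hG : ∀ z : ℝ, 1 / 2 ≤ z → z < 1 → HasDerivAt G (g z) z)
    (hg : ∀ z : ℝ, 1 / 2 ≤ z → z < 1 → |g z| ≤ C * (1 - z) ^ (-(1 / 2) : ℝ)) :
    ∃ c : ℝ, ∀ z : ℝ, 1 / 2 ≤ z → z < 1 → |G z - c| ≤ 2 * C * (1 - z) ^ ((1 / 2) : ℝ) := by
  have hA : MonotoneOn (fun z : ℝ => G z - 2 * C * (1 - z) ^ ((1 / 2) : ℝ)) (Ico (1 / 2) 1) := by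
    refine monotoneOn_of_hasDerivWithinAt_nonneg (convex_Ico _ _)
      (f' := fun z => g z - 2 * C * (-(1 / 2) * (1 - z) ^ (-(1 / 2) : ℝ))) ?_ ?_ ?_
    · intro z hz
      exact ((hG z hz.1 hz.2).sub ((L2_sqrt z hz.2).const_mul (2 * C))).continuousAt.continuousWithinAt
    · intro z hz
      rw [interior_Ico] at hz
      exact ((hG z hz.1.le hz.2).sub ((L2_sqrt z hz.2).const_mul (2 * C))).hasDerivWithinAt
    · intro z hz
      rw [interior_Ico] at hz
      have := (abs_le.1 (hg z hz.1.le hz.2)).1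
      linarith
  have hB : AntitoneOn (fun z : ℝ => G z + 2 * C * (1 - z) ^ ((1 / 2) : ℝ)) (Ico (1 / 2) 1) := by
    refine antitoneOn_of_hasDerivWithinAt_nonpos (convex_Ico _ _)
      (f' := fun z => g z + 2 * C * (-(1 / 2) * (1 - z) ^ (-(1 / 2) : ℝ))) ?_ ?_ ?_
    · intro z hz
      exact ((hG z hz.1 hz.2).add ((L2_sqrt z hz.2).const_mul (2 * C))).continuousAt.continuousWithinAt
    · intro z hz
      rw [interior_Ico] at hz
      exact ((hG z hz.1.le hz.2).add ((L2_sqrt z hz.2).const_mul (2 * C))).hasDerivWithinAt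
    · intro z hz
      rw [interior_Ico] at hz
      have := (abs_le.1 (hg z hz.1.le hz.2)).2
      linarith
  have hC : 0 ≤ C := by
    have h1 := hg (1 / 2) le_rfl (by norm_num)
    have h2 : (0 : ℝ) < (1 - 1 / 2) ^ (-(1 / 2) : ℝ) := Real.rpow_pos_of_pos (by norm_num) _
    have h3 := (abs_nonneg (g (1 / 2))).trans h1
    exact nonneg_of_mul_nonneg_left h3 h2
  have hAB : ∀ x ∈ Ico (1 / 2 : ℝ) 1, ∀ y ∈ Ico (1 / 2 : ℝ) 1,
      G x - 2 * C * (1 - x) ^ ((1 / 2) : ℝ) ≤ G y + 2 * C * (1 - y) ^ ((1 / 2) : ℝ) := by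
    intro x hx y hy
    have hm : max x y ∈ Ico (1 / 2 : ℝ) 1 := ⟨le_trans hx.1 (le_max_left _ _), max_lt hx.2 hy.2⟩
    have h1 := hA hx hm (le_max_left _ _)
    have h2 := hB hy hm (le_max_right _ _)
    dsimp only at h1 h2
    have h3 : 0 ≤ 2 * C * (1 - max x y) ^ ((1 / 2) : ℝ) := by
      have : 0 ≤ 1 - max x y := by linarith [hm.2]
      positivity
    linarith
  refine ⟨sSup ((fun z : ℝ => G z - 2 * C * (1 - z) ^ ((1 / 2) : ℝ)) '' Ico (1 / 2) 1),
    fun z hz hz1 => ?_⟩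
  have hne : ((fun z : ℝ => G z - 2 * C * (1 - z) ^ ((1 / 2) : ℝ)) '' Ico (1 / 2) 1).Nonempty :=
    ⟨_, ⟨z, ⟨hz, hz1⟩, rfl⟩⟩
  have hbd : BddAbove ((fun z : ℝ => G z - 2 * C * (1 - z) ^ ((1 / 2) : ℝ)) '' Ico (1 / 2) 1) := by
    refine ⟨G z + 2 * C * (1 - z) ^ ((1 / 2) : ℝ), ?_⟩
    rintro _ ⟨x, hx, rfl⟩
    exact hAB x hx z ⟨hz, hz1⟩
  have h1 := le_csSup hbd ⟨z, ⟨hz, hz1⟩, rfl⟩
  have h2 : sSup ((fun z : ℝ => G z - 2 * C * (1 - z) ^ ((1 / 2) : ℝ)) '' Ico (1 / 2) 1) ≤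
      G z + 2 * C * (1 - z) ^ ((1 / 2) : ℝ) := by
    refine csSup_le hne ?_
    rintro _ ⟨x, hx, rfl⟩
    exact hAB x hx z ⟨hz, hz1⟩
  dsimp only at h1
  rw [abs_le]
  constructor <;> linarith

private theorem L2_logpoly (Q : Polynomial ℝ) (z : ℝ) (hz : z < 1) :
    HasDerivAt (fun z : ℝ => Q.eval (Real.log (1 - z)))
      ((Polynomial.derivative Q).eval (Real.log (1 - z)) / (z - 1)) z := by
  have h1 : HasDerivAt (fun z : ℝ => 1 - z) (-1) z := by
    simpa using (hasDerivAt_id z).const_sub 1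
  have h2 := h1.log (by linarith)
  have h3 := (Q.hasDerivAt (Real.log (1 - z))).comp z h2
  have h4 : (Polynomial.derivative Q).eval (Real.log (1 - z)) * (-1 / (1 - z)) =
      (Polynomial.derivative Q).eval (Real.log (1 - z)) / (z - 1) := by
    have h5 : (1 - z) ≠ 0 := by linarith
    have h6 : (z - 1) ≠ 0 := by linarith
    field_simp
    ring
  rw [← h4]
  exact h3

/-- Expansion at 1. -/
theorem thm_Lone (h0 : St_Lzero) (hd : St_Lderiv) : St_Lone := by
  intro w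
  induction w using List.reverseRecOn with
  | nil =>
    refine ⟨1, 0, fun z _ _ => ?_⟩
    simp [L, Lr]
  | append_singleton w a ih =>
    obtain ⟨P, C, hP⟩ := ih
    have hC : ∀ z : ℝ, 1 / 2 ≤ z → z < 1 → 0 ≤ C * (1 - z) ^ ((1 / 2) : ℝ) := fun z hz hz1 =>
      (abs_nonneg _).trans (hP z hz hz1)
    have hC0 : 0 ≤ C := by
      have h2 : (0 : ℝ) < (1 - 1 / 2) ^ ((1 / 2) : ℝ) := Real.rpow_pos_of_pos (by norm_num) _
      exact nonneg_of_mul_nonneg_left (hC (1 / 2) le_rfl (by norm_num)) h2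
    have key : ∀ z : ℝ, z < 1 → (1 - z) ^ ((1 / 2) : ℝ) / (1 - z) = (1 - z) ^ (-(1 / 2) : ℝ) := by
      intro z hz
      have h1 : (0 : ℝ) < 1 - z := by linarith
      rw [div_eq_iff h1.ne']
      nth_rewrite 3 [← Real.rpow_one (1 - z)]
      rw [← Real.rpow_add h1]
      norm_num
    by_cases ha : a = 1
    · obtain ⟨Q, hQ⟩ := L2_prim P
      obtain ⟨c, hc⟩ := L2_conv (fun z => L (w ++ [a]) z - Q.eval (Real.log (1 - z)))
        (fun z => L w z / (z - ((a : SignType) : ℝ)) -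
          (Polynomial.derivative Q).eval (Real.log (1 - z)) / (z - 1)) C
        (fun z hz hz1 => (hd w a z (by linarith) hz1).sub (L2_logpoly Q z hz1)) (by
          intro z hz hz1
          rw [ha, hQ, SignType.coe_one, ← sub_div, abs_div, abs_of_neg (by linarith : z - 1 < 0),
            ← key z hz1, neg_sub, ← mul_div_assoc]
          exact div_le_div_of_nonneg_right (hP z hz hz1) (by linarith))
      refine ⟨Q + Polynomial.C c, 2 * C, fun z hz hz1 => ?_⟩
      have h1 := hc z hz hz1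
      rw [Polynomial.eval_add, Polynomial.eval_C, ← sub_sub]
      exact h1
    · obtain ⟨C', hC', hb⟩ := L2_poly P
      have hden : ∀ z : ℝ, 1 / 2 ≤ z → (1 : ℝ) / 2 ≤ |z - ((a : SignType) : ℝ)| := by
        intro z hz
        rcases a with _ | _ | _
        · rw [show ((SignType.zero : SignType) : ℝ) = 0 from rfl, sub_zero, abs_of_pos (by linarith)]
          exact hz
        · rw [show ((SignType.neg : SignType) : ℝ) = -1 from rfl, abs_of_pos (by linarith)]
          linarith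
        · exact absurd rfl ha
      obtain ⟨c, hc⟩ := L2_conv (L (w ++ [a])) (fun z => L w z / (z - ((a : SignType) : ℝ)))
        (2 * (C + C')) (fun z hz hz1 => hd w a z (by linarith) hz1) (by
          intro z hz hz1
          have h1z : 0 < 1 - z := by linarith
          have h1 := hP z hz hz1
          have h2 := hb (1 - z) h1z (by linarith)
          have h3 : (1 - z) ^ ((1 / 2) : ℝ) ≤ (1 - z) ^ (-(1 / 2) : ℝ) :=
            Real.rpow_le_rpow_of_exponent_ge h1z (by linarith) (by norm_num)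
          have h4 : |L w z| ≤ (C + C') * (1 - z) ^ (-(1 / 2) : ℝ) := by
            have h5 : L w z = (L w z - P.eval (Real.log (1 - z))) + P.eval (Real.log (1 - z)) := by
              ring
            rw [h5]
            refine (abs_add_le _ _).trans ?_
            rw [add_mul]
            exact add_le_add (h1.trans (mul_le_mul_of_nonneg_left h3 hC0)) h2
          rw [abs_div, div_le_iff₀ (by linarith [hden z hz])]
          have h6 : 0 ≤ (C + C') * (1 - z) ^ (-(1 / 2) : ℝ) := (abs_nonneg _).trans h4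
          have h7 := hden z hz
          calc |L w z| ≤ (C + C') * (1 - z) ^ (-(1 / 2) : ℝ) := h4
            _ = 2 * (C + C') * (1 - z) ^ (-(1 / 2) : ℝ) * (1 / 2) := by ring
            _ ≤ 2 * (C + C') * (1 - z) ^ (-(1 / 2) : ℝ) * |z - ((a : SignType) : ℝ)| := by
                refine mul_le_mul_of_nonneg_left h7 ?_
                linarith)
      refine ⟨Polynomial.C c, 2 * (2 * (C + C')), fun z hz hz1 => ?_⟩
      rw [Polynomial.eval_C]
      exact hc z hz hz1

end Pool.MTV
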