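import Pool.Agent.MTV.StP

/-!
# Uniqueness of the constant term; St_PerLim, the periods of the empty word and of the word 0
-/

open Filter Topology

namespace Pool.MTV

private theorem L3_h : Tendsto (fun x : ℝ => 1 - Real.exp (-x)) atTop (𝓝[<] 1) := by
  rw [tendsto_nhdsWithin_iff]
  constructor
  · have h := (Real.tendsto_exp_neg_atTop_nhds_zero).const_sub 1
    simpa using h
  · filter_upwards with x
    have := Real.exp_pos (-x)
    simp only [Set.mem_Iio]
    linarith

private theorem L3_zero (Q : Polynomial ℝ)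
    (h : Tendsto (fun z => Q.eval (Real.log (1 - z))) (𝓝[<] 1) (𝓝 0)) : Q.coeff 0 = 0 := by
  have h1 := h.comp L3_h
  have h2 : Tendsto (fun x : ℝ => (Q.comp (-Polynomial.X)).eval x) atTop (𝓝 0) := by
    refine h1.congr fun x => ?_
    simp [Function.comp, Polynomial.eval_comp]
  rw [Polynomial.tendsto_nhds_iff] at h2
  obtain ⟨h3, h4⟩ := h2
  have h5 : Q.comp (-Polynomial.X) = 0 := Polynomial.leadingCoeff_eq_zero.mp h3
  have h6 : Q.eval 0 = 0 := by
    have := congrArg (Polynomial.eval 0) h5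
    simpa [Polynomial.eval_comp] using this
  rwa [← Polynomial.coeff_zero_eq_eval_zero] at h6

private theorem L3_unique {f : ℝ → ℝ} {P Q : Polynomial ℝ}
    (hP : Tendsto (fun z => f z - P.eval (Real.log (1 - z))) (𝓝[<] 1) (𝓝 0))
    (hQ : Tendsto (fun z => f z - Q.eval (Real.log (1 - z))) (𝓝[<] 1) (𝓝 0)) :
    P.coeff 0 = Q.coeff 0 := by
  have h := hQ.sub hP
  have h1 : Tendsto (fun z => (P - Q).eval (Real.log (1 - z))) (𝓝[<] 1) (𝓝 0) := by
    rw [sub_zero] at h
    refine h.congr fun z => ?_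
    rw [Polynomial.eval_sub]
    ring
  have h2 := L3_zero _ h1
  rw [Polynomial.coeff_sub] at h2
  linarith

private theorem L3_per {w : Word} {P : Polynomial ℝ}
    (hP : Tendsto (fun z => L w z - P.eval (Real.log (1 - z))) (𝓝[<] 1) (𝓝 0)) :
    per w = P.coeff 0 := by
  have hex : ∃ c, IsReg w c := ⟨P.coeff 0, P, rfl, hP⟩
  unfold per
  rw [dif_pos hex]
  obtain ⟨Q, hQ, hQ2⟩ := hex.choose_spec
  rw [← hQ]
  exact L3_unique hQ2 hP

private theorem L3_lim {w : Word} {P : Polynomial ℝ} {C : ℝ}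
    (h : ∀ z : ℝ, 1 / 2 ≤ z → z < 1 →
      |L w z - P.eval (Real.log (1 - z))| ≤ C * (1 - z) ^ ((1 / 2) : ℝ)) :
    Tendsto (fun z => L w z - P.eval (Real.log (1 - z))) (𝓝[<] 1) (𝓝 0) := by
  have h0 : Tendsto (fun z : ℝ => C * (1 - z) ^ ((1 / 2) : ℝ)) (𝓝[<] 1) (𝓝 0) := by
    have h1 : Tendsto (fun z : ℝ => (1 - z) ^ ((1 / 2) : ℝ)) (𝓝[<] 1) (𝓝 0) := by
      have h2 : Continuous (fun z : ℝ => (1 - z) ^ ((1 / 2) : ℝ)) :=
        (continuous_const.sub continuous_id).rpow_const (fun _ => Or.inr (by norm_num))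
      have h3 := h2.tendsto 1
      have h4 : ((1 : ℝ) - 1) ^ ((1 / 2) : ℝ) = 0 := by
        rw [sub_self, Real.zero_rpow (by norm_num)]
      rw [h4] at h3
      exact h3.mono_left nhdsWithin_le_nhds
    simpa using h1.const_mul C
  refine squeeze_zero_norm' ?_ h0
  have h5 : ∀ᶠ z : ℝ in 𝓝[<] 1, 1 / 2 ≤ z := by
    have : ∀ᶠ z : ℝ in 𝓝 1, 1 / 2 ≤ z := eventually_ge_nhds (by norm_num)
    exact this.filter_mono nhdsWithin_le_nhds
  filter_upwards [h5, self_mem_nhdsWithin] with z hz hz2
  rw [Real.norm_eq_abs]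
  exact h z hz hz2

/-- The regularised value of a combination of words. -/
theorem thm_PerLim (h1 : St_Lone) : St_PerLim := by
  intro x P hP
  choose Pw Cw hw using h1
  have hlim := fun w => L3_lim (hw w)
  set Q : Polynomial ℝ := ∑ w ∈ x.support, Polynomial.C (x w) * Pw w with hQ
  have hQ1 : Tendsto (fun z => LV z x - Q.eval (Real.log (1 - z))) (𝓝[<] 1) (𝓝 0) := by
    have h2 : Tendsto (fun z => ∑ w ∈ x.support,
        x w * (L w z - (Pw w).eval (Real.log (1 - z)))) (𝓝[<] 1) (𝓝 0) := by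
      have h3 := tendsto_finsetSum x.support (fun w _ => (hlim w).const_mul (x w))
      simpa using h3
    refine h2.congr fun z => ?_
    rw [hQ, Polynomial.eval_finsetSum]
    unfold LV
    rw [Finsupp.linearCombination_apply, Finsupp.sum, ← Finset.sum_sub_distrib]
    refine Finset.sum_congr rfl fun w _ => ?_
    rw [Polynomial.eval_mul, Polynomial.eval_C, smul_eq_mul]
    ring
  have h4 : Per x = Q.coeff 0 := by
    rw [hQ, Polynomial.finsetSum_coeff]
    unfold Per
    rw [Finsupp.linearCombination_apply, Finsupp.sum]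
    refine Finset.sum_congr rfl fun w _ => ?_
    rw [Polynomial.coeff_C_mul, smul_eq_mul, L3_per (hlim w)]
  rw [h4]
  exact L3_unique hQ1 hP

/-- The period of the empty word. -/
theorem thm_PerOne : Per (wd []) = 1 := by
  unfold Per wd
  rw [Finsupp.linearCombination_single, one_smul]
  have h : Tendsto (fun z => L [] z - (Polynomial.C (1 : ℝ)).eval (Real.log (1 - z)))
      (𝓝[<] 1) (𝓝 0) := by
    refine tendsto_const_nhds.congr fun z => ?_
    simp [L, Lr]
  rw [L3_per h]
  simp

/-- The period of the word 0. -/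
theorem thm_PerZero : St_PerZero := by
  unfold St_PerZero Per wd
  rw [Finsupp.linearCombination_single, one_smul]
  have h : Tendsto (fun z => L [0] z - (0 : Polynomial ℝ).eval (Real.log (1 - z)))
      (𝓝[<] 1) (𝓝 0) := by
    have h1 : Tendsto (fun z : ℝ => Real.log z) (𝓝[<] 1) (𝓝 0) := by
      have h2 := (Real.continuousAt_log (x := 1) one_ne_zero).tendsto
      rw [Real.log_one] at h2
      exact h2.mono_left nhdsWithin_le_nhds
    refine h1.congr fun z => ?_
    simp [L, Lr]
  rw [L3_per h]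
  simp

end Pool.MTV
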