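import Pool.Agent.MTV.Skel

/-!
# Algebra: statements
-/

open scoped TensorProduct

namespace Pool.MTV

/-! ### infinitesimal characters and cuts -/

/-- A functional that kills 1 and all shuffle products of nonempty words. -/
structure InfChar (c : V →ₗ[ℝ] ℝ) : Prop where
  one : c (wd []) = 0
  sh : ∀ u v : Word, u ≠ [] → v ≠ [] → c (Pool.MTV.sh u v) = 0

/-- Right neighbour. -/
def hd (b : SignType) : Word → SignType
  | [] => b
  | x :: _ => x

/-- c(0; p; x). -/
noncomputable def ev (c : V →ₗ[ℝ] ℝ) (x : SignType) (p : Word) : ℝ := c (toPt x p)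

/-- Cuts starting at the first letter. -/
noncomputable def Pr (c : V →ₗ[ℝ] ℝ) (a b : SignType) (w : Word) : V :=
  ∑ i ∈ Finset.range w.length,
    (ev c (hd b (w.drop (i + 1))) (w.take (i + 1)) - ev c a (w.take (i + 1))) • wd (w.drop (i + 1))

/-- All cuts of (a; w; b). -/
noncomputable def Dw (c : V →ₗ[ℝ] ℝ) (b : SignType) : SignType → Word → V
  | _, [] => 0
  | a, x :: w => Pr c a b (x :: w) + pre x (Dw c b x w)

noncomputable def DL (c : V →ₗ[ℝ] ℝ) (a b : SignType) : V →ₗ[ℝ] V :=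
  Finsupp.linearCombination ℝ (Dw c b a)

/-- The derivation of V attached to c. -/
noncomputable def D (c : V →ₗ[ℝ] ℝ) : V →ₗ[ℝ] V := DL c 0 1

/-- Linear versions of toPt, of II and of the signed reversal. -/
noncomputable def toL (a : SignType) : V →ₗ[ℝ] V := Finsupp.linearCombination ℝ (toPt a)

noncomputable def IL (a b : SignType) : V →ₗ[ℝ] V :=
  Finsupp.linearCombination ℝ (fun w => II a w b)

noncomputable def anti : V →ₗ[ℝ] V :=
  Finsupp.linearCombination ℝ (fun w : Word => ((-1 : ℝ) ^ w.length) • wd w.reverse)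

noncomputable def rv : V →ₗ[ℝ] V := Finsupp.lmapDomain ℝ ℝ (fun w : Word => w.reverse)

noncomputable def mp (a : SignType) : V →ₗ[ℝ] V :=
  Finsupp.lmapDomain ℝ ℝ (fun w : Word => w.map (fun x => a * x))

/-- Put a letter at the end. -/
noncomputable def app (a : SignType) : V →ₗ[ℝ] V := Finsupp.lmapDomain ℝ ℝ (fun w : Word => w ++ [a])

/-- Words of length at most n, of length n. -/
noncomputable def lenLe (n : ℕ) : Submodule ℝ V := Finsupp.supported ℝ ℝ {w : Word | w.length ≤ n}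
noncomputable def lenEq (n : ℕ) : Submodule ℝ V := Finsupp.supported ℝ ℝ {w : Word | w.length = n}

/-- Deconcatenation. -/
noncomputable def dec (w : Word) : V ⊗[ℝ] V :=
  ∑ i ∈ Finset.range (w.length + 1), wd (w.take i) ⊗ₜ[ℝ] wd (w.drop i)

noncomputable def decL : V →ₗ[ℝ] V ⊗[ℝ] V := Finsupp.linearCombination ℝ dec

/-! ### A1: shuffles -/

def St_shRev : Prop := ∀ u v : Word, rv (sh u v) = sh u.reverse v.reverse

def St_shMap : Prop := ∀ (a : SignType) (u v : Word),
  mp a (sh u v) = sh (u.map (fun x => a * x)) (v.map (fun x => a * x))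

def St_shLast : Prop := ∀ (a b : SignType) (u v : Word),
  sh (u ++ [a]) (v ++ [b]) = app a (sh u (v ++ [b])) + app b (sh (u ++ [a]) v)

def St_shLen : Prop := ∀ u v : Word, sh u v ∈ lenEq (u.length + v.length)

/-- First letter decomposition: x * v for x in V and v = b v'. -/
def St_mulFirst : Prop := ∀ (a b : SignType) (x : V) (v : Word),
  mul (pre a x) (wd (b :: v)) = pre a (mul x (wd (b :: v))) + pre b (mul (pre a x) (wd v))

def St_mulComm : Prop := ∀ x y : V, mul x y = mul y x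

/-! ### A2: antipode, reversal -/

def St_anti : Prop := ∀ w : Word, w ≠ [] →
  ∑ i ∈ Finset.range (w.length + 1), ((-1 : ℝ) ^ i) • sh (w.take i).reverse (w.drop i) = 0

def St_charRev : Prop := ∀ c : V →ₗ[ℝ] ℝ, InfChar c → ∀ w : Word,
  c (wd w.reverse) = - ((-1 : ℝ) ^ w.length) * c (wd w)

def St_charTo : Prop := ∀ c : V →ₗ[ℝ] ℝ, InfChar c → ∀ (x : SignType) (u v : Word),
  u ≠ [] → v ≠ [] → c (toL x (sh u v)) = 0

/-! ### A3: the derivation property -/

def St_deriv : Prop := ∀ c : V →ₗ[ℝ] ℝ, InfChar c → ∀ (a b : SignType) (x y : V),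
  DL c a b (mul x y) = mul (DL c a b x) y + mul x (DL c a b y)

/-! ### A4: cuts and splittings -/

def St_decD : Prop := ∀ c : V →ₗ[ℝ] ℝ, InfChar c → ∀ (a b : SignType) (x : V),
  decL (DL c a b x) =
    TensorProduct.map (DL c a 0) LinearMap.id (decL x) + TensorProduct.map LinearMap.id (DL c 0 b) (decL x)

/-! ### A5: cuts of general integrals -/

def St_compI : Prop := ∀ c : V →ₗ[ℝ] ℝ, InfChar c → ∀ (a b : SignType) (x : V),
  D c (IL a b x) = IL a b (DL c a b x)

/-! ### A6: the coaction commutes with D -/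

def St_copD : Prop := ∀ c : V →ₗ[ℝ] ℝ, InfChar c → ∀ x : V,
  TensorProduct.map (D c) LinearMap.id (coact x) = coact (D c x)

/-! ### A7: the factorisation of the period map -/

/-- Per = chi o exp (D c), c infinitesimal and odd, chi multiplicative and even. -/
structure Split (c χ : V →ₗ[ℝ] ℝ) : Prop where
  inf : InfChar c
  odd : ∀ w : Word, Even w.length → c (wd w) = 0
  mul : ∀ x y : V, χ (Pool.MTV.mul x y) = χ x * χ y
  one : χ (wd []) = 1
  even : ∀ w : Word, Odd w.length → χ (wd w) = 0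
  exp : ∀ n : ℕ, ∀ x ∈ lenLe n,
    Per x = ∑ j ∈ Finset.range (n + 1), (1 / (j.factorial : ℝ)) * χ (((D c) ^ j) x)

def St_PerMul : Prop := ∀ x y : V, Per (mul x y) = Per x * Per y
def St_PerOne : Prop := Per (wd []) = 1
def St_PerZeta2 : Prop := Per zeta2 ≠ 0

def St_Split : Prop := St_PerMul → St_PerOne → ∃ c χ : V →ₗ[ℝ] ℝ, Split c χ

/-! ### A8: the ideal K -/

/-- The part of the functional c of weight r. -/
noncomputable def hom (r : ℕ) (c : V →ₗ[ℝ] ℝ) : V →ₗ[ℝ] ℝ :=
  Finsupp.linearCombination ℝ (fun w : Word => if w.length = r then c (wd w) else 0)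

noncomputable def Dr (c : V →ₗ[ℝ] ℝ) (r : ℕ) : V →ₗ[ℝ] V := D (hom r c)

/-- D_[r_1, ..., r_m] = D_(r_m) ... D_(r_1). -/
noncomputable def Dl (c : V →ₗ[ℝ] ℝ) : List ℕ → V →ₗ[ℝ] V
  | [] => LinearMap.id
  | r :: l => (Dl c l).comp (Dr c r)

/-- Homogeneous elements killed by all chi o D_l, l a list of odd numbers, are relations. -/
def St_K : Prop := ∀ c χ : V →ₗ[ℝ] ℝ, Split c χ → ∀ n : ℕ, ∀ x ∈ lenEq n,
  (∀ l : List ℕ, (∀ r ∈ l, Odd r) → χ (Dl c l x) = 0) → x ∈ relations

end Pool.MTV
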