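import Pool.Agent.MTV.StP
import Pool.Agent.MTV.StA

/-!
# The shuffle relation of the iterated integrals and of the regularised values
-/

open Filter Topology

namespace Pool.MTV

private lemma L4_LV_wd (z : ℝ) (w : Word) : LV z (wd w) = L w z := by
  simp [LV, wd, Finsupp.linearCombination_single]

private lemma L4_Per_wd (w : Word) : Per (wd w) = per w := by
  simp [Per, wd, Finsupp.linearCombination_single]

private lemma L4_mul_wd (u v : Word) : mul (wd u) (wd v) = sh u v := by
  simp [mul, wd, Finsupp.linearCombination_single]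

private lemma L4_sh_nil_right (u : Word) : sh u [] = wd u := by
  cases u <;> simp [sh]

private lemma L4_L_nil (z : ℝ) : L [] z = 1 := by
  simp [L, Lr]

private lemma L4_pre_wd (a : SignType) (w : Word) : pre a (wd w) = wd (a :: w) := by
  simp [pre, wd, Finsupp.lmapDomain_apply, Finsupp.mapDomain_single]

/-! ### all letters 0 -/

private lemma L4_L_zero (w : Word) (h : ∀ b ∈ w, b = 0) (z : ℝ) :
    L w z = Real.log z ^ w.length / (w.length.factorial : ℝ) := by
  unfold L
  rcases hr : w.reverse with _ | ⟨a, t⟩
  · have : w = [] := by simpa using hr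
    subst this
    simp [Lr]
  · have hlen : w.length = t.length + 1 := by
      have := congrArg List.length hr
      simpa using this
    have hall : ∀ b ∈ a :: t, b = 0 := by
      intro b hb
      rw [← hr] at hb
      exact h b (by simpa using hb)
    rw [Lr, if_pos hall, hlen]

private lemma L4_sh_zero (i j : ℕ) :
    sh (List.replicate i (0 : SignType)) (List.replicate j (0 : SignType)) =
      ((i + j).choose i : ℝ) • wd (List.replicate (i + j) (0 : SignType)) := by
  induction i generalizing j with
  | zero => simp [sh]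
  | succ i ihi =>
    induction j with
    | zero =>
      rw [List.replicate_zero, L4_sh_nil_right]
      simp
    | succ j ihj =>
      have h1 : sh (List.replicate (i + 1) (0 : SignType)) (List.replicate (j + 1) (0 : SignType)) =
          pre 0 (sh (List.replicate i (0 : SignType)) (List.replicate (j + 1) (0 : SignType))) +
          pre 0 (sh (List.replicate (i + 1) (0 : SignType)) (List.replicate j (0 : SignType))) := by
        simp only [List.replicate_succ]
        rw [sh]
      rw [h1, ihi, ihj, map_smul, map_smul, L4_pre_wd, L4_pre_wd]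
      have e1 : (0 : SignType) :: List.replicate (i + (j + 1)) 0 =
          List.replicate (i + 1 + (j + 1)) 0 := by
        rw [← List.replicate_succ]; congr 1; ring
      have e2 : (0 : SignType) :: List.replicate (i + 1 + j) 0 =
          List.replicate (i + 1 + (j + 1)) 0 := by
        rw [← List.replicate_succ]; congr 1
      rw [e1, e2, ← add_smul]
      congr 1
      have e3 : (i + 1 + (j + 1)).choose (i + 1) =
          (i + (j + 1)).choose i + (i + 1 + j).choose (i + 1) := by
        have : i + 1 + (j + 1) = (i + 1 + j) + 1 := by ring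
        rw [this, Nat.choose_succ_succ]
        congr 2
        ring
      rw [e3]
      push_cast
      ring

/-! ### letters of the words in a shuffle product -/

private lemma L4_supp_pre (a : SignType) (x : V) (w : Word) (hw : w ∈ (pre a x).support) :
    ∃ w' ∈ x.support, w = a :: w' := by
  unfold pre at hw
  rw [Finsupp.lmapDomain_apply] at hw
  have h := Finsupp.mapDomain_support hw
  rw [Finset.mem_image] at h
  obtain ⟨w', h1, h2⟩ := h
  exact ⟨w', h1, h2.symm⟩

private lemma L4_supp_sh (n : ℕ) : ∀ u v : Word, u.length + v.length = n →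
    ∀ w ∈ (sh u v).support, ∀ b, (b ∈ u ∨ b ∈ v) → b ∈ w := by
  induction n with
  | zero =>
    intro u v h w hw b hb
    have hu : u = [] := List.length_eq_zero_iff.mp (by omega)
    have hv : v = [] := List.length_eq_zero_iff.mp (by omega)
    subst hu hv
    simp at hb
  | succ n ih =>
    intro u v h w hw b hb
    rcases u with _ | ⟨a, u⟩
    · rw [sh, wd] at hw
      have := Finsupp.support_single_subset hw
      rw [Finset.mem_singleton] at this
      subst this
      simpa using hb
    · rcases v with _ | ⟨c, v⟩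
      · rw [L4_sh_nil_right, wd] at hw
        have := Finsupp.support_single_subset hw
        rw [Finset.mem_singleton] at this
        subst this
        simpa using hb
      · rw [sh] at hw
        have h2 := Finsupp.support_add hw
        rw [Finset.mem_union] at h2
        simp only [List.length_cons] at h
        rcases h2 with h2 | h2
        · obtain ⟨w', h3, h4⟩ := L4_supp_pre a _ w h2
          subst h4
          have := ih u (c :: v) (by simp only [List.length_cons]; omega) w' h3 b
          rcases hb with hb | hb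
          · rcases List.mem_cons.mp hb with hb | hb
            · subst hb; exact List.mem_cons_self
            · exact List.mem_cons_of_mem _ (this (Or.inl hb))
          · exact List.mem_cons_of_mem _ (this (Or.inr hb))
        · obtain ⟨w', h3, h4⟩ := L4_supp_pre c _ w h2
          subst h4
          have := ih (a :: u) v (by simp only [List.length_cons]; omega) w' h3 b
          rcases hb with hb | hb
          · exact List.mem_cons_of_mem _ (this (Or.inl hb))
          · rcases List.mem_cons.mp hb with hb | hb
            · subst hb; exact List.mem_cons_self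
            · exact List.mem_cons_of_mem _ (this (Or.inr hb))

/-! ### limits at 0 -/

private lemma L4_LV_apply (z : ℝ) (x : V) : LV z x = ∑ w ∈ x.support, x w * L w z := by
  unfold LV
  rw [Finsupp.linearCombination_apply, Finsupp.sum]
  simp only [smul_eq_mul]

private lemma L4_rpow_tendsto (r : ℝ) (hr : 0 < r) :
    Tendsto (fun z : ℝ => z ^ r) (𝓝[>] 0) (𝓝 0) := by
  have h : Tendsto (fun z : ℝ => z ^ r) (𝓝 0) (𝓝 ((0 : ℝ) ^ r)) :=
    (Real.continuousAt_rpow_const 0 r (Or.inr hr.le)).tendsto
  rw [Real.zero_rpow hr.ne'] at h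
  exact h.mono_left nhdsWithin_le_nhds

private lemma L4_ev : ∀ᶠ z : ℝ in 𝓝[>] 0, 0 < z ∧ z ≤ 1 / 2 := by
  have h1 : ∀ᶠ z : ℝ in 𝓝[>] 0, z ∈ Set.Ioc (0 : ℝ) (1 / 2) :=
    Ioc_mem_nhdsGT (by norm_num)
  exact h1.mono (fun z hz => ⟨hz.1, hz.2⟩)

private lemma L4_L_tendsto (h0 : St_Lzero) (w : Word) (hw : ∃ b ∈ w, b ≠ 0) :
    Tendsto (fun z => L w z) (𝓝[>] 0) (𝓝 0) := by
  obtain ⟨C, hC⟩ := h0 w
  have h1 : Tendsto (fun z : ℝ => C * z ^ ((1 / 2) : ℝ)) (𝓝[>] 0) (𝓝 0) := by
    simpa using (L4_rpow_tendsto (1 / 2) (by norm_num)).const_mul C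
  apply squeeze_zero_norm' _ h1
  filter_upwards [L4_ev] with z hz
  rw [Real.norm_eq_abs]
  exact (hC z hz.1 hz.2).2 hw

private lemma L4_LV_tendsto (h0 : St_Lzero) (x : V) (hx : ∀ w ∈ x.support, ∃ b ∈ w, b ≠ 0) :
    Tendsto (fun z => LV z x) (𝓝[>] 0) (𝓝 0) := by
  have h1 : Tendsto (fun z => ∑ w ∈ x.support, x w * L w z) (𝓝[>] 0)
      (𝓝 (∑ w ∈ x.support, x w * 0)) :=
    tendsto_finsetSum _ (fun w hw => (L4_L_tendsto h0 w (hx w hw)).const_mul (x w))
  simp only [mul_zero, Finset.sum_const_zero] at h1
  refine h1.congr (fun z => ?_)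
  rw [L4_LV_apply]

private lemma L4_prod_tendsto (h0 : St_Lzero) (u v : Word) (hu : ∃ b ∈ u, b ≠ 0) :
    Tendsto (fun z => L u z * L v z) (𝓝[>] 0) (𝓝 0) := by
  obtain ⟨C, hC⟩ := h0 u
  obtain ⟨C', hC'⟩ := h0 v
  have h1 : Tendsto (fun z : ℝ => (|C| * |C'|) * z ^ ((1 / 4) : ℝ)) (𝓝[>] 0) (𝓝 0) := by
    simpa using (L4_rpow_tendsto (1 / 4) (by norm_num)).const_mul (|C| * |C'|)
  apply squeeze_zero_norm' _ h1
  filter_upwards [L4_ev] with z hz
  rw [Real.norm_eq_abs, abs_mul]
  have a1 : |L u z| ≤ |C| * z ^ ((1 / 2) : ℝ) :=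
    ((hC z hz.1 hz.2).2 hu).trans
      (mul_le_mul_of_nonneg_right (le_abs_self C) (Real.rpow_nonneg hz.1.le _))
  have a2 : |L v z| ≤ |C'| * z ^ (-(1 / 4) : ℝ) :=
    ((hC' z hz.1 hz.2).1).trans
      (mul_le_mul_of_nonneg_right (le_abs_self C') (Real.rpow_nonneg hz.1.le _))
  have a3 : z ^ ((1 / 2) : ℝ) * z ^ (-(1 / 4) : ℝ) = z ^ ((1 / 4) : ℝ) := by
    rw [← Real.rpow_add hz.1]
    norm_num
  calc |L u z| * |L v z| ≤ (|C| * z ^ ((1 / 2) : ℝ)) * (|C'| * z ^ (-(1 / 4) : ℝ)) :=
        mul_le_mul a1 a2 (abs_nonneg _)
          (mul_nonneg (abs_nonneg _) (Real.rpow_nonneg hz.1.le _))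
    _ = (|C| * |C'|) * (z ^ ((1 / 2) : ℝ) * z ^ (-(1 / 4) : ℝ)) := by ring
    _ = (|C| * |C'|) * z ^ ((1 / 4) : ℝ) := by rw [a3]

/-! ### derivatives -/

private lemma L4_app_deriv (hd : St_Lderiv) (a : SignType) (x : V) (z : ℝ) (h0 : 0 < z)
    (h1 : z < 1) :
    HasDerivAt (fun z => LV z (app a x)) (LV z x / (z - ((a : SignType) : ℝ))) z := by
  induction x using Finsupp.induction_linear with
  | zero =>
    simp only [map_zero, zero_div]
    exact hasDerivAt_const z 0
  | add x y hx hy =>
    have := hx.add hy
    simp only [map_add, add_div]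
    exact this
  | single w r =>
    have e1 : ∀ t : ℝ, LV t (app a (Finsupp.single w r)) = r * L (w ++ [a]) t := by
      intro t
      simp [LV, app, Finsupp.lmapDomain_apply, Finsupp.mapDomain_single,
        Finsupp.linearCombination_single]
    have e2 : LV z (Finsupp.single w r) = r * L w z := by
      simp [LV, Finsupp.linearCombination_single]
    have h := (hd w a z h0 h1).const_mul r
    rw [e2, mul_div_assoc]
    exact h.congr_of_eventuallyEq (Filter.Eventually.of_forall e1)

private lemma L4_const (f : ℝ → ℝ) (hf : ∀ z, 0 < z → z < 1 → HasDerivAt f 0 z)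
    (hl : Tendsto f (𝓝[>] 0) (𝓝 0)) (z : ℝ) (h0 : 0 < z) (h1 : z < 1) : f z = 0 := by
  have hc : ∀ y ∈ Set.Ioo (0 : ℝ) 1, f y = f z := by
    intro y hy
    apply IsOpen.is_const_of_deriv_eq_zero isOpen_Ioo isPreconnected_Ioo
      (fun t ht => (hf t ht.1 ht.2).differentiableAt.differentiableWithinAt)
      (fun t ht => (hf t ht.1 ht.2).deriv) hy ⟨h0, h1⟩
  have h2 : Tendsto (fun _ : ℝ => f z) (𝓝[>] 0) (𝓝 0) := by
    refine hl.congr' ?_
    filter_upwards [Ioo_mem_nhdsGT (show (0 : ℝ) < 1 by norm_num)] with y hy
    exact hc y hy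
  exact tendsto_nhds_unique tendsto_const_nhds h2

theorem thm_Lshuffle (hLast : St_shLast) (h0 : St_Lzero) (hd : St_Lderiv) : St_Lshuffle := by
  have main : ∀ n : ℕ, ∀ u v : Word, u.length + v.length = n → ∀ z : ℝ, 0 < z → z < 1 →
      L u z * L v z = LV z (sh u v) := by
    intro n
    induction n using Nat.strong_induction_on with
    | _ n ih =>
      intro u v hn z hz0 hz1
      rcases List.eq_nil_or_concat u with hu | ⟨u', a, hu⟩
      · subst hu
        rw [sh, L4_LV_wd, L4_L_nil, one_mul]
      rcases List.eq_nil_or_concat v with hv | ⟨v', b, hv⟩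
      · subst hv
        rw [L4_sh_nil_right, L4_LV_wd, L4_L_nil, mul_one]
      by_cases hall : (∀ c ∈ u, c = 0) ∧ (∀ c ∈ v, c = 0)
      · have hu2 : u = List.replicate u.length 0 := List.eq_replicate_of_mem hall.1
        have hv2 : v = List.replicate v.length 0 := List.eq_replicate_of_mem hall.2
        have e1 : sh u v = ((u.length + v.length).choose u.length : ℝ) •
            wd (List.replicate (u.length + v.length) (0 : SignType)) := by
          conv_lhs => rw [hu2, hv2]
          exact L4_sh_zero _ _
        rw [e1, map_smul, L4_LV_wd, L4_L_zero u hall.1, L4_L_zero v hall.2,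
          L4_L_zero _ (fun b hb => List.eq_of_mem_replicate hb), List.length_replicate,
          smul_eq_mul, pow_add]
        have hfac : ((u.length + v.length).choose u.length : ℝ) *
            ((u.length.factorial : ℝ) * (v.length.factorial : ℝ)) =
            ((u.length + v.length).factorial : ℝ) := by
          have := Nat.choose_mul_factorial_mul_factorial (Nat.le_add_right u.length v.length)
          rw [Nat.add_sub_cancel_left] at this
          rw [← mul_assoc]
          exact_mod_cast this
        have n1 : (u.length.factorial : ℝ) ≠ 0 := by exact_mod_cast Nat.factorial_ne_zero _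
        have n2 : (v.length.factorial : ℝ) ≠ 0 := by exact_mod_cast Nat.factorial_ne_zero _
        have n3 : ((u.length + v.length).factorial : ℝ) ≠ 0 := by
          exact_mod_cast Nat.factorial_ne_zero _
        rw [div_mul_div_comm, mul_div_assoc', div_eq_div_iff (mul_ne_zero n1 n2) n3, ← hfac]
        ring
      · have hex : (∃ c ∈ u, c ≠ 0) ∨ (∃ c ∈ v, c ≠ 0) := by
          by_contra hcon
          push Not at hcon
          exact hall ⟨fun c hc => hcon.1 c hc, fun c hc => hcon.2 c hc⟩
        have hu3 : u = u' ++ [a] := by rw [hu, List.concat_eq_append]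
        have hv3 : v = v' ++ [b] := by rw [hv, List.concat_eq_append]
        have hf : ∀ t, 0 < t → t < 1 →
            HasDerivAt (fun t => L u t * L v t - LV t (sh u v)) 0 t := by
          intro t ht0 ht1
          have e1 : HasDerivAt (L u) (L u' t / (t - ((a : SignType) : ℝ))) t := by
            rw [hu3]; exact hd u' a t ht0 ht1
          have e2 : HasDerivAt (L v) (L v' t / (t - ((b : SignType) : ℝ))) t := by
            rw [hv3]; exact hd v' b t ht0 ht1
          have e3 : sh u v = app a (sh u' v) + app b (sh u v') := by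
            rw [hu3, hv3]; exact hLast a b u' v'
          have e4 := L4_app_deriv hd a (sh u' v) t ht0 ht1
          have e5 := L4_app_deriv hd b (sh u v') t ht0 ht1
          have l1 : u'.length + v.length < n := by
            have : u.length = u'.length + 1 := by rw [hu3]; simp
            omega
          have l2 : u.length + v'.length < n := by
            have : v.length = v'.length + 1 := by rw [hv3]; simp
            omega
          have i1 := ih _ l1 u' v rfl t ht0 ht1
          have i2 := ih _ l2 u v' rfl t ht0 ht1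
          have h := (e1.mul e2).sub (e4.add e5)
          have e6 : (fun t => L u t * L v t - LV t (sh u v)) =
              (L u * L v) - ((fun z => LV z (app a (sh u' v))) + fun z => LV z (app b (sh u v'))) := by
            funext s
            simp only [Pi.sub_apply, Pi.mul_apply, Pi.add_apply]
            rw [e3, map_add]
          have e7 : (0 : ℝ) = L u' t / (t - ((a : SignType) : ℝ)) * L v t +
              L u t * (L v' t / (t - ((b : SignType) : ℝ))) -
              (LV t (sh u' v) / (t - ((a : SignType) : ℝ)) +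
              LV t (sh u v') / (t - ((b : SignType) : ℝ))) := by
            rw [← i1, ← i2]
            ring
          rw [e6, e7]
          exact h
        have hl : Tendsto (fun t => L u t * L v t - LV t (sh u v)) (𝓝[>] 0) (𝓝 0) := by
          have t1 : Tendsto (fun t => L u t * L v t) (𝓝[>] 0) (𝓝 0) := by
            rcases hex with hex | hex
            · exact L4_prod_tendsto h0 u v hex
            · refine (L4_prod_tendsto h0 v u hex).congr (fun t => ?_)
              ring
          have t2 : Tendsto (fun t => LV t (sh u v)) (𝓝[>] 0) (𝓝 0) := by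
            apply L4_LV_tendsto h0
            intro w hw
            have h4 := L4_supp_sh _ u v rfl w hw
            rcases hex with ⟨c, hc, hc0⟩ | ⟨c, hc, hc0⟩
            · exact ⟨c, h4 c (Or.inl hc), hc0⟩
            · exact ⟨c, h4 c (Or.inr hc), hc0⟩
          simpa using t1.sub t2
        have := L4_const _ hf hl z hz0 hz1
        linarith
  intro u v z h1 h2
  exact main _ u v rfl z h1 h2

/-! ### the period map is multiplicative -/

private lemma L4_poly_tendsto (P : Polynomial ℝ) :
    Tendsto (fun z : ℝ => P.eval (Real.log (1 - z)) * (1 - z) ^ ((1 / 2) : ℝ)) (𝓝[<] 1) (𝓝 0) := by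
  have h1 := Polynomial.tendsto_div_exp_atTop (P.comp (Polynomial.C (-2) * Polynomial.X))
  have h2 : Tendsto (fun z : ℝ => -(1 / 2) * Real.log (1 - z)) (𝓝[<] 1) atTop := by
    have h3 : Tendsto (fun z : ℝ => 1 - z) (𝓝[<] 1) (𝓝[>] 0) := by
      apply tendsto_nhdsWithin_of_tendsto_nhds_of_eventually_within
      · have : Tendsto (fun z : ℝ => 1 - z) (𝓝 1) (𝓝 (1 - 1)) :=
          (continuous_const.sub continuous_id).tendsto 1
        rw [sub_self] at this
        exact this.mono_left nhdsWithin_le_nhds
      · filter_upwards [self_mem_nhdsWithin] with z hz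
        have : z < 1 := hz
        exact sub_pos.mpr this
    have h4 := Real.tendsto_log_nhdsGT_zero.comp h3
    exact h4.const_mul_atBot_of_neg (by norm_num)
  refine (h1.comp h2).congr' ?_
  filter_upwards [self_mem_nhdsWithin] with z hz
  have hz1 : 0 < 1 - z := sub_pos.mpr hz
  simp only [Function.comp_apply, Polynomial.eval_comp, Polynomial.eval_mul, Polynomial.eval_C,
    Polynomial.eval_X]
  have e1 : (-2 : ℝ) * (-(1 / 2) * Real.log (1 - z)) = Real.log (1 - z) := by ring
  rw [e1, Real.rpow_def_of_pos hz1, div_eq_mul_inv, ← Real.exp_neg]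
  congr 2
  ring

private lemma L4_ev1 : ∀ᶠ z : ℝ in 𝓝[<] 1, 1 / 2 ≤ z ∧ z < 1 := by
  have h1 : ∀ᶠ z : ℝ in 𝓝[<] 1, z ∈ Set.Ico (1 / 2 : ℝ) 1 :=
    Ico_mem_nhdsLT (by norm_num)
  exact h1.mono (fun z hz => ⟨hz.1, hz.2⟩)

private lemma L4_dif_tendsto (u : Word) (P : Polynomial ℝ) (C : ℝ)
    (hP : ∀ z : ℝ, 1 / 2 ≤ z → z < 1 →
      |L u z - P.eval (Real.log (1 - z))| ≤ C * (1 - z) ^ ((1 / 2) : ℝ)) (Q : Polynomial ℝ) :
    Tendsto (fun z => (L u z - P.eval (Real.log (1 - z))) * Q.eval (Real.log (1 - z)))
      (𝓝[<] 1) (𝓝 0) := by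
  have h1 : Tendsto (fun z : ℝ => C * |Q.eval (Real.log (1 - z)) * (1 - z) ^ ((1 / 2) : ℝ)|)
      (𝓝[<] 1) (𝓝 0) := by
    simpa using (L4_poly_tendsto Q).abs.const_mul C
  apply squeeze_zero_norm' _ h1
  filter_upwards [L4_ev1] with z hz
  have hz1 : 0 ≤ 1 - z := by linarith [hz.2]
  rw [Real.norm_eq_abs, abs_mul, abs_mul, abs_of_nonneg (Real.rpow_nonneg hz1 _)]
  have := mul_le_mul_of_nonneg_right (hP z hz.1 hz.2) (abs_nonneg (Q.eval (Real.log (1 - z))))
  linarith

theorem thm_PerMul (h1 : St_Lone) (hs : St_Lshuffle) (hp : St_PerLim) : St_PerMul := by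
  have hw : ∀ u v : Word, Per (sh u v) = Per (wd u) * Per (wd v) := by
    intro u v
    obtain ⟨P, C, hP⟩ := h1 u
    obtain ⟨Q, C', hQ⟩ := h1 v
    have a1 : Tendsto (fun z => L u z - P.eval (Real.log (1 - z))) (𝓝[<] 1) (𝓝 0) := by
      have := L4_dif_tendsto u P C hP 1
      simpa using this
    have a2 : Tendsto (fun z => L v z - Q.eval (Real.log (1 - z))) (𝓝[<] 1) (𝓝 0) := by
      have := L4_dif_tendsto v Q C' hQ 1
      simpa using this
    have b1 : Per (wd u) = P.coeff 0 := by
      apply hp
      refine a1.congr (fun z => ?_)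
      rw [L4_LV_wd]
    have b2 : Per (wd v) = Q.coeff 0 := by
      apply hp
      refine a2.congr (fun z => ?_)
      rw [L4_LV_wd]
    have b3 : Per (sh u v) = (P * Q).coeff 0 := by
      apply hp
      have t1 := L4_dif_tendsto u P C hP Q
      have t2 := L4_dif_tendsto v Q C' hQ P
      have t3 := a1.mul a2
      have t4 := (t1.add t2).add t3
      simp only [mul_zero, add_zero] at t4
      refine t4.congr' ?_
      filter_upwards [L4_ev1] with z hz
      rw [← hs u v z (by linarith [hz.1]) hz.2, Polynomial.eval_mul]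
      ring
    rw [b3, b1, b2, Polynomial.mul_coeff_zero]
  intro x y
  induction x using Finsupp.induction_linear with
  | zero => simp
  | add x x' hx hx' => rw [map_add, LinearMap.add_apply, map_add, hx, hx', map_add, add_mul]
  | single u r =>
    induction y using Finsupp.induction_linear with
    | zero => simp
    | add y y' hy hy' => rw [map_add, map_add, hy, hy', map_add, mul_add]
    | single v s =>
      have e1 : (Finsupp.single u r : V) = r • wd u := by simp [wd]
      have e2 : (Finsupp.single v s : V) = s • wd v := by simp [wd]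
      simp only [e1, e2, map_smul, LinearMap.smul_apply, L4_mul_wd, hw, smul_eq_mul]
      ring

end Pool.MTV
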