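import Pool.Agent.MTV.ShA
import Pool.Agent.MTV.ShB
import Pool.Agent.MTV.Ant
import Pool.Agent.MTV.Sder
import Pool.Agent.MTV.Der
import Pool.Agent.MTV.DecD
import Pool.Agent.MTV.LastD
import Pool.Agent.MTV.ToD
import Pool.Agent.MTV.AntiD
import Pool.Agent.MTV.CompI
import Pool.Agent.MTV.CopU
import Pool.Agent.MTV.CopD
import Pool.Agent.MTV.Dhom
import Pool.Agent.MTV.Leib
import Pool.Agent.MTV.Split
import Pool.Agent.MTV.Sep
import Pool.Agent.MTV.CoLen
import Pool.Agent.MTV.ZetaD
import Pool.Agent.MTV.KA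
import Pool.Agent.MTV.KK
import Pool.Agent.MTV.L1
import Pool.Agent.MTV.L2
import Pool.Agent.MTV.L3
import Pool.Agent.MTV.L4

/-!
# The algebra half and the multiplicativity of the period map
-/

namespace Pool.MTV

theorem v_charTo : St_charTo := thm_charTo thm_shMap thm_shLen
theorem v_Sder : St_Sder := thm_Sder thm_mulFirst thm_mulComm
theorem v_deriv : St_deriv := thm_deriv thm_mulFirst thm_mulComm v_charTo v_Sder
theorem v_compI : St_compI :=
  thm_compI v_deriv thm_decD thm_toD (thm_antiD thm_charRev thm_lastD) thm_ILdec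
theorem v_copD : St_copD := thm_copD v_deriv thm_ptD v_compI thm_copU
theorem v_homInf : St_homInf := thm_homInf thm_shLen
theorem v_zetaD : St_zetaD := thm_zetaD v_deriv
theorem v_coLen : St_coLen := thm_coLen thm_shLen

theorem v_Lone : St_Lone := thm_Lone thm_Lzero thm_Lderiv
theorem v_PerLim : St_PerLim := thm_PerLim v_Lone
theorem v_Lshuffle : St_Lshuffle := thm_Lshuffle thm_shLast thm_Lzero thm_Lderiv
theorem v_PerMul : St_PerMul := thm_PerMul v_Lone v_Lshuffle v_PerLim

/-- The factorisation of the period map. -/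
theorem v_Split : ∃ c χ : V →ₗ[ℝ] ℝ, Split c χ :=
  thm_Split thm_Dhom thm_Dsum v_homInf thm_shLen (thm_Leib v_deriv thm_shLen) v_PerMul thm_PerOne

theorem v_K (h : St_PerZeta2) : St_K :=
  thm_K v_copD v_homInf thm_Dhom thm_Dsum v_coLen thm_Sep
    (thm_KA v_copD v_homInf thm_Dhom v_coLen v_zetaD thm_shLen h)

end Pool.MTV
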