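import Pool.Agent.MTV.StX

/-!
# Combinatorics of skeleton words: cuts and the block degree
-/

namespace Pool.MTV

/-! ### sums over adjacent letters -/

/-- Sum of a function over the pairs of adjacent letters. -/
private def adj (f : Bool → Bool → ℕ) : List Bool → ℕ
  | a :: b :: l => f a b + adj f (b :: l)
  | _ => 0

private theorem adj_one (f : Bool → Bool → ℕ) (a : Bool) : adj f [a] = 0 := rfl

private theorem adj_cons (f : Bool → Bool → ℕ) (a b : Bool) (l : List Bool) :
    adj f (a :: b :: l) = f a b + adj f (b :: l) := rfl

private theorem adj_split (f : Bool → Bool → ℕ) (l₁ l₂ : List Bool) (x : Bool) :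
    adj f (l₁ ++ x :: l₂) = adj f (l₁ ++ [x]) + adj f (x :: l₂) := by
  induction l₁ with
  | nil => simp [adj_one]
  | cons a l ih =>
    cases l with
    | nil => simp [adj_cons, adj_one]
    | cons b l =>
      simp only [List.cons_append, adj_cons] at ih ⊢
      rw [ih, add_assoc]

private theorem adj_rev (f : Bool → Bool → ℕ) (hf : ∀ a b, f a b = f b a) (l : List Bool) :
    adj f l.reverse = adj f l := by
  induction l with
  | nil => rfl
  | cons a l ih =>
    cases l with
    | nil => rfl
    | cons b l =>
      rw [List.reverse_cons, List.reverse_cons, List.append_assoc, adj_cons]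
      rw [List.reverse_cons] at ih
      have h := adj_split f l.reverse [a] b
      simp only [List.cons_append, List.nil_append] at h ⊢
      rw [h, ih, adj_cons, adj_one, hf]
      ring

private theorem rep_eq (l : List Bool) : rep l = adj (fun a b => if a = b then 1 else 0) l := by
  induction l with
  | nil => rfl
  | cons a l ih =>
    cases l with
    | nil => rfl
    | cons b l => rw [rep, adj_cons, ih]

private theorem no11_iff (s : List Bool) :
    no11 s = true ↔ adj (fun a b => if a && b then 1 else 0) (s ++ [true]) = 0 := by
  induction s with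
  | nil => simp [no11, adj]
  | cons a l ih =>
    cases l with
    | nil => cases a <;> simp [no11, adj]
    | cons b l =>
      rw [no11]
      simp only [List.cons_append, adj_cons] at ih ⊢
      rw [Bool.and_eq_true, ih]
      cases a <;> cases b <;> simp

/-- The last letter of (L; u). -/
private def lst : Bool → List Bool → Bool
  | L, [] => L
  | _, x :: u => lst x u

private theorem lst_eq (L : Bool) (u : List Bool) : ∃ U : List Bool, L :: u = U ++ [lst L u] := by
  induction u generalizing L with
  | nil => exact ⟨[], rfl⟩
  | cons x u ih =>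
    obtain ⟨U, hU⟩ := ih x
    refine ⟨L :: U, ?_⟩
    rw [lst, hU]
    rfl

private theorem hdB_eq (v : List Bool) : ∃ V : List Bool, v ++ [true] = hdB v :: V := by
  cases v with
  | nil => exact ⟨[], rfl⟩
  | cons x v => exact ⟨v ++ [true], rfl⟩

private theorem cuts_mem : ∀ (s : List Bool) (L : Bool) (t : ℤ × List Bool × List Bool),
    t ∈ cuts L s → ∃ u p v, s = u ++ (p ++ v) ∧
      t = (kap (hdB v) - kap (lst L u), p, u ++ v)
  | [], L, t, ht => by simp [cuts] at ht
  | x :: s, L, t, ht => by
    rw [cuts, List.mem_append] at ht
    rcases ht with ht | ht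
    · rw [cutsP, List.mem_map] at ht
      obtain ⟨i, -, rfl⟩ := ht
      exact ⟨[], (x :: s).take (i + 1), (x :: s).drop (i + 1), (List.take_append_drop _ _).symm, rfl⟩
    · rw [List.mem_map] at ht
      obtain ⟨t', ht', rfl⟩ := ht
      obtain ⟨u, p, v, h1, h2⟩ := cuts_mem s x t' ht'
      refine ⟨x :: u, p, v, ?_, ?_⟩
      · rw [h1]
        rfl
      · rw [h2]
        rfl

/-- The parity of the number of equal neighbours. -/
private theorem parity (l : List Bool) (a b : Bool) :
    (rep (a :: (l ++ [b])) + (if a = b then 0 else 1) + l.length + 1) % 2 = 0 := by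
  induction l generalizing a with
  | nil => cases a <;> cases b <;> rfl
  | cons c l ih =>
    have h := ih c
    have e : rep (a :: (c :: l ++ [b])) = (if a = c then 1 else 0) + rep (c :: (l ++ [b])) := rfl
    rw [e, List.length_cons]
    revert h
    generalize rep (c :: (l ++ [b])) = r
    cases a <;> cases b <;> cases c <;> simp <;> omega

private theorem kap_cases (a b : Bool) (h : kap b - kap a ≠ 0) :
    (kap b - kap a = 1 ∧ b = true ∧ a = false) ∨ (kap b - kap a = -1 ∧ b = false ∧ a = true) := by
  cases a <;> cases b <;> simp [kap] at *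

private theorem sum_split (f : Bool → Bool → ℕ) (L : Bool) (u p v : List Bool) :
    ∃ A B : ℕ,
      adj f (L :: ((u ++ (p ++ v)) ++ [true])) = A + adj f (lst L u :: (p ++ [hdB v])) + B ∧
      adj f (L :: ((u ++ v) ++ [true])) = A + f (lst L u) (hdB v) + B := by
  obtain ⟨U, hU⟩ := lst_eq L u
  obtain ⟨W, hW⟩ := hdB_eq v
  refine ⟨adj f (U ++ [lst L u]), adj f (hdB v :: W), ?_, ?_⟩
  · have e : L :: ((u ++ (p ++ v)) ++ [true]) = U ++ lst L u :: (p ++ hdB v :: W) := by
      have e1 : L :: ((u ++ (p ++ v)) ++ [true]) = (L :: u) ++ (p ++ (v ++ [true])) := by simp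
      rw [e1, hU, hW]
      simp
    have e2 : lst L u :: (p ++ hdB v :: W) = (lst L u :: p) ++ hdB v :: W := by simp
    rw [e, adj_split f U, e2, adj_split f (lst L u :: p)]
    have e3 : (lst L u :: p) ++ [hdB v] = lst L u :: (p ++ [hdB v]) := by simp
    rw [e3]
    ring
  · have e : L :: ((u ++ v) ++ [true]) = U ++ lst L u :: (hdB v :: W) := by
      have e1 : L :: ((u ++ v) ++ [true]) = (L :: u) ++ (v ++ [true]) := by simp
      rw [e1, hU, hW]
      simp
    rw [e, adj_split f U, adj_cons]
    ring

/-- The main computation: a cut with different neighbours. -/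
private theorem main (u p v : List Bool) (L : Bool) (h0 : kap (hdB v) - kap (lst L u) ≠ 0)
    (hp : Odd p.length) :
    (kap (hdB v) - kap (lst L u) = 1 ∨ kap (hdB v) - kap (lst L u) = -1) ∧
    1 ≤ bd (ori (kap (hdB v) - kap (lst L u)) p) ∧
    bd (ori (kap (hdB v) - kap (lst L u)) p) + rep (L :: ((u ++ v) ++ [true])) =
      rep (L :: ((u ++ (p ++ v)) ++ [true])) ∧
    (adj (fun a b => if a && b then 1 else 0) (L :: ((u ++ (p ++ v)) ++ [true])) = 0 →
      no11 (ori (kap (hdB v) - kap (lst L u)) p) = true ∧
      adj (fun a b => if a && b then 1 else 0) (L :: ((u ++ v) ++ [true])) = 0) := by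
  obtain ⟨A, B, h1, h2⟩ := sum_split (fun a b => if a = b then 1 else 0) L u p v
  obtain ⟨A', B', h3, h4⟩ := sum_split (fun a b => if a && b then 1 else 0) L u p v
  have hpar : ∀ q : List Bool, Odd q.length → 1 ≤ bd q := by
    intro q hq
    have h := parity q false true
    obtain ⟨m, hm⟩ := hq
    rw [bd]
    simp only [Bool.false_eq_true, if_false] at h
    omega
  rcases kap_cases _ _ h0 with ⟨hk, hb, ha⟩ | ⟨hk, hb, ha⟩
  · rw [ha, hb] at h1 h2 h3 h4
    rw [hk]
    simp only [ori, if_true]
    refine ⟨by simp, hpar p hp, ?_, fun hz => ?_⟩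
    · rw [bd, rep_eq, rep_eq, rep_eq, h1, h2]
      simp only [Bool.false_eq_true, if_false]
      ring
    · rw [h3] at hz
      rw [no11_iff]
      simp only [Bool.false_and, Bool.false_eq_true, if_false] at h4
      have h5 : adj (fun a b => if a && b then 1 else 0) (false :: (p ++ [true])) = 0 := by omega
      refine ⟨?_, by omega⟩
      cases p with
      | nil => simp at hp
      | cons x p =>
        simp only [List.cons_append, adj_cons] at h5 ⊢
        omega
  · rw [ha, hb] at h1 h2 h3 h4
    rw [hk]
    have hori : ori (-1) p = p.reverse := by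
      unfold ori
      exact if_neg (by norm_num)
    rw [hori]
    have hrev : (true :: (p ++ [false])).reverse = false :: (p.reverse ++ [true]) := by simp
    refine ⟨Or.inr rfl, hpar _ (by rw [List.length_reverse]; exact hp), ?_, fun hz => ?_⟩
    · rw [bd, rep_eq, rep_eq, rep_eq, h1, h2, ← hrev, adj_rev _ (fun a b => by simp only [eq_comm])]
      simp only [Bool.true_eq_false, if_false]
      ring
    · rw [h3] at hz
      rw [no11_iff]
      simp only [Bool.and_false, Bool.false_eq_true, if_false] at h4
      have h5 : adj (fun a b => if a && b then 1 else 0) (false :: (p.reverse ++ [true])) = 0 := by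
        rw [← hrev, adj_rev _ (fun a b => by simp only [Bool.and_comm])]
        omega
      refine ⟨?_, by omega⟩
      have hp' : Odd p.reverse.length := by rw [List.length_reverse]; exact hp
      revert h5 hp'
      generalize p.reverse = q
      intro h5 hp'
      cases q with
      | nil => simp at hp'
      | cons x p =>
        simp only [List.cons_append, adj_cons] at h5 ⊢
        omega

private theorem no11_false (s : List Bool) :
    no11 s = true ↔ adj (fun a b => if a && b then 1 else 0) (false :: (s ++ [true])) = 0 := by
  rw [no11_iff]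
  cases s with
  | nil => simp [adj]
  | cons x s => simp [adj_cons]

theorem thm_bd : St_bd := by
  intro k s hs t ht h0 hodd
  have hcut : ∀ (K : Kind), t ∈ (cuts false s).map (fun t => (t.1, K, t.2.1, t.2.2)) →
      ∃ u p v, s = u ++ (p ++ v) ∧ t = (kap (hdB v) - kap (lst false u), K, p, u ++ v) := by
    intro K h
    rw [List.mem_map] at h
    obtain ⟨t', ht', rfl⟩ := h
    obtain ⟨u, p, v, h1, h2⟩ := cuts_mem s false t' ht'
    exact ⟨u, p, v, h1, by rw [h2]⟩
  cases k with
  | Z =>
    obtain ⟨u, p, v, rfl, rfl⟩ := hcut Kind.Z ht
    obtain ⟨m1, m2, m3, m4⟩ := main u p v false h0 hodd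
    have hz := (no11_false _).1 hs
    refine ⟨m1, (m4 hz).1, (no11_false _).2 (m4 hz).2, ?_, m2, m3, fun _ h => by cases h⟩
    simp only [List.length_append]
    omega
  | Y =>
    obtain ⟨u, p, v, rfl, rfl⟩ := hcut Kind.Y ht
    obtain ⟨m1, m2, m3, -⟩ := main u p v false h0 hodd
    refine ⟨m1, rfl, rfl, ?_, m2, m3, fun _ h => by cases h⟩
    simp only [List.length_append]
    omega
  | X =>
    cases s with
    | nil => simp [cutsK] at ht
    | cons x s =>
      have hx : x = true := hs
      subst hx
      rw [cutsK, List.mem_append] at ht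
      rcases ht with ht | ht
      · rw [List.mem_map] at ht
        obtain ⟨i, -, rfl⟩ := ht
        set p := (true :: s).take (i + 1) with hp
        set v := (true :: s).drop (i + 1) with hv
        have hpv : true :: s = p ++ v := (List.take_append_drop _ _).symm
        have hb : hdB v = true := by
          cases h : hdB v with
          | true => rfl
          | false => exact absurd (by simp only [h]; rfl) h0
        have h0' : kap (hdB v) - kap (lst false []) ≠ 0 := by
          rw [hb]
          decide
        obtain ⟨m1, m2, m3, -⟩ := main [] p v false h0' hodd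
        have e1 : kap (hdB v) - kap (lst false []) = 1 := by rw [hb]; rfl
        have e2 : kap (hdB v) = 1 := by rw [hb]; rfl
        rw [e1] at m2 m3
        simp only [e2]
        refine ⟨by simp, ?_, hb, ?_, m2, ?_, fun h => by norm_num at h⟩
        · simp only [ori, if_true]
          have : p = true :: s.take i := by rw [hp, List.take_succ_cons]
          rw [this]
          rfl
        · rw [hpv, List.length_append]
        · rw [hpv]
          exact m3
      · rw [List.mem_map] at ht
        obtain ⟨t', ht', rfl⟩ := ht
        obtain ⟨u, p, v, rfl, rfl⟩ := cuts_mem s true t' ht'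
        have h0' : kap (hdB v) - kap (lst false (true :: u)) ≠ 0 := h0
        obtain ⟨m1, m2, m3, -⟩ := main (true :: u) p v false h0' hodd
        refine ⟨m1, rfl, rfl, ?_, m2, m3, fun _ h => by cases h⟩
        simp only [List.length_append, List.length_cons]
        omega

/-! ### words of small block degree -/

private theorem len_alt (n : ℕ) : (alt n).length = 2 * n := by
  induction n with
  | zero => rfl
  | succ n ih =>
    rw [alt, List.length_cons, List.length_cons, ih]
    ring

private theorem bd_tf (s : List Bool) : bd (true :: false :: s) = bd s := by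
  simp [bd, rep]

private theorem class0 : ∀ s : List Bool, bd s = 0 → s = alt (s.length / 2)
  | [], _ => rfl
  | [x], h => by cases x <;> simp [bd, rep] at h
  | true :: false :: s, h => by
    rw [bd_tf] at h
    have h1 := class0 s h
    have h2 : (true :: false :: s).length / 2 = s.length / 2 + 1 := by
      simp only [List.length_cons]
      omega
    rw [h2, alt, ← h1]
  | false :: y :: s, h => by
    simp [bd, rep] at h
  | true :: true :: s, h => by
    simp [bd, rep] at h

private theorem class1 : ∀ s : List Bool, bd s = 1 →
    (s = W0 (s.length / 2) ∧ dbl (false :: (s ++ [true])) = 0) ∨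
    (∃ a < s.length / 2, s = W3 a (s.length / 2 - 1 - a) ∧
      dbl (false :: (s ++ [true])) = 2 * a + 2) ∨
    (∃ a ≤ s.length / 2, s = W1 a (s.length / 2 - a) ∧ dbl (false :: (s ++ [true])) = 2 * a + 1)
  | [], h => by simp [bd, rep] at h
  | [x], h => by
    cases x
    · exact Or.inl ⟨rfl, rfl⟩
    · exact Or.inr (Or.inr ⟨0, Nat.zero_le _, rfl, rfl⟩)
  | true :: false :: s, h => by
    rw [bd_tf] at h
    have h2 : (true :: false :: s).length / 2 = s.length / 2 + 1 := by
      simp only [List.length_cons]
      omega
    have h3 : dbl (false :: ((true :: false :: s) ++ [true])) = dbl (false :: (s ++ [true])) + 2 := by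
      simp [dbl]
    rw [h2, h3]
    rcases class1 s h with ⟨h1, h4⟩ | ⟨a, ha, h1, h4⟩ | ⟨a, ha, h1, h4⟩
    · refine Or.inr (Or.inl ⟨0, Nat.succ_pos _, ?_, by rw [h4]⟩)
      have e : s.length / 2 + 1 - 1 - 0 = s.length / 2 := by omega
      rw [e]
      conv_lhs => rw [h1]
      rfl
    · refine Or.inr (Or.inl ⟨a + 1, by omega, ?_, by rw [h4]; ring⟩)
      have e : s.length / 2 + 1 - 1 - (a + 1) = s.length / 2 - 1 - a := by omega
      rw [e]
      conv_lhs => rw [h1]
      rfl
    · refine Or.inr (Or.inr ⟨a + 1, by omega, ?_, by rw [h4]; ring⟩)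
      have e : s.length / 2 + 1 - (a + 1) = s.length / 2 - a := by omega
      rw [e]
      conv_lhs => rw [h1]
      rfl
  | false :: y :: s, h => by
    have h1 : bd (y :: s) = 0 := by
      have e : bd (false :: y :: s) = 1 + bd (y :: s) := rfl
      omega
    have h2 := class0 _ h1
    have h3 : (y :: s).length = 2 * ((y :: s).length / 2) := by
      conv_lhs => rw [h2]
      exact len_alt _
    have h4 : (false :: y :: s).length / 2 = (y :: s).length / 2 := by
      rw [List.length_cons]
      omega
    refine Or.inl ⟨?_, rfl⟩
    rw [h4, W0, ← h2]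
  | true :: true :: s, h => by
    have h1 : bd (true :: s) = 0 := by
      have e : bd (true :: true :: s) = 1 + bd (true :: s) := by
        simp [bd, rep]
      omega
    have h2 := class0 _ h1
    have h3 : (true :: s).length = 2 * ((true :: s).length / 2) := by
      conv_lhs => rw [h2]
      exact len_alt _
    have h4 : (true :: true :: s).length / 2 = (true :: s).length / 2 := by
      rw [List.length_cons]
      omega
    refine Or.inr (Or.inr ⟨0, Nat.zero_le _, ?_, rfl⟩)
    rw [h4, Nat.sub_zero, W1, ← h2]
    rfl

theorem thm_class : St_class := ⟨class0, class1⟩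

end Pool.MTV
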