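import Pool.Agent.MTV.CertC

/-!
# The certificate: first letter 5
-/

set_option maxRecDepth 100000

namespace Pool.MTV

theorem cert_5 : vals .Z 2 (mrg (DC .Z 5 xZ)) = vals .X 2 (mrg (DC .X 5 xT)) := by
  decide +kernel

end Pool.MTV
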