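import Pool.Agent.MTV.CertC3
import Pool.Agent.MTV.CertC5

/-!
# The certificate
-/

namespace Pool.MTV

private theorem Cert_mem (b c : ℕ) (hb : b ∈ letters) (hc : c ∈ letters) : [b, c] ∈ lsts 2 := by
  simp only [lsts, List.mem_flatten, List.mem_map]
  refine ⟨_, ⟨b, hb, rfl⟩, ?_⟩
  refine List.mem_map.mpr ⟨[c], ?_, rfl⟩
  simp only [List.mem_flatten, List.mem_map]
  exact ⟨_, ⟨c, hc, rfl⟩, by simp⟩

private theorem Cert_letter (a : ℕ) (ha : Odd a) (h : a ≤ 15) : a ∈ letters := by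
  obtain ⟨m, rfl⟩ := ha
  have hm : m ≤ 7 := by omega
  interval_cases m <;> simp [letters]

private theorem Cert_eq (a : ℕ) (h : vals .Z 2 (mrg (DC .Z a xZ)) = vals .X 2 (mrg (DC .X a xT)))
    (b c : ℕ) (hb : b ∈ letters) (hc : c ∈ letters) :
    symC .Z [a, b, c] xZ = symC .X [a, b, c] xT := by
  rw [vals_eq, vals_eq] at h
  have h1 := List.map_inj_left.mp h [b, c] (Cert_mem b c hb hc)
  rw [symC_mrg, symC_mrg] at h1
  rw [symC_cons .Z a, symC_cons .X a]
  exact h1

theorem thm_cert : St_cert := by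
  intro a b c ha hb hc h
  have hb' := Cert_letter b hb (by rcases ha with ⟨m, rfl⟩; rcases hc with ⟨n, rfl⟩; omega)
  have hc' := Cert_letter c hc (by rcases ha with ⟨m, rfl⟩; rcases hb with ⟨n, rfl⟩; omega)
  have hab : a ≤ 15 := by rcases hb with ⟨m, rfl⟩; rcases hc with ⟨n, rfl⟩; omega
  have key : symC .Z [a, b, c] xZ = symC .X [a, b, c] xT := by
    obtain ⟨m, rfl⟩ := ha
    have hm : m ≤ 7 := by omega
    interval_cases m
    · exact Cert_eq _ cert_1 b c hb' hc'
    · exact Cert_eq _ cert_3 b c hb' hc'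
    · exact Cert_eq _ cert_5 b c hb' hc'
    · exact Cert_eq _ cert_7 b c hb' hc'
    · exact Cert_eq _ cert_9 b c hb' hc'
    · exact Cert_eq _ cert_11 b c hb' hc'
    · exact Cert_eq _ cert_13 b c hb' hc'
    · exact Cert_eq _ cert_15 b c hb' hc'
  have h1 : symC .X [a, b, c] xT = (certDen : ℚ) * sym .X [a, b, c] (skel kT) := by
    rw [symC, xT]
    simp
  have h2 : symC .Z [a, b, c] xZ =
      (cert.map (fun t => (t.2 : ℚ) * sym Kind.Z [a, b, c] (skel t.1))).sum := by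
    rw [symC, xZ, List.map_map]
    rfl
  rw [← h1, ← h2, key]

end Pool.MTV
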