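import Pool.Agent.MTV.StF

/-!
# The certificate: linear combinations of skeleton words and cuts of fixed length
-/

namespace Pool.MTV

/-- Linear combinations of skeleton words. -/
abbrev Cmb := List (ℚ × List Bool)

/-- The contribution of the block p with the sign e and the rest s. -/
def one (k : Kind) (e : ℤ) (p s : List Bool) : Cmb :=
  if e = 0 then [] else if bd (ori e p) = 1 then [((e : ℚ) * al k (ori e p), s)] else []

/-- Cuts of length r, left neighbour L. -/
def cutR (k : Kind) (r : ℕ) : Bool → List Bool → Cmb
  | _, [] => []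
  | L, x :: s =>
      (if 0 < r ∧ r ≤ (x :: s).length then
        one k (kap (hdB ((x :: s).drop r)) - kap L) ((x :: s).take r) ((x :: s).drop r) else []) ++
      (cutR k r x s).map (fun t => (t.1, x :: t.2))

/-- Cuts of length r of E k s. -/
def cutRK (r : ℕ) : Kind → List Bool → Cmb
  | .Z, s => cutR .Z r false s
  | .Y, s => cutR .Y r false s
  | .X, [] => []
  | .X, x :: s =>
      (if 0 < r ∧ r ≤ (x :: s).length then
        one .X (kap (hdB ((x :: s).drop r))) ((x :: s).take r) ((x :: s).drop r) else []) ++
      (cutR .Y r true s).map (fun t => (t.1, x :: t.2))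

/-- Linear extension of sym. -/
def symC (k : Kind) (l : List ℕ) (x : Cmb) : ℚ := (x.map (fun t => t.1 * sym k l t.2)).sum

/-- Cuts of length r of a linear combination. -/
def DC (k : Kind) (r : ℕ) (x : Cmb) : Cmb :=
  (x.map (fun t => (cutRK r k t.2).map (fun u => (t.1 * u.1, u.2)))).flatten

/-- Insert a term. -/
def ins (q : ℚ) (v : List Bool) : Cmb → Cmb
  | [] => [(q, v)]
  | t :: y => if t.2 = v then (t.1 + q, t.2) :: y else t :: ins q v y

/-- Merge equal words. -/
def mrg (x : Cmb) : Cmb := x.foldr (fun t y => if t.1 = 0 then y else ins t.1 t.2 y) []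

def letters : List ℕ := [1, 3, 5, 7, 9, 11, 13, 15]

/-- All leading symbols with m letters. -/
def vals (k : Kind) : ℕ → Cmb → List ℚ
  | 0, x => [symC k [] x]
  | m + 1, x => (letters.map (fun r => vals k m (mrg (DC k r x)))).flatten

end Pool.MTV
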