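import Pool.Agent.MTV.CertA

/-!
# The certificate: correctness of the evaluation of the leading symbols
-/

namespace Pool.MTV

private theorem CertB_range (f : ℕ → ℚ) (r n : ℕ) (h : ∀ i < n, i + 1 ≠ r → f i = 0) :
    ((List.range n).map f).sum = if 0 < r ∧ r ≤ n then f (r - 1) else 0 := by
  induction n with
  | zero =>
    rw [if_neg (by omega)]
    rfl
  | succ n ih =>
    rw [List.range_succ, List.map_append, List.sum_append, ih (fun i hi => h i (by omega))]
    simp only [List.map_cons, List.map_nil, List.sum_cons, List.sum_nil, add_zero]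
    by_cases h1 : n + 1 = r
    · subst h1
      rw [if_neg (by omega), if_pos (by omega), zero_add]
      rfl
    · rw [h n (by omega) h1, add_zero]
      by_cases h2 : 0 < r ∧ r ≤ n
      · rw [if_pos h2, if_pos (by omega)]
      · rw [if_neg h2, if_neg (by omega)]

private theorem CertB_one (k : Kind) (e : ℤ) (p s : List Bool) (g : List Bool → ℚ) :
    ((one k e p s).map (fun t => t.1 * g t.2)).sum =
      if e ≠ 0 ∧ bd (ori e p) = 1 then (e : ℚ) * al k (ori e p) * g s else 0 := by
  unfold one
  by_cases h1 : e = 0
  · simp [h1]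
  · by_cases h2 : bd (ori e p) = 1
    · simp [h1, h2]
    · simp [h1, h2]

/-- the term of a cut -/
private def tm0 (k : Kind) (r : ℕ) (g : List Bool → ℚ) (t : ℤ × List Bool × List Bool) : ℚ :=
  if t.1 ≠ 0 ∧ t.2.1.length = r ∧ bd (ori t.1 t.2.1) = 1 then
    (t.1 : ℚ) * al k (ori t.1 t.2.1) * g t.2.2 else 0

private theorem CertB_first (k : Kind) (r : ℕ) (g : List Bool → ℚ) (e : ℕ → ℤ) (s : List Bool) :
    ((List.range s.length).map
      (fun i => tm0 k r g (e (i + 1), s.take (i + 1), s.drop (i + 1)))).sum =
      ((if 0 < r ∧ r ≤ s.length then one k (e r) (s.take r) (s.drop r) else []).map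
        (fun t => t.1 * g t.2)).sum := by
  rw [CertB_range _ r]
  · by_cases h : 0 < r ∧ r ≤ s.length
    · rw [if_pos h, if_pos h, CertB_one]
      have h1 : r - 1 + 1 = r := by omega
      simp only [tm0, h1]
      have h2 : (s.take r).length = r := by
        rw [List.length_take]
        omega
      simp only [h2, true_and]
    · rw [if_neg h, if_neg h]
      rfl
  · intro i hi hr
    have h2 : (s.take (i + 1)).length = i + 1 := by
      rw [List.length_take]
      omega
    simp only [tm0, h2]
    rw [if_neg]
    rintro ⟨-, h3, -⟩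
    exact hr h3

private theorem CertB_cuts (k : Kind) (r : ℕ) (s : List Bool) : ∀ (L : Bool) (g : List Bool → ℚ),
    ((cuts L s).map (tm0 k r g)).sum = ((cutR k r L s).map (fun t => t.1 * g t.2)).sum := by
  induction s with
  | nil =>
    intro L g
    rfl
  | cons x s ih =>
    intro L g
    have h1 : ((cuts x s).map ((tm0 k r g) ∘ fun t => (t.1, t.2.1, x :: t.2.2))).sum =
        ((cuts x s).map (tm0 k r (fun v => g (x :: v)))).sum := rfl
    rw [cuts, cutR, List.map_append, List.map_append, List.sum_append, List.sum_append,
      List.map_map, List.map_map, h1, ih]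
    congr 1
    rw [cutsP, List.map_map]
    exact CertB_first k r g (fun i => kap (hdB ((x :: s).drop i)) - kap L) (x :: s)

private theorem CertB_X (r : ℕ) (x : Bool) (s : List Bool) (g : List Bool → ℚ) :
    ((cutsK .X (x :: s)).map (fun t =>
        if t.1 ≠ 0 ∧ t.2.2.1.length = r ∧ bd (ori t.1 t.2.2.1) = 1 then
          (t.1 : ℚ) * al t.2.1 (ori t.1 t.2.2.1) * g t.2.2.2 else 0)).sum =
      ((cutRK r .X (x :: s)).map (fun t => t.1 * g t.2)).sum := by
  rw [cutsK, cutRK, List.map_append, List.map_append, List.sum_append, List.sum_append,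
    List.map_map, List.map_map, List.map_map]
  congr 1
  · exact CertB_first .X r g (fun i => kap (hdB ((x :: s).drop i))) (x :: s)
  · exact CertB_cuts .Y r s true (fun v => g (x :: v))

theorem sym_cons (k : Kind) (r : ℕ) (l : List ℕ) (s : List Bool) :
    sym k (r :: l) s = symC k l (cutRK r k s) := by
  rw [sym, symC]
  cases k with
  | Z =>
    rw [cutsK, cutRK, List.map_map]
    exact CertB_cuts .Z r s false (sym .Z l)
  | Y =>
    rw [cutsK, cutRK, List.map_map]
    exact CertB_cuts .Y r s false (sym .Y l)
  | X =>
    cases s with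
    | nil => rfl
    | cons x s => exact CertB_X r x s (sym .X l)

theorem symC_append (k : Kind) (l : List ℕ) (x y : Cmb) :
    symC k l (x ++ y) = symC k l x + symC k l y := by
  rw [symC, symC, symC, List.map_append, List.sum_append]

theorem symC_smul (k : Kind) (l : List ℕ) (q : ℚ) (x : Cmb) :
    symC k l (x.map (fun u => (q * u.1, u.2))) = q * symC k l x := by
  induction x with
  | nil => simp [symC]
  | cons t x ih =>
    have h1 : symC k l (t :: x) = t.1 * sym k l t.2 + symC k l x := by
      simp [symC]
    have h2 : symC k l ((t :: x).map (fun u => (q * u.1, u.2))) =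
        q * t.1 * sym k l t.2 + symC k l (x.map (fun u => (q * u.1, u.2))) := by
      simp [symC]
    rw [h1, h2, ih]
    ring

theorem symC_cons (k : Kind) (r : ℕ) (l : List ℕ) (x : Cmb) :
    symC k (r :: l) x = symC k l (DC k r x) := by
  induction x with
  | nil => rfl
  | cons t x ih =>
    have h1 : symC k (r :: l) (t :: x) = t.1 * sym k (r :: l) t.2 + symC k (r :: l) x := by
      simp [symC]
    have h2 : DC k r (t :: x) = (cutRK r k t.2).map (fun u => (t.1 * u.1, u.2)) ++ DC k r x := by
      simp [DC]
    rw [h1, h2, symC_append, symC_smul, ih, sym_cons]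

theorem symC_ins (k : Kind) (l : List ℕ) (q : ℚ) (v : List Bool) (x : Cmb) :
    symC k l (ins q v x) = q * sym k l v + symC k l x := by
  induction x with
  | nil => simp [symC, ins]
  | cons t x ih =>
    have h1 : symC k l (t :: x) = t.1 * sym k l t.2 + symC k l x := by
      simp [symC]
    by_cases h : t.2 = v
    · rw [ins, if_pos h, h1]
      have h2 : symC k l ((t.1 + q, t.2) :: x) = (t.1 + q) * sym k l t.2 + symC k l x := by
        simp [symC]
      rw [h2, h]
      ring
    · rw [ins, if_neg h, h1]
      have h2 : symC k l (t :: ins q v x) = t.1 * sym k l t.2 + symC k l (ins q v x) := by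
        simp [symC]
      rw [h2, ih]
      ring

theorem symC_mrg (k : Kind) (l : List ℕ) (x : Cmb) : symC k l (mrg x) = symC k l x := by
  induction x with
  | nil => rfl
  | cons t x ih =>
    have h1 : symC k l (t :: x) = t.1 * sym k l t.2 + symC k l x := by
      simp [symC]
    have h2 : mrg (t :: x) = if t.1 = 0 then mrg x else ins t.1 t.2 (mrg x) := rfl
    rw [h2, h1]
    by_cases h : t.1 = 0
    · rw [if_pos h, ih, h]
      ring
    · rw [if_neg h, symC_ins, ih]

/-- lists of letters -/
def lsts : ℕ → List (List ℕ)
  | 0 => [[]]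
  | m + 1 => (letters.map (fun r => (lsts m).map (fun l => r :: l))).flatten

theorem vals_eq (k : Kind) (m : ℕ) : ∀ x : Cmb,
    vals k m x = (lsts m).map (fun l => symC k l x) := by
  induction m with
  | zero =>
    intro x
    rfl
  | succ m ih =>
    intro x
    rw [vals, lsts, List.map_flatten, List.map_map]
    congr 1
    apply List.map_congr_left
    intro r _
    rw [ih, Function.comp, List.map_map]
    apply List.map_congr_left
    intro l _
    rw [Function.comp, symC_mrg, ← symC_cons]

end Pool.MTV
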