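import Pool.Agent.MTV.CertB

/-!
# The certificate: first letters 1, 7, 9, 11, 13, 15
-/

set_option maxRecDepth 100000

namespace Pool.MTV

/-- The counterexample. -/
def xT : Cmb := [((certDen : ℚ), skel kT)]

/-- The combination of Hoffman words. -/
def xZ : Cmb := cert.map (fun t => ((t.2 : ℚ), skel t.1))

theorem cert_1 : vals .Z 2 (mrg (DC .Z 1 xZ)) = vals .X 2 (mrg (DC .X 1 xT)) := by
  decide +kernel

theorem cert_7 : vals .Z 2 (mrg (DC .Z 7 xZ)) = vals .X 2 (mrg (DC .X 7 xT)) := by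
  decide +kernel

theorem cert_9 : vals .Z 2 (mrg (DC .Z 9 xZ)) = vals .X 2 (mrg (DC .X 9 xT)) := by
  decide +kernel

theorem cert_11 : vals .Z 2 (mrg (DC .Z 11 xZ)) = vals .X 2 (mrg (DC .X 11 xT)) := by
  decide +kernel

theorem cert_13 : vals .Z 2 (mrg (DC .Z 13 xZ)) = vals .X 2 (mrg (DC .X 13 xT)) := by
  decide +kernel

theorem cert_15 : vals .Z 2 (mrg (DC .Z 15 xZ)) = vals .X 2 (mrg (DC .X 15 xT)) := by
  decide +kernel

end Pool.MTV
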