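import Pool.Agent.MTV.StP2

/-!
# Coefficients of the words alt, W1, W3 as nested sums
-/

open Filter Topology

namespace Pool.MTV

/-! ### lists -/

private lemma Co_alt_comm (b : ℕ) :
    (alt b).reverse ++ [false, true] = false :: true :: (alt b).reverse := by
  induction b with
  | zero => rfl
  | succ b ih =>
    have e : (alt (b + 1)).reverse = (alt b).reverse ++ [false, true] := by
      simp [alt]
    rw [e, ih]
    simp only [List.cons_append]
    rw [ih]

private lemma Co_alt_succ (b : ℕ) : (alt (b + 1)).reverse = false :: true :: (alt b).reverse := by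
  rw [← Co_alt_comm]
  simp [alt]

private lemma Co_W1_rev (a b : ℕ) :
    (W1 a b).reverse = (alt b).reverse ++ (true :: (alt a).reverse) := by
  simp [W1]

private lemma Co_W3_rev (a b : ℕ) :
    (W3 a b).reverse = (alt b).reverse ++ (false :: false :: true :: (alt a).reverse) := by
  simp [W3]

/-! ### unfolding co -/

private lemma Co_single (k : Kind) (n : ℕ) : co k [true] n =
    if 0 < n ∧ n % 2 = (if k = Kind.X then 1 else 0) then -2 / (n : ℝ) else 0 := rfl

private lemma Co_false (k : Kind) (r : List Bool) (hr : r ≠ []) (n : ℕ) :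
    co k (false :: r) n = co k r n / n := by
  cases r with
  | nil => exact absurd rfl hr
  | cons x r => rfl

private lemma Co_true (k : Kind) (r : List Bool) (hr : r ≠ []) (n : ℕ) :
    co k (true :: r) n =
      -2 / (n : ℝ) * ∑ m ∈ Finset.range n, if m % 2 = n % 2 then co k r m else 0 := by
  cases r with
  | nil => exact absurd rfl hr
  | cons x r => rfl

/-- the operator of the tail -/
private noncomputable def CoPhi (c : ℕ → ℝ) (n : ℕ) : ℝ :=
  (∑ m ∈ Finset.range n, if m % 2 = n % 2 then c m else 0) / (n : ℝ) ^ 2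

private lemma Co_phi_smul (t : ℝ) (c : ℕ → ℝ) : CoPhi (fun m => t * c m) = fun n => t * CoPhi c n := by
  funext n
  unfold CoPhi
  rw [← mul_div_assoc, Finset.mul_sum]
  congr 1
  refine Finset.sum_congr rfl fun m _ => ?_
  split_ifs
  · rfl
  · rw [mul_zero]

private lemma Co_phi_iter_smul (t : ℝ) (b : ℕ) : ∀ c : ℕ → ℝ,
    CoPhi^[b] (fun m => t * c m) = fun n => t * (CoPhi^[b] c) n := by
  induction b with
  | zero => intro c; rfl
  | succ b ih =>
    intro c
    rw [Function.iterate_succ_apply, Function.iterate_succ_apply, Co_phi_smul, ih]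

private lemma Co_ft (k : Kind) (r : List Bool) (hr : r ≠ []) :
    co k (false :: true :: r) = fun n => -2 * CoPhi (co k r) n := by
  funext n
  rw [Co_false k _ (by simp) n, Co_true k r hr n]
  unfold CoPhi
  rw [div_mul_eq_mul_div, div_div, ← mul_div_assoc, pow_two]

private lemma Co_tail (k : Kind) (r : List Bool) (hr : r ≠ []) (b : ℕ) :
    co k ((alt b).reverse ++ r) = fun n => (-2) ^ b * (CoPhi^[b] (co k r)) n := by
  induction b with
  | zero => funext n; simp [alt]
  | succ b ih =>
    rw [Co_alt_succ, List.cons_append, List.cons_append, Co_ft k _ (by simp [hr]), ih,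
      Co_phi_smul, Function.iterate_succ_apply']
    funext n
    ring

/-! ### the coefficients of alt and W1 a 0 -/

private lemma Co_par (k : Kind) : (if k = Kind.X then 1 else 0) = eK k % 2 := by
  cases k <;> simp [eK]

private lemma Co_sumAn (e a n : ℕ) (hn : n % 2 = e % 2) (t : ℝ) :
    (∑ m ∈ Finset.range n, if m % 2 = n % 2 then
      (if 0 < m ∧ m % 2 = e % 2 then t * An a m / (m : ℝ) ^ 2 else 0) else 0) =
      t * An (a + 1) n := by
  show _ = t * ∑ m ∈ Finset.range n, if 0 < m ∧ m % 2 = n % 2 then An a m / (m : ℝ) ^ 2 else 0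
  rw [Finset.mul_sum]
  refine Finset.sum_congr rfl fun m _ => ?_
  by_cases h1 : m % 2 = n % 2
  · by_cases h2 : 0 < m
    · rw [if_pos h1, if_pos ⟨h2, by omega⟩, if_pos ⟨h2, h1⟩]
      ring
    · rw [if_pos h1, if_neg (fun h => h2 h.1), if_neg (fun h => h2 h.1), mul_zero]
  · rw [if_neg h1, if_neg (fun h => h1 h.2), mul_zero]

private lemma Co_sumZero (e n : ℕ) (hn : n % 2 ≠ e % 2) (f : ℕ → ℝ) :
    (∑ m ∈ Finset.range n, if m % 2 = n % 2 then
      (if 0 < m ∧ m % 2 = e % 2 then f m else 0) else 0) = 0 := by
  refine Finset.sum_eq_zero fun m _ => ?_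
  by_cases h1 : m % 2 = n % 2
  · rw [if_pos h1, if_neg (fun h => by omega)]
  · rw [if_neg h1]

private lemma Co_alt (k : Kind) (a : ℕ) : ∀ n : ℕ, co k (alt (a + 1)).reverse n =
    if 0 < n ∧ n % 2 = eK k % 2 then (-2) ^ (a + 1) * An a n / (n : ℝ) ^ 2 else 0 := by
  induction a with
  | zero =>
    intro n
    have e : (alt (0 + 1)).reverse = [false, true] := rfl
    rw [e, Co_false k _ (by simp), Co_single, Co_par]
    split_ifs with h
    · have : An 0 n = 1 := rfl
      rw [this, div_div, pow_two]
      ring_nf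
    · simp
  | succ a ih =>
    intro n
    rw [Co_alt_succ (a + 1), Co_ft k _ (by simp [alt])]
    unfold CoPhi
    simp only [ih]
    by_cases h : n % 2 = eK k % 2
    · rw [Co_sumAn (eK k) a n h]
      by_cases h0 : 0 < n
      · rw [if_pos ⟨h0, h⟩]
        ring
      · rw [if_neg (fun h' => h0 h'.1)]
        have : n = 0 := by omega
        subst this
        simp
    · rw [Co_sumZero (eK k) n h, if_neg (fun h' => h h'.2)]
      simp

private lemma Co_W1 (k : Kind) (a : ℕ) (n : ℕ) : co k (true :: (alt a).reverse) n =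
    if 0 < n ∧ n % 2 = eK k % 2 then (-2) ^ (a + 1) * An a n / (n : ℝ) else 0 := by
  cases a with
  | zero =>
    have e : (true :: (alt 0).reverse) = [true] := rfl
    rw [e, Co_single, Co_par]
    split_ifs with h
    · have : An 0 n = 1 := rfl
      rw [this]
      ring
    · rfl
  | succ a =>
    rw [Co_true k _ (by simp [alt])]
    simp only [Co_alt]
    by_cases h : n % 2 = eK k % 2
    · rw [Co_sumAn (eK k) a n h]
      by_cases h0 : 0 < n
      · rw [if_pos ⟨h0, h⟩]
        ring
      · rw [if_neg (fun h' => h0 h'.1)]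
        have : n = 0 := by omega
        subst this
        simp
    · rw [Co_sumZero (eK k) n h, if_neg (fun h' => h h'.2)]
      simp

theorem thm_co0 : St_co0 := by
  intro k a n _
  refine ⟨?_, Co_alt k a n⟩
  rw [Co_W1_rev]
  have e : (alt 0).reverse ++ (true :: (alt a).reverse) = true :: (alt a).reverse := rfl
  rw [e, Co_W1]

/-! ### Tonelli -/

private lemma Co_An_nonneg (a : ℕ) : ∀ m, 0 ≤ An a m := by
  induction a with
  | zero => intro m; exact zero_le_one
  | succ a ih =>
    intro m
    show 0 ≤ ∑ n ∈ Finset.range m, if 0 < n ∧ n % 2 = m % 2 then An a n / (n : ℝ) ^ 2 else 0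
    refine Finset.sum_nonneg fun n _ => ?_
    split_ifs
    · exact div_nonneg (ih n) (by positivity)
    · exact le_refl 0

private lemma Co_summable_sq (C : ℝ) : Summable fun n : ℕ => C / (n : ℝ) ^ 2 := by
  have h := (Real.summable_one_div_nat_pow (p := 2)).2 (by norm_num)
  have := h.mul_left C
  refine this.congr fun n => ?_
  ring

private lemma Co_Bn (b : ℕ) : ∃ C : ℝ, ∀ m, 0 ≤ Bn b m ∧ Bn b m ≤ C := by
  induction b with
  | zero => exact ⟨1, fun m => ⟨zero_le_one, le_refl _⟩⟩
  | succ b ih =>
    obtain ⟨C, hC⟩ := ih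
    have hC0 : 0 ≤ C := (hC 0).1.trans (hC 0).2
    refine ⟨∑' n : ℕ, C / (n : ℝ) ^ 2, fun m => ?_⟩
    have hn : ∀ n : ℕ, 0 ≤ (if m < n ∧ n % 2 = m % 2 then Bn b n / (n : ℝ) ^ 2 else 0) := by
      intro n
      split_ifs
      · exact div_nonneg (hC n).1 (by positivity)
      · exact le_refl 0
    have hle : ∀ n : ℕ, (if m < n ∧ n % 2 = m % 2 then Bn b n / (n : ℝ) ^ 2 else 0) ≤
        C / (n : ℝ) ^ 2 := by
      intro n
      split_ifs
      · exact div_le_div_of_nonneg_right (hC n).2 (by positivity)
      · exact div_nonneg hC0 (by positivity)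
    have hs := Co_summable_sq C
    refine ⟨tsum_nonneg hn, ?_⟩
    exact Summable.tsum_le_tsum hle (Summable.of_nonneg_of_le hn hle hs) hs

private lemma Co_Bn_hasSum (b m : ℕ) : HasSum
    (fun n : ℕ => if m < n ∧ n % 2 = m % 2 then Bn b n / (n : ℝ) ^ 2 else 0) (Bn (b + 1) m) := by
  obtain ⟨C, hC⟩ := Co_Bn b
  have hC0 : 0 ≤ C := (hC 0).1.trans (hC 0).2
  have hn : ∀ n : ℕ, 0 ≤ (if m < n ∧ n % 2 = m % 2 then Bn b n / (n : ℝ) ^ 2 else 0) := by
    intro n
    split_ifs
    · exact div_nonneg (hC n).1 (by positivity)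
    · exact le_refl 0
  have hle : ∀ n : ℕ, (if m < n ∧ n % 2 = m % 2 then Bn b n / (n : ℝ) ^ 2 else 0) ≤
      C / (n : ℝ) ^ 2 := by
    intro n
    split_ifs
    · exact div_le_div_of_nonneg_right (hC n).2 (by positivity)
    · exact div_nonneg hC0 (by positivity)
  exact (Summable.of_nonneg_of_le hn hle (Co_summable_sq C)).hasSum

private lemma Co_swap (f : ℕ × ℕ → ℝ) (g : ℕ → ℝ) (S : ℝ) (h : HasSum f S)
    (key : ∀ n, HasSum (fun m => f (m, n)) (g n)) : HasSum g S := by
  have hswap : HasSum (fun p : ℕ × ℕ => f (p.2, p.1)) S := (Equiv.prodComm ℕ ℕ).hasSum_iff.2 h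
  exact hswap.prod_fiberwise key

private lemma Co_tonelli1 (c : ℕ → ℝ) (hc : ∀ m, 0 ≤ c m) (b : ℕ) (S : ℝ)
    (h : HasSum (fun m => c m * Bn (b + 1) m) S) : HasSum (fun n => CoPhi c n * Bn b n) S := by
  obtain ⟨C, hC⟩ := Co_Bn b
  let f : ℕ × ℕ → ℝ := fun p =>
    if p.1 < p.2 ∧ p.2 % 2 = p.1 % 2 then c p.1 * (Bn b p.2 / (p.2 : ℝ) ^ 2) else 0
  have hf : 0 ≤ f := by
    intro p
    show 0 ≤ (if p.1 < p.2 ∧ p.2 % 2 = p.1 % 2 then c p.1 * (Bn b p.2 / (p.2 : ℝ) ^ 2) else 0)
    split_ifs
    · exact mul_nonneg (hc _) (div_nonneg (hC _).1 (by positivity))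
    · exact le_refl 0
  have hin : ∀ m, HasSum (fun n => f (m, n)) (c m * Bn (b + 1) m) := by
    intro m
    have h1 := (Co_Bn_hasSum b m).mul_left (c m)
    have e : (fun n => f (m, n)) = fun n : ℕ => c m *
        (if m < n ∧ n % 2 = m % 2 then Bn b n / (n : ℝ) ^ 2 else 0) := by
      funext n
      show (if m < n ∧ n % 2 = m % 2 then c m * (Bn b n / (n : ℝ) ^ 2) else 0) = _
      split_ifs
      · rfl
      · rw [mul_zero]
    rw [e]
    exact h1
  have hsum : Summable f := by
    rw [summable_prod_of_nonneg hf]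
    refine ⟨fun m => (hin m).summable, ?_⟩
    have : (fun m => ∑' n, f (m, n)) = fun m => c m * Bn (b + 1) m := by
      funext m
      exact (hin m).tsum_eq
    rw [this]
    exact h.summable
  have hfS : HasSum f S := by
    have h1 := hsum.hasSum.prod_fiberwise hin
    rw [← h1.unique h]
    exact hsum.hasSum
  have key : ∀ n, HasSum (fun m => f (m, n)) (CoPhi c n * Bn b n) := by
    intro n
    have e : CoPhi c n * Bn b n = ∑ m ∈ Finset.range n, f (m, n) := by
      unfold CoPhi
      rw [div_mul_eq_mul_div, Finset.sum_mul, Finset.sum_div]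
      refine Finset.sum_congr rfl fun m hm => ?_
      show _ = (if m < n ∧ n % 2 = m % 2 then c m * (Bn b n / (n : ℝ) ^ 2) else 0)
      have hm' := Finset.mem_range.1 hm
      by_cases h1 : m % 2 = n % 2
      · rw [if_pos h1, if_pos ⟨hm', h1.symm⟩, mul_div_assoc]
      · rw [if_neg h1, if_neg (fun h' => h1 h'.2.symm), zero_mul, zero_div]
    rw [e]
    apply hasSum_sum_of_ne_finset_zero
    intro m hm
    have hz : ¬ (m < n ∧ n % 2 = m % 2) := fun h' => hm (Finset.mem_range.2 h'.1)
    exact if_neg hz
  exact Co_swap f _ S hfS key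

private lemma Co_phi_nonneg (c : ℕ → ℝ) (hc : ∀ m, 0 ≤ c m) (n : ℕ) : 0 ≤ CoPhi c n := by
  unfold CoPhi
  refine div_nonneg (Finset.sum_nonneg fun m _ => ?_) (by positivity)
  split_ifs
  · exact hc m
  · exact le_refl 0

private lemma Co_tonelli (b : ℕ) : ∀ (c : ℕ → ℝ), (∀ m, 0 ≤ c m) → ∀ S : ℝ,
    HasSum (fun m => c m * Bn b m) S → HasSum (CoPhi^[b] c) S := by
  induction b with
  | zero =>
    intro c _ S h
    have : (fun m => c m * Bn 0 m) = c := by
      funext m
      show c m * 1 = c m
      rw [mul_one]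
    rw [this] at h
    exact h
  | succ b ih =>
    intro c hc S h
    rw [Function.iterate_succ_apply]
    exact ih _ (Co_phi_nonneg c hc) S (Co_tonelli1 c hc b S h)

private lemma Co_main (k : Kind) (r : List Bool) (hr : r ≠ []) (b : ℕ) (c : ℕ → ℝ)
    (hc : ∀ m, 0 ≤ c m) (t S : ℝ) (hco : ∀ m, co k r m = t * c m)
    (h : HasSum (fun m => c m * Bn b m) S) :
    HasSum (fun n => co k ((alt b).reverse ++ r) n) ((-2) ^ b * (t * S)) := by
  rw [Co_tail k r hr b]
  have e : co k r = fun m => t * c m := funext hco
  rw [e, Co_phi_iter_smul]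
  exact ((Co_tonelli b c hc S h).mul_left t).mul_left _

theorem thm_co3 : St_co3 := by
  intro k a b S _ h
  rw [Co_W3_rev]
  have hco : ∀ m, co k (false :: false :: true :: (alt a).reverse) m =
      (-2) ^ (a + 1) * (if 0 < m ∧ m % 2 = eK k % 2 then An a m / (m : ℝ) ^ 3 else 0) := by
    intro m
    rw [Co_false k _ (by simp), Co_false k _ (by simp), Co_W1]
    split_ifs
    · rw [div_div, div_div, mul_div_assoc]
      congr 2
      ring
    · simp
  have h1 := Co_main k (false :: false :: true :: (alt a).reverse) (by simp) b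
    (fun m => if 0 < m ∧ m % 2 = eK k % 2 then An a m / (m : ℝ) ^ 3 else 0)
    (fun m => by
      split_ifs
      · exact div_nonneg (Co_An_nonneg a m) (by positivity)
      · exact le_refl 0) ((-2) ^ (a + 1)) S hco (by
      have e : (fun m : ℕ => (if 0 < m ∧ m % 2 = eK k % 2 then An a m / (m : ℝ) ^ 3 else 0) *
          Bn b m) = fun m : ℕ => if 0 < m ∧ m % 2 = eK k % 2 then
            An a m * Bn b m / (m : ℝ) ^ 3 else 0 := by
        funext m
        split_ifs
        · ring
        · rw [zero_mul]
      rw [e]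
      exact h)
  have e : ((-2 : ℝ) ^ b * ((-2) ^ (a + 1) * S)) = (-2) ^ (a + b + 1) * S := by ring
  rw [e] at h1
  exact h1

theorem thm_co1 : St_co1 := by
  intro k a b S _ _ h
  rw [Co_W1_rev]
  have hco : ∀ m, co k (true :: (alt a).reverse) m =
      (-2) ^ (a + 1) * (if 0 < m ∧ m % 2 = eK k % 2 then An a m / (m : ℝ) else 0) := by
    intro m
    rw [Co_W1]
    split_ifs
    · rw [mul_div_assoc]
    · rw [mul_zero]
  have h1 := Co_main k (true :: (alt a).reverse) (by simp) b
    (fun m => if 0 < m ∧ m % 2 = eK k % 2 then An a m / (m : ℝ) else 0)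
    (fun m => by
      split_ifs
      · exact div_nonneg (Co_An_nonneg a m) (by positivity)
      · exact le_refl 0) ((-2) ^ (a + 1)) S hco (by
      have e : (fun m : ℕ => (if 0 < m ∧ m % 2 = eK k % 2 then An a m / (m : ℝ) else 0) *
          Bn b m) = fun m : ℕ => if 0 < m ∧ m % 2 = eK k % 2 then
            An a m * Bn b m / (m : ℝ) else 0 := by
        funext m
        split_ifs
        · ring
        · rw [zero_mul]
      rw [e]
      exact h)
  have e : ((-2 : ℝ) ^ b * ((-2) ^ (a + 1) * S)) = (-2) ^ (a + b + 1) * S := by ring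
  rw [e] at h1
  exact h1

/-! ### signs -/

theorem thm_coSign : St_coSign := by
  intro k s
  induction s with
  | nil => intro n; right; simp
  | cons x s ih =>
    intro n
    cases s with
    | nil =>
      cases x with
      | false => right; simp
      | true =>
        left
        rw [Co_single, Co_par]
        split_ifs with h
        · have h1 : List.count true [true] = 1 := by simp
          rw [h1, pow_one]
          have h0 : (0 : ℝ) < n := by exact_mod_cast h.1
          have e : (-1 : ℝ) * (-2 / (n : ℝ)) = 2 / n := by ring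
          rw [e]
          positivity
        · rw [mul_zero]
    | cons y s =>
      by_cases hl : (y :: s).getLast? = some true
      · left
        have ih' : ∀ m, 0 ≤ (-1) ^ ((y :: s).count true) * co k (y :: s) m := fun m =>
          (ih m).resolve_right (fun h => h hl)
        cases x with
        | false =>
          rw [Co_false k _ (by simp)]
          have h1 : (false :: y :: s).count true = (y :: s).count true := by
            rw [List.count_cons_of_ne (by decide)]
          rw [h1, ← mul_div_assoc]
          exact div_nonneg (ih' n) (by positivity)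
        | true =>
          rw [Co_true k _ (by simp)]
          have h1 : (true :: y :: s).count true = (y :: s).count true + 1 := List.count_cons_self
          rw [h1, pow_succ]
          have e : (-1 : ℝ) ^ ((y :: s).count true) * -1 * (-2 / (n : ℝ) *
              ∑ m ∈ Finset.range n, if m % 2 = n % 2 then co k (y :: s) m else 0) =
              2 / (n : ℝ) * ∑ m ∈ Finset.range n, if m % 2 = n % 2 then
                (-1) ^ ((y :: s).count true) * co k (y :: s) m else 0 := by
            have e1 : (∑ m ∈ Finset.range n, if m % 2 = n % 2 then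
                (-1 : ℝ) ^ ((y :: s).count true) * co k (y :: s) m else 0) =
                (-1) ^ ((y :: s).count true) *
                  ∑ m ∈ Finset.range n, if m % 2 = n % 2 then co k (y :: s) m else 0 := by
              rw [Finset.mul_sum]
              refine Finset.sum_congr rfl fun m _ => ?_
              split_ifs
              · rfl
              · rw [mul_zero]
            rw [e1]
            ring
          rw [e]
          refine mul_nonneg (by positivity) (Finset.sum_nonneg fun m _ => ?_)
          split_ifs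
          · exact ih' m
          · exact le_refl 0
      · right
        rw [List.getLast?_cons_cons]
        exact hl

end Pool.MTV
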