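import Pool.Agent.MTV.StX
import Pool.Agent.MTV.LibA

/-!
# The cut formula for skeleton words
-/

set_option autoImplicit false

namespace Pool.MTV

/-! ### small facts -/

private theorem Cut_range {M : Type*} [AddCommMonoid M] (f : ℕ → M) (n : ℕ) :
    ((List.range n).map f).sum = ∑ i ∈ Finset.range n, f i := by
  induction n with
  | zero => simp
  | succ n ih => rw [List.range_succ, List.map_append, List.sum_append, ih, Finset.sum_range_succ]; simp

private theorem Cut_lsum {α : Type*} (T : V →ₗ[ℝ] V) (l : List α) (f : α → V) :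
    T ((l.map f).sum) = (l.map (fun t => T (f t))).sum := by
  induction l with
  | nil => simp
  | cons a l ih => simp [ih]

private theorem Cut_ladd {α : Type*} (l : List α) (f g : α → V) :
    (l.map f).sum + (l.map g).sum = (l.map (fun t => f t + g t)).sum := by
  induction l with
  | nil => simp
  | cons a l ih => simp only [List.map_cons, List.sum_cons]; rw [← ih]; abel

private theorem Cut_lsub {α : Type*} (l : List α) (f g : α → V) :
    (l.map f).sum - (l.map g).sum = (l.map (fun t => f t - g t)).sum := by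
  induction l with
  | nil => simp
  | cons a l ih => simp only [List.map_cons, List.sum_cons]; rw [← ih]; abel

/-! ### operators on initial parts -/

/-- Sum over all splittings w = p q of g (right neighbour of p) (p) q. -/
private noncomputable def Cut_RL (g : SignType → V →ₗ[ℝ] ℝ) (b : SignType) : V →ₗ[ℝ] V :=
  Finsupp.linearCombination ℝ (fun w : Word =>
    ∑ i ∈ Finset.range (w.length + 1), g (hd b (w.drop i)) (wd (w.take i)) • wd (w.drop i))

private theorem Cut_RL_pre (g : SignType → V →ₗ[ℝ] ℝ) (b x : SignType) (v : V) :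
    Cut_RL g b (pre x v) =
      g x (wd []) • pre x v + Cut_RL (fun y => (g y).comp (pre x)) b v := by
  refine lib_ext' (f := (Cut_RL g b).comp (pre x))
    (g := g x (wd []) • pre x + Cut_RL (fun y => (g y).comp (pre x)) b) ?_ v
  intro w
  simp only [LinearMap.comp_apply, LinearMap.add_apply, LinearMap.smul_apply, lib_pre, Cut_RL, lib_lc]
  rw [List.length_cons, Finset.sum_range_succ']
  simp only [List.take_succ_cons, List.drop_succ_cons, List.take_zero, List.drop_zero, hd, lib_pre]
  rw [add_comm]

private theorem Cut_RL_nil (g : SignType → V →ₗ[ℝ] ℝ) (b : SignType) :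
    Cut_RL g b (wd []) = g b (wd []) • wd [] := by
  simp [Cut_RL, hd]

/-- The part of (p, q) where the neighbour of p is taken into account. -/
private noncomputable def Cut_Y (g : SignType → V →ₗ[ℝ] ℝ) (p : List Bool) : List Bool → V
  | [] => g 1 (Ys p) • wd []
  | true :: q => g 1 (Ys p) • pre 1 (Ys q) + g (-1) (Ys p) • pre (-1) (Ys q)
  | false :: q => g 0 (Ys p) • pre 0 (Ys q)

private theorem Cut_Y_add (g : SignType → V →ₗ[ℝ] ℝ) (p q : List Bool) :
    Cut_Y (fun y => (g y).comp (pre 1)) p q + Cut_Y (fun y => (g y).comp (pre (-1))) p q =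
      Cut_Y g (true :: p) q := by
  rcases q with _ | ⟨x, q⟩
  · simp only [Cut_Y, Ys, LinearMap.comp_apply, map_add, add_smul]
  · cases x
    · simp only [Cut_Y, Ys, LinearMap.comp_apply, map_add, add_smul]
    · simp only [Cut_Y, Ys, LinearMap.comp_apply, map_add, add_smul]
      abel

private theorem Cut_Y_zero (g : SignType → V →ₗ[ℝ] ℝ) (p q : List Bool) :
    Cut_Y (fun y => (g y).comp (pre 0)) p q = Cut_Y g (false :: p) q := by
  rcases q with _ | ⟨x, q⟩
  · simp only [Cut_Y, Ys, LinearMap.comp_apply]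
  · cases x
    · simp only [Cut_Y, Ys, LinearMap.comp_apply]
    · simp only [Cut_Y, Ys, LinearMap.comp_apply]

private theorem Cut_RL_Ys (s : List Bool) : ∀ g : SignType → V →ₗ[ℝ] ℝ,
    Cut_RL g 1 (Ys s) = ∑ i ∈ Finset.range (s.length + 1), Cut_Y g (s.take i) (s.drop i) := by
  induction s with
  | nil => intro g; simp [Ys, Cut_RL_nil, Cut_Y]
  | cons x s ih =>
    intro g
    rw [List.length_cons, Finset.sum_range_succ']
    simp only [List.take_succ_cons, List.drop_succ_cons, List.take_zero, List.drop_zero]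
    cases x
    · simp only [Ys]
      rw [Cut_RL_pre, ih]
      simp only [Cut_Y_zero]
      rw [add_comm]
      simp only [Cut_Y, Ys]
    · simp only [Ys, map_add]
      rw [Cut_RL_pre, Cut_RL_pre, ih, ih]
      simp only [← Cut_Y_add, Finset.sum_add_distrib]
      simp only [Cut_Y, Ys]
      abel

private theorem Cut_SL_pre (f : V →ₗ[ℝ] ℝ) (x : SignType) (v : V) :
    SL f (pre x v) = f (wd []) • pre x v + SL (f.comp (pre x)) v := by
  refine lib_ext' (f := (SL f).comp (pre x)) (g := f (wd []) • pre x + SL (f.comp (pre x))) ?_ v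
  intro w
  simp only [LinearMap.comp_apply, LinearMap.add_apply, LinearMap.smul_apply, lib_pre, lib_SL]
  rw [List.length_cons, Finset.sum_range_succ']
  simp only [List.take_succ_cons, List.drop_succ_cons, List.take_zero, List.drop_zero, lib_pre]
  rw [add_comm]

private theorem Cut_SL_Ys (s : List Bool) : ∀ f : V →ₗ[ℝ] ℝ,
    SL f (Ys s) = ∑ i ∈ Finset.range (s.length + 1), f (Ys (s.take i)) • Ys (s.drop i) := by
  induction s with
  | nil => intro f; simp [Ys]
  | cons x s ih =>
    intro f
    rw [List.length_cons, Finset.sum_range_succ']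
    simp only [List.take_succ_cons, List.drop_succ_cons, List.take_zero, List.drop_zero]
    cases x
    · simp only [Ys]
      rw [Cut_SL_pre, ih]
      simp only [LinearMap.comp_apply]
      rw [add_comm]
    · simp only [Ys, map_add]
      rw [Cut_SL_pre, Cut_SL_pre, ih, ih]
      simp only [LinearMap.comp_apply, add_smul, Finset.sum_add_distrib, smul_add]
      abel

/-! ### the operator of cuts starting at the first letter -/

private noncomputable def Cut_PL (c : V →ₗ[ℝ] ℝ) (a : SignType) : V →ₗ[ℝ] V :=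
  Cut_RL (fun x => c.comp (toL x)) 1 - SL (c.comp (toL a))

private theorem Cut_PL_wd (c : V →ₗ[ℝ] ℝ) (hc : InfChar c) (a : SignType) (w : Word) :
    Cut_PL c a (wd w) = Pr c a 1 w := by
  unfold Cut_PL Pr
  simp only [LinearMap.sub_apply, Cut_RL, lib_lc, lib_SL, LinearMap.comp_apply, lib_toL]
  rw [Finset.sum_range_succ', Finset.sum_range_succ']
  simp only [List.take_zero, lib_toPt_nil, hc.one, zero_smul, add_zero]
  rw [← Finset.sum_sub_distrib]
  refine Finset.sum_congr rfl (fun i _ => ?_)
  rw [← sub_smul]; rfl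

private theorem Cut_DL_pre (c : V →ₗ[ℝ] ℝ) (hc : InfChar c) (a x : SignType) (v : V) :
    DL c a 1 (pre x v) = Cut_PL c a (pre x v) + pre x (DL c x 1 v) := by
  refine lib_ext' (f := (DL c a 1).comp (pre x))
    (g := (Cut_PL c a).comp (pre x) + (pre x).comp (DL c x 1)) ?_ v
  intro w
  simp only [LinearMap.comp_apply, LinearMap.add_apply, lib_pre, lib_DL, lib_Dw_cons,
    Cut_PL_wd c hc]

/-! ### signs -/

private theorem Cut_toL_pre (x : SignType) (v : V) :
    toL (-1) (pre x v) = pre (-1 * x) (toL (-1) v) := by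
  refine lib_ext' (f := (toL (-1)).comp (pre x)) (g := (pre (-1 * x)).comp (toL (-1))) ?_ v
  intro w
  simp only [LinearMap.comp_apply, lib_pre, lib_toL]
  rw [lib_toPt_of_ne (by decide), lib_toPt_of_ne (by decide), lib_pre, List.map_cons]

private theorem Cut_toL_Ys (s : List Bool) : toL (-1) (Ys s) = Ys s := by
  induction s with
  | nil => simp [Ys]
  | cons x s ih =>
    cases x
    · simp only [Ys, Cut_toL_pre, ih]; norm_num
    · simp only [Ys, map_add, Cut_toL_pre, ih]
      rw [show (-1 * 1 : SignType) = -1 from rfl, show (-1 * -1 : SignType) = 1 from rfl, add_comm]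

private theorem Cut_toL_Xs (s : List Bool) : toL (-1) (Xs (true :: s)) = - Xs (true :: s) := by
  simp only [Xs, map_sub, Cut_toL_pre, Cut_toL_Ys]
  rw [show (-1 * 1 : SignType) = -1 from rfl, show (-1 * -1 : SignType) = 1 from rfl, neg_sub]

private theorem Cut_toL_zero (x : SignType) (v : V) : toL 0 (pre x v) = 0 := by
  refine lib_ext' (f := (toL 0).comp (pre x)) (g := 0) ?_ v
  intro w
  simp

private theorem Cut_c_zero (c : V →ₗ[ℝ] ℝ) (hc : InfChar c) (v : V) : c (toL 0 v) = 0 := by
  refine lib_ext' (f := c.comp (toL 0)) (g := 0) ?_ v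
  intro w
  rcases w with _ | ⟨x, w⟩
  · simp [hc.one]
  · simp

/-! ### Y words -/

private theorem Cut_Y_eq (c : V →ₗ[ℝ] ℝ) (hc : InfChar c) (p q : List Bool) :
    Cut_Y (fun x => c.comp (toL x)) p q = ((kap (hdB q) : ℝ) * c (Ys p)) • Ys q := by
  rcases q with _ | ⟨x, q⟩
  · simp [Cut_Y, Ys, hdB, kap]
  · cases x
    · simp [Cut_Y, Ys, hdB, kap, Cut_c_zero c hc]
    · simp [Cut_Y, Ys, hdB, kap, Cut_toL_Ys]

private theorem Cut_left (c : V →ₗ[ℝ] ℝ) (hc : InfChar c) (a : SignType) (L : Bool)
    (ha : L = true ↔ a ≠ 0) (s : List Bool) : c (toL a (Ys s)) = (kap L : ℝ) * c (Ys s) := by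
  cases L
  · have : a = 0 := by
      by_contra h
      exact absurd (ha.2 h) (by decide)
    subst this
    rw [Cut_c_zero c hc]; simp [kap]
  · have h0 := ha.1 rfl
    have : a = 1 ∨ a = -1 := by
      cases a
      · exact absurd rfl h0
      · exact Or.inr rfl
      · exact Or.inl rfl
    rcases this with h | h
    · subst h; simp [kap]
    · subst h; rw [Cut_toL_Ys]; simp [kap]

private theorem Cut_PL_Ys (c : V →ₗ[ℝ] ℝ) (hc : InfChar c) (a : SignType) (L : Bool)
    (ha : L = true ↔ a ≠ 0) (s : List Bool) :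
    Cut_PL c a (Ys s) =
      ((cutsP L s).map (fun t => ((t.1 : ℝ) * c (Ys t.2.1)) • Ys t.2.2)).sum := by
  unfold Cut_PL cutsP
  rw [LinearMap.sub_apply, Cut_RL_Ys, Cut_SL_Ys, List.map_map, Cut_range, ← Finset.sum_sub_distrib,
    Finset.sum_range_succ']
  have h0 : Cut_Y (fun x => c.comp (toL x)) (List.take 0 s) (List.drop 0 s) -
      (c.comp (toL a)) (Ys (List.take 0 s)) • Ys (List.drop 0 s) = 0 := by
    rw [Cut_Y_eq c hc]
    simp [Ys, hc.one]
  rw [h0, add_zero]
  refine Finset.sum_congr rfl (fun i _ => ?_)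
  rw [Cut_Y_eq c hc, LinearMap.comp_apply, Cut_left c hc a L ha, ← sub_smul]
  simp only [Function.comp_apply, Int.cast_sub]
  rw [sub_mul]

private theorem Cut_DL_Ys (c : V →ₗ[ℝ] ℝ) (hc : InfChar c) (s : List Bool) :
    ∀ (a : SignType) (L : Bool), (L = true ↔ a ≠ 0) →
    DL c a 1 (Ys s) = ((cuts L s).map (fun t => ((t.1 : ℝ) * c (Ys t.2.1)) • Ys t.2.2)).sum := by
  induction s with
  | nil => intro a L _; simp [Ys, cuts]
  | cons x s ih =>
    intro a L ha
    have key : DL c a 1 (Ys (x :: s)) = Cut_PL c a (Ys (x :: s)) +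
        ((cuts x s).map (fun t => ((t.1 : ℝ) * c (Ys t.2.1)) • Ys (x :: t.2.2))).sum := by
      cases x
      · simp only [Ys]
        rw [Cut_DL_pre c hc, ih 0 false (by decide), Cut_lsum]
        simp only [map_smul]
      · simp only [Ys, map_add]
        rw [Cut_DL_pre c hc, Cut_DL_pre c hc, ih 1 true (by decide), ih (-1) true (by decide),
          Cut_lsum, Cut_lsum]
        simp only [map_smul, smul_add]
        rw [← Cut_ladd]
        abel
    rw [key, Cut_PL_Ys c hc a L ha, cuts, List.map_append, List.sum_append, List.map_map]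
    rfl

/-! ### X words -/

private theorem Cut_DL_Xs (c : V →ₗ[ℝ] ℝ) (hc : InfChar c) (s : List Bool) :
    D c (Xs (true :: s)) =
      ((List.range (s.length + 1)).map (fun i =>
        ((kap (hdB ((true :: s).drop (i + 1))) : ℝ) * c (Xs ((true :: s).take (i + 1)))) •
          Xs ((true :: s).drop (i + 1)))).sum +
      ((cuts true s).map (fun t => ((t.1 : ℝ) * c (Ys t.2.1)) • Xs (true :: t.2.2))).sum := by
  rw [lib_D_eq]
  have h1 : DL c 0 1 (Xs (true :: s)) = Cut_PL c 0 (Xs (true :: s)) +
      ((cuts true s).map (fun t => ((t.1 : ℝ) * c (Ys t.2.1)) • Xs (true :: t.2.2))).sum := by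
    simp only [Xs, map_sub]
    rw [Cut_DL_pre c hc, Cut_DL_pre c hc, Cut_DL_Ys c hc s 1 true (by decide),
      Cut_DL_Ys c hc s (-1) true (by decide), Cut_lsum, Cut_lsum]
    simp only [map_smul, smul_sub]
    rw [← Cut_lsub]
    abel
  rw [h1]
  congr 1
  have h2 : SL (c.comp (toL 0)) = 0 := by
    apply lib_ext
    intro w
    rw [lib_SL]
    simp only [LinearMap.comp_apply, Cut_c_zero c hc, zero_smul, Finset.sum_const_zero,
      LinearMap.zero_apply]
  unfold Cut_PL
  rw [LinearMap.sub_apply, h2, LinearMap.zero_apply, sub_zero, Cut_range]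
  simp only [Xs, map_sub]
  rw [Cut_RL_pre, Cut_RL_pre]
  simp only [LinearMap.comp_apply, lib_toL, lib_toPt_nil, hc.one, zero_smul, zero_add]
  rw [Cut_RL_Ys, Cut_RL_Ys, ← Finset.sum_sub_distrib]
  refine Finset.sum_congr rfl (fun i _ => ?_)
  simp only [List.drop_succ_cons, List.take_succ_cons]
  generalize s.take i = p
  rcases s.drop i with _ | ⟨x, q⟩
  · simp only [Cut_Y, LinearMap.comp_apply, lib_toL_one, LinearMap.id_coe, id_eq, hdB, kap, Xs,
      map_sub, if_true]
    rw [← sub_smul]
    norm_num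
  · cases x
    · simp only [Cut_Y, LinearMap.comp_apply, Cut_c_zero c hc, hdB, kap, zero_smul, sub_zero]
      simp
    · simp only [Cut_Y, LinearMap.comp_apply, hdB, kap, if_true, Int.cast_one, one_mul]
      have e1 := Cut_toL_Xs p
      have e2 : c (toL (-1) (pre 1 (Ys p))) - c (toL (-1) (pre (-1) (Ys p))) = - c (Xs (true :: p)) := by
        rw [← map_sub, ← map_sub]
        rw [show pre 1 (Ys p) - pre (-1) (Ys p) = Xs (true :: p) from rfl, e1, map_neg]
      have e3 : c (toL 1 (pre 1 (Ys p))) - c (toL 1 (pre (-1) (Ys p))) = c (Xs (true :: p)) := by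
        rw [← map_sub, ← map_sub]
        rw [show pre 1 (Ys p) - pre (-1) (Ys p) = Xs (true :: p) from rfl, lib_toL_one]
        rfl
      have e4 : (c (toL 1 (pre 1 (Ys p))) • pre 1 (Ys q) + c (toL (-1) (pre 1 (Ys p))) • pre (-1) (Ys q)) -
          (c (toL 1 (pre (-1) (Ys p))) • pre 1 (Ys q) + c (toL (-1) (pre (-1) (Ys p))) • pre (-1) (Ys q)) =
          (c (toL 1 (pre 1 (Ys p))) - c (toL 1 (pre (-1) (Ys p)))) • pre 1 (Ys q) +
          (c (toL (-1) (pre 1 (Ys p))) - c (toL (-1) (pre (-1) (Ys p)))) • pre (-1) (Ys q) := by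
        rw [sub_smul, sub_smul]; abel
      rw [e4, e2, e3]
      rw [show Xs (true :: p) = pre 1 (Ys p) - pre (-1) (Ys p) from rfl, smul_sub, neg_smul,
        ← sub_eq_add_neg]

/-! ### Z words -/

private def Cut_z (b : Bool) : SignType := if b then 1 else 0

private theorem Cut_hd (s : List Bool) : hd 1 (s.map Cut_z) = Cut_z (hdB s) := by
  rcases s with _ | ⟨x, s⟩
  · rfl
  · rfl

private theorem Cut_ev (c : V →ₗ[ℝ] ℝ) (hc : InfChar c) (b : Bool) (p : Word) :
    ev c (Cut_z b) p = (kap b : ℝ) * c (wd p) := by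
  cases b
  · have h := Cut_c_zero c hc (wd p)
    rw [lib_toL] at h
    simp only [Cut_z, ev, kap]
    simpa using h
  · simp [Cut_z, ev, kap]

private theorem Cut_Pr_Z (c : V →ₗ[ℝ] ℝ) (hc : InfChar c) (L : Bool) (s : List Bool) :
    Pr c (Cut_z L) 1 (s.map Cut_z) =
      ((cutsP L s).map (fun t => ((t.1 : ℝ) * c (wd (t.2.1.map Cut_z))) • wd (t.2.2.map Cut_z))).sum := by
  unfold Pr cutsP
  rw [List.map_map, Cut_range, List.length_map]
  refine Finset.sum_congr rfl (fun i _ => ?_)
  simp only [Function.comp_apply, ← List.map_take, ← List.map_drop]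
  rw [Cut_hd, Cut_ev c hc, Cut_ev c hc, Int.cast_sub, sub_mul]

private theorem Cut_Dw_Z (c : V →ₗ[ℝ] ℝ) (hc : InfChar c) (s : List Bool) : ∀ L : Bool,
    Dw c 1 (Cut_z L) (s.map Cut_z) =
      ((cuts L s).map (fun t => ((t.1 : ℝ) * c (wd (t.2.1.map Cut_z))) • wd (t.2.2.map Cut_z))).sum := by
  induction s with
  | nil => intro L; simp [cuts]
  | cons x s ih =>
    intro L
    rw [List.map_cons, lib_Dw_cons, ← List.map_cons, Cut_Pr_Z c hc, ih, Cut_lsum, cuts,
      List.map_append, List.sum_append, List.map_map]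
    simp only [map_smul, lib_pre]
    rfl

/-! ### the theorems -/

theorem thm_cutK : St_cutK := by
  intro c hc k s hv
  unfold cutSum
  cases k
  · simp only [E, cutsK, List.map_map]
    have h := Cut_Dw_Z c hc s false
    have e : D c (Zs s) = Dw c 1 (Cut_z false) (s.map Cut_z) := by
      unfold Zs
      rw [lib_D]; rfl
    rw [e, h]
    rfl
  · simp only [E, cutsK, List.map_map]
    rw [lib_D_eq, Cut_DL_Ys c hc s 0 false (by decide)]
    rfl
  · rcases s with _ | ⟨x, s⟩
    · simp [E, Xs, cutsK]
    · have hx : x = true := hv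
      subst hx
      simp only [E]
      rw [Cut_DL_Xs c hc s, cutsK, List.map_append, List.sum_append, List.map_map, List.map_map]
      rfl

private theorem Cut_rv_pre (x : SignType) (v : V) : rv (pre x v) = app x (rv v) := by
  refine lib_ext' (f := rv.comp (pre x)) (g := (app x).comp rv) ?_ v
  intro w
  simp

private theorem Cut_app_pre (a x : SignType) (v : V) : app a (pre x v) = pre x (app a v) := by
  refine lib_ext' (f := (app a).comp (pre x)) (g := (pre x).comp (app a)) ?_ v
  intro w
  simp

private theorem Cut_Ys_true (s : List Bool) :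
    Ys (s ++ [true]) = app 1 (Ys s) + app (-1) (Ys s) := by
  induction s with
  | nil => simp [Ys]
  | cons x s ih =>
    cases x
    · simp only [List.cons_append, Ys, ih, map_add, Cut_app_pre]
    · simp only [List.cons_append, Ys, ih, map_add, Cut_app_pre]
      abel

private theorem Cut_Ys_false (s : List Bool) : Ys (s ++ [false]) = app 0 (Ys s) := by
  induction s with
  | nil => simp [Ys]
  | cons x s ih =>
    cases x
    · simp only [List.cons_append, Ys, ih, Cut_app_pre]
    · simp only [List.cons_append, Ys, ih, map_add, Cut_app_pre]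

private theorem Cut_rv_Ys (s : List Bool) : rv (Ys s) = Ys s.reverse := by
  induction s with
  | nil => simp [Ys]
  | cons x s ih =>
    rw [List.reverse_cons]
    cases x
    · rw [Cut_Ys_false]; simp only [Ys, Cut_rv_pre, ih]
    · rw [Cut_Ys_true]; simp only [Ys, map_add, Cut_rv_pre, ih]

private theorem Cut_Ys_mem (s : List Bool) : Ys s ∈ lenEq s.length := by
  have hp : ∀ (x : SignType) (n : ℕ) (v : V), v ∈ lenEq n → pre x v ∈ lenEq (n + 1) := by
    intro x n v hv
    refine lib_lenEq_ind (P := fun v => pre x v ∈ lenEq (n + 1)) v hv ?_ ?_ ?_ ?_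
    · rw [map_zero]; exact Submodule.zero_mem _
    · intro w hw
      rw [lib_pre]
      exact lib_wd_mem_lenEq (by simp [hw])
    · intro x y hx hy; rw [map_add]; exact Submodule.add_mem _ hx hy
    · intro r x hx; rw [map_smul]; exact Submodule.smul_mem _ _ hx
  induction s with
  | nil => simp only [Ys]; exact lib_wd_mem_lenEq rfl
  | cons x s ih =>
    rw [List.length_cons]
    cases x
    · exact hp _ _ _ ih
    · exact Submodule.add_mem _ (hp _ _ _ ih) (hp _ _ _ ih)

theorem thm_Erev (hr : St_charRev) : St_Erev := by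
  intro c hc k p hk hodd
  cases k
  · simp only [E, Zs]
    rw [List.map_reverse, hr c hc, List.length_map, hodd.neg_one_pow]
    ring
  · simp only [E]
    rw [← Cut_rv_Ys]
    refine lib_lenEq_ind (P := fun x => c (rv x) = c x) (Ys p) (Cut_Ys_mem p) ?_ ?_ ?_ ?_
    · simp
    · intro w hw
      rw [lib_rv, hr c hc, hw, hodd.neg_one_pow]
      ring
    · intro x y hx hy; rw [map_add, map_add, map_add, hx, hy]
    · intro r x hx; rw [map_smul, map_smul, map_smul, hx]
  · exact absurd rfl hk

end Pool.MTV
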