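import Mathlib

/-!
# Motivic Euler sums with real coefficients

Words in the letters 0, 1, -1 (the type SignType); the word a_1 ... a_n stands for the iterated
integral I(0; a_1, ..., a_n; 1) of dt/(t - a_1), ..., dt/(t - a_n) along the straight path from 0
to 1, with tangential base points (the values at the words 0 and 1 are 0).
-/

open Filter Topology
open scoped TensorProduct

namespace Pool.MTV

/-- Words in the letters 0, 1, -1. -/
abbrev Word := List SignType

/-- The real vector space with basis the words. -/
abbrev V := Word →₀ ℝ

/-- A word as an element of V. -/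
noncomputable def wd (w : Word) : V := Finsupp.single w 1

/-- Put a letter in front. -/
noncomputable def pre (a : SignType) : V →ₗ[ℝ] V := Finsupp.lmapDomain ℝ ℝ (fun w => a :: w)

/-- The shuffle product of two words. -/
noncomputable def sh : Word → Word → V
  | [], v => wd v
  | a :: u, [] => wd (a :: u)
  | a :: u, b :: v => pre a (sh u (b :: v)) + pre b (sh (a :: u) v)

/-- The shuffle product on V. -/
noncomputable def mul : V →ₗ[ℝ] V →ₗ[ℝ] V :=
  Finsupp.linearCombination ℝ (fun u : Word => (Finsupp.linearCombination ℝ (sh u) : V →ₗ[ℝ] V))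

/-! ## The real period -/

/-- The iterated integral from 0 to z of a reversed word (the head is the outermost letter):
the word 0^n gives (log z)^n / n!, every other word a w gives the integral of
(value at w) dt / (t - a) from 0 to z. -/
noncomputable def Lr : Word → ℝ → ℝ
  | [], _ => 1
  | a :: w, z =>
      if ∀ b ∈ a :: w, b = 0 then Real.log z ^ (w.length + 1) / ((w.length + 1).factorial : ℝ)
      else ∫ t in (0 : ℝ)..z, Lr w t / (t - ((a : SignType) : ℝ))

/-- The iterated integral I(0; w; z). -/
noncomputable def L (w : Word) (z : ℝ) : ℝ := Lr w.reverse z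

/-- c is the regularised value I(0; w; 1): the constant term of the polynomial P in log (1 - z)
with I(0; w; z) - P(log (1 - z)) -> 0 as z -> 1. -/
def IsReg (w : Word) (c : ℝ) : Prop :=
  ∃ P : Polynomial ℝ, P.coeff 0 = c ∧
    Tendsto (fun z => L w z - P.eval (Real.log (1 - z))) (𝓝[<] 1) (𝓝 0)

open Classical in
/-- The regularised value I(0; w; 1). -/
noncomputable def per (w : Word) : ℝ := if h : ∃ c, IsReg w c then h.choose else 0

/-- The period map. -/
noncomputable def Per : V →ₗ[ℝ] ℝ := Finsupp.linearCombination ℝ per

/-! ## The coaction -/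

/-- I(0; w; a): homothety for a = 1, -1; for a = 0 it is 1 if w is empty and 0 otherwise. -/
noncomputable def toPt (a : SignType) (w : Word) : V :=
  if a = 0 then (if w = [] then wd [] else 0) else wd (w.map (fun x => a * x))

/-- I(a; w; b), by reversal and composition of the paths a -> 0 -> b. -/
noncomputable def II (a : SignType) (w : Word) (b : SignType) : V :=
  ∑ i ∈ Finset.range (w.length + 1),
    ((-1 : ℝ) ^ i) • mul (toPt a (w.take i).reverse) (toPt b (w.drop i))

/-- Multiply the left factor by x, put the letter c in front of the right factor. -/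
noncomputable def step (x : V) (c : SignType) : V ⊗[ℝ] V →ₗ[ℝ] V ⊗[ℝ] V :=
  TensorProduct.map (mul x) (pre c)

/-- The coaction on the integral from a to b of the word p w, where no letter of p is chosen:
the sum over all subsequences c_1, ..., c_m of w of
I(a; .. ; c_1) I(c_1; .. ; c_2) ... I(c_m; .. ; b) tensor c_1 ... c_m. -/
noncomputable def cop (b : SignType) : SignType → Word → Word → V ⊗[ℝ] V
  | a, p, [] => II a p b ⊗ₜ[ℝ] wd []
  | a, p, c :: w => cop b a (p ++ [c]) w + step (II a p c) c (cop b c [] w)

/-- The coaction of Goncharov and Brown. -/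
noncomputable def coact : V →ₗ[ℝ] V ⊗[ℝ] V :=
  Finsupp.linearCombination ℝ (fun w : Word => cop 1 0 [] w)

/-! ## The relations between motivic Euler sums -/

/-- The part of weight n. -/
noncomputable def part (n : ℕ) (x : V) : V := x.filter (fun w => w.length = n)

/-- The subspace spanned by the a tensor b, a in A, b in B. -/
noncomputable def tens (A B : Submodule ℝ V) : Submodule ℝ (V ⊗[ℝ] V) :=
  Submodule.span ℝ {t | ∃ a ∈ A, ∃ b ∈ B, t = a ⊗ₜ[ℝ] b}

/-- The word of -zeta(2). -/
noncomputable def zeta2 : V := wd [1, 0]

/-- Graded subspaces of the kernel of the period map that are stable under the coaction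
(the left factor is taken modulo J and zeta(2)). -/
structure IsRelations (J : Submodule ℝ V) : Prop where
  graded : ∀ x ∈ J, ∀ n, part n x ∈ J
  period : ∀ x ∈ J, Per x = 0
  stable : ∀ x ∈ J, coact x ∈ tens (J ⊔ LinearMap.range (mul zeta2)) ⊤ ⊔ tens ⊤ J

/-- The relations between motivic Euler sums: the largest graded coaction stable subspace of the
kernel of the period map. -/
noncomputable def relations : Submodule ℝ V := sSup {J | IsRelations J}

/-- The words without the letter -1. -/
noncomputable def levelOne : Submodule ℝ V := Submodule.span ℝ (wd '' {w | ∀ a ∈ w, a ≠ -1})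

/-- The class of x in H^2 lies in H^1. -/
def Unramified (x : V) : Prop := ∃ z ∈ levelOne, x - z ∈ relations

/-! ## Multiple t-values -/

/-- Put the letter a followed by m zeros in front. -/
noncomputable def blk (a : SignType) (m : ℕ) : V →ₗ[ℝ] V :=
  Finsupp.lmapDomain ℝ ℝ (fun w : Word => a :: (List.replicate m 0 ++ w))

/-- The sum over all signs of the words e_1 0^(k_1 - 1) ... e_d 0^(k_d - 1). -/
noncomputable def tail : List ℕ → V
  | [] => wd []
  | k :: ks => blk 1 (k - 1) (tail ks) + blk (-1) (k - 1) (tail ks)

/-- The motivic multiple t-value: the sum over all signs of e_1 I(0; e_1 0^(k_1 - 1) ...; 1). -/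
noncomputable def tm : List ℕ → V
  | [] => wd []
  | k :: ks => blk 1 (k - 1) (tail ks) - blk (-1) (k - 1) (tail ks)

end Pool.MTV
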