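import Pool.Agent.MTV.Skel

/-!
# Analysis: statements
-/

open Filter Topology MeasureTheory

namespace Pool.MTV

/-- Linear extension of w -> L w z. -/
noncomputable def LV (z : ℝ) : V →ₗ[ℝ] ℝ := Finsupp.linearCombination ℝ (fun w => L w z)

/-- The last letter: L (w a) is a primitive of L w / (t - a). -/
def St_Lderiv : Prop := ∀ (w : Word) (a : SignType) (z : ℝ), 0 < z → z < 1 →
  HasDerivAt (L (w ++ [a])) (L w z / (z - ((a : SignType) : ℝ))) z

/-- Growth at 0. -/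
def St_Lzero : Prop := ∀ w : Word, ∃ C : ℝ, ∀ z : ℝ, 0 < z → z ≤ 1 / 2 →
  |L w z| ≤ C * z ^ (-(1 / 4) : ℝ) ∧ ((∃ b ∈ w, b ≠ 0) → |L w z| ≤ C * z ^ ((1 / 2) : ℝ))

/-- Expansion at 1. -/
def St_Lone : Prop := ∀ w : Word, ∃ (P : Polynomial ℝ) (C : ℝ), ∀ z : ℝ, 1 / 2 ≤ z → z < 1 →
  |L w z - P.eval (Real.log (1 - z))| ≤ C * (1 - z) ^ ((1 / 2) : ℝ)

/-- Shuffle relation of the functions L. -/
def St_Lshuffle : Prop := ∀ (u v : Word) (z : ℝ), 0 < z → z < 1 → L u z * L v z = LV z (sh u v)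

/-- The regularised value of a combination of words is the constant term of its expansion. -/
def St_PerLim : Prop := ∀ (x : V) (P : Polynomial ℝ),
  Tendsto (fun z => LV z x - P.eval (Real.log (1 - z))) (𝓝[<] 1) (𝓝 0) → Per x = P.coeff 0

def St_PerMul' : Prop := ∀ x y : V, Per (mul x y) = Per x * Per y

/-! ### power series -/

/-- Coefficient of z^n in LV z (E k s), s in reversed order (head = last letter), nonempty with
last entry (= first letter) true; odd n for k = X, even n for k = Y. -/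
noncomputable def co (k : Kind) : List Bool → ℕ → ℝ
  | [], _ => 0
  | [_], n => if 0 < n ∧ n % 2 = (if k = Kind.X then 1 else 0) then -2 / (n : ℝ) else 0
  | false :: s, n => co k s n / n
  | true :: s, n => -2 / (n : ℝ) * ∑ m ∈ Finset.range n, if m % 2 = n % 2 then co k s m else 0

def St_series : Prop := ∀ (k : Kind) (s : List Bool), k ≠ Kind.Z → s ≠ [] → hdB s = true →
  ∀ z : ℝ, 0 < z → z < 1 → HasSum (fun n => co k s.reverse n * z ^ n) (LV z (E k s))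

/-- Level one words from Y words: convergent case. -/
def St_ZY : Prop := ∀ (s : List Bool) (z : ℝ), 0 < z → z < 1 →
  LV z (E Kind.Y s) = (1 / 2) ^ (s.count false) * LV (z ^ 2) (E Kind.Z s)

/-! ### nested sums -/

/-- sum over 0 < n_1 < ... < n_a < m, all n_i = m mod 2, of 1/(n_1 ... n_a)^2 -/
noncomputable def An : ℕ → ℕ → ℝ
  | 0, _ => 1
  | a + 1, m => ∑ n ∈ Finset.range m, if 0 < n ∧ n % 2 = m % 2 then An a n / (n : ℝ) ^ 2 else 0

/-- sum over m < n_1 < ... < n_b, all n_i = m mod 2, of 1/(n_1 ... n_b)^2 -/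
noncomputable def Bn : ℕ → ℕ → ℝ
  | 0, _ => 1
  | b + 1, m => ∑' n : ℕ, if m < n ∧ n % 2 = m % 2 then Bn b n / (n : ℝ) ^ 2 else 0

noncomputable def gam : ℕ → ℝ
  | 0 => 0
  | 1 => 1
  | 2 => 1 / 2
  | n + 3 => gam (n + 1) * ((n : ℝ) + 1) ^ 2 / (((n : ℝ) + 2) * ((n : ℝ) + 3))

/-- expansions of the powers of phi in powers of sin phi -/
def St_phi : Prop := ∀ (a e : ℕ), (e = 1 ∨ e = 2) → ∀ φ : ℝ, 0 ≤ φ → φ < Real.pi / 2 →
  HasSum (fun m : ℕ => if m % 2 = e % 2 then gam m * An a m * Real.sin φ ^ m else 0)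
    (φ ^ (2 * a + e) / (2 * a + e).factorial)

/-- differentiated form -/
def St_phiD : Prop := ∀ (a e : ℕ), (e = 1 ∨ e = 2) → ∀ φ : ℝ, 0 ≤ φ → φ < Real.pi / 2 →
  HasSum (fun m : ℕ => if m % 2 = e % 2 then m * gam m * An a m * Real.sin φ ^ m else 0)
    (Real.tan φ * φ ^ (2 * a + e - 1) / (2 * a + e - 1).factorial)

/-- integrated form -/
def St_phiI : Prop := ∀ (a e : ℕ), (e = 1 ∨ e = 2) → ∀ φ : ℝ, 0 < φ → φ < Real.pi / 2 →
  HasSum (fun m : ℕ => if m % 2 = e % 2 then gam m * An a m / m * Real.sin φ ^ m else 0)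
    (∫ u in (0 : ℝ)..φ, Real.cot u * u ^ (2 * a + e) / (2 * a + e).factorial)

/-- 1 for odd numbers, pi / 2 for even numbers -/
noncomputable def kp (e : ℕ) : ℝ := if e % 2 = 1 then 1 else Real.pi / 2

def St_wallis : Prop := ∀ (b m : ℕ), 0 < m →
  gam m * (∫ θ in (0 : ℝ)..(Real.pi / 2), Real.cos θ ^ m * θ ^ (2 * b) / (2 * b).factorial)
    = kp m * Bn b m / (m : ℝ) ^ 2

/-- The integral of cot(u) R(u). -/
noncomputable def Jc (R : Polynomial ℝ) : ℝ := ∫ u in (0 : ℝ)..(Real.pi / 2), Real.cot u * R.eval u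

def St_J : Prop := ∀ R : Polynomial ℝ, R.eval 0 = 0 →
  Jc R = Real.log 2 * R.eval (Real.pi / 2) +
    ∑ i ∈ Finset.Icc 1 R.natDegree, (-1 : ℝ) ^ i / 4 ^ i * lam (2 * i + 1) *
      ((Polynomial.derivative^[2 * i] R).eval 0 +
        (1 - 1 / 4 ^ i) * (Polynomial.derivative^[2 * i] R).eval (Real.pi / 2))

/-- u^p / p! * (pi/2 - u)^q / q! -/
noncomputable def Rpq (p q : ℕ) : Polynomial ℝ :=
  Polynomial.C (1 / (p.factorial : ℝ)) * Polynomial.X ^ p *
    (Polynomial.C (1 / (q.factorial : ℝ)) * (Polynomial.C (Real.pi / 2) - Polynomial.X) ^ q)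

/-- total sums with 1/m^3 in the middle -/
def St_sum3 : Prop := ∀ (a b e : ℕ), (e = 1 ∨ e = 2) →
  HasSum (fun m : ℕ => if 0 < m ∧ m % 2 = e % 2 then An a m * Bn b m / (m : ℝ) ^ 3 else 0)
    ((kp e)⁻¹ * Jc (Rpq (2 * a + e) (2 * b + 1)))

/-- total sums with 1/m in the middle -/
def St_sum1 : Prop := ∀ (a b e : ℕ), (e = 1 ∨ e = 2) → 0 < b →
  HasSum (fun m : ℕ => if 0 < m ∧ m % 2 = e % 2 then An a m * Bn b m / (m : ℝ) else 0)
    ((kp e)⁻¹ * Jc (Rpq (2 * b) (2 * a + e - 1)))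

/-- An a (infinity) -/
noncomputable def Ainf (a e : ℕ) : ℝ := (Real.pi / 2) ^ (2 * a) / (2 * a + e - 1).factorial

def St_Ainf : Prop := ∀ (a e : ℕ), (e = 1 ∨ e = 2) →
  HasSum (fun m : ℕ => if 0 < m ∧ m % 2 = e % 2 then An a m / (m : ℝ) ^ 2 else 0) (Ainf (a + 1) e)

/-- the divergent case -/
def St_sum0 : Prop := ∀ (a e : ℕ), (e = 1 ∨ e = 2) →
  HasSum (fun m : ℕ => if 0 < m ∧ m % 2 = e % 2 then (Ainf a e - An a m) / (m : ℝ) else 0)
    ((kp e)⁻¹ * Jc (Polynomial.C (Ainf a e) * Rpq 0 (e - 1) - Rpq 0 (2 * a + e - 1)))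

/-! ### the periods -/

/-- Periods of the words W3. -/
def St_Per3 : Prop := ∀ (k : Kind) (n a : ℕ), a < n →
  Per (E k (W3 a (n - 1 - a))) =
    ∑ j ∈ Finset.range (n + 1), (Q3 k n a j : ℝ) * lam (2 * j + 1) * Real.pi ^ (2 * (n - j))

/-- Periods of the words W1. -/
def St_Per1 : Prop := ∀ (k : Kind) (n a : ℕ), k ≠ Kind.Z → a ≤ n →
  Per (E k (W1 a (n - a))) =
    ∑ j ∈ Finset.range (n + 1), (Q1 k n a j : ℝ) * lam (2 * j + 1) * Real.pi ^ (2 * (n - j))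

/-- Periods of the alternating words. -/
def St_PerAlt : Prop := ∀ (k : Kind) (n : ℕ), Per (E k (alt n)) = (be k n : ℝ) * Real.pi ^ (2 * n)

def St_PerZero : Prop := Per (wd [0]) = 0

end Pool.MTV
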