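import Pool.Agent.MTV.StA
import Pool.Agent.MTV.StP

/-!
# Skeleton words and leading symbols: statements
-/

namespace Pool.MTV

/-- Sum over a list of cuts. -/
noncomputable def cutSum (c : V →ₗ[ℝ] ℝ) (k : Kind) (s : List Bool) : V :=
  ((cutsK k s).map (fun t => ((t.1 : ℝ) * c (E t.2.1 t.2.2.1)) • E k t.2.2.2)).sum

/-- Cut formula. -/
def St_cutK : Prop := ∀ c : V →ₗ[ℝ] ℝ, InfChar c → ∀ (k : Kind) (s : List Bool),
  valid k s = true → D c (E k s) = cutSum c k s

/-- Combinatorics of the cuts with nonzero sign and odd length. -/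
def St_bd : Prop := ∀ (k : Kind) (s : List Bool), valid k s = true → ∀ t ∈ cutsK k s,
  t.1 ≠ 0 → Odd t.2.2.1.length →
    (t.1 = 1 ∨ t.1 = -1) ∧ valid t.2.1 (ori t.1 t.2.2.1) = true ∧ valid k t.2.2.2 = true ∧
    t.2.2.1.length + t.2.2.2.length = s.length ∧
    1 ≤ bd (ori t.1 t.2.2.1) ∧ bd (ori t.1 t.2.2.1) + bd t.2.2.2 = bd s ∧
    (t.1 = -1 → t.2.1 ≠ Kind.X)

/-- Words of odd length with block degree 1, and words of block degree 0. -/
def St_class : Prop :=
  (∀ s : List Bool, bd s = 0 → s = alt (s.length / 2)) ∧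
  (∀ s : List Bool, bd s = 1 →
    (s = W0 (s.length / 2) ∧ dbl (false :: (s ++ [true])) = 0) ∨
    (∃ a < s.length / 2, s = W3 a (s.length / 2 - 1 - a) ∧
      dbl (false :: (s ++ [true])) = 2 * a + 2) ∨
    (∃ a ≤ s.length / 2, s = W1 a (s.length / 2 - a) ∧ dbl (false :: (s ++ [true])) = 2 * a + 1))

/-- Odd infinitesimal characters are invariant under reversal. -/
def St_Erev : Prop := ∀ c : V →ₗ[ℝ] ℝ, InfChar c → ∀ (k : Kind) (p : List Bool),
  k ≠ Kind.X → Odd p.length → c (E k p.reverse) = c (E k p)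

/-- 0 * (alternating word). -/
def St_shuf0 : Prop := ∀ (k : Kind) (n : ℕ), k ≠ Kind.X →
  mul (wd [0]) (E k (alt n)) =
    E k (W0 n) + (2 : ℝ) • ∑ a ∈ Finset.range n, E k (W3 a (n - 1 - a))

/-- Words of block degree b are killed by more than b odd cuts. -/
def St_kill : Prop := ∀ c χ : V →ₗ[ℝ] ℝ, Split c χ → ∀ (k : Kind) (l : List ℕ) (s : List Bool),
  valid k s = true → (∀ r ∈ l, Odd r) → bd s < l.length → Dl c l (E k s) = 0

/-- Values on alternating words. -/
def St_chiAlt : Prop := ∀ c χ : V →ₗ[ℝ] ℝ, Split c χ → ∀ (k : Kind) (n : ℕ),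
  χ (E k (alt n)) = (be k n : ℝ) * Real.pi ^ (2 * n)

/-- The table of the infinitesimal character: words of length at most 15 with one double letter. -/
def St_table : Prop := ∀ c χ : V →ₗ[ℝ] ℝ, Split c χ → ∀ (k : Kind) (p : List Bool),
  valid k p = true → Odd p.length → p.length ≤ 15 → bd p = 1 →
    c (E k p) = (al k p : ℝ) * lam p.length

/-- Leading symbols. -/
def St_sym : Prop := ∀ c χ : V →ₗ[ℝ] ℝ, Split c χ → ∀ (k : Kind) (l : List ℕ) (s : List Bool),
  valid k s = true → (∀ r ∈ l, Odd r) → (∀ r ∈ l, r ≤ 15) → l.length = bd s →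
    χ (Dl c l (E k s)) =
      (sym k l s : ℝ) * (l.map lam).prod * Real.pi ^ (s.length - l.sum)

end Pool.MTV
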