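import Pool.Agent.MTV.StA2
import Pool.Agent.MTV.StX
import Pool.Agent.MTV.StF

/-!
# Final assembly: elementary facts
-/

open scoped TensorProduct

namespace Pool.MTV

/-! ### words -/

theorem pre_wd (a : SignType) (w : Word) : pre a (wd w) = wd (a :: w) := by
  rw [pre, wd, wd, Finsupp.lmapDomain_apply, Finsupp.mapDomain_single]

theorem wd_lenEq (w : Word) : wd w ∈ lenEq w.length :=
  Finsupp.single_mem_supported ℝ 1 rfl

theorem pre_lenEq (a : SignType) (n : ℕ) (x : V) (hx : x ∈ lenEq n) : pre a x ∈ lenEq (n + 1) := by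
  have h1 : lenEq n = Submodule.span ℝ (wd '' {w : Word | w.length = n}) :=
    Finsupp.supported_eq_span_single ℝ _
  rw [h1] at hx
  induction hx using Submodule.span_induction with
  | mem y hy =>
    obtain ⟨w, hw, rfl⟩ := hy
    rw [pre_wd]
    have h2 := wd_lenEq (a :: w)
    rw [List.length_cons, hw] at h2
    exact h2
  | zero => rw [map_zero]; exact Submodule.zero_mem _
  | add y z _ _ hy hz => rw [map_add]; exact Submodule.add_mem _ hy hz
  | smul r y _ hy => rw [map_smul]; exact Submodule.smul_mem _ r hy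

theorem Ys_lenEq (s : List Bool) : Ys s ∈ lenEq s.length := by
  induction s with
  | nil => exact wd_lenEq []
  | cons b s ih =>
    cases b with
    | true =>
      rw [Ys]
      exact Submodule.add_mem _ (pre_lenEq _ _ _ ih) (pre_lenEq _ _ _ ih)
    | false =>
      rw [Ys]
      exact pre_lenEq _ _ _ ih

theorem E_lenEq (k : Kind) (s : List Bool) : E k s ∈ lenEq s.length := by
  cases k with
  | Z =>
    have h := wd_lenEq (s.map (fun b => if b then (1 : SignType) else 0))
    rw [List.length_map] at h
    exact h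
  | Y => exact Ys_lenEq s
  | X =>
    cases s with
    | nil => exact wd_lenEq []
    | cons b s =>
      exact Submodule.sub_mem _ (pre_lenEq _ _ _ (Ys_lenEq s)) (pre_lenEq _ _ _ (Ys_lenEq s))

/-! ### the element tm k -/

/-- m zeros in front -/
noncomputable def zer (m : ℕ) : V →ₗ[ℝ] V :=
  Finsupp.lmapDomain ℝ ℝ (fun w : Word => List.replicate m 0 ++ w)

theorem blk_eq (a : SignType) (m : ℕ) (y : V) : blk a m y = pre a (zer m y) := by
  rw [blk, pre, zer, Finsupp.lmapDomain_apply, Finsupp.lmapDomain_apply, Finsupp.lmapDomain_apply,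
    ← Finsupp.mapDomain_comp]
  rfl

theorem Ys_zer (m : ℕ) (s : List Bool) : Ys (List.replicate m false ++ s) = zer m (Ys s) := by
  induction m with
  | zero =>
    rw [zer, Finsupp.lmapDomain_apply]
    simp only [List.replicate_zero, List.nil_append]
    exact (Finsupp.mapDomain_id).symm
  | succ m ih =>
    rw [List.replicate_succ, List.cons_append, Ys, ih, zer, zer, pre, Finsupp.lmapDomain_apply,
      Finsupp.lmapDomain_apply, Finsupp.lmapDomain_apply, ← Finsupp.mapDomain_comp]
    rfl

theorem Ys_skel (k : List ℕ) : Ys (skel k) = tail k := by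
  induction k with
  | nil => rfl
  | cons a k ih =>
    have h1 : skel (a :: k) = true :: (List.replicate (a - 1) false ++ skel k) := rfl
    rw [h1, Ys, Ys_zer, ih, tail, blk_eq, blk_eq]

theorem EX_skel (k : List ℕ) : E .X (skel k) = tm k := by
  cases k with
  | nil => rfl
  | cons a k =>
    have h1 : skel (a :: k) = true :: (List.replicate (a - 1) false ++ skel k) := rfl
    rw [h1, tm, blk_eq, blk_eq, ← Ys_skel, ← Ys_zer]
    rfl

/-! ### level one -/

theorem EZ_levelOne (s : List Bool) : E .Z s ∈ levelOne := by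
  apply Submodule.subset_span
  refine ⟨_, ?_, rfl⟩
  intro a ha
  obtain ⟨b, -, rfl⟩ := List.mem_map.mp ha
  cases b <;> decide

theorem pre_levelOne (a : SignType) (ha : a ≠ -1) (x : V) (hx : x ∈ levelOne) :
    pre a x ∈ levelOne := by
  induction hx using Submodule.span_induction with
  | mem y hy =>
    obtain ⟨w, hw, rfl⟩ := hy
    rw [pre_wd]
    apply Submodule.subset_span
    refine ⟨_, ?_, rfl⟩
    intro b hb
    rcases List.mem_cons.mp hb with h | h
    · rw [h]; exact ha
    · exact hw b h
  | zero => rw [map_zero]; exact Submodule.zero_mem _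
  | add y z _ _ hy hz => rw [map_add]; exact Submodule.add_mem _ hy hz
  | smul r y _ hy => rw [map_smul]; exact Submodule.smul_mem _ r hy

theorem sh_levelOne : ∀ u v : Word, (∀ a ∈ u, a ≠ -1) → (∀ a ∈ v, a ≠ -1) → sh u v ∈ levelOne
  | [], v, _, hv => by
    rw [sh]
    exact Submodule.subset_span ⟨v, hv, rfl⟩
  | a :: u, [], hu, _ => by
    rw [sh]
    exact Submodule.subset_span ⟨a :: u, hu, rfl⟩
  | a :: u, b :: v, hu, hv => by
    rw [sh]
    refine Submodule.add_mem _ ?_ ?_
    · exact pre_levelOne a (hu a (by simp)) _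
        (sh_levelOne u (b :: v) (fun x hx => hu x (by simp [hx])) hv)
    · exact pre_levelOne b (hv b (by simp)) _
        (sh_levelOne (a :: u) v hu (fun x hx => hv x (by simp [hx])))
  termination_by u v => u.length + v.length

theorem mul_wd (u v : Word) : mul (wd u) (wd v) = sh u v := by
  rw [mul, wd, wd, Finsupp.linearCombination_single, one_smul, Finsupp.linearCombination_single,
    one_smul]

theorem zeta2_levelOne (y : V) (hy : y ∈ levelOne) : mul zeta2 y ∈ levelOne := by
  induction hy using Submodule.span_induction with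
  | mem y hy =>
    obtain ⟨w, hw, rfl⟩ := hy
    rw [zeta2, mul_wd]
    refine sh_levelOne _ _ ?_ hw
    intro a ha
    simp only [List.mem_cons, List.not_mem_nil, or_false] at ha
    rcases ha with rfl | rfl <;> decide
  | zero => rw [map_zero]; exact Submodule.zero_mem _
  | add y z _ _ hy hz => rw [map_add]; exact Submodule.add_mem _ hy hz
  | smul r y _ hy => rw [map_smul]; exact Submodule.smul_mem _ r hy

theorem zeta2_lenEq (h : St_shLen) (n : ℕ) (y : V) (hy : y ∈ lenEq n) :
    mul zeta2 y ∈ lenEq (n + 2) := by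
  have h1 : lenEq n = Submodule.span ℝ (wd '' {w : Word | w.length = n}) :=
    Finsupp.supported_eq_span_single ℝ _
  rw [h1] at hy
  induction hy using Submodule.span_induction with
  | mem y hy =>
    obtain ⟨w, hw, rfl⟩ := hy
    rw [zeta2, mul_wd]
    have h2 := h [1, 0] w
    have h3 : ([1, 0] : Word).length + w.length = n + 2 := by
      rw [hw]
      simp only [List.length_cons, List.length_nil]
      omega
    rw [h3] at h2
    exact h2
  | zero => rw [map_zero]; exact Submodule.zero_mem _
  | add y z _ _ hy hz => rw [map_add]; exact Submodule.add_mem _ hy hz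
  | smul r y _ hy => rw [map_smul]; exact Submodule.smul_mem _ r hy

/-! ### zeta values -/

theorem lam_pos (r : ℕ) (hr : 2 ≤ r) : 0 < lam r := by
  have h0 : r ≠ 1 := by omega
  rw [lam, if_neg h0]
  have hs : Summable (fun n : ℕ => 1 / ((n : ℝ) + 1) ^ r) := by
    have h1 := (summable_nat_add_iff 1).mpr (Real.summable_one_div_nat_pow.mpr (by omega : 1 < r))
    refine h1.congr ?_
    intro n
    push_cast
    rfl
  refine hs.tsum_pos (fun n => by positivity) 0 (by positivity)

/-! ### homogeneity of iterated cuts -/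

theorem Dl_hom (h : St_Dhom) (c : V →ₗ[ℝ] ℝ) (l : List ℕ) : ∀ (n : ℕ) (x : V), x ∈ lenEq n →
    (l.sum ≤ n → Dl c l x ∈ lenEq (n - l.sum)) ∧ (n < l.sum → Dl c l x = 0) := by
  induction l with
  | nil =>
    intro n x hx
    refine ⟨fun _ => ?_, fun h1 => ?_⟩
    · simpa [Dl] using hx
    · simp at h1
  | cons r l ih =>
    intro n x hx
    have h1 : Dl c (r :: l) x = Dl c l (Dr c r x) := rfl
    have h2 : Dr c r x = DL (hom r c) 0 1 x := rfl
    rw [h1, List.sum_cons]
    refine ⟨fun h3 => ?_, fun h3 => ?_⟩
    · have h4 := (h c 0 1 r n x hx).1 (by omega)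
      rw [← h2] at h4
      have h5 := (ih (n - r) _ h4).1 (by omega)
      rwa [Nat.sub_sub] at h5
    · by_cases h6 : r ≤ n
      · have h4 := (h c 0 1 r n x hx).1 h6
        rw [← h2] at h4
        exact (ih (n - r) _ h4).2 (by omega)
      · have h4 := (h c 0 1 r n x hx).2 (by omega)
        rw [← h2] at h4
        rw [h4, map_zero]

theorem chi_odd {c χ : V →ₗ[ℝ] ℝ} (hs : Split c χ) (n : ℕ) (hn : Odd n) (x : V)
    (hx : x ∈ lenEq n) : χ x = 0 := by
  have h1 : lenEq n = Submodule.span ℝ (wd '' {w : Word | w.length = n}) :=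
    Finsupp.supported_eq_span_single ℝ _
  rw [h1] at hx
  induction hx using Submodule.span_induction with
  | mem y hy =>
    obtain ⟨w, hw, rfl⟩ := hy
    exact hs.even w (by rw [hw]; exact hn)
  | zero => rw [map_zero]
  | add y z _ _ hy hz => rw [map_add, hy, hz, add_zero]
  | smul r y _ hy => rw [map_smul, hy, smul_zero]

theorem odd_sum (l : List ℕ) (hl : ∀ r ∈ l, Odd r) : Odd l.sum ↔ Odd l.length := by
  induction l with
  | nil => simp
  | cons r l ih =>
    have h1 : Odd r := hl r (by simp)
    have h2 := ih (fun x hx => hl x (by simp [hx]))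
    rw [List.sum_cons, List.length_cons, Nat.odd_add, Nat.odd_add_one]
    rw [← Nat.not_odd_iff_even, h2]
    simp only [h1, true_iff]

/-- Even number of cuts: the value is zero on elements of odd weight. -/
theorem chi_par (h : St_Dhom) {c χ : V →ₗ[ℝ] ℝ} (hs : Split c χ) (n : ℕ) (hn : Odd n) (x : V)
    (hx : x ∈ lenEq n) (l : List ℕ) (hl : ∀ r ∈ l, Odd r) (he : Even l.length) :
    χ (Dl c l x) = 0 := by
  by_cases h1 : l.sum ≤ n
  · refine chi_odd hs _ ?_ _ ((Dl_hom h c l n x hx).1 h1)
    have h2 : ¬ Odd l.sum := by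
      rw [odd_sum l hl, Nat.not_odd_iff_even]
      exact he
    rw [Nat.not_odd_iff_even] at h2
    exact Nat.Odd.sub_even h1 hn h2
  · rw [(Dl_hom h c l n x hx).2 (by omega), map_zero]

end Pool.MTV
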