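import Pool.Agent.MTV.FinA
import Pool.Agent.MTV.CertB

/-!
# Final assembly: level one elements with a single nonzero odd cut
-/

open scoped TensorProduct

namespace Pool.MTV

/-! ### cuts commute with the multiplication by zeta2 -/

theorem hom_wd (r : ℕ) (c : V →ₗ[ℝ] ℝ) (w : Word) :
    hom r c (wd w) = if w.length = r then c (wd w) else 0 := by
  rw [hom]
  conv_lhs => rw [wd]
  rw [Finsupp.linearCombination_single, one_smul]

theorem hom_ne (r : ℕ) (c : V →ₗ[ℝ] ℝ) (n : ℕ) (hn : n ≠ r) (x : V) (hx : x ∈ lenEq n) :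
    hom r c x = 0 := by
  have h1 : lenEq n = Submodule.span ℝ (wd '' {w : Word | w.length = n}) :=
    Finsupp.supported_eq_span_single ℝ _
  rw [h1] at hx
  induction hx using Submodule.span_induction with
  | mem y hy =>
    obtain ⟨w, hw, rfl⟩ := hy
    rw [hom_wd, if_neg]
    rw [hw]
    exact hn
  | zero => rw [map_zero]
  | add y z _ _ hy hz => rw [map_add, hy, hz, add_zero]
  | smul r y _ hy => rw [map_smul, hy, smul_zero]

theorem hom_eq (r : ℕ) (c : V →ₗ[ℝ] ℝ) (x : V) (hx : x ∈ lenEq r) :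
    hom r c x = c x := by
  have h1 : lenEq r = Submodule.span ℝ (wd '' {w : Word | w.length = r}) :=
    Finsupp.supported_eq_span_single ℝ _
  rw [h1] at hx
  induction hx using Submodule.span_induction with
  | mem y hy =>
    obtain ⟨w, hw, rfl⟩ := hy
    rw [hom_wd]
    exact if_pos hw
  | zero => rw [map_zero, map_zero]
  | add y z _ _ hy hz => rw [map_add, map_add, hy, hz]
  | smul r y _ hy => rw [map_smul, map_smul, hy]

theorem Dr_zeta (h1 : St_homInf) (h2 : St_zetaD) {c : V →ₗ[ℝ] ℝ} (hc : InfChar c) (r : ℕ)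
    (hr : Odd r) (y : V) : Dr c r (mul zeta2 y) = mul zeta2 (Dr c r y) := by
  refine (h2.1 (hom r c) (h1 c hc r) ?_).2 y
  rw [hom_wd, if_neg]
  rintro h
  rw [← h] at hr
  exact absurd hr (by decide)

theorem Dl_zeta (h1 : St_homInf) (h2 : St_zetaD) {c : V →ₗ[ℝ] ℝ} (hc : InfChar c) (l : List ℕ) :
    (∀ r ∈ l, Odd r) → ∀ y : V, Dl c l (mul zeta2 y) = mul zeta2 (Dl c l y) := by
  induction l with
  | nil => intro _ y; rfl
  | cons r l ih =>
    intro hl y
    have e : ∀ x : V, Dl c (r :: l) x = Dl c l (Dr c r x) := fun x => rfl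
    rw [e, e, Dr_zeta h1 h2 hc r (hl r (by simp)), ih (fun s hs => hl s (by simp [hs]))]

/-- multiplication by zeta2 ^ m -/
noncomputable def zm (m : ℕ) (y : V) : V := (mul zeta2)^[m] y

theorem zm_succ (m : ℕ) (y : V) : zm (m + 1) y = mul zeta2 (zm m y) :=
  Function.iterate_succ_apply' _ _ _

theorem zm_zero (m : ℕ) : zm m 0 = 0 := by
  induction m with
  | zero => rfl
  | succ m ih => rw [zm_succ, ih, map_zero]

theorem Dl_zm (h1 : St_homInf) (h2 : St_zetaD) {c : V →ₗ[ℝ] ℝ} (hc : InfChar c) (l : List ℕ)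
    (hl : ∀ r ∈ l, Odd r) (m : ℕ) (y : V) : Dl c l (zm m y) = zm m (Dl c l y) := by
  induction m with
  | zero => rfl
  | succ m ih => rw [zm_succ, zm_succ, Dl_zeta h1 h2 hc l hl, ih]

theorem chi_zm {c χ : V →ₗ[ℝ] ℝ} (hs : Split c χ) (m : ℕ) (y : V) :
    χ (zm m y) = χ zeta2 ^ m * χ y := by
  induction m with
  | zero => rw [pow_zero, one_mul]; rfl
  | succ m ih => rw [zm_succ, hs.mul, ih, pow_succ]; ring

theorem zm_level (m : ℕ) (y : V) (hy : y ∈ levelOne) : zm m y ∈ levelOne := by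
  induction m with
  | zero => exact hy
  | succ m ih => rw [zm_succ]; exact zeta2_levelOne _ ih

theorem zm_lenEq (h : St_shLen) (m n : ℕ) (y : V) (hy : y ∈ lenEq n) :
    zm m y ∈ lenEq (n + 2 * m) := by
  induction m with
  | zero => exact hy
  | succ m ih =>
    rw [zm_succ]
    have h1 := zeta2_lenEq h _ _ ih
    have h2 : n + 2 * m + 2 = n + 2 * (m + 1) := by ring
    rw [h2] at h1
    exact h1

/-! ### cuts of length 1 of level one words -/

theorem Z_one (h1 : St_homInf) (h2 : St_cutK) (h3 : St_bd) (h4 : St_table) {c χ : V →ₗ[ℝ] ℝ}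
    (hs : Split c χ) (s : List Bool) (hv : valid .Z s = true) : Dr c 1 (E .Z s) = 0 := by
  have e : Dr c 1 (E .Z s) = D (hom 1 c) (E .Z s) := rfl
  rw [e, h2 (hom 1 c) (h1 c hs.inf 1) .Z s hv, cutSum]
  apply List.sum_eq_zero
  intro x hx
  obtain ⟨t, ht, rfl⟩ := List.mem_map.mp hx
  by_cases h5 : t.1 = 0
  · rw [h5]
    simp
  by_cases h6 : t.2.2.1.length = 1
  · obtain ⟨hk, hv2, -⟩ := h3 .Z s hv t ht h5 (by rw [h6]; decide)
    have h7 : t.2.1 = Kind.Z := by
      rw [cutsK] at ht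
      obtain ⟨u, -, rfl⟩ := List.mem_map.mp ht
      rfl
    obtain ⟨b, hb⟩ := List.length_eq_one_iff.mp h6
    have h8 : ori t.1 t.2.2.1 = [b] := by
      rw [hb, ori]
      split <;> rfl
    rw [h7, h8] at hv2
    have h9 : b = false := by
      cases b with
      | false => rfl
      | true => exact absurd hv2 (by decide)
    have h10 := h4 c χ hs .Z [false] (by decide) (by decide) (by decide) (by decide)
    have h11 : al .Z [false] = 0 := by decide +kernel
    rw [h11] at h10
    have h12 : hom 1 c (E .Z [false]) = 0 := by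
      rw [hom_eq 1 c _ (E_lenEq .Z [false]), h10]
      simp
    rw [h7, hb, h9, h12]
    simp
  · rw [hom_ne 1 c _ h6 _ (E_lenEq t.2.1 t.2.2.1)]
    simp

end Pool.MTV
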