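import Pool.Agent.MTV.FinB

/-!
# Final assembly: the words W3 0 (n - 1)
-/

set_option maxRecDepth 100000

open scoped TensorProduct

namespace Pool.MTV

/-- the word 3 2 ... 2 of weight 2 n + 1 -/
def w3 (n : ℕ) : List Bool := W3 0 (n - 1)

private theorem FinC_chk : ∀ n ∈ List.range 8, (w3 (n + 1)).length = 2 * (n + 1) + 1 ∧
    bd (w3 (n + 1)) = 1 ∧ valid .Z (w3 (n + 1)) = true := by decide

theorem w3_len (n : ℕ) (h1 : 1 ≤ n) (h2 : n ≤ 8) : (w3 n).length = 2 * n + 1 := by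
  have h := (FinC_chk (n - 1) (List.mem_range.mpr (by omega))).1
  have h3 : n - 1 + 1 = n := by omega
  rwa [h3] at h

theorem w3_bd (n : ℕ) (h1 : 1 ≤ n) (h2 : n ≤ 8) : bd (w3 n) = 1 := by
  have h := (FinC_chk (n - 1) (List.mem_range.mpr (by omega))).2.1
  have h3 : n - 1 + 1 = n := by omega
  rwa [h3] at h

theorem w3_valid (n : ℕ) (h1 : 1 ≤ n) (h2 : n ≤ 8) : valid .Z (w3 n) = true := by
  have h := (FinC_chk (n - 1) (List.mem_range.mpr (by omega))).2.2
  have h3 : n - 1 + 1 = n := by omega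
  rwa [h3] at h

private theorem FinC_sym : ∀ n ∈ List.range 7,
    symC .Z [] (cutRK (2 * (n + 1) + 1) .Z (w3 (n + 1))) ≠ 0 := by decide +kernel

private theorem FinC_sym8 : ∀ j ∈ List.range 8,
    symC .Z [] (cutRK (2 * j + 1) .Z (w3 8)) = Q3 .Z 8 0 j := by decide +kernel

private theorem FinC_Q8 : Q3 .Z 8 0 8 ≠ 0 := by decide +kernel

theorem w3_sym (n : ℕ) (h1 : 1 ≤ n) (h2 : n ≤ 7) : sym .Z [2 * n + 1] (w3 n) ≠ 0 := by
  rw [sym_cons]
  have h := FinC_sym (n - 1) (List.mem_range.mpr (by omega))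
  have h3 : n - 1 + 1 = n := by omega
  rwa [h3] at h

theorem w3_sym8 (j : ℕ) (hj : j < 8) : sym .Z [2 * j + 1] (w3 8) = Q3 .Z 8 0 j := by
  rw [sym_cons]
  exact FinC_sym8 j (List.mem_range.mpr hj)

/-! ### the full cut -/

theorem w3_le7 (hsym : St_sym) {c χ : V →ₗ[ℝ] ℝ} (hs : Split c χ) (n : ℕ) (h1 : 1 ≤ n)
    (h2 : n ≤ 7) : χ (Dl c [2 * n + 1] (E .Z (w3 n))) ≠ 0 := by
  have h := hsym c χ hs .Z [2 * n + 1] (w3 n) (w3_valid n h1 (by omega))
    (by simp) (by simp; omega) (by rw [w3_bd n h1 (by omega)]; rfl)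
  rw [h, w3_len n h1 (by omega)]
  have h3 : (0 : ℝ) < lam (2 * n + 1) := lam_pos _ (by omega)
  simp only [List.map_cons, List.map_nil, List.prod_cons, List.prod_nil, mul_one, List.sum_cons,
    List.sum_nil, add_zero, Nat.sub_self, pow_zero]
  have h4 : ((sym Kind.Z [2 * n + 1] (w3 n) : ℚ) : ℝ) ≠ 0 := by
    exact_mod_cast w3_sym n h1 h2
  exact mul_ne_zero h4 h3.ne'

theorem hom_even {c χ : V →ₗ[ℝ] ℝ} (hs : Split c χ) (r : ℕ) (hr : Even r) : hom r c = 0 := by
  apply Finsupp.lhom_ext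
  intro w b
  have h1 : (Finsupp.single w b : V) = b • wd w := by
    rw [wd, Finsupp.smul_single, smul_eq_mul, mul_one]
  rw [h1, map_smul, hom_wd, LinearMap.zero_apply]
  by_cases h : w.length = r
  · rw [if_pos h, hs.odd w (by rw [h]; exact hr), smul_zero]
  · rw [if_neg h, smul_zero]

theorem Dw_zero (b : SignType) (w : Word) : ∀ a : SignType, Dw 0 b a w = 0 := by
  induction w with
  | nil => intro a; rfl
  | cons x w ih =>
    intro a
    rw [Dw, ih, map_zero, add_zero, Pr]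
    apply Finset.sum_eq_zero
    intro i _
    rw [ev, ev, LinearMap.zero_apply, LinearMap.zero_apply, sub_zero, zero_smul]

theorem Dr_even {c χ : V →ₗ[ℝ] ℝ} (hs : Split c χ) (r : ℕ) (hr : Even r) (x : V) :
    Dr c r x = 0 := by
  rw [Dr, hom_even hs r hr, D, DL]
  induction x using Finsupp.induction_linear with
  | zero => rw [map_zero]
  | add x y hx hy => rw [map_add, hx, hy, add_zero]
  | single w b => rw [Finsupp.linearCombination_single, Dw_zero, smul_zero]

theorem lenLe_of (n m : ℕ) (h : n ≤ m) (x : V) (hx : x ∈ lenEq n) : x ∈ lenLe m := by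
  have h1 : ({w : Word | w.length = n} : Set Word) ⊆ {w : Word | w.length ≤ m} := by
    intro w hw
    have h2 : w.length = n := hw
    change w.length ≤ m
    omega
  exact Finsupp.supported_mono h1 hx

theorem D_sum_odd (hsum : St_Dsum) {c χ : V →ₗ[ℝ] ℝ} (x : V) (hx : x ∈ lenLe 17)
    (hz : ∀ r ∈ Finset.Icc 1 17, Odd r → Dr c r x = 0) (hs : Split c χ) : D c x = 0 := by
  rw [hsum c 17 x hx]
  apply Finset.sum_eq_zero
  intro r hr
  rcases Nat.even_or_odd r with h | h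
  · exact Dr_even hs r h x
  · exact hz r hr h

theorem w3_8 (hsym : St_sym) (hkill : St_kill) (hsum : St_Dsum) (hhom : St_Dhom)
    (hper : St_Per3) {c χ : V →ₗ[ℝ] ℝ} (hs : Split c χ) :
    χ (Dl c [17] (E .Z (w3 8))) ≠ 0 := by
  set x : V := E .Z (w3 8) with hxdef
  have hx17 : x ∈ lenEq 17 := by
    have h := E_lenEq .Z (w3 8)
    rwa [w3_len 8 (by norm_num) (by norm_num)] at h
  have hxle : x ∈ lenLe 17 := lenLe_of 17 17 le_rfl x hx17
  have hD : D c x = ∑ r ∈ Finset.Icc 1 17, Dr c r x := hsum c 17 x hxle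
  have hDD : D c (D c x) = 0 := by
    rw [hD, map_sum]
    apply Finset.sum_eq_zero
    intro r hr
    rcases Nat.even_or_odd r with h | h
    · rw [Dr_even hs r h x, map_zero]
    · have hr2 := Finset.mem_Icc.mp hr
      have h2 : Dr c r x ∈ lenEq (17 - r) := (hhom c 0 1 r 17 x hx17).1 hr2.2
      refine D_sum_odd hsum _ (lenLe_of _ 17 (by omega) _ h2) ?_ hs
      intro r' hr' h'
      have h3 := hkill c χ hs .Z [r, r'] (w3 8) (w3_valid 8 (by norm_num) (by norm_num))
        (by simp [h, h']) (by rw [w3_bd 8 (by norm_num) (by norm_num)]; simp)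
      exact h3
  have hpow : ∀ j : ℕ, ((D c) ^ (j + 2)) x = 0 := by
    intro j
    rw [pow_add, Module.End.mul_apply, pow_two, Module.End.mul_apply, hDD, map_zero]
  have hP : Per x = χ (D c x) := by
    rw [hs.exp 17 x hxle, Finset.sum_range_succ', Finset.sum_range_succ']
    have h1 : ∑ k ∈ Finset.range 16,
        1 / ((k + 1 + 1).factorial : ℝ) * χ (((D c) ^ (k + 1 + 1)) x) = 0 := by
      apply Finset.sum_eq_zero
      intro k _
      rw [hpow k, map_zero, mul_zero]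
    rw [h1]
    have h2 : χ x = 0 := chi_odd hs 17 (by decide) x hx17
    simp [h2]
  have hP3 := hper .Z 8 0 (by norm_num)
  have hx' : E .Z (W3 0 (8 - 1 - 0)) = x := rfl
  rw [hx', hP, hD, map_sum] at hP3
  have hodd : ∀ j < 8, χ (Dr c (2 * j + 1) x) =
      (Q3 .Z 8 0 j : ℝ) * lam (2 * j + 1) * Real.pi ^ (2 * (8 - j)) := by
    intro j hj
    have h := hsym c χ hs .Z [2 * j + 1] (w3 8) (w3_valid 8 (by norm_num) (by norm_num))
      (by simp) (by simp; omega) (by rw [w3_bd 8 (by norm_num) (by norm_num)]; rfl)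
    rw [w3_sym8 j hj, w3_len 8 (by norm_num) (by norm_num)] at h
    have h2 : Dl c [2 * j + 1] (E .Z (w3 8)) = Dr c (2 * j + 1) x := rfl
    rw [h2] at h
    rw [h]
    have h3 : 2 * 8 + 1 - [2 * j + 1].sum = 2 * (8 - j) := by
      simp only [List.sum_cons, List.sum_nil, add_zero]
      omega
    rw [h3]
    simp
  have heven : ∀ j : ℕ, χ (Dr c (2 * j + 2) x) = 0 := by
    intro j
    rw [Dr_even hs _ (by exact ⟨j + 1, by ring⟩) x, map_zero]
  have hsplit : ∑ r ∈ Finset.Icc 1 17, χ (Dr c r x) =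
      (∑ j ∈ Finset.range 8, χ (Dr c (2 * j + 1) x)) + χ (Dr c 17 x) := by
    have hI : Finset.Icc 1 17 = ({1, 2, 3, 4, 5, 6, 7, 8, 9, 10, 11, 12, 13, 14, 15, 16, 17} :
      Finset ℕ) := by decide
    have e0 := heven 0
    have e1 := heven 1
    have e2 := heven 2
    have e3 := heven 3
    have e4 := heven 4
    have e5 := heven 5
    have e6 := heven 6
    have e7 := heven 7
    norm_num at e0 e1 e2 e3 e4 e5 e6 e7
    rw [hI]
    simp only [Finset.sum_range_succ, Finset.sum_range_zero]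
    norm_num [e0, e1, e2, e3, e4, e5, e6, e7]
    ring
  rw [hsplit, Finset.sum_range_succ (n := 8)] at hP3
  have hcongr : ∑ j ∈ Finset.range 8, χ (Dr c (2 * j + 1) x) =
      ∑ j ∈ Finset.range 8, (Q3 .Z 8 0 j : ℝ) * lam (2 * j + 1) * Real.pi ^ (2 * (8 - j)) :=
    Finset.sum_congr rfl fun j hj => hodd j (Finset.mem_range.mp hj)
  rw [hcongr] at hP3
  have hfin : χ (Dr c 17 x) = (Q3 .Z 8 0 8 : ℝ) * lam 17 := by
    have h5 := add_left_cancel hP3
    rw [h5]
    norm_num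
  have e : Dl c [17] x = Dr c 17 x := rfl
  rw [e, hfin]
  have h4 : ((Q3 .Z 8 0 8 : ℚ) : ℝ) ≠ 0 := by exact_mod_cast FinC_Q8
  exact mul_ne_zero h4 (lam_pos 17 (by norm_num)).ne'

end Pool.MTV
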