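import Pool.Agent.MTV.FinC
import Pool.Agent.MTV.Cert

/-!
# Final assembly: the multiple t-value t(2,2,1,2,3,2,2,1,2) is unramified
-/

set_option maxRecDepth 100000

open scoped TensorProduct

namespace Pool.MTV

/-- Elements of weight 17 such that only single cuts of length at least 3 can be nonzero. -/
structure Good (c χ : V →ₗ[ℝ] ℝ) (x : V) : Prop where
  len : x ∈ lenEq 17
  cuts : ∀ l : List ℕ, (∀ r ∈ l, Odd r) → l.length ≠ 1 → χ (Dl c l x) = 0
  one : χ (Dl c [1] x) = 0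

theorem Good.sub {c χ : V →ₗ[ℝ] ℝ} {x y : V} (hx : Good c χ x) (hy : Good c χ y) :
    Good c χ (x - y) where
  len := Submodule.sub_mem _ hx.len hy.len
  cuts := fun l hl h => by rw [map_sub, map_sub, hx.cuts l hl h, hy.cuts l hl h, sub_zero]
  one := by rw [map_sub, map_sub, hx.one, hy.one, sub_zero]

theorem Good.smul {c χ : V →ₗ[ℝ] ℝ} {x : V} (hx : Good c χ x) (b : ℝ) : Good c χ (b • x) where
  len := Submodule.smul_mem _ b hx.len
  cuts := fun l hl h => by rw [map_smul, map_smul, hx.cuts l hl h, smul_zero]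
  one := by rw [map_smul, map_smul, hx.one, smul_zero]

/-! ### the level one elements -/

/-- zeta2 ^ (8 - n) times the word 3 2 ... 2 -/
noncomputable def yn (n : ℕ) : V := zm (8 - n) (E .Z (w3 n))

theorem yn_level (n : ℕ) : yn n ∈ levelOne := zm_level _ _ (EZ_levelOne _)

theorem yn_len (h : St_shLen) (n : ℕ) (h1 : 1 ≤ n) (h2 : n ≤ 8) : yn n ∈ lenEq 17 := by
  have h3 := E_lenEq .Z (w3 n)
  rw [w3_len n h1 h2] at h3
  have h4 := zm_lenEq h (8 - n) _ _ h3
  have h5 : 2 * n + 1 + 2 * (8 - n) = 17 := by omega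
  rwa [h5] at h4

theorem yn_good (hlen : St_shLen) (hhom : St_Dhom) (hinf : St_homInf) (hz : St_zetaD)
    (hcut : St_cutK) (hbd : St_bd) (htab : St_table) (hkill : St_kill)
    {c χ : V →ₗ[ℝ] ℝ} (hs : Split c χ) (n : ℕ) (h1 : 1 ≤ n) (h2 : n ≤ 8) :
    Good c χ (yn n) where
  len := yn_len hlen n h1 h2
  cuts := by
    intro l hl h
    by_cases h3 : l.length = 0
    · exact chi_par hhom hs 17 (by decide) _ (yn_len hlen n h1 h2) l hl (by rw [h3]; decide)
    · rw [yn, Dl_zm hinf hz hs.inf l hl,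
        hkill c χ hs .Z l (w3 n) (w3_valid n h1 h2) hl (by rw [w3_bd n h1 h2]; omega), zm_zero,
        map_zero]
  one := by
    rw [yn, Dl_zm hinf hz hs.inf [1] (by simp)]
    have h3 : Dl c [1] (E .Z (w3 n)) = Dr c 1 (E .Z (w3 n)) := rfl
    rw [h3, Z_one hinf hcut hbd htab hs _ (w3_valid n h1 h2), zm_zero, map_zero]

theorem yn_big (hhom : St_Dhom) (hinf : St_homInf) (hz : St_zetaD)
    {c χ : V →ₗ[ℝ] ℝ} (hs : Split c χ) (n : ℕ) (h1 : 1 ≤ n) (h2 : n ≤ 8) (s : ℕ) (ho : Odd s)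
    (h : 2 * n + 1 < s) : χ (Dl c [s] (yn n)) = 0 := by
  have h3 := E_lenEq .Z (w3 n)
  rw [w3_len n h1 h2] at h3
  rw [yn, Dl_zm hinf hz hs.inf [s] (by simpa using ho), (Dl_hom hhom c [s] _ _ h3).2 (by simpa using h),
    zm_zero, map_zero]

theorem yn_ne (hhom : St_Dhom) (hinf : St_homInf) (hz : St_zetaD) (hsum : St_Dsum)
    (hkill : St_kill) (hsym : St_sym) (hper : St_Per3) (hz2 : St_PerZeta2)
    {c χ : V →ₗ[ℝ] ℝ} (hs : Split c χ) (n : ℕ) (h1 : 1 ≤ n) (h2 : n ≤ 8) :
    χ (Dl c [2 * n + 1] (yn n)) ≠ 0 := by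
  rw [yn, Dl_zm hinf hz hs.inf [2 * n + 1] (by simp), chi_zm hs, hz.2 c χ hs]
  refine mul_ne_zero (pow_ne_zero _ hz2) ?_
  by_cases h3 : n ≤ 7
  · exact w3_le7 hsym hs n h1 h3
  · have h4 : n = 8 := by omega
    subst h4
    exact w3_8 hsym hkill hsum hhom hper hs

/-! ### descending induction -/

theorem good_unram (hlen : St_shLen) (hhom : St_Dhom) (hinf : St_homInf) (hz : St_zetaD)
    (hsum : St_Dsum) (hcut : St_cutK) (hbd : St_bd) (htab : St_table) (hkill : St_kill)
    (hsym : St_sym) (hper : St_Per3) (hz2 : St_PerZeta2) (hK : St_K)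
    {c χ : V →ₗ[ℝ] ℝ} (hs : Split c χ) (n : ℕ) (hn : n ≤ 8) :
    ∀ x : V, Good c χ x → (∀ s, Odd s → 2 * n + 1 < s → χ (Dl c [s] x) = 0) →
      ∃ z ∈ levelOne, x - z ∈ relations := by
  induction n with
  | zero =>
    intro x hx h
    refine ⟨0, Submodule.zero_mem _, ?_⟩
    rw [sub_zero]
    refine hK c χ hs 17 x hx.len ?_
    intro l hl
    by_cases h1 : l.length = 1
    · obtain ⟨s, rfl⟩ := List.length_eq_one_iff.mp h1
      have ho : Odd s := hl s (by simp)
      by_cases h2 : s = 1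
      · rw [h2]
        exact hx.one
      · refine h s ho ?_
        obtain ⟨m, rfl⟩ := ho
        omega
    · exact hx.cuts l hl h1
  | succ n ih =>
    intro x hx h
    have hy := yn_good hlen hhom hinf hz hcut hbd htab hkill hs (n + 1) (by omega) hn
    have hne := yn_ne hhom hinf hz hsum hkill hsym hper hz2 hs (n + 1) (by omega) hn
    set b : ℝ := χ (Dl c [2 * (n + 1) + 1] x) / χ (Dl c [2 * (n + 1) + 1] (yn (n + 1))) with hb
    obtain ⟨z, hz1, hz3⟩ := ih (by omega) (x - b • yn (n + 1)) (hx.sub (hy.smul b)) (by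
      intro s ho hs1
      rw [map_sub, map_sub, map_smul, map_smul]
      by_cases h2 : s = 2 * (n + 1) + 1
      · rw [h2, smul_eq_mul, hb, div_mul_cancel₀ _ hne, sub_self]
      · have h3 : 2 * (n + 1) + 1 < s := by
          obtain ⟨m, rfl⟩ := ho
          omega
        rw [h s ho h3, yn_big hhom hinf hz hs (n + 1) (by omega) hn s ho h3, smul_zero, sub_zero])
    refine ⟨z + b • yn (n + 1), Submodule.add_mem _ hz1
      (Submodule.smul_mem _ b (yn_level (n + 1))), ?_⟩
    have e : x - (z + b • yn (n + 1)) = x - b • yn (n + 1) - z := by abel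
    rw [e]
    exact hz3

/-! ### cuts of length one of the counterexample -/

theorem sum_filter {α : Type} (p : α → Bool) (F : α → V) (L : List α)
    (h : ∀ t ∈ L, p t = false → F t = 0) : (L.map F).sum = ((L.filter p).map F).sum := by
  induction L with
  | nil => rfl
  | cons t L ih =>
    rw [List.map_cons, List.sum_cons, ih (fun u hu => h u (by simp [hu]))]
    by_cases h1 : p t = true
    · rw [List.filter_cons_of_pos h1, List.map_cons, List.sum_cons]
    · have h2 : p t = false := by simpa using h1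
      rw [h t (by simp) h2, zero_add, List.filter_cons_of_neg h1]

/-- the words obtained by removing one letter of a double letter -/
def rT (k : List ℕ) : List Bool := skel k

private theorem FinD_list : (cutsK .X (skel kT)).filter
    (fun t => decide (t.2.2.1.length = 1 ∧ t.1 ≠ 0)) =
    [(1, Kind.Y, [true], skel [2, 2, 2, 3, 2, 2, 1, 2]),
     (-1, Kind.Y, [true], skel [2, 2, 2, 3, 2, 2, 1, 2]),
     (-1, Kind.Y, [false], skel [2, 2, 1, 2, 2, 2, 2, 1, 2]),
     (1, Kind.Y, [false], skel [2, 2, 1, 2, 2, 2, 2, 1, 2]),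
     (1, Kind.Y, [true], skel [2, 2, 1, 2, 3, 2, 2, 2]),
     (-1, Kind.Y, [true], skel [2, 2, 1, 2, 3, 2, 2, 2])] := by decide +kernel

theorem X_one (hinf : St_homInf) (hcut : St_cutK) {c χ : V →ₗ[ℝ] ℝ} (hs : Split c χ) :
    Dr c 1 (E .X (skel kT)) = 0 := by
  have e : Dr c 1 (E .X (skel kT)) = D (hom 1 c) (E .X (skel kT)) := rfl
  rw [e, hcut (hom 1 c) (hinf c hs.inf 1) .X (skel kT) (by decide), cutSum,
    sum_filter (fun t => decide (t.2.2.1.length = 1 ∧ t.1 ≠ 0)) _ _ ?_, FinD_list]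
  · simp only [List.map_cons, List.map_nil, List.sum_cons, List.sum_nil, Int.cast_one,
      Int.cast_neg]
    module
  · intro t _ ht
    have h1 : ¬ (t.2.2.1.length = 1 ∧ t.1 ≠ 0) := of_decide_eq_false ht
    by_cases h2 : t.1 = 0
    · rw [h2]
      simp
    · have h3 : t.2.2.1.length ≠ 1 := fun h => h1 ⟨h, h2⟩
      rw [hom_ne 1 c _ h3 _ (E_lenEq t.2.1 t.2.2.1)]
      simp

/-! ### the element x0 -/

/-- the combination of Hoffman words -/
noncomputable def zH : V :=
  (cert.map (fun t => ((t.2 : ℝ) / (certDen : ℝ)) • E .Z (skel t.1))).sum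

private theorem FinD_cert : ∀ t ∈ cert, valid .Z (skel t.1) = true ∧ bd (skel t.1) = 3 ∧
    (skel t.1).length = 17 := by decide

theorem zH_level : zH ∈ levelOne := by
  apply list_sum_mem
  intro x hx
  obtain ⟨t, -, rfl⟩ := List.mem_map.mp hx
  exact Submodule.smul_mem _ _ (EZ_levelOne _)

theorem zH_len : zH ∈ lenEq 17 := by
  apply list_sum_mem
  intro x hx
  obtain ⟨t, ht, rfl⟩ := List.mem_map.mp hx
  have h := E_lenEq .Z (skel t.1)
  rw [(FinD_cert t ht).2.2] at h
  exact Submodule.smul_mem _ _ h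

theorem map_zH (f : V →ₗ[ℝ] ℝ) :
    f zH = (cert.map (fun t => (t.2 : ℝ) / (certDen : ℝ) * f (E .Z (skel t.1)))).sum := by
  rw [zH, map_list_sum, List.map_map]
  congr 1
  apply List.map_congr_left
  intro t _
  simp

theorem lsum (D Q : ℝ) (g : List ℕ → ℚ) (h : List ℕ → ℝ) (L : List (List ℕ × ℤ))
    (hL : ∀ t ∈ L, h t.1 = (g t.1 : ℝ) * Q) :
    (L.map (fun t => (t.2 : ℝ) / D * h t.1)).sum =
      (((L.map (fun t => (t.2 : ℚ) * g t.1)).sum : ℚ) : ℝ) / D * Q := by
  induction L with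
  | nil => simp
  | cons t L ih =>
    rw [List.map_cons, List.sum_cons, List.map_cons, List.sum_cons, ih (fun u hu => hL u (by simp [hu])),
      hL t (by simp)]
    push_cast
    ring

theorem T_len : (skel kT).length = 17 := by decide
theorem T_bd : bd (skel kT) = 3 := by decide
theorem T_valid : valid .X (skel kT) = true := by decide

theorem x0_three (hhom : St_Dhom) (hsym : St_sym) {c χ : V →ₗ[ℝ] ℝ} (hs : Split c χ)
    (l : List ℕ) (hl : ∀ r ∈ l, Odd r) (h3 : l.length = 3) (hx : tm kT - zH ∈ lenEq 17) :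
    χ (Dl c l (tm kT - zH)) = 0 := by
  by_cases h4 : l.sum ≤ 17
  · obtain ⟨r1, r2, r3, rfl⟩ := List.length_eq_three.mp h3
    have o1 : Odd r1 := hl r1 (by simp)
    have o2 : Odd r2 := hl r2 (by simp)
    have o3 : Odd r3 := hl r3 (by simp)
    have h5 : r1 + r2 + r3 ≤ 17 := by
      simp only [List.sum_cons, List.sum_nil, add_zero] at h4
      omega
    have h15 : ∀ r ∈ [r1, r2, r3], r ≤ 15 := by
      obtain ⟨m1, rfl⟩ := o1
      obtain ⟨m2, rfl⟩ := o2
      obtain ⟨m3, rfl⟩ := o3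
      intro r hr
      simp only [List.mem_cons, List.not_mem_nil, or_false] at hr
      omega
    set l : List ℕ := [r1, r2, r3] with hldef
    set Q : ℝ := (l.map lam).prod * Real.pi ^ (17 - l.sum) with hQ
    have hX : χ (Dl c l (tm kT)) = (sym .X l (skel kT) : ℝ) * Q := by
      have h := hsym c χ hs .X l (skel kT) T_valid hl h15 (by rw [T_bd]; exact h3)
      rw [EX_skel, T_len] at h
      rw [h, hQ]
      ring
    have hZ : ∀ t ∈ cert, (χ ∘ₗ Dl c l) (E .Z (skel t.1)) = (sym .Z l (skel t.1) : ℝ) * Q := by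
      intro t ht
      obtain ⟨v1, v2, v3⟩ := FinD_cert t ht
      have h := hsym c χ hs .Z l (skel t.1) v1 hl h15 (by rw [v2]; exact h3)
      rw [v3] at h
      rw [LinearMap.comp_apply, h, hQ]
      ring
    have hz : χ (Dl c l zH) = (χ ∘ₗ Dl c l) zH := rfl
    rw [map_sub, map_sub, hX, hz, map_zH, lsum (certDen : ℝ) Q (fun w => sym .Z l (skel w))
      (fun w => (χ ∘ₗ Dl c l) (E .Z (skel w))) cert hZ]
    have hc := thm_cert r1 r2 r3 o1 o2 o3 h5
    rw [← hldef] at hc
    rw [← hc]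
    have hD : (certDen : ℝ) ≠ 0 := by
      have : certDen ≠ 0 := by decide
      exact_mod_cast this
    push_cast
    field_simp
    ring
  · rw [(Dl_hom hhom c l 17 _ hx).2 (by omega), map_zero]

theorem x0_kill (hkill : St_kill) {c χ : V →ₗ[ℝ] ℝ} (hs : Split c χ)
    (l : List ℕ) (hl : ∀ r ∈ l, Odd r) (h4 : 3 < l.length) :
    χ (Dl c l (tm kT - zH)) = 0 := by
  have hX : χ (Dl c l (tm kT)) = 0 := by
    rw [← EX_skel, hkill c χ hs .X l (skel kT) T_valid hl (by rw [T_bd]; exact h4), map_zero]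
  have hz : χ (Dl c l zH) = (χ ∘ₗ Dl c l) zH := rfl
  rw [map_sub, map_sub, hX, hz, map_zH, zero_sub, neg_eq_zero]
  apply List.sum_eq_zero
  intro x hx
  obtain ⟨t, ht, rfl⟩ := List.mem_map.mp hx
  obtain ⟨v1, v2, v3⟩ := FinD_cert t ht
  rw [LinearMap.comp_apply, hkill c χ hs .Z l (skel t.1) v1 hl (by rw [v2]; exact h4), map_zero,
    mul_zero]

theorem x0_one (hinf : St_homInf) (hcut : St_cutK) (hbd : St_bd) (htab : St_table)
    {c χ : V →ₗ[ℝ] ℝ} (hs : Split c χ) : χ (Dl c [1] (tm kT - zH)) = 0 := by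
  have hX : χ (Dl c [1] (tm kT)) = 0 := by
    have e : Dl c [1] (tm kT) = Dr c 1 (tm kT) := rfl
    rw [e, ← EX_skel, X_one hinf hcut hs, map_zero]
  have hz : χ (Dl c [1] zH) = (χ ∘ₗ Dl c [1]) zH := rfl
  rw [map_sub, map_sub, hX, hz, map_zH, zero_sub, neg_eq_zero]
  apply List.sum_eq_zero
  intro x hx
  obtain ⟨t, ht, rfl⟩ := List.mem_map.mp hx
  obtain ⟨v1, v2, v3⟩ := FinD_cert t ht
  have e : Dl c [1] (E .Z (skel t.1)) = Dr c 1 (E .Z (skel t.1)) := rfl
  rw [LinearMap.comp_apply, e, Z_one hinf hcut hbd htab hs _ v1, map_zero, mul_zero]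

theorem x0_good (hhom : St_Dhom) (hinf : St_homInf) (hcut : St_cutK) (hbd : St_bd)
    (htab : St_table) (hkill : St_kill) (hsym : St_sym)
    {c χ : V →ₗ[ℝ] ℝ} (hs : Split c χ) : Good c χ (tm kT - zH) := by
  have hlen : tm kT - zH ∈ lenEq 17 := by
    have h1 := E_lenEq .X (skel kT)
    rw [T_len, EX_skel] at h1
    exact Submodule.sub_mem _ h1 zH_len
  refine ⟨hlen, ?_, x0_one hinf hcut hbd htab hs⟩
  intro l hl h1
  rcases Nat.even_or_odd l.length with he | ho
  · exact chi_par hhom hs 17 (by decide) _ hlen l hl he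
  · by_cases h3 : l.length = 3
    · exact x0_three hhom hsym hs l hl h3 hlen
    · refine x0_kill hkill hs l hl ?_
      obtain ⟨m, hm⟩ := ho
      omega

/-- The multiple t-value t(2,2,1,2,3,2,2,1,2) is unramified. -/
theorem tm_unram (hlen : St_shLen) (hhom : St_Dhom) (hinf : St_homInf) (hz : St_zetaD)
    (hsum : St_Dsum) (hcut : St_cutK) (hbd : St_bd) (htab : St_table) (hkill : St_kill)
    (hsym : St_sym) (hper : St_Per3) (hz2 : St_PerZeta2) (hK : St_K)
    (hSplit : ∃ c χ : V →ₗ[ℝ] ℝ, Split c χ) :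
    Unramified (tm kT) := by
  obtain ⟨c, χ, hs⟩ := hSplit
  have hx := x0_good hhom hinf hcut hbd htab hkill hsym hs
  obtain ⟨z, hz1, hz3⟩ := good_unram hlen hhom hinf hz hsum hcut hbd htab hkill hsym hper hz2 hK
    hs 8 le_rfl (tm kT - zH) hx (by
      intro s ho h
      rw [(Dl_hom hhom c [s] 17 _ hx.len).2 (by simpa using h), map_zero])
  refine ⟨zH + z, Submodule.add_mem _ zH_level hz1, ?_⟩
  rw [← sub_sub]
  exact hz3

end Pool.MTV
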