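import Pool.Agent.MTV.FinA

/-!
# Final assembly: the relations are themselves graded, stable and in the kernel; log 2 is ramified
-/

set_option maxRecDepth 100000

open scoped TensorProduct

namespace Pool.MTV

theorem tens_mono {A A' B B' : Submodule ℝ V} (hA : A ≤ A') (hB : B ≤ B') :
    tens A B ≤ tens A' B' := by
  apply Submodule.span_mono
  rintro t ⟨a, ha, b, hb, rfl⟩
  exact ⟨a, hA ha, b, hB hb, rfl⟩

theorem le_relations {J : Submodule ℝ V} (hJ : IsRelations J) : J ≤ relations := le_sSup hJ

theorem part_add (n : ℕ) (x y : V) : part n (x + y) = part n x + part n y := Finsupp.filter_add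

/-- part n as a linear map -/
noncomputable def fPartL (n : ℕ) : V →ₗ[ℝ] V :=
  Finsupp.linearCombination ℝ (fun w : Word => if w.length = n then wd w else 0)

theorem fPartL_eq (n : ℕ) (x : V) : fPartL n x = part n x := by
  induction x using Finsupp.induction_linear with
  | zero => rw [map_zero]; exact (Finsupp.filter_zero _).symm
  | add x y hx hy => rw [map_add, hx, hy, part_add]
  | single w b =>
    rw [fPartL, Finsupp.linearCombination_single]
    by_cases h : w.length = n
    · have h1 := Finsupp.filter_single_of_pos (b := b) (fun w : Word => w.length = n) h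
      rw [if_pos h, part, h1, wd, Finsupp.smul_single, smul_eq_mul, mul_one]
    · have h1 := Finsupp.filter_single_of_neg (b := b) (fun w : Word => w.length = n) h
      rw [if_neg h, part, h1, smul_zero]

/-- The relations are the largest graded stable subspace of the kernel of the period map. -/
theorem isRelations_relations : IsRelations relations where
  graded := by
    intro x hx n
    have h : relations ≤ relations.comap (fPartL n) := by
      apply sSup_le
      intro J hJ y hy
      rw [Submodule.mem_comap, fPartL_eq]
      exact le_relations hJ (hJ.graded y hy n)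
    have h1 := h hx
    rw [Submodule.mem_comap, fPartL_eq] at h1
    exact h1
  period := by
    intro x hx
    have h : relations ≤ LinearMap.ker Per := by
      apply sSup_le
      intro J hJ y hy
      exact hJ.period y hy
    exact h hx
  stable := by
    intro x hx
    have h : relations ≤ (tens (relations ⊔ LinearMap.range (mul zeta2)) ⊤ ⊔
        tens ⊤ relations).comap coact := by
      apply sSup_le
      intro J hJ y hy
      exact sup_le_sup (tens_mono (sup_le_sup_right (le_relations hJ) _) le_rfl)
        (tens_mono le_rfl (le_relations hJ)) (hJ.stable y hy)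
    exact h hx

/-! ### log 2 is ramified -/

theorem Per_letters (h : St_Per1) : Per (wd [1]) = 0 ∧ Per (wd [-1]) = Real.log 2 := by
  have hY := h .Y 0 0 (by decide) le_rfl
  have hX := h .X 0 0 (by decide) le_rfl
  have qY : Q1 .Y 0 0 0 = 1 := by decide +kernel
  have qX : Q1 .X 0 0 0 = -1 := by decide +kernel
  have eY : E .Y (W1 0 (0 - 0)) = wd [1] + wd [-1] := by
    change pre 1 (wd []) + pre (-1) (wd []) = _
    rw [pre_wd, pre_wd]
  have eX : E .X (W1 0 (0 - 0)) = wd [1] - wd [-1] := by
    change pre 1 (wd []) - pre (-1) (wd []) = _
    rw [pre_wd, pre_wd]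
  have hl : lam 1 = Real.log 2 := by rw [lam, if_pos rfl]
  rw [eY, map_add] at hY
  rw [eX, map_sub] at hX
  simp only [zero_add, Finset.sum_range_one, mul_zero, qY, qX, hl, pow_zero, mul_one,
    Nat.sub_self, Rat.cast_one, Rat.cast_neg, one_mul, neg_mul] at hY hX
  constructor <;> linarith

theorem fPartL_wd (n : ℕ) (w : Word) : fPartL n (wd w) = if w.length = n then wd w else 0 := by
  rw [fPartL]
  conv_lhs => rw [wd]
  rw [Finsupp.linearCombination_single, one_smul]

theorem part_level (z : V) (hz : z ∈ levelOne) :
    part 1 z ∈ Submodule.span ℝ {wd [0], wd [1]} := by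
  rw [← fPartL_eq]
  induction hz using Submodule.span_induction with
  | mem y hy =>
    obtain ⟨w, hw, rfl⟩ := hy
    rw [fPartL_wd]
    by_cases h : w.length = 1
    · rw [if_pos h]
      obtain ⟨a, rfl⟩ := List.length_eq_one_iff.mp h
      have h1 : a ≠ -1 := hw a (by simp)
      apply Submodule.subset_span
      revert h1
      cases a
      · intro _; left; rfl
      · intro h1; exact absurd rfl h1
      · intro _; right; rfl
    · rw [if_neg h]
      exact Submodule.zero_mem _
  | zero => rw [map_zero]; exact Submodule.zero_mem _
  | add y z _ _ hy hz => rw [map_add]; exact Submodule.add_mem _ hy hz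
  | smul r y _ hy => rw [map_smul]; exact Submodule.smul_mem _ r hy

/-- The element log 2 of weight one is ramified. -/
theorem log_ramified (h : St_Per1) (h0 : St_PerZero) : ¬ Unramified (wd [-1]) := by
  rintro ⟨z, hz, hr⟩
  have h1 := isRelations_relations.period _ (isRelations_relations.graded _ hr 1)
  rw [← fPartL_eq, map_sub, map_sub, fPartL_eq, fPartL_eq] at h1
  have h2 : part 1 (wd [-1]) = wd [-1] := by
    rw [part, wd]
    exact Finsupp.filter_single_of_pos _ rfl
  rw [h2, (Per_letters h).2] at h1
  have h3 : Per (part 1 z) = 0 := by
    have h4 := part_level z hz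
    generalize part 1 z = y at h4
    induction h4 using Submodule.span_induction with
    | mem y hy =>
      rcases hy with rfl | hy
      · exact h0
      · rw [Set.mem_singleton_iff.mp hy]
        exact (Per_letters h).1
    | zero => rw [map_zero]
    | add y z _ _ hy hz => rw [map_add, hy, hz, add_zero]
    | smul r y _ hy => rw [map_smul, hy, smul_zero]
  rw [h3, sub_zero] at h1
  exact (Real.log_pos (by norm_num : (1 : ℝ) < 2)).ne' h1

end Pool.MTV
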