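import Pool.Agent.MTV.StP

/-!
# The integral of cot(u) R(u) over (0, pi/2)
-/

open Filter Topology MeasureTheory

namespace Pool.MTV

private lemma JI_ibp (n : ℕ) (hn : 0 < n) (R : Polynomial ℝ) :
    ∫ u in (0:ℝ)..(Real.pi/2), Real.sin (2 * n * u) * R.eval u =
      (R.eval 0 - (-1)^n * R.eval (Real.pi/2)) / (2*n) -
        (1/(2*(n:ℝ))^2) * ∫ u in (0:ℝ)..(Real.pi/2), Real.sin (2*n*u) *
          (Polynomial.derivative (Polynomial.derivative R)).eval u := by
  have hn' : (n:ℝ) ≠ 0 := by positivity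
  have h1 := intervalIntegral.integral_eq_sub_of_hasDerivAt (a := (0:ℝ)) (b := Real.pi/2)
    (f := fun u : ℝ => -Real.cos (2*n*u)/(2*n) * R.eval u + Real.sin (2*n*u)/(2*n)^2 *
        (Polynomial.derivative R).eval u)
    (f' := fun u : ℝ => Real.sin (2 * n * u) * R.eval u +
      (1/(2*(n:ℝ))^2) * (Real.sin (2*n*u) *
          (Polynomial.derivative (Polynomial.derivative R)).eval u)) ?_ ?_
  rotate_left
  · intro x _
    · have hlin : HasDerivAt (fun u : ℝ => 2*(n:ℝ)*u) (2*n) x := by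
        simpa using (hasDerivAt_id x).const_mul (2*(n:ℝ))
      have hc := (hlin.cos.neg.div_const (2*(n:ℝ))).mul (R.hasDerivAt x)
      have hs := (hlin.sin.div_const ((2*(n:ℝ))^2)).mul
        ((Polynomial.derivative R).hasDerivAt x)
      refine (hc.add hs).congr_deriv ?_
      simp only [Pi.neg_apply]
      field_simp
      ring
  · apply Continuous.intervalIntegrable
    fun_prop
  rw [intervalIntegral.integral_add, intervalIntegral.integral_const_mul] at h1
  · have hpi : Real.cos (2*(n:ℝ)*(Real.pi/2)) = (-1)^n := by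
      rw [show 2*(n:ℝ)*(Real.pi/2) = n * Real.pi by ring, Real.cos_nat_mul_pi]
    have hpi2 : Real.sin (2*(n:ℝ)*(Real.pi/2)) = 0 := by
      rw [show 2*(n:ℝ)*(Real.pi/2) = n * Real.pi by ring, Real.sin_nat_mul_pi]
    simp only [hpi, hpi2, mul_zero, Real.cos_zero, Real.sin_zero, zero_div, zero_mul, add_zero] at h1
    rw [eq_sub_of_add_eq h1]
    ring
  · apply Continuous.intervalIntegrable
    fun_prop
  · apply Continuous.intervalIntegrable
    fun_prop

private lemma JI_ibps (n : ℕ) (hn : 0 < n) (R : Polynomial ℝ) (k : ℕ) :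
    ∫ u in (0:ℝ)..(Real.pi/2), Real.sin (2 * n * u) * R.eval u =
      (∑ i ∈ Finset.range k, (-1:ℝ)^i * ((Polynomial.derivative^[2*i] R).eval 0 -
        (-1)^n * (Polynomial.derivative^[2*i] R).eval (Real.pi/2)) / (2*n)^(2*i+1)) +
      (-1)^k / (2*(n:ℝ))^(2*k) * ∫ u in (0:ℝ)..(Real.pi/2), Real.sin (2*n*u) *
          (Polynomial.derivative^[2*k] R).eval u := by
  have hn' : (n:ℝ) ≠ 0 := by positivity
  induction k with
  | zero => simp
  | succ k ih =>
    rw [ih, Finset.sum_range_succ, JI_ibp n hn (Polynomial.derivative^[2*k] R)]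
    rw [show 2*(k+1) = (2*k+1)+1 by ring, Function.iterate_succ_apply', Function.iterate_succ_apply']
    field_simp
    ring

private lemma JI_coef (n : ℕ) (hn : 0 < n) (R : Polynomial ℝ) :
    2 * ∫ u in (0:ℝ)..(Real.pi/2), Real.sin (2 * n * u) * R.eval u =
      ∑ i ∈ Finset.range (R.natDegree + 1), (-1:ℝ)^i / 4^i *
        ((Polynomial.derivative^[2*i] R).eval 0 * (1 / (n:ℝ)^(2*i+1)) +
         (Polynomial.derivative^[2*i] R).eval (Real.pi/2) * (-(-1)^n / (n:ℝ)^(2*i+1))) := by
  have hn' : (n:ℝ) ≠ 0 := by positivity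
  rw [JI_ibps n hn R (R.natDegree + 1)]
  have h0 : Polynomial.derivative^[2*(R.natDegree+1)] R = 0 :=
    Polynomial.iterate_derivative_eq_zero (by omega)
  rw [h0]
  simp only [Polynomial.eval_zero, mul_zero, intervalIntegral.integral_zero, add_zero]
  rw [Finset.mul_sum]
  refine Finset.sum_congr rfl fun i _ => ?_
  have h4 : (2*(n:ℝ))^(2*i+1) = 2 * 4^i * (n:ℝ)^(2*i+1) := by
    have h5 : (4:ℝ)^i = 2^(2*i) := by rw [pow_mul]; norm_num
    rw [h5, mul_pow, pow_succ (2:ℝ) (2*i)]; ring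
  rw [h4]
  field_simp
  ring

/-- Partial sums. -/
private noncomputable def JI_H (s N : ℕ) : ℝ := ∑ n ∈ Finset.range N, 1 / ((n:ℝ)+1)^s

private lemma JI_alt (s M : ℕ) :
    ∑ n ∈ Finset.range (2*M), (-(-1:ℝ)^(n+1) / ((n:ℝ)+1)^s) =
      JI_H s (2*M) - 2 / 2^s * JI_H s M := by
  induction M with
  | zero => simp [JI_H]
  | succ M ih =>
    rw [show 2*(M+1) = (2*M+1)+1 by ring, Finset.sum_range_succ, Finset.sum_range_succ, ih]
    unfold JI_H
    rw [Finset.sum_range_succ _ (2*M+1), Finset.sum_range_succ _ (2*M), Finset.sum_range_succ _ M]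
    have h1 : (-1:ℝ)^(2*M+1) = -1 := by rw [pow_succ, pow_mul]; norm_num
    have h2 : (-1:ℝ)^(2*M+1+1) = 1 := by rw [pow_succ, h1]; norm_num
    rw [h1, h2]
    have h3 : ((2*M+1 : ℕ):ℝ) + 1 = 2 * ((M:ℝ)+1) := by push_cast; ring
    have h4 : (0:ℝ) < (M:ℝ)+1 := by positivity
    rw [h3, mul_pow]
    field_simp
    ring

private lemma JI_Hlim (s : ℕ) (hs : 1 < s) : Tendsto (JI_H s) atTop (𝓝 (lam s)) := by
  have h1 : Summable (fun n : ℕ => 1 / ((n:ℝ)+1)^s) := by
    have := (Real.summable_one_div_nat_pow (p := s)).mpr hs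
    have h2 := (summable_nat_add_iff 1).mpr this
    simpa using h2
  have h2 := h1.hasSum.tendsto_sum_nat
  unfold lam
  rw [if_neg (by omega)]
  exact h2

private lemma JI_H1 (N : ℕ) : JI_H 1 N = (harmonic N : ℝ) := by
  unfold JI_H harmonic
  push_cast
  refine Finset.sum_congr rfl fun i _ => ?_
  simp

private lemma JI_alt1 : Tendsto (fun M => JI_H 1 (2*M) - JI_H 1 M) atTop (𝓝 (Real.log 2)) := by
  have h1 := Real.tendsto_harmonic_sub_log
  have h2 : Tendsto (fun M : ℕ => 2*M) atTop atTop :=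
    tendsto_id.const_mul_atTop' (by norm_num)
  have h3 := (h1.comp h2).sub h1
  have h4 := h3.add_const (Real.log 2)
  rw [sub_self, zero_add] at h4
  refine h4.congr' ?_
  filter_upwards [eventually_gt_atTop 0] with M hM
  simp only [Function.comp_apply, JI_H1]
  have : (M:ℝ) ≠ 0 := by positivity
  push_cast
  rw [Real.log_mul (by norm_num) this]
  ring

private lemma JI_kernel (N : ℕ) (u : ℝ) :
    (∑ n ∈ Finset.range N, 2 * Real.sin (2 * ((n+1:ℕ):ℝ) * u)) * Real.sin u =
      Real.cos u - Real.cos ((2*N+1)*u) := by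
  induction N with
  | zero => simp
  | succ N ih =>
    rw [Finset.sum_range_succ, add_mul, ih]
    have h1 : Real.cos ((2*(N:ℝ)+1)*u) = Real.cos (2*((N:ℝ)+1)*u - u) := by ring_nf
    have h2 : Real.cos ((2*((N+1:ℕ):ℝ)+1)*u) = Real.cos (2*((N:ℝ)+1)*u + u) := by
      push_cast; ring_nf
    rw [h1, h2, Real.cos_sub, Real.cos_add]
    push_cast
    ring

private lemma JI_RL (g : ℝ → ℝ) (hg : IntervalIntegrable g volume 0 (Real.pi/2)) :
    Tendsto (fun M : ℕ => ∫ u in (0:ℝ)..(Real.pi/2),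
      Real.cos ((2*((2*M:ℕ):ℝ)+1)*u) * g u) atTop (𝓝 0) := by
  have hpi : (0:ℝ) ≤ Real.pi/2 := by positivity
  set f : ℝ → ℂ := (Set.Ioc 0 (Real.pi/2)).indicator (fun u => (g u : ℂ)) with hf
  have hfi : Integrable f := by
    rw [hf, integrable_indicator_iff measurableSet_Ioc]
    exact ((intervalIntegrable_iff_integrableOn_Ioc_of_le hpi).mp hg).ofReal
  have hRL := Real.tendsto_integral_exp_smul_cocompact f
  have hw : Tendsto (fun M : ℕ => (2*((2*M:ℕ):ℝ)+1)/(2*Real.pi)) atTop (cocompact ℝ) := by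
    refine Tendsto.mono_right ?_ atTop_le_cocompact
    refine Tendsto.atTop_div_const (by positivity) ?_
    refine tendsto_atTop_add_const_right _ _ ?_
    refine Tendsto.const_mul_atTop (by norm_num) ?_
    refine tendsto_natCast_atTop_atTop.comp ?_
    exact tendsto_id.const_mul_atTop' (by norm_num)
  have h3 := (Complex.continuous_re.tendsto 0).comp (hRL.comp hw)
  simp only [Complex.zero_re] at h3
  refine h3.congr fun M => ?_
  simp only [Function.comp_apply]
  set w : ℝ := (2*((2*M:ℕ):ℝ)+1)/(2*Real.pi) with hwdef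
  have hint : Integrable (fun v : ℝ => Real.fourierChar (-(v*w)) • f v) := by
    have := (Real.fourierIntegral_convergent_iff w).2 hfi
    simpa [mul_comm] using this
  have hre : (∫ v : ℝ, Real.fourierChar (-(v*w)) • f v).re = ∫ v : ℝ, (Real.fourierChar (-(v*w)) • f v).re := by
    have := integral_re hint
    simpa using this.symm
  rw [hre, intervalIntegral.integral_of_le hpi, ← integral_indicator measurableSet_Ioc]
  refine integral_congr_ae (Eventually.of_forall fun v => ?_)
  simp only [hf]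
  by_cases hv : v ∈ Set.Ioc (0:ℝ) (Real.pi/2)
  · rw [Set.indicator_of_mem hv, Set.indicator_of_mem hv]
    rw [Circle.smul_def, Real.fourierChar_apply, smul_eq_mul, Complex.re_mul_ofReal]
    congr 1
    rw [show ((2 * Real.pi * (-(v*w)) : ℝ) : ℂ) * Complex.I = ((-((2*((2*M:ℕ):ℝ)+1)*v) : ℝ) : ℂ) * Complex.I from ?_]
    · rw [Complex.exp_ofReal_mul_I_re, Real.cos_neg]
    · congr 2
      rw [hwdef]
      have : Real.pi ≠ 0 := Real.pi_ne_zero
      field_simp
  · rw [Set.indicator_of_notMem hv, Set.indicator_of_notMem hv]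
    simp

/-- R(u) / sin u is integrable. -/
private lemma JI_int (R : Polynomial ℝ) (hR : R.eval 0 = 0) :
    IntervalIntegrable (fun u => R.eval u / Real.sin u) volume 0 (Real.pi/2) := by
  have hpi : (0:ℝ) ≤ Real.pi/2 := by positivity
  obtain ⟨Q, hQ⟩ : Polynomial.X ∣ R := by
    rw [Polynomial.X_dvd_iff, Polynomial.coeff_zero_eq_eval_zero, hR]
  obtain ⟨C, hC⟩ : ∃ C : ℝ, ∀ x ∈ Set.Icc (0:ℝ) (Real.pi/2), ‖Q.eval x‖ ≤ C :=
    isCompact_Icc.exists_bound_of_continuousOn Q.continuous.continuousOn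
  rw [intervalIntegrable_iff_integrableOn_Ioc_of_le hpi]
  refine Measure.integrableOn_of_bounded (M := C * (Real.pi/2)) (by simp) ?_ ?_
  · exact (R.continuous.measurable.div Real.measurable_sin).aestronglyMeasurable
  · rw [ae_restrict_iff' measurableSet_Ioc]
    refine Eventually.of_forall fun x hx => ?_
    have h1 : 2 / Real.pi * x ≤ Real.sin x := Real.mul_le_sin hx.1.le hx.2
    have hx0 := hx.1
    have h2 : 0 < Real.sin x := Real.sin_pos_of_pos_of_lt_pi hx0 (by linarith [hx.2, Real.pi_pos])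
    rw [hQ, Polynomial.eval_mul, Polynomial.eval_X, norm_div, norm_mul, Real.norm_of_nonneg hx0.le,
      Real.norm_of_nonneg h2.le, div_le_iff₀ h2]
    have h3 := hC x ⟨hx0.le, hx.2⟩
    have h4 : x ≤ Real.pi/2 * Real.sin x := by
      have := Real.pi_pos
      calc x = Real.pi/2 * (2/Real.pi * x) := by field_simp
        _ ≤ _ := by gcongr
    have h5 : 0 ≤ ‖Q.eval x‖ := norm_nonneg _
    calc x * ‖Q.eval x‖ ≤ (Real.pi/2 * Real.sin x) * C := by
          apply mul_le_mul h4 h3 h5; positivity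
      _ = _ := by ring

private lemma JI_main (R : Polynomial ℝ) (hR : R.eval 0 = 0) (N : ℕ) :
    Jc R = (∑ n ∈ Finset.range N, 2 * ∫ u in (0:ℝ)..(Real.pi/2),
        Real.sin (2 * ((n+1:ℕ):ℝ) * u) * R.eval u) +
      ∫ u in (0:ℝ)..(Real.pi/2), Real.cos ((2*(N:ℝ)+1)*u) * (R.eval u / Real.sin u) := by
  have hpi : (0:ℝ) ≤ Real.pi/2 := by positivity
  have hI := JI_int R hR
  have h1 : (∑ n ∈ Finset.range N, 2 * ∫ u in (0:ℝ)..(Real.pi/2),
        Real.sin (2 * ((n+1:ℕ):ℝ) * u) * R.eval u) =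
      ∫ u in (0:ℝ)..(Real.pi/2), ∑ n ∈ Finset.range N,
        2 * (Real.sin (2 * ((n+1:ℕ):ℝ) * u) * R.eval u) := by
    rw [intervalIntegral.integral_finsetSum]
    · refine Finset.sum_congr rfl fun n _ => ?_
      rw [intervalIntegral.integral_const_mul]
    · intro n _
      apply Continuous.intervalIntegrable
      fun_prop
  rw [h1, ← intervalIntegral.integral_add]
  · unfold Jc
    rw [intervalIntegral.integral_of_le hpi, intervalIntegral.integral_of_le hpi]
    refine setIntegral_congr_fun measurableSet_Ioc fun u hu => ?_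
    have h2 : 0 < Real.sin u :=
      Real.sin_pos_of_pos_of_lt_pi hu.1 (by linarith [hu.2, Real.pi_pos])
    have h3 := JI_kernel N u
    rw [Real.cot_eq_cos_div_sin]
    have h4 : ∑ n ∈ Finset.range N, 2 * (Real.sin (2 * ((n+1:ℕ):ℝ) * u) * R.eval u) =
        (∑ n ∈ Finset.range N, 2 * Real.sin (2 * ((n+1:ℕ):ℝ) * u)) * R.eval u := by
      rw [Finset.sum_mul]
      refine Finset.sum_congr rfl fun n _ => by ring
    rw [h4, show (∑ n ∈ Finset.range N, 2 * Real.sin (2 * ((n+1:ℕ):ℝ) * u)) =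
      (Real.cos u - Real.cos ((2*N+1)*u)) / Real.sin u from ?_]
    · field_simp
      ring
    · rw [eq_div_iff h2.ne']
      exact h3
  · apply Continuous.intervalIntegrable
    fun_prop
  · exact hI.continuousOn_mul (by fun_prop)

theorem thm_J : St_J := by
  intro R hR
  have h1 : ∀ M : ℕ, Jc R = (∑ i ∈ Finset.range (R.natDegree + 1), (-1:ℝ)^i / 4^i *
        ((Polynomial.derivative^[2*i] R).eval 0 * JI_H (2*i+1) (2*M) +
         (Polynomial.derivative^[2*i] R).eval (Real.pi/2) *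
          (JI_H (2*i+1) (2*M) - 2/2^(2*i+1) * JI_H (2*i+1) M))) +
      ∫ u in (0:ℝ)..(Real.pi/2), Real.cos ((2*((2*M:ℕ):ℝ)+1)*u) * (R.eval u / Real.sin u) := by
    intro M
    rw [JI_main R hR (2*M)]
    congr 1
    rw [Finset.sum_congr rfl (fun n _ => JI_coef (n+1) (Nat.succ_pos n) R), Finset.sum_comm]
    refine Finset.sum_congr rfl fun i _ => ?_
    rw [← Finset.mul_sum, Finset.sum_add_distrib, ← Finset.mul_sum, ← Finset.mul_sum, ← JI_alt]
    congr 3
    · unfold JI_H
      push_cast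
      rfl
    · push_cast
      rfl
  have hlim : Tendsto (fun M : ℕ => (∑ i ∈ Finset.range (R.natDegree + 1), (-1:ℝ)^i / 4^i *
        ((Polynomial.derivative^[2*i] R).eval 0 * JI_H (2*i+1) (2*M) +
         (Polynomial.derivative^[2*i] R).eval (Real.pi/2) *
          (JI_H (2*i+1) (2*M) - 2/2^(2*i+1) * JI_H (2*i+1) M))) +
      ∫ u in (0:ℝ)..(Real.pi/2), Real.cos ((2*((2*M:ℕ):ℝ)+1)*u) * (R.eval u / Real.sin u))
      atTop (𝓝 ((∑ i ∈ Finset.range (R.natDegree + 1), (-1:ℝ)^i / 4^i *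
        (if i = 0 then R.eval (Real.pi/2) * Real.log 2 else
        ((Polynomial.derivative^[2*i] R).eval 0 * lam (2*i+1) +
         (Polynomial.derivative^[2*i] R).eval (Real.pi/2) *
          (lam (2*i+1) - 2/2^(2*i+1) * lam (2*i+1))))) + 0)) := by
    refine Tendsto.add ?_ (JI_RL _ (JI_int R hR))
    refine tendsto_finsetSum _ fun i _ => ?_
    refine Tendsto.const_mul _ ?_
    have h2 : Tendsto (fun M : ℕ => 2*M) atTop atTop :=
      tendsto_id.const_mul_atTop' (by norm_num)
    by_cases hi : i = 0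
    · subst hi
      simp only [mul_zero, Function.iterate_zero, id_eq, hR, zero_mul, zero_add, pow_one, if_true]
      refine Tendsto.const_mul _ ?_
      simpa using JI_alt1
    · rw [if_neg hi]
      have h3 := JI_Hlim (2*i+1) (by omega)
      have h4 := h3.comp h2
      exact (h4.const_mul _).add ((h4.sub (h3.const_mul _)).const_mul _)
  have h5 : Jc R = _ := tendsto_nhds_unique (tendsto_const_nhds.congr h1) hlim
  rw [h5, add_zero, Finset.sum_range_succ']
  simp only [if_true, pow_zero, div_one, one_mul]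
  rw [add_comm]
  refine congrArg₂ (· + ·) (mul_comm _ _) ?_
  rw [Finset.range_eq_Ico, Finset.sum_Ico_add' (fun i => (-1:ℝ)^i / 4^i *
        (if i = 0 then R.eval (Real.pi/2) * Real.log 2 else
        ((Polynomial.derivative^[2*i] R).eval 0 * lam (2*i+1) +
         (Polynomial.derivative^[2*i] R).eval (Real.pi/2) *
          (lam (2*i+1) - 2/2^(2*i+1) * lam (2*i+1))))) 0 R.natDegree 1]
  have h6 : Finset.Ico (0+1) (R.natDegree+1) = Finset.Icc 1 R.natDegree := by
    ext x; simp [Finset.mem_Ico, Finset.mem_Icc]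
  rw [h6]
  refine Finset.sum_congr rfl fun i hi => ?_
  rw [if_neg (by have := (Finset.mem_Icc.mp hi).1; omega)]
  have h7 : (2:ℝ)/2^(2*i+1) = 1/4^i := by
    have h5 : (4:ℝ)^i = 2^(2*i) := by rw [pow_mul]; norm_num
    rw [h5, pow_succ]
    field_simp
  rw [h7]
  ring

end Pool.MTV
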