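import Pool.Agent.MTV.StP
import Pool.Agent.MTV.StA

/-!
# The period of the word 1 0 is not zero
-/

namespace Pool.MTV

theorem thm_PerZeta2 (h : St_PerAlt) : St_PerZeta2 := by
  have h1 := h Kind.Z 1
  have e : E Kind.Z (alt 1) = zeta2 := by
    simp [E, Zs, alt, zeta2]
  rw [e] at h1
  unfold St_PerZeta2
  rw [h1]
  simp [be, Real.pi_ne_zero]
  norm_num [Nat.factorial]

end Pool.MTV
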