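import Pool.Agent.MTV.StP2

/-!
# Periods as integrals
-/

open Filter Topology

namespace Pool.MTV

private theorem PerJ_pos : ∀ᶠ z : ℝ in 𝓝[<] (1 : ℝ), 0 < z :=
  (eventually_gt_nhds (by norm_num : (0 : ℝ) < 1)).filter_mono nhdsWithin_le_nhds

private theorem PerJ_lim (hs : St_series) (hp : St_PerLim) (k : Kind) (s : List Bool)
    (hk : k ≠ Kind.Z) (hne : s ≠ []) (hh : hdB s = true) (S : ℝ)
    (h : HasSum (fun n : ℕ => co k s.reverse n) S) : Per (E k s) = S := by
  have h1 : Tendsto (fun z : ℝ => ∑' n, co k s.reverse n * z ^ n) (𝓝[<] 1) (𝓝 S) :=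
    Real.tendsto_tsum_powerSeries_nhdsWithin_lt h.tendsto_sum_nat
  have h2 : ∀ᶠ z : ℝ in 𝓝[<] (1 : ℝ), (∑' n, co k s.reverse n * z ^ n) = LV z (E k s) := by
    filter_upwards [self_mem_nhdsWithin, PerJ_pos] with z hz1 hz0
    exact (hs k s hk hne hh z hz0 hz1).tsum_eq
  have h3 : Tendsto (fun z => LV z (E k s)) (𝓝[<] 1) (𝓝 S) := h1.congr' h2
  have h4 := hp (E k s) (Polynomial.C S) (by simpa using h3.sub_const S)
  simpa using h4

private theorem PerJ_alt (a : ℕ) (l : List Bool) (h : hdB l = true) : hdB (alt a ++ l) = true := by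
  cases a with
  | zero => simpa [alt] using h
  | succ a => simp [alt, hdB]

private theorem PerJ_e {k : Kind} (_hk : k ≠ Kind.Z) : eK k = 1 ∨ eK k = 2 := by
  cases k <;> simp [eK]

theorem thm_PerJ3 (hs : St_series) (hp : St_PerLim) (hc : St_co3) (h3 : St_sum3) : St_PerJ3 := by
  intro k a b hk
  exact PerJ_lim hs hp k (W3 a b) hk (by simp [W3]) (PerJ_alt a _ rfl) _
    (hc k a b _ hk (h3 a b (eK k) (PerJ_e hk)))

theorem thm_PerJ1 (hs : St_series) (hp : St_PerLim) (hc : St_co1) (h1 : St_sum1) : St_PerJ1 := by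
  intro k a b hk hb
  exact PerJ_lim hs hp k (W1 a b) hk (by simp [W1]) (PerJ_alt a _ rfl) _
    (hc k a b _ hk hb (h1 a b (eK k) (PerJ_e hk) hb))

theorem thm_PerJA (hs : St_series) (hp : St_PerLim) (hc : St_co0) (hA : St_Ainf) : St_PerJA := by
  intro k n hk
  cases n with
  | zero =>
    have h1 : E k (alt 0) = wd [] := by
      cases k <;> simp [alt, E, Zs, Ys, Xs]
    have h2 : ∀ z : ℝ, LV z (wd []) = 1 := by
      intro z
      simp [LV, wd, L, Lr]
    rw [h1]
    have h4 := hp (wd []) (Polynomial.C 1) (by simp [h2])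
    rw [h4]
    rcases PerJ_e hk with h | h <;> simp [Ainf, h]
  | succ m =>
    refine PerJ_lim hs hp k (alt (m + 1)) hk (by simp [alt]) (by simp [alt, hdB]) _ ?_
    have h1 := (hA m (eK k) (PerJ_e hk)).mul_left ((-2 : ℝ) ^ (m + 1))
    have h2 : (fun n : ℕ => co k (alt (m + 1)).reverse n) = fun n : ℕ => (-2 : ℝ) ^ (m + 1) *
        (if 0 < n ∧ n % 2 = eK k % 2 then An m n / (n : ℝ) ^ 2 else 0) := by
      funext n
      rw [(hc k m n hk).2]
      split_ifs
      · ring
      · ring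
    rw [h2]
    exact h1

/-- The sum of z^n/n. -/
private theorem PerJ_log {z : ℝ} (hz : |z| < 1) :
    HasSum (fun n : ℕ => z ^ n / (n : ℝ)) (-Real.log (1 - z)) := by
  have h := Real.hasSum_pow_div_log_of_abs_lt_one hz
  have h1 : HasSum (fun n : ℕ => z ^ (n + 1) / ((n + 1 : ℕ) : ℝ)) (-Real.log (1 - z)) := by
    simpa using h
  have h2 := (hasSum_nat_add_iff (f := fun n : ℕ => z ^ n / (n : ℝ)) 1).1 h1
  simpa using h2

private theorem PerJ_par {z : ℝ} (h0 : 0 < z) (h1 : z < 1) (k : Kind) (hk : k ≠ Kind.Z) :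
    HasSum (fun n : ℕ => if 0 < n ∧ n % 2 = eK k % 2 then z ^ n / (n : ℝ) else 0)
      ((if k = Kind.X then Real.log (1 + z) / 2 else -(Real.log (1 + z) / 2)) -
        Real.log (1 - z) / 2) := by
  have e1 := PerJ_log (z := z) (by rw [abs_of_pos h0]; exact h1)
  have e2 := PerJ_log (z := -z) (by rw [abs_neg, abs_of_pos h0]; exact h1)
  rw [sub_neg_eq_add] at e2
  cases k with
  | Z => exact absurd rfl hk
  | X =>
    have e3 := (e1.sub e2).mul_left (1 / 2)
    have e4 : (fun n : ℕ => if 0 < n ∧ n % 2 = eK Kind.X % 2 then z ^ n / (n : ℝ) else 0) =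
        fun n : ℕ => 1 / 2 * (z ^ n / (n : ℝ) - (-z) ^ n / (n : ℝ)) := by
      funext n
      rcases Nat.even_or_odd n with hn | hn
      · rw [hn.neg_pow, if_neg]
        · ring
        · rintro ⟨-, h⟩
          rw [Nat.even_iff.1 hn] at h
          simp [eK] at h
      · rw [hn.neg_pow, if_pos]
        · ring
        · exact ⟨hn.pos, by rw [Nat.odd_iff.1 hn]; simp [eK]⟩
    have e5 : (if Kind.X = Kind.X then Real.log (1 + z) / 2 else -(Real.log (1 + z) / 2)) -
        Real.log (1 - z) / 2 = 1 / 2 * (-Real.log (1 - z) - -Real.log (1 + z)) := by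
      rw [if_pos rfl]
      ring
    rw [e4, e5]
    exact e3
  | Y =>
    have e3 := (e1.add e2).mul_left (1 / 2)
    have e4 : (fun n : ℕ => if 0 < n ∧ n % 2 = eK Kind.Y % 2 then z ^ n / (n : ℝ) else 0) =
        fun n : ℕ => 1 / 2 * (z ^ n / (n : ℝ) + (-z) ^ n / (n : ℝ)) := by
      funext n
      rcases Nat.even_or_odd n with hn | hn
      · rw [hn.neg_pow]
        rcases Nat.eq_zero_or_pos n with h | h
        · subst h
          simp
        · rw [if_pos]
          · ring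
          · exact ⟨h, by rw [Nat.even_iff.1 hn]; simp [eK]⟩
      · rw [hn.neg_pow, if_neg]
        · ring
        · rintro ⟨-, h⟩
          rw [Nat.odd_iff.1 hn] at h
          simp [eK] at h
    have e5 : (if Kind.Y = Kind.X then Real.log (1 + z) / 2 else -(Real.log (1 + z) / 2)) -
        Real.log (1 - z) / 2 = 1 / 2 * (-Real.log (1 - z) + -Real.log (1 + z)) := by
      rw [if_neg (by decide)]
      ring
    rw [e4, e5]
    exact e3

theorem thm_PerJ0 (hs : St_series) (hp : St_PerLim) (hc : St_co0) (_hA : St_Ainf)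
    (h0 : St_sum0) : St_PerJ0 := by
  intro k a hk
  have hS := h0 a (eK k) (PerJ_e hk)
  set A := Ainf a (eK k) with hA
  set S := (kp (eK k))⁻¹ * Jc (Polynomial.C A * Rpq 0 (eK k - 1) - Rpq 0 (2 * a + eK k - 1))
    with hSd
  set σ : ℝ → ℝ := fun x => if k = Kind.X then x / 2 else -(x / 2) with hσ
  have hT : Tendsto (fun z : ℝ => ∑' n : ℕ, (if 0 < n ∧ n % 2 = eK k % 2 then
      (A - An a n) / (n : ℝ) else 0) * z ^ n) (𝓝[<] 1) (𝓝 S) :=
    Real.tendsto_tsum_powerSeries_nhdsWithin_lt hS.tendsto_sum_nat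
  have hσc : Continuous σ := by
    rw [hσ]
    split_ifs
    · exact continuous_id.div_const 2
    · exact (continuous_id.div_const 2).neg
  have hF : ∀ z : ℝ, 0 < z → z < 1 → LV z (E k (W1 a 0)) = (-2 : ℝ) ^ (a + 1) *
      (A * (σ (Real.log (1 + z)) - Real.log (1 - z) / 2) - ∑' n : ℕ, (if 0 < n ∧ n % 2 = eK k % 2
        then (A - An a n) / (n : ℝ) else 0) * z ^ n) := by
    intro z hz0 hz1
    have e1 := hs k (W1 a 0) hk (by simp [W1]) (PerJ_alt a _ rfl) z hz0 hz1
    have e2 := (PerJ_par hz0 hz1 k hk).mul_left A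
    have e3 := e1.div_const ((-2 : ℝ) ^ (a + 1))
    have e4 := e2.sub e3
    have hne : ((-2 : ℝ) ^ (a + 1)) ≠ 0 := pow_ne_zero _ (by norm_num)
    have e5 : (fun n : ℕ => (if 0 < n ∧ n % 2 = eK k % 2 then
        (A - An a n) / (n : ℝ) else 0) * z ^ n) = fun n : ℕ =>
        A * (if 0 < n ∧ n % 2 = eK k % 2 then z ^ n / (n : ℝ) else 0) -
          co k (W1 a 0).reverse n * z ^ n / (-2 : ℝ) ^ (a + 1) := by
      funext n
      rw [(hc k a n hk).1]
      split_ifs
      · field_simp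
      · simp
    rw [← e5] at e4
    rw [e4.tsum_eq]
    field_simp
    ring
  have hP : Tendsto (fun z => LV z (E k (W1 a 0)) - (Polynomial.C ((-2 : ℝ) ^ (a + 1)) *
      (Polynomial.C A * (Polynomial.C (σ (Real.log 2)) - Polynomial.C (1 / 2) * Polynomial.X) -
        Polynomial.C S)).eval (Real.log (1 - z))) (𝓝[<] 1) (𝓝 0) := by
    have g1 : Tendsto (fun z : ℝ => σ (Real.log (1 + z))) (𝓝[<] 1) (𝓝 (σ (Real.log 2))) := by
      have g2 : ContinuousAt (fun z : ℝ => σ (Real.log (1 + z))) 1 := by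
        apply hσc.continuousAt.comp
        apply ContinuousAt.log
        · fun_prop
        · norm_num
      have g3 := g2.tendsto
      norm_num at g3
      exact g3.mono_left nhdsWithin_le_nhds
    have g4 : Tendsto (fun z : ℝ => (-2 : ℝ) ^ (a + 1) * (A * (σ (Real.log (1 + z)) -
        σ (Real.log 2)) - ((∑' n : ℕ, (if 0 < n ∧ n % 2 = eK k % 2 then
        (A - An a n) / (n : ℝ) else 0) * z ^ n) - S))) (𝓝[<] 1)
        (𝓝 ((-2 : ℝ) ^ (a + 1) * (A * (σ (Real.log 2) - σ (Real.log 2)) - (S - S)))) :=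
      (((g1.sub_const _).const_mul A).sub (hT.sub_const S)).const_mul _
    have g5 : ((-2 : ℝ) ^ (a + 1) * (A * (σ (Real.log 2) - σ (Real.log 2)) - (S - S))) = 0 := by
      ring
    rw [g5] at g4
    refine g4.congr' ?_
    filter_upwards [self_mem_nhdsWithin, PerJ_pos] with z hz1 hz0
    rw [hF z hz0 hz1]
    simp only [Polynomial.eval_mul, Polynomial.eval_sub, Polynomial.eval_C, Polynomial.eval_X]
    ring
  have h4 := hp _ _ hP
  rw [h4, Polynomial.coeff_C_mul, Polynomial.coeff_sub, Polynomial.coeff_C_mul,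
    Polynomial.coeff_sub, Polynomial.coeff_C_mul, Polynomial.coeff_C_zero,
    Polynomial.coeff_C_zero, Polynomial.coeff_X_zero, mul_zero, sub_zero]

end Pool.MTV
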