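import Pool.Agent.MTV.StP2

/-!
# Closed forms of the periods
-/

open Filter Topology

namespace Pool.MTV

/-! ### the integral of cot u R(u) with a truncated sum -/

private theorem PerQ_J (hJ : St_J) (R : Polynomial ℝ) (h0 : R.eval 0 = 0) (M : ℕ)
    (hM : R.natDegree < 2 * (M + 1)) :
    Jc R = Real.log 2 * R.eval (Real.pi / 2) +
    ∑ i ∈ Finset.Icc 1 M, (-1 : ℝ) ^ i / 4 ^ i * lam (2 * i + 1) *
      ((Polynomial.derivative^[2 * i] R).eval 0 +
        (1 - 1 / 4 ^ i) * (Polynomial.derivative^[2 * i] R).eval (Real.pi / 2)) := by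
  rw [hJ R h0]
  congr 1
  have hz : ∀ i, R.natDegree < 2 * i → Polynomial.derivative^[2 * i] R = 0 := fun i hi =>
    Polynomial.iterate_derivative_eq_zero hi
  have e1 : ∀ N, ∀ T, N ≤ T → (∀ i, N < i → R.natDegree < 2 * i) →
      ∑ i ∈ Finset.Icc 1 N, (-1 : ℝ) ^ i / 4 ^ i * lam (2 * i + 1) *
      ((Polynomial.derivative^[2 * i] R).eval 0 +
        (1 - 1 / 4 ^ i) * (Polynomial.derivative^[2 * i] R).eval (Real.pi / 2)) =
      ∑ i ∈ Finset.Icc 1 T, (-1 : ℝ) ^ i / 4 ^ i * lam (2 * i + 1) *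
      ((Polynomial.derivative^[2 * i] R).eval 0 +
        (1 - 1 / 4 ^ i) * (Polynomial.derivative^[2 * i] R).eval (Real.pi / 2)) := by
    intro N T hNT hN
    refine Finset.sum_subset (Finset.Icc_subset_Icc le_rfl hNT) fun i hi hi' => ?_
    rw [Finset.mem_Icc] at hi hi'
    have h1 : N < i := by omega
    rw [hz i (hN i h1)]
    simp
  rw [e1 R.natDegree (max R.natDegree M) (le_max_left _ _) (fun i hi => by omega),
    e1 M (max R.natDegree M) (le_max_right _ _) (fun i hi => by omega)]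

/-! ### derivatives of Rpq -/

private theorem PerQ_coeff (c : ℝ) (q k : ℕ) :
    ((Polynomial.C c - Polynomial.X) ^ q).coeff k =
      if k ≤ q then (-1) ^ k * c ^ (q - k) * (q.choose k : ℝ) else 0 := by
  have h1 : (Polynomial.C c - Polynomial.X : Polynomial ℝ) =
      Polynomial.C (-1) * (Polynomial.X + Polynomial.C (-c)) := by
    rw [map_neg, map_one, map_neg]
    ring
  rw [h1, mul_pow, ← Polynomial.C_pow, Polynomial.coeff_C_mul, Polynomial.coeff_X_add_C_pow]
  split_ifs with h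
  · obtain ⟨m, rfl⟩ := Nat.exists_eq_add_of_le h
    rw [Nat.add_sub_cancel_left, neg_pow c m, pow_add]
    have h2 : ((-1 : ℝ) ^ m) * (-1) ^ m = 1 := by
      rw [← mul_pow]; norm_num
    calc (-1 : ℝ) ^ k * (-1) ^ m * ((-1) ^ m * c ^ m * ((k + m).choose k : ℝ))
        = (-1 : ℝ) ^ k * ((-1) ^ m * (-1) ^ m) * (c ^ m * ((k + m).choose k : ℝ)) := by ring
      _ = _ := by rw [h2]; ring
  · rw [Nat.choose_eq_zero_of_lt (by omega)]
    simp

private theorem PerQ_coeffR (p q m : ℕ) : (Rpq p q).coeff m =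
    if p ≤ m ∧ m ≤ p + q then (-1) ^ (m - p) * (Real.pi / 2) ^ (p + q - m) /
      ((p.factorial : ℝ) * ((m - p).factorial : ℝ) * ((p + q - m).factorial : ℝ)) else 0 := by
  have h1 : Rpq p q = Polynomial.C (1 / (p.factorial : ℝ) * (1 / (q.factorial : ℝ))) *
      ((Polynomial.C (Real.pi / 2) - Polynomial.X) ^ q * Polynomial.X ^ p) := by
    unfold Rpq
    rw [Polynomial.C_mul]
    ring
  rw [h1, Polynomial.coeff_C_mul, Polynomial.coeff_mul_X_pow']
  by_cases hp : p ≤ m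
  · rw [if_pos hp, PerQ_coeff]
    by_cases hq : m ≤ p + q
    · rw [if_pos (by omega), if_pos ⟨hp, hq⟩]
      obtain ⟨k, rfl⟩ := Nat.exists_eq_add_of_le hp
      obtain ⟨l, rfl⟩ : ∃ l, q = k + l := ⟨q - k, by omega⟩
      have e1 : p + k - p = k := by omega
      have e2 : k + l - k = l := by omega
      have e3 : p + (k + l) - (p + k) = l := by omega
      rw [e1, e2, e3, Nat.choose_symm_add, Nat.add_choose]
      have hd : k.factorial * l.factorial ∣ (k + l).factorial := Nat.factorial_mul_factorial_dvd_factorial_add k l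
      rw [Nat.cast_div hd (by positivity)]
      push_cast
      have f1 : ((k + l).factorial : ℝ) ≠ 0 := by positivity
      have f2 : (k.factorial : ℝ) ≠ 0 := by positivity
      have f3 : (l.factorial : ℝ) ≠ 0 := by positivity
      have f4 : (p.factorial : ℝ) ≠ 0 := by positivity
      field_simp
    · rw [if_neg (by omega), if_neg (by omega), mul_zero]
  · rw [if_neg hp, if_neg (by omega), mul_zero]

private theorem PerQ_deg (p q : ℕ) : (Rpq p q).natDegree ≤ p + q := by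
  rw [Polynomial.natDegree_le_iff_coeff_eq_zero]
  intro N hN
  rw [PerQ_coeffR, if_neg (by omega)]

/-- even derivatives at 0 -/
private theorem PerQ_d0 (p q i : ℕ) (hi : 2 * i ≤ p + q) :
    (Polynomial.derivative^[2 * i] (Rpq p q)).eval 0 =
      (-1) ^ p * ((2 * i).choose p : ℝ) * (Real.pi / 2) ^ (p + q - 2 * i) /
        ((p + q - 2 * i).factorial : ℝ) := by
  rw [← Polynomial.coeff_zero_eq_eval_zero, Polynomial.coeff_iterate_derivative, zero_add,
    Nat.descFactorial_self, PerQ_coeffR, nsmul_eq_mul]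
  by_cases hp : p ≤ 2 * i
  · rw [if_pos ⟨hp, hi⟩]
    have h1 : ((-1 : ℝ)) ^ (2 * i - p) = (-1) ^ p := by
      obtain ⟨k, hk⟩ := Nat.exists_eq_add_of_le hp
      rw [hk, Nat.add_sub_cancel_left]
      have h2 : ((-1 : ℝ) ^ (p + k)) = 1 := by rw [← hk, pow_mul]; norm_num
      rw [pow_add] at h2
      have h3 : ((-1 : ℝ) ^ p) * (-1) ^ p = 1 := by rw [← mul_pow]; norm_num
      calc ((-1 : ℝ)) ^ k = ((-1 : ℝ) ^ p * (-1) ^ p) * (-1) ^ k := by rw [h3, one_mul]
        _ = (-1 : ℝ) ^ p * ((-1 : ℝ) ^ p * (-1) ^ k) := by ring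
        _ = _ := by rw [h2, mul_one]
    rw [h1, Nat.choose_eq_factorial_div_factorial hp,
      Nat.cast_div (Nat.factorial_mul_factorial_dvd_factorial hp) (by positivity)]
    push_cast
    have f2 : ((2 * i - p).factorial : ℝ) ≠ 0 := by positivity
    have f3 : ((p + q - 2 * i).factorial : ℝ) ≠ 0 := by positivity
    have f4 : (p.factorial : ℝ) ≠ 0 := by positivity
    field_simp
  · rw [if_neg (by omega), Nat.choose_eq_zero_of_lt (by omega)]
    simp

private theorem PerQ_dcomp (P : Polynomial ℝ) (c : ℝ) (i : ℕ) :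
    Polynomial.derivative^[2 * i] (P.comp (Polynomial.C c - Polynomial.X)) =
      (Polynomial.derivative^[2 * i] P).comp (Polynomial.C c - Polynomial.X) := by
  have h1 : ∀ Q : Polynomial ℝ, Polynomial.derivative (Q.comp (Polynomial.C c - Polynomial.X)) =
      - (Polynomial.derivative Q).comp (Polynomial.C c - Polynomial.X) := by
    intro Q
    rw [Polynomial.derivative_comp]
    simp
  induction i with
  | zero => simp
  | succ i ih =>
    have e : 2 * (i + 1) = 2 * i + 1 + 1 := by ring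
    rw [e, Function.iterate_succ_apply', Function.iterate_succ_apply', ih, h1,
      Polynomial.derivative_neg, h1, neg_neg, Function.iterate_succ_apply',
      Function.iterate_succ_apply']

private theorem PerQ_comp (p q : ℕ) :
    (Rpq p q).comp (Polynomial.C (Real.pi / 2) - Polynomial.X) = Rpq q p := by
  unfold Rpq
  simp only [Polynomial.mul_comp, Polynomial.C_comp, Polynomial.pow_comp, Polynomial.X_comp,
    Polynomial.sub_comp, sub_sub_cancel]
  ring

private theorem PerQ_d1 (p q i : ℕ) (hi : 2 * i ≤ p + q) :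
    (Polynomial.derivative^[2 * i] (Rpq p q)).eval (Real.pi / 2) =
      (-1) ^ q * ((2 * i).choose q : ℝ) * (Real.pi / 2) ^ (p + q - 2 * i) /
        ((p + q - 2 * i).factorial : ℝ) := by
  have h1 := PerQ_dcomp (Rpq p q) (Real.pi / 2) i
  rw [PerQ_comp] at h1
  have h2 := PerQ_d0 q p i (by omega)
  rw [h1, Polynomial.eval_comp] at h2
  simp only [Polynomial.eval_sub, Polynomial.eval_C, Polynomial.eval_X, sub_zero] at h2
  rw [h2, add_comm q p]

private theorem PerQ_ev (p q : ℕ) (u : ℝ) : (Rpq p q).eval u =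
    u ^ p / (p.factorial : ℝ) * ((Real.pi / 2 - u) ^ q / (q.factorial : ℝ)) := by
  unfold Rpq
  simp only [Polynomial.eval_mul, Polynomial.eval_C, Polynomial.eval_pow, Polynomial.eval_X,
    Polynomial.eval_sub]
  ring

/-- one term of the sum -/
private noncomputable def PerQt (p q i : ℕ) : ℝ :=
  (-1 : ℝ) ^ i / 4 ^ i * lam (2 * i + 1) *
    (((-1) ^ p * ((2 * i).choose p : ℝ) + (1 - 1 / 4 ^ i) * ((-1) ^ q * ((2 * i).choose q : ℝ))) *
      ((Real.pi / 2) ^ (p + q - 2 * i) / ((p + q - 2 * i).factorial : ℝ)))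

private theorem PerQ_Jc (hJ : St_J) (p q M : ℕ) (hp : 0 < p) (hM : p + q = 2 * M ∨
    p + q = 2 * M + 1) : Jc (Rpq p q) = Real.log 2 * (Rpq p q).eval (Real.pi / 2) +
      ∑ i ∈ Finset.Icc 1 M, PerQt p q i := by
  rw [PerQ_J hJ (Rpq p q) (by rw [PerQ_ev, zero_pow (by omega)]; simp) M
    (lt_of_le_of_lt (PerQ_deg p q) (by omega))]
  congr 1
  refine Finset.sum_congr rfl fun i hi => ?_
  rw [Finset.mem_Icc] at hi
  rw [PerQ_d0 p q i (by omega), PerQ_d1 p q i (by omega)]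
  unfold PerQt
  ring

private theorem PerQ_sum (g : ℕ → ℝ) (n : ℕ) :
    ∑ j ∈ Finset.range (n + 1), g j = g 0 + ∑ i ∈ Finset.Icc 1 n, g i := by
  induction n with
  | zero => simp
  | succ n ih =>
    rw [Finset.sum_range_succ, ih, Finset.sum_Icc_succ_top (by omega), add_assoc]

private theorem PerQ_pi (m : ℕ) : (Real.pi / 2) ^ (2 * m) = Real.pi ^ (2 * m) / 4 ^ m := by
  rw [div_pow, pow_mul 2 2 m]
  norm_num

/-- the term for even total degree 2n -/
private theorem PerQ_even (p q n i : ℕ) (h : p + q = 2 * n) (hi : i ≤ n) :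
    PerQt p q i = (-1 : ℝ) ^ i / 4 ^ i * lam (2 * i + 1) *
      (((-1) ^ p * ((2 * i).choose p : ℝ) + (1 - 1 / 4 ^ i) * ((-1) ^ q * ((2 * i).choose q : ℝ))) *
      (Real.pi ^ (2 * (n - i)) / 4 ^ (n - i) / ((2 * n - 2 * i).factorial : ℝ))) := by
  unfold PerQt
  have e1 : p + q - 2 * i = 2 * (n - i) := by omega
  have e2 : 2 * n - 2 * i = 2 * (n - i) := by omega
  rw [e1, e2, PerQ_pi]

/-- the term for odd total degree 2n+1 -/
private theorem PerQ_odd (p q n i : ℕ) (h : p + q = 2 * n + 1) (hi : i ≤ n) :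
    (Real.pi / 2)⁻¹ * PerQt p q i = (-1 : ℝ) ^ i / 4 ^ i * lam (2 * i + 1) *
      (((-1) ^ p * ((2 * i).choose p : ℝ) + (1 - 1 / 4 ^ i) * ((-1) ^ q * ((2 * i).choose q : ℝ))) *
      (Real.pi ^ (2 * (n - i)) / 4 ^ (n - i) / ((2 * n + 1 - 2 * i).factorial : ℝ))) := by
  unfold PerQt
  have e1 : p + q - 2 * i = 2 * (n - i) + 1 := by omega
  have e2 : 2 * n + 1 - 2 * i = 2 * (n - i) + 1 := by omega
  rw [e1, e2, pow_succ, PerQ_pi]
  have h3 : (Real.pi / 2)⁻¹ * (Real.pi / 2) = 1 := inv_mul_cancel₀ (by positivity)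
  calc _ = ((Real.pi / 2)⁻¹ * (Real.pi / 2)) * ((-1 : ℝ) ^ i / 4 ^ i * lam (2 * i + 1) *
      (((-1) ^ p * ((2 * i).choose p : ℝ) + (1 - 1 / 4 ^ i) * ((-1) ^ q * ((2 * i).choose q : ℝ))) *
      (Real.pi ^ (2 * (n - i)) / 4 ^ (n - i) / ((2 * (n - i) + 1).factorial : ℝ)))) := by ring
    _ = _ := by rw [h3, one_mul]

/-! ### limits of the Y words -/

private theorem PerQ_lim (hs : St_series) (s : List Bool) (hne : s ≠ []) (hh : hdB s = true)
    (S : ℝ) (h : HasSum (fun n : ℕ => co Kind.Y s.reverse n) S) :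
    Tendsto (fun z => LV z (E Kind.Y s)) (𝓝[<] 1) (𝓝 S) := by
  have h1 : Tendsto (fun z : ℝ => ∑' n, co Kind.Y s.reverse n * z ^ n) (𝓝[<] 1) (𝓝 S) :=
    Real.tendsto_tsum_powerSeries_nhdsWithin_lt h.tendsto_sum_nat
  refine h1.congr' ?_
  have h0 : ∀ᶠ z : ℝ in 𝓝[<] (1 : ℝ), 0 < z :=
    (eventually_gt_nhds (by norm_num : (0 : ℝ) < 1)).filter_mono nhdsWithin_le_nhds
  filter_upwards [self_mem_nhdsWithin, h0] with z hz1 hz0
  exact (hs Kind.Y s (by decide) hne hh z hz0 hz1).tsum_eq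

private theorem PerQ_hdalt (a : ℕ) (l : List Bool) (h : hdB l = true) : hdB (alt a ++ l) = true := by
  cases a with
  | zero => simpa [alt] using h
  | succ a => simp [alt, hdB]

private theorem PerQ_countAlt (a : ℕ) : (alt a).count false = a := by
  induction a with
  | zero => simp [alt]
  | succ a ih => simp [alt, ih]

/-! ### the words W3 -/

private theorem PerQ_X3 (hJ : St_J) (h3 : St_PerJ3) (a b : ℕ) :
    Per (E Kind.X (W3 a b)) = ∑ j ∈ Finset.range (a + b + 1 + 1),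
      (Q3 Kind.X (a + b + 1) a j : ℝ) * lam (2 * j + 1) * Real.pi ^ (2 * (a + b + 1 - j)) := by
  have h := h3 Kind.X a b (by decide)
  have e1 : eK Kind.X = 1 := rfl
  rw [e1, PerQ_Jc hJ (2 * a + 1) (2 * b + 1) (a + b + 1) (by omega) (by omega), PerQ_ev,
    sub_self, zero_pow (by omega)] at h
  rw [h, PerQ_sum]
  have e2 : kp 1 = 1 := by unfold kp; simp
  have e3 : (Q3 Kind.X (a + b + 1) a 0 : ℝ) = 0 := by unfold Q3; simp
  rw [e2, e3]
  simp only [zero_div, mul_zero, zero_mul, zero_add, inv_one, one_mul]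
  rw [Finset.mul_sum]
  refine Finset.sum_congr rfl fun i hi => ?_
  rw [Finset.mem_Icc] at hi
  rw [PerQ_even _ _ (a + b + 1) i (by ring) hi.2]
  have e4 : a + b + 1 - 1 - a = b := by omega
  have e5 : ((-1 : ℝ) ^ (2 * a + 1)) = -1 := by rw [pow_succ, pow_mul]; norm_num
  have e6 : ((-1 : ℝ) ^ (2 * b + 1)) = -1 := by rw [pow_succ, pow_mul]; norm_num
  unfold Q3
  rw [if_neg (by omega), e4, e5, e6]
  push_cast
  have f1 : ((2 * (a + b + 1) - 2 * i).factorial : ℝ) ≠ 0 := by positivity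
  rw [pow_succ (-1 : ℝ) i]
  field_simp
  ring

private theorem PerQ_Y3 (hJ : St_J) (h3 : St_PerJ3) (a b : ℕ) :
    Per (E Kind.Y (W3 a b)) = ∑ j ∈ Finset.range (a + b + 1 + 1),
      (Q3 Kind.Y (a + b + 1) a j : ℝ) * lam (2 * j + 1) * Real.pi ^ (2 * (a + b + 1 - j)) := by
  have h := h3 Kind.Y a b (by decide)
  have e1 : eK Kind.Y = 2 := rfl
  rw [e1, PerQ_Jc hJ (2 * a + 2) (2 * b + 1) (a + b + 1) (by omega) (by omega), PerQ_ev,
    sub_self, zero_pow (by omega)] at h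
  rw [h, PerQ_sum]
  have e2 : kp 2 = Real.pi / 2 := by unfold kp; simp
  have e3 : (Q3 Kind.Y (a + b + 1) a 0 : ℝ) = 0 := by unfold Q3; simp
  rw [e2, e3]
  simp only [zero_div, mul_zero, zero_mul, zero_add]
  rw [Finset.mul_sum, Finset.mul_sum]
  refine Finset.sum_congr rfl fun i hi => ?_
  rw [Finset.mem_Icc] at hi
  rw [PerQ_odd _ _ (a + b + 1) i (by ring) hi.2]
  have e4 : a + b + 1 - 1 - a = b := by omega
  have e5 : ((-1 : ℝ) ^ (2 * a + 2)) = 1 := by
    rw [show 2 * a + 2 = 2 * (a + 1) by ring, pow_mul]; norm_num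
  have e6 : ((-1 : ℝ) ^ (2 * b + 1)) = -1 := by rw [pow_succ, pow_mul]; norm_num
  unfold Q3
  rw [if_neg (by omega), e4, e5, e6]
  push_cast
  have f1 : ((2 * (a + b + 1) + 1 - 2 * i).factorial : ℝ) ≠ 0 := by positivity
  field_simp
  ring

theorem thm_Per3 (hJ : St_J) (h3 : St_PerJ3) (hs : St_series) (hc : St_co3) (hsum : St_sum3)
    (hz : St_PerZY) : St_Per3 := by
  intro k n a ha
  obtain ⟨b, rfl⟩ : ∃ b, n = a + b + 1 := ⟨n - 1 - a, by omega⟩
  have e4 : a + b + 1 - 1 - a = b := by omega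
  rw [e4]
  cases k with
  | X => exact PerQ_X3 hJ h3 a b
  | Y => exact PerQ_Y3 hJ h3 a b
  | Z =>
    have hl := PerQ_lim hs (W3 a b) (by simp [W3]) (PerQ_hdalt a _ rfl) _
      (hc Kind.Y a b _ (by decide) (hsum a b 2 (Or.inr rfl)))
    obtain ⟨h1, h2⟩ := hz (W3 a b) _ hl
    rw [← h1, PerQ_Y3 hJ h3 a b] at h2
    have hcnt : (W3 a b).count false = a + b + 1 + 1 := by
      unfold W3
      simp [PerQ_countAlt]
      omega
    rw [h2, hcnt, Finset.mul_sum]
    refine Finset.sum_congr rfl fun j _ => ?_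
    have e7 : (Q3 Kind.Z (a + b + 1) a j : ℝ) =
        2 ^ (a + b + 1 + 1) * (Q3 Kind.Y (a + b + 1) a j : ℝ) := by
      unfold Q3
      split_ifs
      · simp
      · push_cast
        ring
    rw [e7]
    ring

/-! ### the alternating words -/

theorem thm_PerAlt (hA : St_PerJA) (hs : St_series) (hc : St_co0) (hAi : St_Ainf)
    (hz : St_PerZY) : St_PerAlt := by
  have hX : ∀ n, Per (E Kind.X (alt n)) = (be Kind.X n : ℝ) * Real.pi ^ (2 * n) := by
    intro n
    rw [hA Kind.X n (by decide)]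
    have e1 : eK Kind.X = 1 := rfl
    rw [e1]
    unfold Ainf be
    rw [PerQ_pi]
    push_cast
    rw [neg_pow (2 : ℝ) n, show (4 : ℝ) ^ n = 2 ^ n * 2 ^ n by rw [← mul_pow]; norm_num]
    field_simp
  have hY : ∀ n, Per (E Kind.Y (alt n)) = (be Kind.Y n : ℝ) * Real.pi ^ (2 * n) := by
    intro n
    rw [hA Kind.Y n (by decide)]
    have e1 : eK Kind.Y = 2 := rfl
    rw [e1]
    unfold Ainf be
    rw [PerQ_pi]
    push_cast
    have e2 : 2 * n + 2 - 1 = 2 * n + 1 := by omega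
    rw [neg_pow (2 : ℝ) n, show (4 : ℝ) ^ n = 2 ^ n * 2 ^ n by rw [← mul_pow]; norm_num]
    field_simp
  intro k n
  cases k with
  | X => exact hX n
  | Y => exact hY n
  | Z =>
    have hl : ∃ A, Tendsto (fun z => LV z (E Kind.Y (alt n))) (𝓝[<] 1) (𝓝 A) := by
      cases n with
      | zero =>
        refine ⟨1, ?_⟩
        have h2 : ∀ z : ℝ, LV z (E Kind.Y (alt 0)) = 1 := by
          intro z
          simp [LV, E, Ys, alt, wd, L, Lr]
        simp only [h2]
        exact tendsto_const_nhds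
      | succ m =>
        refine ⟨_, PerQ_lim hs (alt (m + 1)) (by simp [alt]) (by simp [alt, hdB])
          ((-2 : ℝ) ^ (m + 1) * Ainf (m + 1) 2) ?_⟩
        have h1 := (hAi m 2 (Or.inr rfl)).mul_left ((-2 : ℝ) ^ (m + 1))
        have h2 : (fun n : ℕ => co Kind.Y (alt (m + 1)).reverse n) = fun n : ℕ =>
            (-2 : ℝ) ^ (m + 1) *
            (if 0 < n ∧ n % 2 = 2 % 2 then An m n / (n : ℝ) ^ 2 else 0) := by
          funext n
          rw [(hc Kind.Y m n (by decide)).2]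
          have e1 : eK Kind.Y = 2 := rfl
          rw [e1]
          split_ifs
          · ring
          · ring
        rw [h2]
        exact h1
    obtain ⟨A, hl⟩ := hl
    obtain ⟨h1, h2⟩ := hz (alt n) A hl
    rw [← h1, hY n, PerQ_countAlt] at h2
    rw [h2]
    unfold be
    push_cast
    field_simp

/-! ### the words W1 -/

private theorem PerQ_lam1 : lam 1 = Real.log 2 := by unfold lam; simp

private theorem PerQ_Q1X (n a j : ℕ) (hj : j ≠ 0) : Q1 Kind.X n a j =
    (-2) ^ (n + 1) * (-1) ^ j / 4 ^ j *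
        ((2 * j).choose (2 * (n - a)) + (1 - 1 / 4 ^ j) * (2 * j).choose (2 * a)) /
        (4 ^ (n - j) * (2 * n - 2 * j).factorial) := by
  simp only [Q1]
  rw [if_neg hj]

private theorem PerQ_Q1Y (n a j : ℕ) (hj : j ≠ 0) : Q1 Kind.Y n a j =
    (-2) ^ (n + 1) * (-1) ^ j / 4 ^ j *
        ((2 * j).choose (2 * (n - a)) - (1 - 1 / 4 ^ j) * (2 * j).choose (2 * a + 1)) /
        (4 ^ (n - j) * (2 * n + 1 - 2 * j).factorial) := by
  simp only [Q1]
  rw [if_neg hj]

private theorem PerQ_Q1Y0 (n a : ℕ) : Q1 Kind.Y n a 0 =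
    (-2) ^ (n + 1) * (if n = a then -1 / 2 else 0) / (4 ^ n * (2 * n + 1).factorial) := by
  simp only [Q1]
  rw [if_pos trivial]

private theorem PerQ_X1 (hJ : St_J) (h1 : St_PerJ1) (a b : ℕ) (hb : 0 < b) :
    Per (E Kind.X (W1 a b)) = ∑ j ∈ Finset.range (a + b + 1),
      (Q1 Kind.X (a + b) a j : ℝ) * lam (2 * j + 1) * Real.pi ^ (2 * (a + b - j)) := by
  have h := h1 Kind.X a b (by decide) hb
  have e1 : eK Kind.X = 1 := rfl
  have e0 : 2 * a + 1 - 1 = 2 * a := by omega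
  rw [e1, e0, PerQ_Jc hJ (2 * b) (2 * a) (a + b) (by omega) (by omega), PerQ_ev, sub_self] at h
  rw [h, PerQ_sum]
  have e2 : kp 1 = 1 := by unfold kp; simp
  rw [e2, inv_one, one_mul, mul_add]
  congr 1
  · unfold Q1
    rw [if_pos rfl, if_neg (by omega), mul_zero, zero_add, PerQ_lam1, Nat.sub_zero]
    rcases Nat.eq_zero_or_pos a with h0 | h0
    · subst h0
      rw [if_pos rfl, zero_add, PerQ_pi]
      push_cast
      simp only [mul_zero, pow_zero, Nat.factorial_zero, Nat.cast_one, div_one, mul_one]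
      ring
    · rw [if_neg (by omega), zero_pow (by omega)]
      push_cast
      ring
  · rw [Finset.mul_sum]
    refine Finset.sum_congr rfl fun i hi => ?_
    rw [Finset.mem_Icc] at hi
    rw [PerQ_even _ _ (a + b) i (by ring) hi.2]
    have e4 : a + b - a = b := by omega
    have e5 : ((-1 : ℝ) ^ (2 * a)) = 1 := by rw [pow_mul]; norm_num
    have e6 : ((-1 : ℝ) ^ (2 * b)) = 1 := by rw [pow_mul]; norm_num
    rw [PerQ_Q1X _ _ _ (by omega), e4, e5, e6]
    push_cast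
    have f1 : ((2 * (a + b) - 2 * i).factorial : ℝ) ≠ 0 := by positivity
    field_simp

private theorem PerQ_Y1 (hJ : St_J) (h1 : St_PerJ1) (a b : ℕ) (hb : 0 < b) :
    Per (E Kind.Y (W1 a b)) = ∑ j ∈ Finset.range (a + b + 1),
      (Q1 Kind.Y (a + b) a j : ℝ) * lam (2 * j + 1) * Real.pi ^ (2 * (a + b - j)) := by
  have h := h1 Kind.Y a b (by decide) hb
  have e1 : eK Kind.Y = 2 := rfl
  have e0 : 2 * a + 2 - 1 = 2 * a + 1 := by omega
  rw [e1, e0, PerQ_Jc hJ (2 * b) (2 * a + 1) (a + b) (by omega) (by omega), PerQ_ev, sub_self,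
    zero_pow (by omega : 2 * a + 1 ≠ 0)] at h
  rw [h, PerQ_sum]
  have e2 : kp 2 = Real.pi / 2 := by unfold kp; simp
  have e3 : (Q1 Kind.Y (a + b) a 0 : ℝ) = 0 := by
    rw [PerQ_Q1Y0, if_neg (by omega)]
    simp
  rw [e2, e3]
  simp only [zero_div, mul_zero, zero_mul, zero_add]
  rw [Finset.mul_sum, Finset.mul_sum]
  refine Finset.sum_congr rfl fun i hi => ?_
  rw [Finset.mem_Icc] at hi
  rw [PerQ_odd _ _ (a + b) i (by ring) hi.2]
  have e4 : a + b - a = b := by omega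
  have e5 : ((-1 : ℝ) ^ (2 * a + 1)) = -1 := by rw [pow_succ, pow_mul]; norm_num
  have e6 : ((-1 : ℝ) ^ (2 * b)) = 1 := by rw [pow_mul]; norm_num
  rw [PerQ_Q1Y _ _ _ (by omega), e4, e5, e6]
  push_cast
  have f1 : ((2 * (a + b) + 1 - 2 * i).factorial : ℝ) ≠ 0 := by positivity
  field_simp
  ring

/-- the divergent case -/
private theorem PerQ_Jc0 (hJ : St_J) (a e : ℕ) (he : e = 1 ∨ e = 2) :
    Jc (Polynomial.C (Ainf a e) * Rpq 0 (e - 1) - Rpq 0 (2 * a + e - 1)) =
      Real.log 2 * (if e = 1 then (Ainf a 1 - (if a = 0 then 1 else 0)) else 0) -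
        ∑ i ∈ Finset.Icc 1 a, PerQt 0 (2 * a + e - 1) i := by
  have hdeg : (Polynomial.C (Ainf a e) * Rpq 0 (e - 1) - Rpq 0 (2 * a + e - 1)).natDegree <
      2 * (a + 1) := by
    refine lt_of_le_of_lt (Polynomial.natDegree_sub_le _ _) ?_
    have h1 := (Polynomial.natDegree_C_mul_le (Ainf a e) (Rpq 0 (e - 1))).trans
      (PerQ_deg 0 (e - 1))
    have h2 := PerQ_deg 0 (2 * a + e - 1)
    rw [max_lt_iff]
    omega
  have h0 : (Polynomial.C (Ainf a e) * Rpq 0 (e - 1) - Rpq 0 (2 * a + e - 1)).eval 0 = 0 := by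
    rw [Polynomial.eval_sub, Polynomial.eval_C_mul, PerQ_ev, PerQ_ev]
    unfold Ainf
    rcases he with rfl | rfl
    · simp
    · have e2 : 2 * a + 2 - 1 = 2 * a + 1 := by omega
      rw [e2, pow_succ]
      simp
      ring
  have hn : (Real.log 2 * if e = 1 then (Ainf a 1 - (if a = 0 then 1 else 0)) else 0) -
      ∑ i ∈ Finset.Icc 1 a, PerQt 0 (2 * a + e - 1) i =
      (Real.log 2 * if e = 1 then (Ainf a 1 - (if a = 0 then 1 else 0)) else 0) +
      ∑ i ∈ Finset.Icc 1 a, -PerQt 0 (2 * a + e - 1) i := by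
    rw [Finset.sum_neg_distrib]
    ring
  rw [PerQ_J hJ _ h0 a hdeg, hn]
  congr 1
  · congr 1
    rw [Polynomial.eval_sub, Polynomial.eval_C_mul, PerQ_ev, PerQ_ev, sub_self]
    rcases he with rfl | rfl
    · rw [if_pos rfl]
      rcases Nat.eq_zero_or_pos a with h | h
      · subst h; simp
      · have e2 : 2 * a + 1 - 1 ≠ 0 := by omega
        rw [if_neg (by omega), zero_pow e2]
        simp
    · rw [if_neg (by omega)]
      have e2 : 2 * a + 2 - 1 ≠ 0 := by omega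
      rw [zero_pow e2]
      simp
  · refine Finset.sum_congr rfl fun i hi => ?_
    rw [Finset.mem_Icc] at hi
    have h3 : Polynomial.derivative^[2 * i]
        (Polynomial.C (Ainf a e) * Rpq 0 (e - 1) - Rpq 0 (2 * a + e - 1)) =
        - Polynomial.derivative^[2 * i] (Rpq 0 (2 * a + e - 1)) := by
      rw [Polynomial.iterate_derivative_sub, Polynomial.iterate_derivative_C_mul,
        Polynomial.iterate_derivative_eq_zero (lt_of_le_of_lt (PerQ_deg 0 (e - 1)) (by omega))]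
      simp
    rw [h3, Polynomial.eval_neg, Polynomial.eval_neg, PerQ_d0 _ _ i (by omega),
      PerQ_d1 _ _ i (by omega)]
    unfold PerQt
    ring

private theorem PerQ_X0 (hJ : St_J) (h0 : St_PerJ0) (a : ℕ) :
    Per (E Kind.X (W1 a 0)) = ∑ j ∈ Finset.range (a + 1),
      (Q1 Kind.X a a j : ℝ) * lam (2 * j + 1) * Real.pi ^ (2 * (a - j)) := by
  have h := h0 Kind.X a (by decide)
  have e1 : eK Kind.X = 1 := rfl
  rw [e1, PerQ_Jc0 hJ a 1 (Or.inl rfl), if_pos rfl, if_pos rfl] at h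
  rw [h, PerQ_sum]
  have e0 : 2 * a + 1 - 1 = 2 * a := by omega
  have e2 : kp 1 = 1 := by unfold kp; simp
  rw [e2, inv_one, one_mul, e0]
  have e7 : (-2 : ℝ) ^ (a + 1) * (Ainf a 1 * (Real.log 2 / 2) - (Real.log 2 *
      (Ainf a 1 - if a = 0 then 1 else 0) - ∑ i ∈ Finset.Icc 1 a, PerQt 0 (2 * a) i)) =
      (-2 : ℝ) ^ (a + 1) * (Ainf a 1 * (Real.log 2 / 2) - Real.log 2 *
      (Ainf a 1 - if a = 0 then 1 else 0)) +
        (-2 : ℝ) ^ (a + 1) * ∑ i ∈ Finset.Icc 1 a, PerQt 0 (2 * a) i := by ring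
  rw [e7]
  congr 1
  · unfold Q1
    rw [if_pos rfl, if_pos rfl, mul_zero, zero_add, PerQ_lam1, Nat.sub_zero]
    unfold Ainf
    rw [e0, PerQ_pi]
    rcases Nat.eq_zero_or_pos a with h1 | h1
    · subst h1
      simp
      ring
    · rw [if_neg (by omega), if_neg (by omega)]
      push_cast
      ring
  · rw [Finset.mul_sum]
    refine Finset.sum_congr rfl fun i hi => ?_
    rw [Finset.mem_Icc] at hi
    rw [PerQ_even _ _ a i (by ring) hi.2]
    have e5 : ((-1 : ℝ) ^ (2 * a)) = 1 := by rw [pow_mul]; norm_num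
    rw [PerQ_Q1X _ _ _ (by omega), Nat.sub_self, e5]
    push_cast
    have f1 : ((2 * a - 2 * i).factorial : ℝ) ≠ 0 := by positivity
    simp only [mul_zero, Nat.choose_zero_right, pow_zero]
    push_cast
    field_simp

private theorem PerQ_Y0 (hJ : St_J) (h0 : St_PerJ0) (a : ℕ) :
    Per (E Kind.Y (W1 a 0)) = ∑ j ∈ Finset.range (a + 1),
      (Q1 Kind.Y a a j : ℝ) * lam (2 * j + 1) * Real.pi ^ (2 * (a - j)) := by
  have h := h0 Kind.Y a (by decide)
  have e1 : eK Kind.Y = 2 := rfl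
  rw [e1, PerQ_Jc0 hJ a 2 (Or.inr rfl), if_neg (by decide), if_neg (by decide)] at h
  rw [h, PerQ_sum]
  have e0 : 2 * a + 2 - 1 = 2 * a + 1 := by omega
  have e2 : kp 2 = Real.pi / 2 := by unfold kp; simp
  rw [e2, e0, mul_zero, zero_sub]
  have e7 : (-2 : ℝ) ^ (a + 1) * (Ainf a 2 * -(Real.log 2 / 2) - (Real.pi / 2)⁻¹ *
      -∑ i ∈ Finset.Icc 1 a, PerQt 0 (2 * a + 1) i) =
      (-2 : ℝ) ^ (a + 1) * (Ainf a 2 * -(Real.log 2 / 2)) +
        (-2 : ℝ) ^ (a + 1) * ((Real.pi / 2)⁻¹ * ∑ i ∈ Finset.Icc 1 a, PerQt 0 (2 * a + 1) i) := by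
    ring
  rw [e7]
  congr 1
  · rw [PerQ_Q1Y0, if_pos rfl, mul_zero, zero_add, PerQ_lam1, Nat.sub_zero]
    unfold Ainf
    rw [e0, PerQ_pi]
    push_cast
    ring
  · rw [Finset.mul_sum, Finset.mul_sum]
    refine Finset.sum_congr rfl fun i hi => ?_
    rw [Finset.mem_Icc] at hi
    rw [PerQ_odd _ _ a i (by ring) hi.2]
    have e5 : ((-1 : ℝ) ^ (2 * a + 1)) = -1 := by rw [pow_succ, pow_mul]; norm_num
    rw [PerQ_Q1Y _ _ _ (by omega), Nat.sub_self, e5]
    push_cast
    have f1 : ((2 * a + 1 - 2 * i).factorial : ℝ) ≠ 0 := by positivity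
    simp only [mul_zero, Nat.choose_zero_right, pow_zero]
    push_cast
    field_simp
    ring

theorem thm_Per1 (hJ : St_J) (h1 : St_PerJ1) (h0 : St_PerJ0) : St_Per1 := by
  intro k n a hk ha
  obtain ⟨b, rfl⟩ := Nat.exists_eq_add_of_le ha
  have e4 : a + b - a = b := by omega
  rw [e4]
  rcases Nat.eq_zero_or_pos b with hb | hb
  · subst hb
    rw [add_zero]
    cases k with
    | X => exact PerQ_X0 hJ h0 a
    | Y => exact PerQ_Y0 hJ h0 a
    | Z => exact absurd rfl hk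
  · cases k with
    | X => exact PerQ_X1 hJ h1 a b hb
    | Y => exact PerQ_Y1 hJ h1 a b hb
    | Z => exact absurd rfl hk

end Pool.MTV
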