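import Pool.Agent.MTV.StP

/-!
# Expansions of the powers of phi in powers of sin phi
-/

open Filter Topology MeasureTheory

namespace Pool.MTV

/-- polynomially bounded sequences -/
private def PhiPB (c : ℕ → ℝ) : Prop :=
  ∃ (C : ℝ) (K : ℕ), 0 ≤ C ∧ ∀ m, |c m| ≤ C * ((m : ℝ) + 1) ^ K

private noncomputable def Phipw (c : ℕ → ℝ) (x : ℝ) : ℝ := ∑' m, c m * x ^ m

private def PhiD (c : ℕ → ℝ) (m : ℕ) : ℝ := ((m : ℝ) + 1) * c (m + 1)

private theorem Phi_PB_D {c : ℕ → ℝ} (hc : PhiPB c) : PhiPB (PhiD c) := by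
  obtain ⟨C, K, hC, h⟩ := hc
  refine ⟨C * 2 ^ K, K + 1, by positivity, fun m => ?_⟩
  unfold PhiD
  rw [abs_mul, abs_of_nonneg (by positivity : (0 : ℝ) ≤ (m : ℝ) + 1)]
  have h1 := h (m + 1)
  push_cast at h1
  have h2 : ((m : ℝ) + 1 + 1) ^ K ≤ (2 * ((m : ℝ) + 1)) ^ K := by
    refine pow_le_pow_left₀ (by positivity) ?_ K
    have : (0 : ℝ) ≤ m := Nat.cast_nonneg m
    linarith
  have h3 : C * ((m : ℝ) + 1 + 1) ^ K ≤ C * (2 * ((m : ℝ) + 1)) ^ K :=
    mul_le_mul_of_nonneg_left h2 hC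
  calc ((m : ℝ) + 1) * |c (m + 1)| ≤ ((m : ℝ) + 1) * (C * (2 * ((m : ℝ) + 1)) ^ K) :=
        mul_le_mul_of_nonneg_left (h1.trans h3) (by positivity)
    _ = C * 2 ^ K * ((m : ℝ) + 1) ^ (K + 1) := by rw [mul_pow]; ring

private theorem Phi_sumAbs {c : ℕ → ℝ} (hc : PhiPB c) {r : ℝ} (hr0 : 0 ≤ r) (hr : r < 1) :
    Summable (fun m => |c m| * r ^ m) := by
  obtain ⟨C, K, hC, h⟩ := hc
  have hr' : ‖r‖ < 1 := by rw [Real.norm_eq_abs, abs_of_nonneg hr0]; exact hr
  have s1 : Summable (fun m : ℕ => (m : ℝ) ^ K * r ^ m) :=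
    summable_pow_mul_geometric_of_norm_lt_one K hr'
  have s2 : Summable (fun m : ℕ => r ^ m) := summable_geometric_of_lt_one hr0 hr
  refine Summable.of_nonneg_of_le (fun m => by positivity) (fun m => ?_)
    ((s1.add s2).mul_left (C * 2 ^ K))
  have h2 : ((m : ℝ) + 1) ^ K ≤ 2 ^ K * ((m : ℝ) ^ K + 1) := by
    rcases Nat.eq_zero_or_pos m with h0 | h0
    · subst h0
      have : (1 : ℝ) ≤ 2 ^ K := one_le_pow₀ (by norm_num)
      simp only [Nat.cast_zero, zero_add, one_pow]
      have h3 : (0 : ℝ) ≤ (0 : ℝ) ^ K := by positivity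
      nlinarith
    · have h3 : ((m : ℝ) + 1) ^ K ≤ (2 * (m : ℝ)) ^ K := by
        refine pow_le_pow_left₀ (by positivity) ?_ K
        have : (1 : ℝ) ≤ m := by exact_mod_cast h0
        linarith
      rw [mul_pow] at h3
      have h4 : (0 : ℝ) ≤ 2 ^ K := by positivity
      linarith
  calc |c m| * r ^ m ≤ (C * ((m : ℝ) + 1) ^ K) * r ^ m :=
        mul_le_mul_of_nonneg_right (h m) (by positivity)
    _ ≤ (C * (2 ^ K * ((m : ℝ) ^ K + 1))) * r ^ m :=
        mul_le_mul_of_nonneg_right (mul_le_mul_of_nonneg_left h2 hC) (by positivity)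
    _ = C * 2 ^ K * ((m : ℝ) ^ K * r ^ m + r ^ m) := by ring

private theorem Phi_summable {c : ℕ → ℝ} (hc : PhiPB c) {x : ℝ} (hx : |x| < 1) :
    Summable (fun m => c m * x ^ m) := by
  refine Summable.of_norm ?_
  have h := Phi_sumAbs hc (abs_nonneg x) hx
  refine h.congr fun m => ?_
  rw [Real.norm_eq_abs, abs_mul, abs_pow]

private theorem Phi_cg {f g : ℕ → ℝ} {a : ℝ} (hfg : ∀ m, f m = g m) (h : HasSum f a) :
    HasSum g a := by
  have e : f = g := funext hfg
  rwa [← e]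

private theorem Phi_hasSum {c : ℕ → ℝ} (hc : PhiPB c) {x : ℝ} (hx : |x| < 1) :
    HasSum (fun m => c m * x ^ m) (Phipw c x) := (Phi_summable hc hx).hasSum

private theorem Phi_deriv {c : ℕ → ℝ} (hc : PhiPB c) {x : ℝ} (hx : |x| < 1) :
    HasDerivAt (Phipw c) (Phipw (PhiD c) x) x := by
  obtain ⟨r, hr1, hr2⟩ := exists_between hx
  have hr0 : 0 ≤ r := (abs_nonneg x).trans hr1.le
  have hD := Phi_PB_D hc
  have hu : Summable (fun n : ℕ => |c n| * ((n : ℝ) * r ^ (n - 1))) := by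
    rw [← summable_nat_add_iff 1]
    refine (Phi_sumAbs hD hr0 hr2).congr fun m => ?_
    unfold PhiD
    rw [abs_mul, abs_of_nonneg (by positivity : (0 : ℝ) ≤ (m : ℝ) + 1)]
    simp only [Nat.add_sub_cancel]
    push_cast
    ring
  have key := hasDerivAt_tsum_of_isPreconnected (g := fun n y => c n * y ^ n)
    (g' := fun n y => c n * ((n : ℝ) * y ^ (n - 1))) (t := Set.Ioo (-r) r) (y₀ := 0) (y := x)
    hu isOpen_Ioo (convex_Ioo _ _).isPreconnected
    (fun n y _ => (hasDerivAt_pow n y).const_mul (c n)) (fun n y hy => by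
      have hy' : |y| ≤ r := (abs_lt.2 hy).le
      rw [Real.norm_eq_abs, abs_mul, abs_mul, abs_pow, Nat.abs_cast]
      refine mul_le_mul_of_nonneg_left ?_ (abs_nonneg _)
      exact mul_le_mul_of_nonneg_left (pow_le_pow_left₀ (abs_nonneg _) hy' _) (Nat.cast_nonneg _))
    (by
      have : 0 < r := lt_of_le_of_lt (abs_nonneg x) hr1
      exact ⟨by linarith, this⟩) (Phi_summable hc (by simp)) (abs_lt.1 hr1)
  have hval : (∑' n, c n * ((n : ℝ) * x ^ (n - 1))) = Phipw (PhiD c) x := by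
    have hs : Summable (fun n : ℕ => c n * ((n : ℝ) * x ^ (n - 1))) := by
      rw [← summable_nat_add_iff 1]
      refine (Phi_summable hD hx).congr fun m => ?_
      unfold PhiD
      simp only [Nat.add_sub_cancel]
      push_cast
      ring
    rw [hs.tsum_eq_zero_add]
    simp only [Nat.cast_zero, zero_mul, mul_zero, zero_add]
    unfold Phipw PhiD
    refine tsum_congr fun m => ?_
    simp only [Nat.add_sub_cancel]
    push_cast
    ring
  rw [hval] at key
  exact key

/-- x P'(x) -/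
private theorem Phi_xD {c : ℕ → ℝ} (hc : PhiPB c) {x : ℝ} (hx : |x| < 1) :
    HasSum (fun m : ℕ => (m : ℝ) * c m * x ^ m) (x * Phipw (PhiD c) x) := by
  have h := (Phi_hasSum (Phi_PB_D hc) hx).mul_left x
  have h2 : HasSum (fun m : ℕ => ((m + 1 : ℕ) : ℝ) * c (m + 1) * x ^ (m + 1))
      (x * Phipw (PhiD c) x) := by
    refine Phi_cg (fun m => ?_) h
    unfold PhiD
    push_cast
    ring
  have h3 := (hasSum_nat_add_iff (f := fun m : ℕ => (m : ℝ) * c m * x ^ m) 1).1 h2
  simpa using h3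

private theorem Phi_second {c d : ℕ → ℝ} (hc : PhiPB c)
    (hd : ∀ m : ℕ, ((m : ℝ) + 2) * ((m : ℝ) + 1) * c (m + 2) - (m : ℝ) ^ 2 * c m = d m)
    {x : ℝ} (hx : |x| < 1) :
    HasSum (fun m : ℕ => d m * x ^ m)
      ((1 - x ^ 2) * Phipw (PhiD (PhiD c)) x - x * Phipw (PhiD c) x) := by
  have h0 := Phi_hasSum (Phi_PB_D (Phi_PB_D hc)) hx
  have h1 := Phi_xD hc hx
  have h2 := h0.mul_left (x ^ 2)
  have h3 : HasSum (fun m : ℕ => ((m + 2 : ℕ) : ℝ) * (((m + 2 : ℕ) : ℝ) - 1) * c (m + 2) *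
      x ^ (m + 2)) (x ^ 2 * Phipw (PhiD (PhiD c)) x) := by
    refine Phi_cg (fun m => ?_) h2
    unfold PhiD
    push_cast
    ring
  have h4 := (hasSum_nat_add_iff
    (f := fun m : ℕ => (m : ℝ) * ((m : ℝ) - 1) * c m * x ^ m) 2).1 h3
  have h5 : HasSum (fun m : ℕ => (m : ℝ) * ((m : ℝ) - 1) * c m * x ^ m)
      (x ^ 2 * Phipw (PhiD (PhiD c)) x) := by
    simpa [Finset.sum_range_succ] using h4
  have h6 := (h0.sub h5).sub h1
  have h7 : (1 - x ^ 2) * Phipw (PhiD (PhiD c)) x - x * Phipw (PhiD c) x =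
      Phipw (PhiD (PhiD c)) x - x ^ 2 * Phipw (PhiD (PhiD c)) x - x * Phipw (PhiD c) x := by
    ring
  rw [h7]
  refine Phi_cg (fun m => ?_) h6
  rw [← hd m]
  unfold PhiD
  push_cast
  ring

/-! ### the coefficients -/

private theorem Phi_gam_rec (m : ℕ) (hm : 0 < m) :
    ((m : ℝ) + 2) * ((m : ℝ) + 1) * gam (m + 2) = (m : ℝ) ^ 2 * gam m := by
  obtain ⟨n, rfl⟩ : ∃ n, m = n + 1 := ⟨m - 1, by omega⟩
  have h : gam (n + 1 + 2) = gam (n + 1) * ((n : ℝ) + 1) ^ 2 / (((n : ℝ) + 2) * ((n : ℝ) + 3)) := by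
    show gam (n + 3) = _
    rw [gam]
  rw [h]
  push_cast
  have h1 : (n : ℝ) + 2 ≠ 0 := by positivity
  have h2 : (n : ℝ) + 3 ≠ 0 := by positivity
  field_simp
  ring

private theorem Phi_gam_bd : ∀ m : ℕ, 0 ≤ gam m ∧ gam m ≤ 1
  | 0 => by simp [gam]
  | 1 => by simp [gam]
  | 2 => by rw [gam]; norm_num
  | n + 3 => by
    obtain ⟨h1, h2⟩ := Phi_gam_bd (n + 1)
    rw [gam]
    refine ⟨by positivity, ?_⟩
    rw [div_le_one (by positivity)]
    have : gam (n + 1) * ((n : ℝ) + 1) ^ 2 ≤ 1 * ((n : ℝ) + 1) ^ 2 :=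
      mul_le_mul_of_nonneg_right h2 (by positivity)
    nlinarith [(Nat.cast_nonneg n : (0 : ℝ) ≤ n)]

private theorem Phi_An_bd (a : ℕ) : ∀ m : ℕ, 0 ≤ An a m ∧ An a m ≤ ((m : ℝ) + 1) ^ a := by
  induction a with
  | zero => intro m; simp [An]
  | succ a ih =>
    intro m
    rw [An]
    constructor
    · refine Finset.sum_nonneg fun n _ => ?_
      split_ifs
      · exact div_nonneg (ih n).1 (by positivity)
      · exact le_refl _
    · have h1 : ∀ n ∈ Finset.range m,
          (if 0 < n ∧ n % 2 = m % 2 then An a n / (n : ℝ) ^ 2 else 0) ≤ ((m : ℝ) + 1) ^ a := by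
        intro n hn
        have hn' : (n : ℝ) ≤ m := by exact_mod_cast (Finset.mem_range.1 hn).le
        have h2 : ((n : ℝ) + 1) ^ a ≤ ((m : ℝ) + 1) ^ a :=
          pow_le_pow_left₀ (by positivity) (by linarith) a
        split_ifs with h
        · have h3 : (1 : ℝ) ≤ (n : ℝ) ^ 2 := by
            have : (1 : ℝ) ≤ n := by exact_mod_cast h.1
            exact one_le_pow₀ this
          have h4 : An a n / (n : ℝ) ^ 2 ≤ An a n := div_le_self (ih n).1 h3
          linarith [(ih n).2]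
        · positivity
      refine (Finset.sum_le_sum h1).trans ?_
      rw [Finset.sum_const, Finset.card_range, nsmul_eq_mul, pow_succ]
      nlinarith [pow_nonneg (by positivity : (0 : ℝ) ≤ (m : ℝ) + 1) a]

private theorem Phi_An_succ (a m : ℕ) (hm : 0 < m) :
    An (a + 1) (m + 2) = An (a + 1) m + An a m / (m : ℝ) ^ 2 := by
  rw [An, An, Finset.sum_range_succ, Finset.sum_range_succ]
  have h1 : ¬ (0 < m + 1 ∧ (m + 1) % 2 = (m + 2) % 2) := by omega
  have h2 : 0 < m ∧ m % 2 = (m + 2) % 2 := by omega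
  rw [if_neg h1, if_pos h2, add_zero]
  congr 1
  refine Finset.sum_congr rfl fun n _ => ?_
  have h3 : (n % 2 = (m + 2) % 2) ↔ (n % 2 = m % 2) := by omega
  simp only [h3]

private theorem Phi_An_low (a m : ℕ) (hm : m ≤ 2) : An (a + 1) m = 0 := by
  rw [An]
  refine Finset.sum_eq_zero fun n hn => ?_
  have := Finset.mem_range.1 hn
  rw [if_neg (by omega)]

/-- the coefficients -/
private noncomputable def Phic (a e m : ℕ) : ℝ := if m % 2 = e % 2 then gam m * An a m else 0

private theorem Phi_PB_c (a e : ℕ) : PhiPB (Phic a e) := by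
  refine ⟨1, a, zero_le_one, fun m => ?_⟩
  unfold Phic
  have h1 := Phi_gam_bd m
  have h2 := Phi_An_bd a m
  split_ifs
  · rw [abs_of_nonneg (mul_nonneg h1.1 h2.1)]
    exact mul_le_mul h1.2 h2.2 h2.1 zero_le_one
  · rw [abs_zero]; positivity

private theorem Phi_rec_succ (a e m : ℕ) :
    ((m : ℝ) + 2) * ((m : ℝ) + 1) * Phic (a + 1) e (m + 2) - (m : ℝ) ^ 2 * Phic (a + 1) e m =
      Phic a e m := by
  unfold Phic
  have h3 : ((m + 2) % 2 = e % 2) ↔ (m % 2 = e % 2) := by omega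
  simp only [h3]
  by_cases h : m % 2 = e % 2
  · rw [if_pos h, if_pos h, if_pos h]
    rcases Nat.eq_zero_or_pos m with h0 | h0
    · subst h0
      rw [Phi_An_low a 2 le_rfl]
      simp [gam]
    · rw [Phi_An_succ a m h0]
      have h4 := Phi_gam_rec m h0
      have h5 : (m : ℝ) ≠ 0 := by positivity
      have h6 : ((m : ℝ) + 2) * ((m : ℝ) + 1) * (gam (m + 2) * (An (a + 1) m + An a m / (m : ℝ) ^ 2))
          = (((m : ℝ) + 2) * ((m : ℝ) + 1) * gam (m + 2)) *
            (An (a + 1) m + An a m / (m : ℝ) ^ 2) := by ring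
      rw [h6, h4]
      field_simp
      ring
  · rw [if_neg h, if_neg h, if_neg h]
    ring

private theorem Phi_rec_zero (e m : ℕ) :
    ((m : ℝ) + 2) * ((m : ℝ) + 1) * Phic 0 e (m + 2) - (m : ℝ) ^ 2 * Phic 0 e m =
      if m = 0 ∧ e % 2 = 0 then 1 else 0 := by
  unfold Phic
  have h3 : ((m + 2) % 2 = e % 2) ↔ (m % 2 = e % 2) := by omega
  simp only [h3, An, mul_one]
  rcases Nat.eq_zero_or_pos m with h0 | h0
  · subst h0
    by_cases h : e % 2 = 0
    · have h1 : 0 % 2 = e % 2 := by omega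
      have h2 : (0 : ℕ) = 0 ∧ e % 2 = 0 := ⟨rfl, h⟩
      simp only [if_pos h1]
      norm_num [gam]
      exact h
    · have h1 : ¬ (0 % 2 = e % 2) := by omega
      have h2 : ¬ ((0 : ℕ) = 0 ∧ e % 2 = 0) := by omega
      simp only [if_neg h1]
      norm_num
      omega
  · rw [if_neg (by omega : ¬ (m = 0 ∧ e % 2 = 0))]
    split_ifs
    · rw [Phi_gam_rec m h0]; ring
    · ring

/-! ### the differential equation -/

private theorem Phi_sin {φ : ℝ} (h0 : 0 ≤ φ) (h1 : φ < Real.pi / 2) : |Real.sin φ| < 1 := by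
  have h2 : 0 < Real.cos φ := Real.cos_pos_of_mem_Ioo ⟨by linarith [Real.pi_pos], h1⟩
  have h3 := Real.sin_sq_add_cos_sq φ
  rw [← sq_lt_one_iff_abs_lt_one]
  nlinarith

private theorem Phi_f1 (a e : ℕ) {φ : ℝ} (h0 : 0 ≤ φ) (h1 : φ < Real.pi / 2) :
    HasDerivAt (fun u => Phipw (Phic a e) (Real.sin u))
      (Phipw (PhiD (Phic a e)) (Real.sin φ) * Real.cos φ) φ :=
  (Phi_deriv (Phi_PB_c a e) (Phi_sin h0 h1)).comp φ (Real.hasDerivAt_sin φ)

private theorem Phi_f2 (a e : ℕ) {φ : ℝ} (h0 : 0 ≤ φ) (h1 : φ < Real.pi / 2) :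
    HasDerivAt (fun u => Phipw (PhiD (Phic a e)) (Real.sin u) * Real.cos u)
      ((1 - Real.sin φ ^ 2) * Phipw (PhiD (PhiD (Phic a e))) (Real.sin φ) -
        Real.sin φ * Phipw (PhiD (Phic a e)) (Real.sin φ)) φ := by
  have h := ((Phi_deriv (Phi_PB_D (Phi_PB_c a e)) (Phi_sin h0 h1)).comp φ
    (Real.hasDerivAt_sin φ)).mul (Real.hasDerivAt_cos φ)
  refine h.congr_deriv ?_
  have h3 := Real.sin_sq_add_cos_sq φ
  have h4 : 1 - Real.sin φ ^ 2 = Real.cos φ * Real.cos φ := by nlinarith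
  rw [h4, Function.comp]
  ring

private theorem Phi_const {g g' : ℝ → ℝ} (hg : ∀ u, 0 ≤ u → u < Real.pi / 2 → HasDerivAt g (g' u) u)
    (h0 : ∀ u, 0 ≤ u → u < Real.pi / 2 → g' u = 0) {φ : ℝ} (hφ : 0 ≤ φ) (hφ' : φ < Real.pi / 2) :
    g φ = g 0 := by
  refine constant_of_has_deriv_right_zero (f := g) (a := 0) (b := φ) ?_ ?_ φ ⟨hφ, le_rfl⟩
  · intro u hu
    exact (hg u hu.1 (lt_of_le_of_lt hu.2 hφ')).continuousAt.continuousWithinAt
  · intro u hu
    have h := hg u hu.1 (hu.2.trans hφ')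
    rw [h0 u hu.1 (hu.2.trans hφ')] at h
    exact h.hasDerivWithinAt

private theorem Phi_val0 (c : ℕ → ℝ) : Phipw c 0 = c 0 := by
  unfold Phipw
  rw [tsum_eq_single 0]
  · simp
  · intro m hm
    rw [zero_pow hm, mul_zero]

/-- second derivative as a power of phi -/
private def PhiSec (a e : ℕ) : Prop := ∀ φ : ℝ, 0 ≤ φ → φ < Real.pi / 2 →
  (1 - Real.sin φ ^ 2) * Phipw (PhiD (PhiD (Phic a e))) (Real.sin φ) -
    Real.sin φ * Phipw (PhiD (Phic a e)) (Real.sin φ) =
  (if 2 ≤ 2 * a + e then φ ^ (2 * a + e - 2) / (2 * a + e - 2).factorial else 0)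

private theorem Phi_powder (j : ℕ) (φ : ℝ) :
    HasDerivAt (fun u : ℝ => u ^ (j + 1) / ((j + 1).factorial : ℝ)) (φ ^ j / (j.factorial : ℝ)) φ := by
  have h := (hasDerivAt_pow (j + 1) φ).div_const ((j + 1).factorial : ℝ)
  refine h.congr_deriv ?_
  rw [Nat.factorial_succ]
  push_cast
  have h1 : ((j : ℝ) + 1) ≠ 0 := by positivity
  have h2 : (j.factorial : ℝ) ≠ 0 := by positivity
  field_simp
  try ring

/-- both expansions at once: value and derivative -/
private theorem Phi_int (a e : ℕ) (he : e = 1 ∨ e = 2) (hsec : PhiSec a e) :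
    ∀ φ : ℝ, 0 ≤ φ → φ < Real.pi / 2 →
    Phipw (Phic a e) (Real.sin φ) = φ ^ (2 * a + e) / (2 * a + e).factorial ∧
    Phipw (PhiD (Phic a e)) (Real.sin φ) * Real.cos φ =
      φ ^ (2 * a + e - 1) / (2 * a + e - 1).factorial := by
  obtain ⟨j, hj⟩ : ∃ j, 2 * a + e = j + 1 := ⟨2 * a + e - 1, by omega⟩
  have hc0 : Phic a e 0 = 0 := by
    unfold Phic
    rw [gam]
    simp
  have hc1 : Phic a e 1 = if j = 0 then 1 else 0 := by
    unfold Phic
    rcases he with rfl | rfl
    · rcases Nat.eq_zero_or_pos a with h0 | h0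
      · subst h0
        rw [if_pos (by omega), if_pos (by omega)]
        simp [gam, An]
      · obtain ⟨b, rfl⟩ : ∃ b, a = b + 1 := ⟨a - 1, by omega⟩
        rw [if_pos rfl, Phi_An_low b 1 (by norm_num), mul_zero, if_neg (by omega)]
    · rw [if_neg (by omega), if_neg (by omega)]
  have hder : ∀ φ : ℝ, 0 ≤ φ → φ < Real.pi / 2 →
      Phipw (PhiD (Phic a e)) (Real.sin φ) * Real.cos φ = φ ^ j / (j.factorial : ℝ) := by
    intro φ h0 h1
    have hD0 : Phipw (PhiD (Phic a e)) (Real.sin 0) * Real.cos 0 = if j = 0 then 1 else 0 := by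
      rw [Real.sin_zero, Phi_val0, Real.cos_zero, mul_one]
      unfold PhiD
      rw [zero_add, hc1]
      simp
    rcases Nat.eq_zero_or_pos j with hj0 | hj0
    · subst hj0
      have h := Phi_const (g := fun u => Phipw (PhiD (Phic a e)) (Real.sin u) * Real.cos u)
        (g' := fun u => (1 - Real.sin u ^ 2) * Phipw (PhiD (PhiD (Phic a e))) (Real.sin u) -
          Real.sin u * Phipw (PhiD (Phic a e)) (Real.sin u))
        (fun u hu hu' => Phi_f2 a e hu hu') (fun u hu hu' => by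
          rw [hsec u hu hu', if_neg (by omega)]) h0 h1
      rw [h, hD0]
      simp
    · obtain ⟨i, rfl⟩ : ∃ i, j = i + 1 := ⟨j - 1, by omega⟩
      have h := Phi_const
        (g := fun u => Phipw (PhiD (Phic a e)) (Real.sin u) * Real.cos u -
          u ^ (i + 1) / ((i + 1).factorial : ℝ))
        (g' := fun u => ((1 - Real.sin u ^ 2) * Phipw (PhiD (PhiD (Phic a e))) (Real.sin u) -
          Real.sin u * Phipw (PhiD (Phic a e)) (Real.sin u)) - u ^ i / (i.factorial : ℝ))
        (fun u hu hu' => (Phi_f2 a e hu hu').sub (Phi_powder i u)) (fun u hu hu' => by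
          rw [hsec u hu hu', if_pos (by omega)]
          have : 2 * a + e - 2 = i := by omega
          rw [this, sub_self]) h0 h1
      rw [hD0, if_neg (by omega), zero_pow (by omega)] at h
      simp only [zero_div, sub_self] at h
      linarith
  intro φ h0 h1
  constructor
  · have h := Phi_const
      (g := fun u => Phipw (Phic a e) (Real.sin u) - u ^ (j + 1) / ((j + 1).factorial : ℝ))
      (g' := fun u => Phipw (PhiD (Phic a e)) (Real.sin u) * Real.cos u - u ^ j / (j.factorial : ℝ))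
      (fun u hu hu' => (Phi_f1 a e hu hu').sub (Phi_powder j u)) (fun u hu hu' => by
        rw [hder u hu hu', sub_self]) h0 h1
    rw [Real.sin_zero, Phi_val0, hc0, zero_pow (by omega)] at h
    simp only [zero_div, sub_self] at h
    rw [hj]
    linarith
  · have : 2 * a + e - 1 = j := by omega
    rw [this]
    exact hder φ h0 h1

private theorem Phi_sec (a e : ℕ) (he : e = 1 ∨ e = 2) : PhiSec a e := by
  induction a with
  | zero =>
    intro φ h0 h1
    have h := Phi_second (Phi_PB_c 0 e) (Phi_rec_zero e) (Phi_sin h0 h1)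
    rcases he with rfl | rfl
    · rw [if_neg (by omega)]
      refine h.unique ?_
      have : (fun m : ℕ => (if m = 0 ∧ 1 % 2 = 0 then (1 : ℝ) else 0) * Real.sin φ ^ m) =
          fun _ => 0 := by
        funext m
        rw [if_neg (by omega), zero_mul]
      rw [this]
      exact hasSum_zero
    · rw [if_pos (by omega)]
      refine h.unique ?_
      have h2 := hasSum_ite_eq (0 : ℕ) (1 : ℝ)
      have h3 : (fun m : ℕ => (if m = 0 ∧ 2 % 2 = 0 then (1 : ℝ) else 0) * Real.sin φ ^ m) =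
          fun m => if m = 0 then 1 else 0 := by
        funext m
        by_cases hm : m = 0
        · subst hm; simp
        · simp [hm]
      rw [h3]
      simpa using h2
  | succ a ih =>
    intro φ h0 h1
    have h := Phi_second (Phi_PB_c (a + 1) e) (Phi_rec_succ a e) (Phi_sin h0 h1)
    have h2 := Phi_hasSum (Phi_PB_c a e) (Phi_sin h0 h1)
    rw [h.unique h2, if_pos (by omega), (Phi_int a e he ih φ h0 h1).1]
    have : 2 * (a + 1) + e - 2 = 2 * a + e := by omega
    rw [this]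

theorem thm_phi : St_phi := by
  intro a e he φ h0 h1
  have h := Phi_hasSum (Phi_PB_c a e) (Phi_sin h0 h1)
  rw [(Phi_int a e he (Phi_sec a e he) φ h0 h1).1] at h
  refine Phi_cg (fun m => ?_) h
  unfold Phic
  split_ifs
  · rfl
  · rw [zero_mul]

theorem thm_phiD (_ : St_phi) : St_phiD := by
  intro a e he φ h0 h1
  have h := Phi_xD (Phi_PB_c a e) (Phi_sin h0 h1)
  have hv := (Phi_int a e he (Phi_sec a e he) φ h0 h1).2
  have hc : Real.cos φ ≠ 0 := (Real.cos_pos_of_mem_Ioo ⟨by linarith [Real.pi_pos], h1⟩).ne'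
  have hv' : Real.sin φ * Phipw (PhiD (Phic a e)) (Real.sin φ) =
      Real.tan φ * φ ^ (2 * a + e - 1) / (2 * a + e - 1).factorial := by
    rw [mul_div_assoc, ← hv, Real.tan_eq_sin_div_cos]
    field_simp
  rw [hv'] at h
  refine Phi_cg (fun m => ?_) h
  unfold Phic
  split_ifs
  · ring
  · ring

private theorem Phi_PB_I (a e : ℕ) : PhiPB (fun m => Phic a e m / m) := by
  refine ⟨1, a, zero_le_one, fun m => ?_⟩
  unfold Phic
  have h1 := Phi_gam_bd m
  have h2 := Phi_An_bd a m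
  rcases Nat.eq_zero_or_pos m with h0 | h0
  · subst h0
    simp
  · have h3 : (1 : ℝ) ≤ m := by exact_mod_cast h0
    show |(if m % 2 = e % 2 then gam m * An a m else 0) / (m : ℝ)| ≤ _
    split_ifs
    · rw [abs_of_nonneg (div_nonneg (mul_nonneg h1.1 h2.1) (by positivity))]
      refine (div_le_self (mul_nonneg h1.1 h2.1) h3).trans ?_
      exact mul_le_mul h1.2 h2.2 h2.1 zero_le_one
    · rw [zero_div, abs_zero]; positivity

theorem thm_phiI (_ : St_phi) : St_phiI := by
  intro a e he φ h0 h1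
  have hc0 : Phic a e 0 = 0 := by
    unfold Phic
    rw [gam]
    simp
  have h := Phi_hasSum (Phi_PB_I a e) (Phi_sin h0.le h1)
  have hint : (∫ u in (0 : ℝ)..φ, Real.cot u * u ^ (2 * a + e) / (2 * a + e).factorial) =
      Phipw (fun m => Phic a e m / m) (Real.sin φ) := by
    have hd : ∀ u ∈ Set.uIcc 0 φ, HasDerivAt
        (fun u => Phipw (fun m => Phic a e m / m) (Real.sin u))
        (Phipw (PhiD (fun m => Phic a e m / m)) (Real.sin u) * Real.cos u) u := by
      intro u hu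
      rw [Set.uIcc_of_le h0.le] at hu
      exact (Phi_deriv (Phi_PB_I a e) (Phi_sin hu.1 (lt_of_le_of_lt hu.2 h1))).comp u
        (Real.hasDerivAt_sin u)
    have hcont : ContinuousOn
        (fun u => Phipw (PhiD (fun m => Phic a e m / m)) (Real.sin u) * Real.cos u)
        (Set.uIcc 0 φ) := by
      intro u hu
      rw [Set.uIcc_of_le h0.le] at hu
      have h2 := (Phi_deriv (Phi_PB_D (Phi_PB_I a e))
        (Phi_sin hu.1 (lt_of_le_of_lt hu.2 h1))).continuousAt
      exact ((h2.comp Real.continuous_sin.continuousAt).mul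
        Real.continuous_cos.continuousAt).continuousWithinAt
    have h3 := intervalIntegral.integral_eq_sub_of_hasDerivAt hd hcont.intervalIntegrable
    rw [Real.sin_zero, Phi_val0] at h3
    simp only [hc0, zero_div, sub_zero] at h3
    rw [← h3]
    refine intervalIntegral.integral_congr_ae (Filter.Eventually.of_forall fun u hu => ?_)
    rw [Set.uIoc_of_le h0.le] at hu
    have hu' : u < Real.pi / 2 := lt_of_le_of_lt hu.2 h1
    have hs : 0 < Real.sin u := Real.sin_pos_of_pos_of_lt_pi hu.1 (by linarith [Real.pi_pos])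
    have h4 := Phi_xD (Phi_PB_I a e) (Phi_sin hu.1.le hu')
    have h5 := Phi_hasSum (Phi_PB_c a e) (Phi_sin hu.1.le hu')
    have h6 : Real.sin u * Phipw (PhiD (fun m => Phic a e m / m)) (Real.sin u) =
        Phipw (Phic a e) (Real.sin u) := by
      refine h4.unique (Phi_cg (fun m => ?_) h5)
      rcases Nat.eq_zero_or_pos m with h0 | h0
      · subst h0; rw [hc0]; simp
      · have : (m : ℝ) ≠ 0 := by positivity
        field_simp
    rw [(Phi_int a e he (Phi_sec a e he) u hu.1.le hu').1] at h6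
    have h7 : Phipw (PhiD (fun m => Phic a e m / m)) (Real.sin u) =
        (u ^ (2 * a + e) / (2 * a + e).factorial) / Real.sin u := by
      rw [← h6]
      field_simp
    rw [h7, Real.cot_eq_cos_div_sin]
    ring
  rw [hint]
  refine Phi_cg (fun m => ?_) h
  unfold Phic
  split_ifs
  · ring
  · ring

end Pool.MTV
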