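import Pool.Agent.MTV.StP

/-!
# MTV: power series of the functions of the words X and Y (helper99)
-/

open Filter Topology

namespace Pool.MTV

/-! ### the last letter -/

/-- Put a letter at the end. -/
noncomputable def Ser_app (a : SignType) : V →ₗ[ℝ] V := Finsupp.lmapDomain ℝ ℝ (fun w => w ++ [a])

theorem Ser_app_wd (a : SignType) (w : Word) : Ser_app a (wd w) = wd (w ++ [a]) := by
  simp [Ser_app, wd, Finsupp.lmapDomain_apply, Finsupp.mapDomain_single]

theorem Ser_pre_wd (a : SignType) (w : Word) : pre a (wd w) = wd (a :: w) := by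
  simp [pre, wd, Finsupp.lmapDomain_apply, Finsupp.mapDomain_single]

theorem Ser_app_pre (a b : SignType) (x : V) : Ser_app a (pre b x) = pre b (Ser_app a x) := by
  simp only [Ser_app, pre, Finsupp.lmapDomain_apply, ← Finsupp.mapDomain_comp]
  rfl

theorem Ser_Y_true (s : List Bool) : Ys (s ++ [true]) = Ser_app 1 (Ys s) + Ser_app (-1) (Ys s) := by
  induction s with
  | nil => simp [Ys, Ser_app_wd, Ser_pre_wd]
  | cons b s ih =>
    cases b
    · simp only [List.cons_append, Ys, ih, map_add, Ser_app_pre]
    · simp only [List.cons_append, Ys, ih, map_add, Ser_app_pre]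
      abel

theorem Ser_Y_false (s : List Bool) : Ys (s ++ [false]) = Ser_app 0 (Ys s) := by
  induction s with
  | nil => simp [Ys, Ser_app_wd, Ser_pre_wd]
  | cons b s ih =>
    cases b
    · simp only [List.cons_append, Ys, ih, Ser_app_pre]
    · simp only [List.cons_append, Ys, ih, map_add, Ser_app_pre]

theorem Ser_X_true (s : List Bool) (hs : s ≠ []) :
    Xs (s ++ [true]) = Ser_app 1 (Xs s) + Ser_app (-1) (Xs s) := by
  obtain ⟨b, s, rfl⟩ := List.exists_cons_of_ne_nil hs
  simp only [List.cons_append, Xs, Ser_Y_true, map_add, map_sub, Ser_app_pre]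
  abel

theorem Ser_X_false (s : List Bool) (hs : s ≠ []) : Xs (s ++ [false]) = Ser_app 0 (Xs s) := by
  obtain ⟨b, s, rfl⟩ := List.exists_cons_of_ne_nil hs
  simp only [List.cons_append, Xs, Ser_Y_false, map_sub, Ser_app_pre]

theorem Ser_LV_wd (z : ℝ) (w : Word) : LV z (wd w) = L w z := by
  simp [LV, wd]

/-- the derivative of the functions of the words with last letter `a` -/
theorem Ser_deriv (hd : St_Lderiv) (a : SignType) (x : V) (z : ℝ) (h0 : 0 < z) (h1 : z < 1) :
    HasDerivAt (fun z => LV z (Ser_app a x)) (LV z x / (z - ((a : SignType) : ℝ))) z := by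
  induction x using Finsupp.induction_linear with
  | zero =>
    simp only [map_zero, zero_div]
    exact hasDerivAt_const z (0 : ℝ)
  | add f g hf hg =>
    simp only [map_add, add_div]
    exact hf.add hg
  | single w c =>
    have e1 : (Finsupp.single w c : V) = c • wd w := by simp [wd]
    have h := (hd w a z h0 h1).const_mul c
    simp only [e1, map_smul, Ser_app_wd, Ser_LV_wd, smul_eq_mul]
    rw [mul_div_assoc]
    exact h

/-! ### words with a nonzero letter -/

/-- The span of the words with a nonzero letter. -/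
noncomputable def Ser_N : Submodule ℝ V := Submodule.span ℝ (wd '' {w | ∃ b ∈ w, b ≠ 0})

theorem Ser_N_wd {w : Word} (h : ∃ b ∈ w, b ≠ 0) : wd w ∈ Ser_N :=
  Submodule.subset_span ⟨w, h, rfl⟩

theorem Ser_N_pre (a : SignType) (ha : a ≠ 0) (x : V) : pre a x ∈ Ser_N := by
  induction x using Finsupp.induction_linear with
  | zero =>
    rw [map_zero]
    exact Ser_N.zero_mem
  | add f g hf hg =>
    rw [map_add]
    exact Ser_N.add_mem hf hg
  | single w c =>
    have e1 : (Finsupp.single w c : V) = c • wd w := by simp [wd]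
    rw [e1, map_smul, Ser_pre_wd]
    exact Ser_N.smul_mem c (Ser_N_wd ⟨a, by simp, ha⟩)

theorem Ser_N_pre' (a : SignType) {x : V} (hx : x ∈ Ser_N) : pre a x ∈ Ser_N := by
  have h : Ser_N ≤ Ser_N.comap (pre a) := by
    apply Submodule.span_le.2
    rintro _ ⟨w, ⟨b, hb, hb0⟩, rfl⟩
    show pre a (wd w) ∈ Ser_N
    rw [Ser_pre_wd]
    exact Ser_N_wd ⟨b, List.mem_cons_of_mem _ hb, hb0⟩
  exact h hx

theorem Ser_N_Y {s : List Bool} (hs : true ∈ s) : Ys s ∈ Ser_N := by
  induction s with
  | nil => simp at hs
  | cons b s ih =>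
    cases b
    · have hs' : true ∈ s := by simpa using hs
      exact Ser_N_pre' 0 (ih hs')
    · exact Ser_N.add_mem (Ser_N_pre 1 (by decide) _) (Ser_N_pre (-1) (by decide) _)

theorem Ser_N_X {s : List Bool} (hs : s ≠ []) : Xs s ∈ Ser_N := by
  obtain ⟨b, s, rfl⟩ := List.exists_cons_of_ne_nil hs
  exact Ser_N.sub_mem (Ser_N_pre 1 (by decide) _) (Ser_N_pre (-1) (by decide) _)

theorem Ser_N_lim (h0 : St_Lzero) {x : V} (hx : x ∈ Ser_N) :
    Tendsto (fun z => LV z x) (𝓝[>] 0) (𝓝 0) := by
  unfold Ser_N at hx
  induction hx using Submodule.span_induction with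
  | mem x hx =>
    obtain ⟨w, hw, rfl⟩ := hx
    obtain ⟨C, hC⟩ := h0 w
    simp only [Ser_LV_wd]
    have hlim : Tendsto (fun z : ℝ => C * z ^ ((1 / 2) : ℝ)) (𝓝[>] 0) (𝓝 0) := by
      have h1 : Continuous fun z : ℝ => C * z ^ ((1 / 2) : ℝ) :=
        continuous_const.mul (Real.continuous_rpow_const (by norm_num))
      have h2 := (h1.tendsto 0).mono_left (nhdsWithin_le_nhds (s := Set.Ioi 0))
      rwa [Real.zero_rpow (by norm_num), mul_zero] at h2
    apply squeeze_zero_norm' _ hlim
    have h3 : ∀ᶠ z : ℝ in 𝓝[>] 0, z ∈ Set.Ioc 0 (1 / 2) := Ioc_mem_nhdsGT (by norm_num)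
    filter_upwards [h3] with z hz
    exact (hC z hz.1 hz.2).2 hw
  | zero => simp
  | add x y _ _ hx hy =>
    have := hx.add hy
    simp only [map_add]
    rwa [add_zero] at this
  | smul c x _ hx =>
    have := hx.const_mul c
    simp only [map_smul, smul_eq_mul]
    rwa [mul_zero] at this

/-! ### analysis -/

/-- a function with derivative zero on the interval and limit zero at zero vanishes -/
theorem Ser_const {F : ℝ → ℝ} (hF : ∀ z, 0 < z → z < 1 → HasDerivAt F 0 z)
    (hl : Tendsto F (𝓝[>] 0) (𝓝 0)) {z : ℝ} (h0 : 0 < z) (h1 : z < 1) : F z = 0 := by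
  have h2 : ∀ w ∈ Set.Ioo (0 : ℝ) 1, F w = F z := by
    intro w hw
    refine isOpen_Ioo.is_const_of_deriv_eq_zero isPreconnected_Ioo
      (fun y hy => (hF y hy.1 hy.2).differentiableAt.differentiableWithinAt)
      (fun y hy => (hF y hy.1 hy.2).deriv) hw ⟨h0, h1⟩
  have h3 : Tendsto F (𝓝[>] 0) (𝓝 (F z)) := by
    apply tendsto_const_nhds.congr'
    filter_upwards [Ioo_mem_nhdsGT (zero_lt_one' ℝ)] with w hw
    exact (h2 w hw).symm
  exact tendsto_nhds_unique h3 hl

/-- power series with bounded coefficients -/
theorem Ser_ps {a : ℕ → ℝ} {C : ℝ} (ha : ∀ n, |a n| ≤ C) {z : ℝ} (hz : |z| < 1) :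
    Summable (fun n => a n * z ^ n) ∧ Summable (fun n : ℕ => (n : ℝ) * a n * z ^ n) ∧
    HasDerivAt (fun z => ∑' n, a n * z ^ n) (∑' n : ℕ, a n * (n * z ^ (n - 1))) z := by
  have hs1 : ∀ w : ℝ, |w| < 1 → Summable (fun n => a n * w ^ n) := by
    intro w hw
    refine Summable.of_norm_bounded (g := fun n => C * |w| ^ n)
      ((summable_geometric_of_lt_one (abs_nonneg w) hw).mul_left C) fun n => ?_
    rw [norm_mul, norm_pow, Real.norm_eq_abs, Real.norm_eq_abs]
    exact mul_le_mul_of_nonneg_right (ha n) (by positivity)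
  refine ⟨hs1 z hz, ?_, ?_⟩
  · have h := (summable_pow_mul_geometric_of_norm_lt_one 1 (r := |z|)
      (by rwa [Real.norm_eq_abs, abs_abs])).mul_left C
    refine Summable.of_norm_bounded h fun n => ?_
    rw [norm_mul, norm_mul, norm_pow, Real.norm_eq_abs, Real.norm_eq_abs, Real.norm_eq_abs,
      Nat.abs_cast, pow_one]
    have h1 := mul_le_mul_of_nonneg_left (ha n) (by positivity : (0 : ℝ) ≤ n * |z| ^ n)
    linarith
  · obtain ⟨ρ, hρ1, hρ2⟩ := exists_between hz
    have hρ0 : 0 < ρ := lt_of_le_of_lt (abs_nonneg z) hρ1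
    have hu : Summable fun n : ℕ => C * (n * ρ ^ (n - 1)) := by
      have h := ((summable_pow_mul_geometric_of_norm_lt_one 1 (r := ρ)
        (by rwa [Real.norm_eq_abs, abs_of_pos hρ0])).mul_left (C / ρ))
      refine h.congr fun n => ?_
      rcases Nat.eq_zero_or_pos n with rfl | hn
      · simp
      · obtain ⟨m, rfl⟩ : ∃ m, n = m + 1 := ⟨n - 1, by omega⟩
        rw [Nat.add_sub_cancel, pow_one, pow_succ]
        field_simp
    refine hasDerivAt_tsum_of_isPreconnected (t := Set.Ioo (-ρ) ρ) hu isOpen_Ioo
      isPreconnected_Ioo (g := fun n z => a n * z ^ n)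
      (g' := fun n z => a n * (n * z ^ (n - 1))) (fun n y _ => ?_) (fun n y hy => ?_)
      (y₀ := 0) ⟨by linarith, hρ0⟩ (hs1 0 (by simp)) (abs_lt.1 hρ1)
    · exact (hasDerivAt_pow n y).const_mul (a n)
    · rw [norm_mul, norm_mul, norm_pow, Real.norm_eq_abs, Real.norm_eq_abs, Real.norm_eq_abs,
        Nat.abs_cast]
      have hy' : |y| ≤ ρ := (abs_lt.2 hy).le
      have hC : 0 ≤ C := (abs_nonneg _).trans (ha 0)
      gcongr
      exact ha n

/-- identification of a function with a power series -/
theorem Ser_step {c : ℕ → ℝ} {C : ℝ} (hc : ∀ n, |c n| ≤ C) (hc0 : c 0 = 0) {F G : ℝ → ℝ}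
    (hF : ∀ z, 0 < z → z < 1 → HasDerivAt F (G z) z) (hl : Tendsto F (𝓝[>] 0) (𝓝 0))
    (hG : ∀ z, 0 < z → z < 1 → HasSum (fun n : ℕ => (n : ℝ) * c n * z ^ n) (z * G z)) {z : ℝ}
    (h0 : 0 < z) (h1 : z < 1) : HasSum (fun n => c n * z ^ n) (F z) := by
  have habs : ∀ w : ℝ, 0 < w → w < 1 → |w| < 1 := fun w h h' => by rwa [abs_of_pos h]
  have key : F z - ∑' n, c n * z ^ n = 0 := by
    refine Ser_const (F := fun z => F z - ∑' n, c n * z ^ n) (fun w hw0 hw1 => ?_) ?_ h0 h1
    · have h2 := (Ser_ps hc (habs w hw0 hw1)).2.2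
      have h3 : ∑' n : ℕ, c n * (n * w ^ (n - 1)) = G w := by
        have h4 : ∀ n : ℕ, c n * (n * w ^ (n - 1)) = w⁻¹ * ((n : ℝ) * c n * w ^ n) := by
          intro n
          rcases Nat.eq_zero_or_pos n with rfl | hn
          · simp
          · obtain ⟨m, rfl⟩ : ∃ m, n = m + 1 := ⟨n - 1, by omega⟩
            rw [Nat.add_sub_cancel, pow_succ]
            field_simp
        simp only [h4]
        rw [((hG w hw0 hw1).mul_left w⁻¹).tsum_eq]
        field_simp
      rw [h3] at h2
      have h5 := (hF w hw0 hw1).sub h2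
      rwa [sub_self] at h5
    · have h2 := (Ser_ps hc (z := 0) (by simp)).2.2.continuousAt.tendsto
      have h3 : ∑' n, c n * (0 : ℝ) ^ n = 0 := by
        rw [tsum_eq_single 0 (fun n hn => by rw [zero_pow hn, mul_zero]), hc0, zero_mul]
      rw [h3] at h2
      have h4 := hl.sub (h2.mono_left (nhdsWithin_le_nhds (s := Set.Ioi 0)))
      rwa [sub_zero] at h4
  have h6 := (Ser_ps hc (habs z h0 h1)).1.hasSum
  rwa [← sub_eq_zero.1 key] at h6

/-! ### the coefficients -/

theorem Ser_co_bd (k : Kind) (r : List Bool) : ∀ n, |co k r n| ≤ 2 ^ r.length := by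
  induction r with
  | nil => intro n; simp [co]
  | cons b r ih =>
    intro n
    match b, r, ih with
    | b, [], _ =>
      simp only [co, List.length_cons, List.length_nil, zero_add, pow_one]
      by_cases h : 0 < n ∧ n % 2 = (if k = Kind.X then 1 else 0)
      · rw [if_pos h, abs_div, Nat.abs_cast]
        rw [div_le_iff₀ (by exact_mod_cast h.1)]
        have : (1 : ℝ) ≤ n := by exact_mod_cast h.1
        norm_num
        linarith
      · rw [if_neg h]
        norm_num
    | false, c :: r, ih =>
      have e : co k (false :: c :: r) n = co k (c :: r) n / n := rfl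
      rw [e, abs_div, Nat.abs_cast, List.length_cons, pow_succ]
      have h1 := ih n
      have h2 : |co k (c :: r) n| / n ≤ |co k (c :: r) n| := by
        rcases Nat.eq_zero_or_pos n with rfl | hn
        · simp
        · exact div_le_self (abs_nonneg _) (by exact_mod_cast hn)
      have h3 : (0 : ℝ) ≤ 2 ^ (c :: r).length := by positivity
      linarith
    | true, c :: r, ih =>
      have e : co k (true :: c :: r) n = -2 / (n : ℝ) * ∑ m ∈ Finset.range n,
        if m % 2 = n % 2 then co k (c :: r) m else 0 := rfl
      rw [e, abs_mul, abs_div, Nat.abs_cast, List.length_cons, pow_succ]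
      have h1 : |∑ m ∈ Finset.range n, if m % 2 = n % 2 then co k (c :: r) m else 0| ≤
          n * 2 ^ (c :: r).length := by
        refine (Finset.abs_sum_le_sum_abs _ _).trans ?_
        refine (Finset.sum_le_sum (g := fun _ => (2 : ℝ) ^ (c :: r).length) fun m _ => ?_).trans
          (by rw [Finset.sum_const, Finset.card_range, nsmul_eq_mul])
        split_ifs
        · exact ih m
        · simp only [abs_zero]
          positivity
      have h3 : (0 : ℝ) ≤ 2 ^ (c :: r).length := by positivity
      rcases Nat.eq_zero_or_pos n with rfl | hn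
      · simp
      · have hn' : (0 : ℝ) < n := by exact_mod_cast hn
        calc |(-2 : ℝ)| / n * |∑ m ∈ Finset.range n, if m % 2 = n % 2 then co k (c :: r) m else 0|
            ≤ |(-2 : ℝ)| / n * (n * 2 ^ (c :: r).length) :=
              mul_le_mul_of_nonneg_left h1 (by positivity)
          _ = 2 ^ (c :: r).length * 2 := by
              rw [abs_neg, abs_two]
              field_simp

theorem Ser_co_zero (k : Kind) (r : List Bool) : co k r 0 = 0 := by
  match r with
  | [] => rfl
  | [_] => simp [co]
  | false :: c :: r =>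
    have e : co k (false :: c :: r) 0 = co k (c :: r) 0 / (0 : ℕ) := rfl
    rw [e]
    simp
  | true :: c :: r =>
    have e : co k (true :: c :: r) 0 = -2 / ((0 : ℕ) : ℝ) * ∑ m ∈ Finset.range 0,
        if m % 2 = 0 % 2 then co k (c :: r) m else 0 := rfl
    rw [e]
    simp

/-- the recursion `d (n + 2) = d n - 2 a n` -/
theorem Ser_rec {a d : ℕ → ℝ} {z f K : ℝ} (h0 : 0 < z) (h1 : z < 1) (hd0 : d 0 = 0)
    (hr : ∀ n, d (n + 2) = d n - 2 * a n) (ha : HasSum (fun n => a n * z ^ n) f)
    (hK : HasSum (fun n => d n * z ^ n) K) :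
    K = d 1 * z / (1 - z ^ 2) + z * (f * (1 / (z - 1) + 1 / (z - -1))) := by
  have h2 : HasSum (fun n => d (n + 2) * z ^ (n + 2))
      (K - ∑ i ∈ Finset.range 2, d i * z ^ i) := (hasSum_nat_add_iff' 2).2 hK
  have h3 : HasSum (fun n => d (n + 2) * z ^ (n + 2)) (z ^ 2 * K - 2 * z ^ 2 * f) := by
    have h4 := (hK.mul_left (z ^ 2)).sub (ha.mul_left (2 * z ^ 2))
    have e : (fun n => d (n + 2) * z ^ (n + 2)) =
        fun n => z ^ 2 * (d n * z ^ n) - 2 * z ^ 2 * (a n * z ^ n) := by
      funext n
      rw [hr]
      ring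
    rw [e]
    exact h4
  have h4 := h2.unique h3
  rw [Finset.sum_range_succ, Finset.sum_range_one, hd0] at h4
  have h5 : 1 - z ^ 2 ≠ 0 := by nlinarith
  have h6 : z - 1 ≠ 0 := by linarith
  have h7 : z - -1 ≠ 0 := by linarith
  have h8 : K * (1 - z ^ 2) = d 1 * z - 2 * z ^ 2 * f := by linarith
  have h9 : K = (d 1 * z - 2 * z ^ 2 * f) / (1 - z ^ 2) := by
    rw [eq_div_iff h5, h8]
  rw [h9]
  field_simp
  ring

theorem Ser_N_E {k : Kind} (hk : k ≠ Kind.Z) {s : List Bool} (hs : s ≠ []) (hb : hdB s = true) :
    E k s ∈ Ser_N := by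
  cases k with
  | Z => exact absurd rfl hk
  | X => exact Ser_N_X hs
  | Y =>
    obtain ⟨b, s, rfl⟩ := List.exists_cons_of_ne_nil hs
    have : b = true := hb
    subst this
    exact Ser_N_Y (by simp)

theorem Ser_E_true {k : Kind} (hk : k ≠ Kind.Z) {s : List Bool} (hs : s ≠ []) :
    E k (s ++ [true]) = Ser_app 1 (E k s) + Ser_app (-1) (E k s) := by
  cases k with
  | Z => exact absurd rfl hk
  | X => exact Ser_X_true s hs
  | Y => exact Ser_Y_true s

theorem Ser_E_false {k : Kind} (hk : k ≠ Kind.Z) {s : List Bool} (hs : s ≠ []) :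
    E k (s ++ [false]) = Ser_app 0 (E k s) := by
  cases k with
  | Z => exact absurd rfl hk
  | X => exact Ser_X_false s hs
  | Y => exact Ser_Y_false s

theorem Ser_main (h0 : St_Lzero) (hd : St_Lderiv) (k : Kind) (hk : k ≠ Kind.Z) :
    ∀ r : List Bool, r ≠ [] → hdB r.reverse = true → ∀ z : ℝ, 0 < z → z < 1 →
      HasSum (fun n => co k r n * z ^ n) (LV z (E k r.reverse)) := by
  have habs : ∀ w : ℝ, 0 < w → w < 1 → |w| < 1 := fun w h h' => by rwa [abs_of_pos h]
  intro r
  induction r with
  | nil => intro h; exact absurd rfl h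
  | cons b r ih =>
    intro hr hb z hz0 hz1
    have hlim : Tendsto (fun z => LV z (E k (b :: r).reverse)) (𝓝[>] 0) (𝓝 0) :=
      Ser_N_lim h0 (Ser_N_E hk (by simp) hb)
    rcases r with _ | ⟨c, r⟩
    · -- one letter
      have hb' : b = true := hb
      subst hb'
      have hred : E k [true].reverse = E k [true] := rfl
      rw [hred] at hlim ⊢
      have hL : ∀ w, LV w (wd []) = 1 := fun w => by
        rw [Ser_LV_wd]
        rfl
      have hco : ∀ n : ℕ, (n : ℝ) * co k [true] n =
          if 0 < n ∧ n % 2 = (if k = Kind.X then 1 else 0) then -2 else 0 := by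
        intro n
        simp only [co]
        by_cases h : 0 < n ∧ n % 2 = (if k = Kind.X then 1 else 0)
        · have : (n : ℝ) ≠ 0 := by
            have := h.1
            positivity
          rw [if_pos h, if_pos h]
          field_simp
        · rw [if_neg h, if_neg h, mul_zero]
      cases k with
      | Z => exact absurd rfl hk
      | X =>
        have hE : E Kind.X [true] = Ser_app 1 (wd []) - Ser_app (-1) (wd []) := by
          simp [E, Xs, Ys, Ser_app_wd, Ser_pre_wd]
        refine Ser_step (G := fun w => 1 / (w - 1) - 1 / (w - -1)) (Ser_co_bd Kind.X [true])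
          (Ser_co_zero _ _) (fun w hw0 hw1 => ?_) hlim (fun w hw0 hw1 => ?_) hz0 hz1
        · have h1 := (Ser_deriv hd 1 (wd []) w hw0 hw1).fun_sub
            (Ser_deriv hd (-1) (wd []) w hw0 hw1)
          simp only [hL, SignType.coe_one, SignType.coe_neg_one] at h1
          simp only [hE, map_sub]
          exact h1
        · have hK := (Ser_ps (Ser_co_bd Kind.X [true]) (habs w hw0 hw1)).2.1.hasSum
          have h1 := Ser_rec (a := fun _ => 0) (f := 0)
            (d := fun n : ℕ => (n : ℝ) * co Kind.X [true] n) hw0 hw1 (by simp) (fun n => ?_)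
            (by simp) hK
          · rw [h1] at hK
            have h2 : w * (1 / (w - 1) - 1 / (w - -1)) =
                ((1 : ℕ) : ℝ) * co Kind.X [true] 1 * w / (1 - w ^ 2) +
                  w * (0 * (1 / (w - 1) + 1 / (w - -1))) := by
              rw [hco]
              have h5 : 1 - w ^ 2 ≠ 0 := by nlinarith
              have h6 : w - 1 ≠ 0 := by linarith
              have h7 : w - -1 ≠ 0 := by linarith
              norm_num
              field_simp
              ring
            rw [h2]
            exact hK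
          · simp only [hco]
            have e1 : (n + 2) % 2 = n % 2 := by omega
            simp only [e1, if_true, mul_zero, sub_zero]
            rcases Nat.eq_zero_or_pos n with rfl | hn
            · simp
            · have : 0 < n + 2 := by omega
              simp [hn]
      | Y =>
        have hE : E Kind.Y [true] = Ser_app 1 (wd []) + Ser_app (-1) (wd []) := by
          simp [E, Ys, Ser_app_wd, Ser_pre_wd]
        refine Ser_step (G := fun w => 1 / (w - 1) + 1 / (w - -1)) (Ser_co_bd Kind.Y [true])
          (Ser_co_zero _ _) (fun w hw0 hw1 => ?_) hlim (fun w hw0 hw1 => ?_) hz0 hz1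
        · have h1 := (Ser_deriv hd 1 (wd []) w hw0 hw1).fun_add
            (Ser_deriv hd (-1) (wd []) w hw0 hw1)
          simp only [hL, SignType.coe_one, SignType.coe_neg_one] at h1
          simp only [hE, map_add]
          exact h1
        · have hK := (Ser_ps (Ser_co_bd Kind.Y [true]) (habs w hw0 hw1)).2.1.hasSum
          have h1 := Ser_rec (a := fun n => if n = 0 then 1 else 0) (f := 1)
            (d := fun n : ℕ => (n : ℝ) * co Kind.Y [true] n) hw0 hw1 (by simp) (fun n => ?_)
            (by
              have h := hasSum_single (f := fun n : ℕ => (if n = 0 then (1 : ℝ) else 0) * w ^ n) 0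
                (fun n hn => by simp [hn])
              simpa using h) hK
          · rw [h1] at hK
            have h2 : w * (1 / (w - 1) + 1 / (w - -1)) =
                ((1 : ℕ) : ℝ) * co Kind.Y [true] 1 * w / (1 - w ^ 2) +
                  w * (1 * (1 / (w - 1) + 1 / (w - -1))) := by
              rw [hco, if_neg (by simp)]
              ring
            rw [h2]
            exact hK
          · simp only [hco]
            have e1 : (n + 2) % 2 = n % 2 := by omega
            simp only [e1]
            rcases Nat.eq_zero_or_pos n with rfl | hn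
            · simp
            · have : n ≠ 0 := by omega
              simp [hn, this]
    · -- more letters
      have hs : (c :: r).reverse ≠ [] := by simp
      have hb2 : hdB (c :: r).reverse = true := by
        obtain ⟨x, l, hxl⟩ := List.exists_cons_of_ne_nil hs
        rw [List.reverse_cons, hxl] at hb
        rw [hxl]
        exact hb
      have IH := ih (by simp) hb2
      have hrev : (b :: c :: r).reverse = (c :: r).reverse ++ [b] := List.reverse_cons
      rw [hrev] at hlim ⊢
      cases b with
      | false =>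
        have hE := Ser_E_false hk hs
        refine Ser_step (G := fun w => LV w (E k (c :: r).reverse) / w) (Ser_co_bd k _)
          (Ser_co_zero _ _) (fun w hw0 hw1 => ?_) hlim (fun w hw0 hw1 => ?_) hz0 hz1
        · have h1 := Ser_deriv hd 0 (E k (c :: r).reverse) w hw0 hw1
          rw [hE]
          simpa using h1
        · have h1 := IH w hw0 hw1
          have h2 : w * (LV w (E k (c :: r).reverse) / w) = LV w (E k (c :: r).reverse) := by
            field_simp
          rw [h2]
          have h3 : (fun n : ℕ => (n : ℝ) * co k (false :: c :: r) n * w ^ n) =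
              fun n => co k (c :: r) n * w ^ n := by
            funext n
            have e : co k (false :: c :: r) n = co k (c :: r) n / n := rfl
            rcases Nat.eq_zero_or_pos n with rfl | hn
            · rw [Ser_co_zero k (c :: r)]
              simp
            · rw [e]
              have : (n : ℝ) ≠ 0 := by positivity
              field_simp
          rw [h3]
          exact h1
      | true =>
        have hE := Ser_E_true hk hs
        refine Ser_step (G := fun w => LV w (E k (c :: r).reverse) / (w - 1) +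
          LV w (E k (c :: r).reverse) / (w - -1)) (Ser_co_bd k _)
          (Ser_co_zero _ _) (fun w hw0 hw1 => ?_) hlim (fun w hw0 hw1 => ?_) hz0 hz1
        · have h1 := (Ser_deriv hd 1 (E k (c :: r).reverse) w hw0 hw1).fun_add
            (Ser_deriv hd (-1) (E k (c :: r).reverse) w hw0 hw1)
          simp only [SignType.coe_one, SignType.coe_neg_one] at h1
          simp only [hE, map_add]
          exact h1
        · have hK := (Ser_ps (Ser_co_bd k (true :: c :: r)) (habs w hw0 hw1)).2.1.hasSum
          have hd' : ∀ n : ℕ, (n : ℝ) * co k (true :: c :: r) n = -2 * ∑ m ∈ Finset.range n,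
              if m % 2 = n % 2 then co k (c :: r) m else 0 := by
            intro n
            have e : co k (true :: c :: r) n = -2 / (n : ℝ) * ∑ m ∈ Finset.range n,
              if m % 2 = n % 2 then co k (c :: r) m else 0 := rfl
            rcases Nat.eq_zero_or_pos n with rfl | hn
            · simp
            · rw [e]
              have : (n : ℝ) ≠ 0 := by positivity
              field_simp
          have h1 := Ser_rec (d := fun n : ℕ => (n : ℝ) * co k (true :: c :: r) n) hw0 hw1
            (by simp) (fun n => ?_) (IH w hw0 hw1) hK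
          · rw [h1] at hK
            have h2 : w * (LV w (E k (c :: r).reverse) / (w - 1) +
                LV w (E k (c :: r).reverse) / (w - -1)) =
                ((1 : ℕ) : ℝ) * co k (true :: c :: r) 1 * w / (1 - w ^ 2) +
                  w * (LV w (E k (c :: r).reverse) * (1 / (w - 1) + 1 / (w - -1))) := by
              rw [hd', Finset.sum_range_one, if_neg (by norm_num)]
              ring
            rw [h2]
            exact hK
          · simp only [hd']
            have e1 : (n + 2) % 2 = n % 2 := by omega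
            have e2 : ¬ (n + 1) % 2 = n % 2 := by omega
            rw [Finset.sum_range_succ, Finset.sum_range_succ, e1, if_pos rfl, if_neg e2]
            ring

theorem thm_series (h0 : St_Lzero) (hd : St_Lderiv) : St_series := by
  intro k s hk hs hb z hz0 hz1
  have h := Ser_main h0 hd k hk s.reverse (by simpa using hs) (by rwa [List.reverse_reverse])
    z hz0 hz1
  rwa [List.reverse_reverse] at h

end Pool.MTV
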