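import Pool.Agent.MTV.StP

/-!
# Trigonometric sums, summed (Tonelli)
-/

open Filter Topology MeasureTheory Set

namespace Pool.MTV

/-! ### termwise integration of series with nonnegative terms -/

private theorem sumsTonelli {a b : ℝ} (hab : a ≤ b) (F : ℕ → ℝ → ℝ) (f : ℝ → ℝ)
    (hF : ∀ m, Continuous (F m)) (hpos : ∀ m, ∀ x ∈ Ioo a b, 0 ≤ F m x)
    (hsum : ∀ x ∈ Ioo a b, HasSum (fun m => F m x) (f x))
    (hf : IntervalIntegrable f volume a b) :
    HasSum (fun m => ∫ x in a..b, F m x) (∫ x in a..b, f x) := by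
  have hae : ∀ᵐ x ∂(volume : Measure ℝ), x ∈ uIoc a b → x ∈ Ioo a b := by
    have h1 : ∀ᵐ x ∂(volume : Measure ℝ), x ≠ b := by simp [ae_iff]
    filter_upwards [h1] with x hx hxI
    rw [uIoc_of_le hab] at hxI
    exact ⟨hxI.1, lt_of_le_of_ne hxI.2 hx⟩
  have hae2 : ∀ᵐ x ∂(volume : Measure ℝ), x ∈ uIoc a b → f x = ∑' n, F n x := by
    filter_upwards [hae] with x hx hxI
    exact ((hsum x (hx hxI)).tsum_eq).symm
  refine intervalIntegral.hasSum_integral_of_dominated_convergence F
    (fun n => (hF n).aestronglyMeasurable) (fun n => ?_) ?_ ?_ ?_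
  · filter_upwards [hae] with x hx hxI
    rw [Real.norm_of_nonneg (hpos n x (hx hxI))]
  · filter_upwards [hae] with x hx hxI
    exact (hsum x (hx hxI)).summable
  · refine hf.congr_ae ?_
    exact (ae_restrict_iff' measurableSet_uIoc).mpr hae2
  · filter_upwards [hae] with x hx hxI
    exact hsum x (hx hxI)

/-! ### signs -/

private theorem sumsGam : ∀ m, 0 ≤ gam m
  | 0 => by simp [gam]
  | 1 => by simp [gam]
  | 2 => by norm_num [gam]
  | n + 3 => by
      have := sumsGam (n + 1)
      simp only [gam]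
      positivity

private theorem sumsAn : ∀ a m, 0 ≤ An a m
  | 0, m => by simp [An]
  | a + 1, m => by
      simp only [An]
      refine Finset.sum_nonneg fun n _ => ?_
      have := sumsAn a n
      split_ifs
      · positivity
      · exact le_rfl

private theorem sumsKp {e : ℕ} : 0 < kp e := by
  have := Real.pi_pos
  unfold kp
  split_ifs
  · exact one_pos
  · positivity

private theorem sumsKpMod {m e : ℕ} (h : m % 2 = e % 2) : kp m = kp e := by
  simp [kp, h]

/-! ### the main tool -/

private theorem sumsKey (c : ℕ → ℝ) (hc : ∀ m, 0 ≤ c m) (f : ℝ → ℝ) (b : ℕ)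
    (hs : ∀ φ, 0 < φ → φ < Real.pi / 2 → HasSum (fun m => c m * Real.sin φ ^ m) (f φ))
    (hi : IntervalIntegrable (fun θ => f (Real.pi / 2 - θ) * (θ ^ (2 * b) / (2 * b).factorial))
      volume 0 (Real.pi / 2)) :
    HasSum (fun m => c m * ∫ θ in (0 : ℝ)..(Real.pi / 2),
        Real.cos θ ^ m * θ ^ (2 * b) / (2 * b).factorial)
      (∫ θ in (0 : ℝ)..(Real.pi / 2), f (Real.pi / 2 - θ) * (θ ^ (2 * b) / (2 * b).factorial)) := by
  have hpi := Real.pi_pos
  have h := sumsTonelli (a := 0) (b := Real.pi / 2) (by positivity)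
    (fun m θ => c m * (Real.cos θ ^ m * θ ^ (2 * b) / (2 * b).factorial))
    (fun θ => f (Real.pi / 2 - θ) * (θ ^ (2 * b) / (2 * b).factorial)) (fun m => by fun_prop)
    (fun m x hx => by
      have h1 : 0 ≤ Real.cos x := Real.cos_nonneg_of_mem_Icc ⟨by linarith [hx.1], hx.2.le⟩
      have h2 := hc m
      have h3 := hx.1
      positivity) (fun x hx => by
      have h1 := (hs (Real.pi / 2 - x) (by linarith [hx.2]) (by linarith [hx.1])).mul_right
        (x ^ (2 * b) / (2 * b).factorial)
      rw [Real.sin_pi_div_two_sub] at h1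
      refine h1.congr_fun fun m => ?_
      ring) hi
  simpa only [intervalIntegral.integral_const_mul] using h

private theorem sumsTerm (hw : St_wallis) (b e : ℕ) (d : ℕ → ℝ) (m : ℕ) :
    (if m % 2 = e % 2 then gam m * d m else 0) * (∫ θ in (0 : ℝ)..(Real.pi / 2),
        Real.cos θ ^ m * θ ^ (2 * b) / (2 * b).factorial)
      = kp e * (if 0 < m ∧ m % 2 = e % 2 then d m * Bn b m / (m : ℝ) ^ 2 else 0) := by
  by_cases hm : m % 2 = e % 2
  · rcases Nat.eq_zero_or_pos m with h0 | h0
    · subst h0
      simp [gam]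
    · rw [if_pos hm, if_pos ⟨h0, hm⟩]
      have h1 := hw b m h0
      rw [sumsKpMod hm] at h1
      calc gam m * d m * _ = d m * (gam m * (∫ θ in (0 : ℝ)..(Real.pi / 2),
              Real.cos θ ^ m * θ ^ (2 * b) / (2 * b).factorial)) := by ring
        _ = _ := by rw [h1]; ring
  · rw [if_neg hm, if_neg (fun h => hm h.2)]
    ring

private theorem sumsMain (hw : St_wallis) (b e : ℕ) (d : ℕ → ℝ)
    (hd : ∀ m, m % 2 = e % 2 → 0 ≤ d m) (f : ℝ → ℝ)
    (hs : ∀ φ, 0 < φ → φ < Real.pi / 2 →
      HasSum (fun m => (if m % 2 = e % 2 then gam m * d m else 0) * Real.sin φ ^ m) (f φ))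
    (hi : IntervalIntegrable (fun θ => f (Real.pi / 2 - θ) * (θ ^ (2 * b) / (2 * b).factorial))
      volume 0 (Real.pi / 2)) :
    HasSum (fun m : ℕ => if 0 < m ∧ m % 2 = e % 2 then d m * Bn b m / (m : ℝ) ^ 2 else 0)
      ((kp e)⁻¹ * ∫ θ in (0 : ℝ)..(Real.pi / 2),
        f (Real.pi / 2 - θ) * (θ ^ (2 * b) / (2 * b).factorial)) := by
  have h := (sumsKey (fun m => if m % 2 = e % 2 then gam m * d m else 0) (fun m => by
    by_cases hm : m % 2 = e % 2
    · simp only [if_pos hm]
      exact mul_nonneg (sumsGam m) (hd m hm)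
    · simp only [if_neg hm]; exact le_rfl) f b hs hi).mul_left (kp e)⁻¹
  refine h.congr_fun fun m => ?_
  rw [sumsTerm hw, inv_mul_cancel_left₀ (ne_of_gt sumsKp)]

/-! ### integrability -/

private theorem sumsSinc {x : ℝ} (h0 : 0 ≤ x) (h1 : x ≤ Real.pi / 2) : Real.sinc x ≠ 0 := by
  rcases h0.eq_or_lt with h | h
  · rw [← h]; simp
  · rw [Real.sinc_of_ne_zero h.ne']
    have : 0 < Real.sin x := Real.sin_pos_of_pos_of_lt_pi h (by linarith [Real.pi_pos])
    positivity

private theorem sumsCot (k : ℕ) (hk : 1 ≤ k) (h : ℝ → ℝ) (hh : Continuous h) :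
    IntervalIntegrable (fun x => Real.cot x * (x ^ k * h x)) volume 0 (Real.pi / 2) := by
  have hpi := Real.pi_pos
  have hc : ContinuousOn (fun x => Real.cos x * (x ^ (k - 1) * h x) / Real.sinc x)
      (uIcc 0 (Real.pi / 2)) := by
    rw [uIcc_of_le (by positivity)]
    refine ContinuousOn.div (by fun_prop) Real.continuous_sinc.continuousOn fun x hx => ?_
    exact sumsSinc hx.1 hx.2
  refine hc.intervalIntegrable.congr_ae ?_
  refine (ae_restrict_iff' measurableSet_uIoc).mpr (Eventually.of_forall fun x hx => ?_)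
  rw [uIoc_of_le (by positivity)] at hx
  obtain ⟨k, rfl⟩ : ∃ j, k = j + 1 := ⟨k - 1, by omega⟩
  have hs : 0 < Real.sin x := Real.sin_pos_of_pos_of_lt_pi hx.1 (by linarith [hx.2])
  have hx0 : x ≠ 0 := hx.1.ne'
  simp only [Nat.add_sub_cancel, Real.sinc_of_ne_zero hx0, Real.cot_eq_cos_div_sin]
  field_simp
  ring

private theorem sumsCotPoly (R : Polynomial ℝ) (hR : R.eval 0 = 0) :
    IntervalIntegrable (fun x => Real.cot x * R.eval x) volume 0 (Real.pi / 2) := by
  have h := sumsCot 1 le_rfl (fun x => R.divX.eval x) (by fun_prop)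
  refine h.congr_ae (Eventually.of_forall fun x => ?_)
  have h1 : R = Polynomial.X * R.divX := by
    conv_lhs => rw [← Polynomial.X_mul_divX_add R]
    rw [Polynomial.coeff_zero_eq_eval_zero, hR]
    simp
  have h2 : R.eval x = x * R.divX.eval x := by
    conv_lhs => rw [h1]
    simp
  simp only [h2, pow_one]

private theorem sumsTan (x : ℝ) : Real.tan (Real.pi / 2 - x) = Real.cot x := by
  rw [Real.tan_pi_div_two_sub, Real.tan_eq_sin_div_cos, Real.cot_eq_cos_div_sin, inv_div]

/-! ### the four sums -/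

theorem thm_sum3 (hI : St_phiI) (hw : St_wallis) : St_sum3 := by
  intro a b e he
  have hpi := Real.pi_pos
  set N := 2 * a + e with hN
  have hN1 : 1 ≤ N := by rcases he with rfl | rfl <;> omega
  let g : ℝ → ℝ := fun u => Real.cot u * u ^ N / N.factorial
  have hg : IntervalIntegrable g volume 0 (Real.pi / 2) := by
    have h := sumsCot N hN1 (fun _ => 1 / (N.factorial : ℝ)) continuous_const
    refine h.congr_ae (Eventually.of_forall fun x => ?_)
    simp only [g]; ring
  let G : ℝ → ℝ := fun φ => ∫ u in (0 : ℝ)..φ, g u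
  have hGc : ContinuousOn G (uIcc 0 (Real.pi / 2)) :=
    intervalIntegral.continuousOn_primitive_interval' hg left_mem_uIcc
  have hGi : IntervalIntegrable
      (fun θ => G (Real.pi / 2 - θ) * (θ ^ (2 * b) / (2 * b).factorial))
      volume 0 (Real.pi / 2) := by
    refine ContinuousOn.intervalIntegrable (ContinuousOn.mul ?_ (by fun_prop))
    refine hGc.comp (by fun_prop) fun x hx => ?_
    rw [uIcc_of_le (by positivity)] at hx ⊢
    exact ⟨by linarith [hx.2], by linarith [hx.1]⟩
  have hs : ∀ φ, 0 < φ → φ < Real.pi / 2 →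
      HasSum (fun m => (if m % 2 = e % 2 then gam m * (An a m / m) else 0) * Real.sin φ ^ m)
        (G φ) := by
    intro φ h0 h1
    refine (hI a e he φ h0 h1).congr_fun fun m => ?_
    split_ifs <;> ring
  have key := sumsMain hw b e (fun m => An a m / m) (fun m _ => div_nonneg (sumsAn a m) (Nat.cast_nonneg m))
    G hs hGi
  have hint : (∫ θ in (0 : ℝ)..(Real.pi / 2),
      G (Real.pi / 2 - θ) * (θ ^ (2 * b) / (2 * b).factorial)) = Jc (Rpq N (2 * b + 1)) := by
    have h1 : (∫ θ in (0 : ℝ)..(Real.pi / 2),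
        G (Real.pi / 2 - θ) * (θ ^ (2 * b) / (2 * b).factorial))
        = ∫ φ in (0 : ℝ)..(Real.pi / 2), G φ * ((Real.pi / 2 - φ) ^ (2 * b) / (2 * b).factorial) := by
      have := intervalIntegral.integral_comp_sub_left (a := 0) (b := Real.pi / 2)
        (fun φ => G φ * ((Real.pi / 2 - φ) ^ (2 * b) / (2 * b).factorial)) (Real.pi / 2)
      simp only [sub_sub_cancel, sub_self, sub_zero] at this
      exact this
    rw [h1]
    have h2 := intervalIntegral.integral_mul_deriv_eq_deriv_mul_of_hasDerivAt
      (a := 0) (b := Real.pi / 2) (u := G)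
      (v := fun φ => -((Real.pi / 2 - φ) ^ (2 * b + 1) / (2 * b + 1).factorial)) (u' := g)
      (v' := fun φ => (Real.pi / 2 - φ) ^ (2 * b) / (2 * b).factorial) hGc (by fun_prop)
      (fun x hx => by
        rw [min_eq_left (by positivity), max_eq_right (by positivity)] at hx
        have hsx : Real.sin x ≠ 0 :=
          (Real.sin_pos_of_pos_of_lt_pi hx.1 (by linarith [hx.2])).ne'
        have hnh : Ioo (0 : ℝ) (Real.pi / 2) ∈ 𝓝 x := Ioo_mem_nhds hx.1 hx.2
        have hcont : ContinuousOn g (Ioo 0 (Real.pi / 2)) := by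
          have : ContinuousOn (fun u : ℝ => Real.cos u / Real.sin u * u ^ N / N.factorial)
              (Ioo 0 (Real.pi / 2)) := by
            refine ContinuousOn.div_const (ContinuousOn.mul (ContinuousOn.div (by fun_prop)
              (by fun_prop) fun y hy => ?_) (by fun_prop)) _
            exact (Real.sin_pos_of_pos_of_lt_pi hy.1 (by linarith [hy.2])).ne'
          refine this.congr fun y _ => ?_
          simp only [g, Real.cot_eq_cos_div_sin]
        refine intervalIntegral.integral_hasDerivAt_right ?_ ?_ ?_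
        · exact hg.mono_set (by
            rw [uIcc_of_le hx.1.le, uIcc_of_le (by positivity)]
            exact Icc_subset_Icc_right hx.2.le)
        · exact hcont.stronglyMeasurableAtFilter isOpen_Ioo x hx
        · exact hcont.continuousAt hnh)
      (fun x _ => by
        have h3 := (((hasDerivAt_id x).const_sub (Real.pi / 2)).pow (2 * b + 1)).div_const
          ((2 * b + 1).factorial : ℝ)
        have h4 := h3.neg
        refine h4.congr_deriv ?_
        rw [Nat.factorial_succ]
        push_cast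
        simp only [id]
        have : (2 * (b : ℝ) + 1) ≠ 0 := by positivity
        field_simp) hg (Continuous.intervalIntegrable (by fun_prop) _ _)
    rw [h2]
    have hG0 : G 0 = 0 := by simp [G]
    simp only [hG0, sub_self, zero_mul, Jc, ne_eq, Nat.add_eq_zero_iff, one_ne_zero, and_false,
      not_false_eq_true, zero_pow, zero_div, neg_zero, mul_zero, zero_sub, sub_zero]
    rw [← intervalIntegral.integral_neg]
    refine intervalIntegral.integral_congr fun x _ => ?_
    simp only [g, Rpq, Polynomial.eval_mul, Polynomial.eval_C, Polynomial.eval_pow,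
      Polynomial.eval_X, Polynomial.eval_sub]
    ring
  rw [hint] at key
  refine key.congr_fun fun m => ?_
  by_cases hm : 0 < m ∧ m % 2 = e % 2
  · rw [if_pos hm, if_pos hm]
    have : (m : ℝ) ≠ 0 := by exact_mod_cast hm.1.ne'
    field_simp
  · rw [if_neg hm, if_neg hm]

theorem thm_sum1 (hD : St_phiD) (hw : St_wallis) : St_sum1 := by
  intro a b e he hb
  set q := 2 * a + e - 1 with hq
  have hR : (Rpq (2 * b) q).eval 0 = 0 := by
    have : 2 * b ≠ 0 := by omega
    simp [Rpq, this]
  have hcot := sumsCotPoly _ hR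
  have hEq : ∀ x : ℝ, Real.tan (Real.pi / 2 - x) * (Real.pi / 2 - x) ^ q / q.factorial *
      (x ^ (2 * b) / (2 * b).factorial) = Real.cot x * (Rpq (2 * b) q).eval x := by
    intro x
    rw [sumsTan]
    simp only [Rpq, Polynomial.eval_mul, Polynomial.eval_C, Polynomial.eval_pow,
      Polynomial.eval_X, Polynomial.eval_sub]
    ring
  have key := sumsMain hw b e (fun m => m * An a m)
    (fun m _ => mul_nonneg (Nat.cast_nonneg m) (sumsAn a m))
    (fun φ => Real.tan φ * φ ^ q / q.factorial)
    (fun φ h0 h1 => by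
      refine (hD a e he φ h0.le h1).congr_fun fun m => ?_
      split_ifs <;> ring)
    (hcot.congr_ae (Eventually.of_forall fun x => (hEq x).symm))
  simp only [hEq] at key
  refine key.congr_fun fun m => ?_
  by_cases hm : 0 < m ∧ m % 2 = e % 2
  · rw [if_pos hm, if_pos hm]
    have : (m : ℝ) ≠ 0 := by exact_mod_cast hm.1.ne'
    field_simp
  · rw [if_neg hm, if_neg hm]

private theorem sumsAinf (h : ∀ (a e : ℕ), (e = 1 ∨ e = 2) → ∀ φ : ℝ, 0 < φ → φ < Real.pi / 2 →
    HasSum (fun m : ℕ => if m % 2 = e % 2 then gam m * An a m * Real.sin φ ^ m else 0)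
      (φ ^ (2 * a + e) / (2 * a + e).factorial)) (hw : St_wallis) : St_Ainf := by
  intro a e he
  have hpi := Real.pi_pos
  set N := 2 * a + e with hN
  have key := sumsMain hw 0 e (fun m => An a m) (fun m _ => sumsAn a m)
    (fun φ => φ ^ N / N.factorial)
    (fun φ h0 h1 => by
      refine (h a e he φ h0 h1).congr_fun fun m => ?_
      split_ifs <;> ring)
    (Continuous.intervalIntegrable (by fun_prop) _ _)
  have hint : (∫ θ in (0 : ℝ)..(Real.pi / 2), (Real.pi / 2 - θ) ^ N / N.factorial *
      (θ ^ (2 * 0) / (2 * 0).factorial)) = (Real.pi / 2) ^ (N + 1) / (N + 1).factorial := by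
    have h1 : ∀ θ : ℝ, (Real.pi / 2 - θ) ^ N / N.factorial * (θ ^ (2 * 0) / (2 * 0).factorial)
        = (Real.pi / 2 - θ) ^ N * (1 / N.factorial) := by intro θ; simp; ring
    simp only [h1]
    rw [intervalIntegral.integral_mul_const,
      intervalIntegral.integral_comp_sub_left (fun x : ℝ => x ^ N), integral_pow,
      Nat.factorial_succ]
    simp only [sub_self, sub_zero, ne_eq, Nat.add_eq_zero_iff, one_ne_zero, and_false,
      not_false_eq_true, zero_pow]
    push_cast
    field_simp
  rw [hint] at key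
  have hval : (kp e)⁻¹ * ((Real.pi / 2) ^ (N + 1) / (N + 1).factorial) = Ainf (a + 1) e := by
    rcases he with rfl | rfl
    · simp [kp, Ainf, hN, mul_add]
    · have h1 : N + 1 = 2 * (a + 1) + 2 - 1 := by omega
      have h2 : N + 1 = 2 * (a + 1) + 1 := by omega
      have h3 : kp 2 = Real.pi / 2 := by simp [kp]
      rw [h3, Ainf, ← h1, h2, pow_succ]
      field_simp
  rw [hval] at key
  refine key.congr_fun fun m => ?_
  simp only [Bn, mul_one]

theorem thm_Ainf (h : St_phi) (hw : St_wallis) : St_Ainf :=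
  sumsAinf (fun a e he φ h0 h1 => h a e he φ h0.le h1) hw

private theorem sumsPhi (hD : St_phiD) (a e : ℕ) (he : e = 1 ∨ e = 2) (φ : ℝ) (h0 : 0 < φ)
    (h1 : φ < Real.pi / 2) :
    HasSum (fun m : ℕ => if m % 2 = e % 2 then gam m * An a m * Real.sin φ ^ m else 0)
      (φ ^ (2 * a + e) / (2 * a + e).factorial) := by
  have hN : ∃ q, 2 * a + e = q + 1 := ⟨2 * a + e - 1, by rcases he with rfl | rfl <;> omega⟩
  obtain ⟨q, hq⟩ := hN
  have h := sumsTonelli (a := 0) (b := φ) h0.le
    (fun m x => (if m % 2 = e % 2 then gam m * An a m else 0) *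
      (m * Real.sin x ^ (m - 1) * Real.cos x))
    (fun x => x ^ q / q.factorial) (fun m => by fun_prop)
    (fun m x hx => by
      have h2 : 0 ≤ Real.cos x := Real.cos_nonneg_of_mem_Icc
        ⟨by linarith [hx.1, Real.pi_pos], by linarith [hx.2]⟩
      have h3 : 0 ≤ Real.sin x := Real.sin_nonneg_of_mem_Icc
        ⟨hx.1.le, by linarith [hx.2, Real.pi_pos]⟩
      have h4 := sumsGam m
      have h5 := sumsAn a m
      refine mul_nonneg ?_ (by positivity)
      split_ifs
      · positivity
      · exact le_rfl)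
    (fun x hx => by
      have hs : 0 < Real.sin x := Real.sin_pos_of_pos_of_lt_pi hx.1
        (by linarith [hx.2, Real.pi_pos])
      have hc : 0 < Real.cos x := Real.cos_pos_of_mem_Ioo
        ⟨by linarith [hx.1, Real.pi_pos], by linarith [hx.2]⟩
      have h2 := (hD a e he x hx.1.le (hx.2.trans h1)).mul_right (Real.cos x / Real.sin x)
      have h3 : Real.tan x * x ^ (2 * a + e - 1) / (2 * a + e - 1).factorial *
          (Real.cos x / Real.sin x) = x ^ q / q.factorial := by
        rw [hq, Nat.add_sub_cancel, Real.tan_eq_sin_div_cos]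
        field_simp
      rw [h3] at h2
      refine h2.congr_fun fun m => ?_
      by_cases hm : m % 2 = e % 2
      · rw [if_pos hm, if_pos hm]
        rcases Nat.eq_zero_or_pos m with h6 | h6
        · subst h6; simp
        · obtain ⟨m, rfl⟩ : ∃ j, m = j + 1 := ⟨m - 1, by omega⟩
          rw [Nat.add_sub_cancel, pow_succ]
          field_simp
      · rw [if_neg hm, if_neg hm]; ring)
    (Continuous.intervalIntegrable (by fun_prop) _ _)
  have hint : (∫ x in (0 : ℝ)..φ, x ^ q / q.factorial)
      = φ ^ (2 * a + e) / (2 * a + e).factorial := by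
    rw [intervalIntegral.integral_div, integral_pow, hq, Nat.factorial_succ]
    push_cast
    simp only [ne_eq, Nat.add_eq_zero_iff, one_ne_zero, and_false, not_false_eq_true, zero_pow,
      sub_zero]
    field_simp
  rw [hint] at h
  refine h.congr_fun fun m => ?_
  rw [intervalIntegral.integral_const_mul]
  have h7 : (∫ x in (0 : ℝ)..φ, m * Real.sin x ^ (m - 1) * Real.cos x)
      = Real.sin φ ^ m - Real.sin 0 ^ m := by
    refine intervalIntegral.integral_eq_sub_of_hasDerivAt (f := fun x => Real.sin x ^ m)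
      (fun x _ => ?_) (Continuous.intervalIntegrable (by fun_prop) _ _)
    exact (Real.hasDerivAt_sin x).pow m
  rw [h7]
  by_cases hm : m % 2 = e % 2
  · rw [if_pos hm, if_pos hm]
    rcases Nat.eq_zero_or_pos m with h6 | h6
    · subst h6; simp [gam]
    · rw [Real.sin_zero, zero_pow h6.ne', sub_zero]
  · rw [if_neg hm, if_neg hm]; ring

private theorem sumsLe (hA : St_Ainf) (a e : ℕ) (he : e = 1 ∨ e = 2) (m : ℕ)
    (hm : m % 2 = e % 2) : An a m ≤ Ainf a e := by
  cases a with
  | zero =>
    have : Ainf 0 e = 1 := by rcases he with rfl | rfl <;> simp [Ainf]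
    rw [this]; simp [An]
  | succ a =>
    rw [An]
    refine le_trans (le_of_eq ?_) (sum_le_hasSum (Finset.range m) (fun n _ => ?_) (hA a e he))
    · refine Finset.sum_congr rfl fun n _ => ?_
      rw [hm]
    · have := sumsAn a n
      split_ifs
      · positivity
      · exact le_rfl

theorem thm_sum0 (hD : St_phiD) (hw : St_wallis) : St_sum0 := by
  intro a e he
  have hpi := Real.pi_pos
  have hA : St_Ainf := sumsAinf (sumsPhi hD) hw
  set R : Polynomial ℝ := Polynomial.C (Ainf a e) * Rpq 0 (e - 1) - Rpq 0 (2 * a + e - 1) with hRdef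
  have hR : R.eval 0 = 0 := by
    rcases he with rfl | rfl
    · simp [hRdef, Rpq, Ainf]
      ring
    · have h1 : 2 * a + 2 - 1 = 2 * a + 1 := by omega
      simp [hRdef, Rpq, Ainf, h1, pow_succ]
      ring
  have hcot := sumsCotPoly _ hR
  have hEq : ∀ x : ℝ, Real.tan (Real.pi / 2 - x) *
      (Ainf a e * ((Real.pi / 2 - x) ^ (e - 1) / (e - 1).factorial)
        - (Real.pi / 2 - x) ^ (2 * a + e - 1) / (2 * a + e - 1).factorial) *
      (x ^ (2 * 0) / (2 * 0).factorial) = Real.cot x * R.eval x := by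
    intro x
    rw [sumsTan]
    simp only [hRdef, Rpq, Polynomial.eval_mul, Polynomial.eval_C, Polynomial.eval_pow,
      Polynomial.eval_X, Polynomial.eval_sub, Polynomial.eval_one, Nat.factorial_zero, Nat.cast_one, pow_zero,
      mul_zero]
    ring
  have key := sumsMain hw 0 e (fun m => m * (Ainf a e - An a m))
    (fun m hm => mul_nonneg (Nat.cast_nonneg m) (by linarith [sumsLe hA a e he m hm]))
    (fun φ => Real.tan φ * (Ainf a e * (φ ^ (e - 1) / (e - 1).factorial)
        - φ ^ (2 * a + e - 1) / (2 * a + e - 1).factorial))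
    (fun φ h0 h1 => by
      have h2 := (hD 0 e he φ h0.le h1).mul_left (Ainf a e)
      have h3 := hD a e he φ h0.le h1
      have h4 := h2.sub h3
      have h5 : Ainf a e * (Real.tan φ * φ ^ (2 * 0 + e - 1) / (2 * 0 + e - 1).factorial)
          - Real.tan φ * φ ^ (2 * a + e - 1) / (2 * a + e - 1).factorial
          = Real.tan φ * (Ainf a e * (φ ^ (e - 1) / (e - 1).factorial)
            - φ ^ (2 * a + e - 1) / (2 * a + e - 1).factorial) := by
        rw [mul_zero, zero_add]; ring
      rw [h5] at h4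
      refine h4.congr_fun fun m => ?_
      simp only [An]
      split_ifs <;> ring)
    (hcot.congr_ae (Eventually.of_forall fun x => (hEq x).symm))
  simp only [hEq] at key
  refine key.congr_fun fun m => ?_
  by_cases hm : 0 < m ∧ m % 2 = e % 2
  · rw [if_pos hm, if_pos hm]
    have : (m : ℝ) ≠ 0 := by exact_mod_cast hm.1.ne'
    simp only [Bn, mul_one]
    field_simp
  · rw [if_neg hm, if_neg hm]

end Pool.MTV
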