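import Pool.Agent.MTV.StA

/-!
# Algebra: sub-statements, which split the modules A1, ..., A8

The blueprint is the file MTV_blueprint.md of the team store; the paper proofs of the statements of this file are
in the docstrings. The identities of cuts were checked by computer on words of length at most 5.

Signatures (each theorem in its own file Pool/Agent/MTV/NAME.lean, importing StA2 and LibA; namespace Pool.MTV):

* `ShA`: `thm_shLen : St_shLen`, `thm_shMap : St_shMap`, `thm_mulFirst : St_mulFirst`, `thm_mulComm : St_mulComm`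
* `ShB`: `thm_shLast : St_shLast`, `thm_shRev : St_shRev`
* `Ant`: `thm_anti : St_anti`, `thm_charRev : St_charRev`,
  `thm_charTo (h1 : St_shMap) (h2 : St_shLen) : St_charTo`
* `Sder`: `thm_Sder (h1 : St_mulFirst) (h2 : St_mulComm) : St_Sder`
* `Der`: `thm_deriv (h1 : St_mulFirst) (h2 : St_mulComm) (h3 : St_charTo) (h4 : St_Sder) : St_deriv`
* `DecD`: `thm_decD : St_decD`, `thm_ptD : St_ptD`
* `LastD`: `thm_lastD : St_lastD`
* `ToD`: `thm_toD : St_toD`, `thm_ILdec : St_ILdec`
* `AntiD`: `thm_antiD (h1 : St_charRev) (h2 : St_lastD) : St_antiD`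
* `CompI`: `thm_compI (h1 : St_deriv) (h2 : St_decD) (h3 : St_toD) (h4 : St_antiD) (h5 : St_ILdec) : St_compI`
* `CopU`: `thm_copU : St_copU`
* `CopD`: `thm_copD (h1 : St_deriv) (h2 : St_ptD) (h3 : St_compI) (h4 : St_copU) : St_copD`
* `Dhom`: `thm_Dhom : St_Dhom`, `thm_homInf (h1 : St_shLen) : St_homInf`, `thm_Dsum : St_Dsum`
* `Leib`: `thm_Leib (h1 : St_deriv) (h2 : St_shLen) : St_Leib`
* `Split`: `thm_Split (h1 : St_Dhom) (h2 : St_Dsum) (h3 : St_homInf) (h4 : St_shLen) (h5 : St_Leib) : St_Split`
* `Sep`: `thm_Sep : St_Sep`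
* `CoLen`: `thm_coLen (h1 : St_shLen) : St_coLen`
* `ZetaD`: `thm_zetaD (h1 : St_deriv) : St_zetaD`
* `KA`: `thm_KA (h1 : St_copD) (h2 : St_homInf) (h3 : St_Dhom) (h4 : St_coLen) (h5 : St_zetaD) (h6 : St_shLen)
  (h7 : St_PerZeta2) : St_KA`
* `KK`: `thm_K (h1 : St_copD) (h2 : St_homInf) (h3 : St_Dhom) (h4 : St_Dsum) (h5 : St_coLen) (h6 : St_Sep)
  (h7 : St_KA) : St_K`
-/

open scoped TensorProduct

namespace Pool.MTV

/-! ### definitions -/

/-- The product as a map on the tensor product. -/
noncomputable def mulT : V ⊗[ℝ] V →ₗ[ℝ] V := TensorProduct.lift mul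

/-- The coefficient of the empty word. -/
noncomputable def eps : V →ₗ[ℝ] ℝ :=
  Finsupp.linearCombination ℝ (fun w : Word => if w = [] then (1 : ℝ) else 0)

/-- lft lam (x tensor y) = lam(x) y. -/
noncomputable def lft (lam : V →ₗ[ℝ] ℝ) : V ⊗[ℝ] V →ₗ[ℝ] V :=
  (TensorProduct.lid ℝ V).toLinearMap.comp (TensorProduct.map lam LinearMap.id)

/-- Splitting of a word at a letter e: the sum over w = u e v of u tensor v. -/
noncomputable def pt (e : SignType) : Word → V ⊗[ℝ] V
  | [] => 0
  | x :: w => (if x = e then wd [] ⊗ₜ[ℝ] wd w else 0) + TensorProduct.map (pre x) LinearMap.id (pt e w)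

noncomputable def ptL (e : SignType) : V →ₗ[ℝ] V ⊗[ℝ] V := Finsupp.linearCombination ℝ (pt e)

/-- Linear version of cop. -/
noncomputable def copL (b a : SignType) : V →ₗ[ℝ] V ⊗[ℝ] V :=
  Finsupp.linearCombination ℝ (fun w : Word => cop b a [] w)

/-- The bilinear map (x, y) ↦ step x e y. -/
noncomputable def stepB (e : SignType) : V →ₗ[ℝ] (V ⊗[ℝ] V) →ₗ[ℝ] (V ⊗[ℝ] V) :=
  (TensorProduct.mapBilinear (RingHom.id ℝ) V V V V).flip (pre e) ∘ₗ mul

/-- u tensor v ↦ step (I(a; u; e)) e (cop b e [] v). -/
noncomputable def GG (a b e : SignType) : V ⊗[ℝ] V →ₗ[ℝ] V ⊗[ℝ] V :=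
  TensorProduct.lift (((stepB e) ∘ₗ (IL a e)).compl₂ (copL b e))

/-- The operator w ↦ sum over w = p q of f(p) q. -/
noncomputable def SL (f : V →ₗ[ℝ] ℝ) : V →ₗ[ℝ] V :=
  Finsupp.linearCombination ℝ
    (fun w : Word => ∑ i ∈ Finset.range (w.length + 1), f (wd (w.take i)) • wd (w.drop i))

/-- The functional Per o exp(-D c). -/
noncomputable def chiF (c : V →ₗ[ℝ] ℝ) : V →ₗ[ℝ] ℝ :=
  Finsupp.linearCombination ℝ (fun w : Word =>
    ∑ j ∈ Finset.range (w.length + 1), ((-1 : ℝ) ^ j / (j.factorial : ℝ)) * Per (((D c) ^ j) (wd w)))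

/-! ### A3 -/

/-- SDER (file Sder.lean). The operator SL f is a derivation if f is an infinitesimal character.

Proof. For ARBITRARY linear f : V → R and words u, v:
(1) SL f (sh u v) = sum over i ≤ |u|, j ≤ |v| of f (sh (take i u) (take j v)) • sh (drop i u) (drop j v).
Induction on |u| + |v|, all f. Put (f.x)(W) := f (pre x W). From the definition SL f (wd (x :: W')) = f(wd []) wd (x :: W') +
SL (f.x) (wd W'), hence (linearity) SL f (pre x A) = f(wd []) pre x A + SL (f.x) A for A in V. If u = [] or v = [], (1) is the definition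
(sh u [] = wd u). For u = x u', v = y v': sh u v = pre x (sh u' v) + pre y (sh u v'), so
SL f (sh u v) = f([]) sh u v + SL (f.x) (sh u' v) + SL (f.y) (sh u v'). Apply the induction hypothesis. On the right side of (1) the term
i = j = 0 is f([]) sh u v, and for (i, j) ≠ (0, 0): sh (take i u) (take j v) = pre x (sh (take (i-1) u') (take j v)) [i ≥ 1, j ≥ 1: plus
pre y (sh (take i u) (take (j-1) v'))], for j = 0: take i u = x (take (i-1) u') only, for i = 0 only y. This is the sum of the two sums.
(2) If f is an infinitesimal character, only the terms with i = 0 or j = 0 survive in (1), and f([]) = 0: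
SL f (sh u v) = sum_i f(take i u) sh (drop i u) v + sum_j f(take j v) sh u (drop j v) = mul (SL f u) v + mul u (SL f v).
Then bilinearity. -/
def St_Sder : Prop := ∀ f : V →ₗ[ℝ] ℝ, InfChar f → ∀ x y : V,
  SL f (mul x y) = mul (SL f x) y + mul x (SL f y)

/-! ### A4 -/

/-- PTD (file DecD.lean). Cuts and splittings at a chosen letter.

Proof: blueprint, section 4. By induction on w, for all a: with W = x w' the claim reduces to
pt_e (Pr_{ab}(W)) = sum over W = (x u) e v of Pr_{ae}(x u) tensor v + [if x = e: wd [] tensor Pr_{...}: the cuts of D_{eb}(w') which start at its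
first letter are part of D_{eb} w', so nothing has to be added]. Both sides are sums over W = p q' e v, p nonempty, with the coefficient
c_{hd(q' e.., b)}(p) - c_a(p), and hd(q', e) = hd(q' e v, b). (InfChar is not needed.) -/
def St_ptD : Prop := ∀ c : V →ₗ[ℝ] ℝ, InfChar c → ∀ (a b e : SignType) (x : V),
  ptL e (DL c a b x) =
    TensorProduct.map (DL c a e) LinearMap.id (ptL e x) + TensorProduct.map LinearMap.id (DL c e b) (ptL e x)

/-! ### A5 -/

/-- LASTD (file LastD.lean). The recursion for the last letter.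

Proof. Induction on w, all a. w = []: both sides are (c_b([e]) - c_a([e])) []. For w = x w': Dw c b a (x w' e) = Pr c a b (x w' e) +
pre x (Dw c b x (w' e)); the induction hypothesis for the second term gives pre x (app e (Dw c e x w')) (pre and app commute) and
the terms i ≥ 1 of the sum (take i w = x (take (i-1) w'), and the last letter of it is the last letter of take (i-1) w', or x if this is
empty: getLastD). In Pr c a b (x w' e) the last summand (the whole word) is the term i = 0 of the sum, the others are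
app e (Pr c a e (x w')): the right neighbour hd b (drop (i+1) (w e)) for i + 1 ≤ |w| is hd e (drop (i+1) w). -/
def St_lastD : Prop := ∀ (c : V →ₗ[ℝ] ℝ) (a b e : SignType) (w : Word),
  Dw c b a (w ++ [e]) = app e (Dw c e a w) +
    ∑ i ∈ Finset.range (w.length + 1),
      (ev c b ((w ++ [e]).drop i) - ev c ((w.take i).getLastD a) ((w ++ [e]).drop i)) • wd (w.take i)

/-- TOD (file ToD.lean).

Proof. b = 1: toL 1 = id. b = -1: toPt (-1) w = wd (w.map (-1 * .)); toPt x (p.map (-1 * .)) = toPt (-x) p for every x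
(x = 0: both are 0 or wd [] according to p), so ev c x (-p) = ev c (-x) p; the neighbours change sign as well, hence
D_{0 1}(-w) = - applied to the words of D_{0,-1}(w): induction on w: Dw c 1 (-a) (-w) = mp (-1) (Dw c (-1) a w) for all a.
b = 0: toL 0 x = eps(x) [] , D c (wd []) = 0, and toL 0 (DL c 0 0 x) = 0 since the coefficient of [] in Dw c 0 0 w is
(ev c 0 w - ev c 0 w) (only the cut which is the whole word gives []). (For general a: the coefficient of [] in Dw c b a w is ev c b w - ev c a w.) -/
def St_toD : Prop := ∀ c : V →ₗ[ℝ] ℝ, InfChar c → ∀ (b : SignType) (x : V),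
  D c (toL b x) = toL b (DL c 0 b x)

/-- ANTID (file AntiD.lean).

Proof. It suffices to take x = wd w. Induction on w: the first letter recursion (the definition of Dw) for w = e w' on the right side, and
the last letter recursion St_lastD for the word reverse w = (reverse w') ++ [e] on the left side. Left: Dw c a 0 (rev w' ++ [e]) =
app e (Dw c e 0 (rev w')) + sum over i ≤ |w'| of (ev c a p_i - ev c (getLastD ..) p_i) wd(take i (rev w')), where p_i = drop i (rev w). Right:
anti (Pr c a 0 (e w') + pre e (Dw c 0 e w')), anti (pre e y) = - app e (anti y), and the induction hypothesis (for a replaced by e) gives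
anti (Dw c 0 e w') = (-1)^|w'| Dw c e 0 (rev w'). The terms of Pr: the cut p = take (j+1) w with neighbours a (left) and hd 0 (drop (j+1) w)
(right) corresponds to the cut rev p of rev w with neighbours getLastD (rev (drop (j+1) w)) = the same letter (left), a (right). By St_charRev applied to
toPt (toPt x (rev p) = reverse of toPt x p): ev c x (rev p) = -(-1)^|p| ev c x p (for x = 0 both are 0, p nonempty). -/
def St_antiD : Prop := ∀ c : V →ₗ[ℝ] ℝ, InfChar c → ∀ (a : SignType) (x : V),
  DL c 0 a (anti x) = anti (DL c a 0 x)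

/-- ILDEC (file ToD.lean). Linearity, the definitions of II and dec, and toL a (anti (wd u)) = (-1)^|u| toPt a (rev u). -/
def St_ILdec : Prop := ∀ (a b : SignType) (x : V),
  IL a b x = mulT (TensorProduct.map (toL a ∘ₗ anti) (toL b) (decL x))

/-! ### A6 -/

/-- COPU (file CopU.lean). The first chosen letter.

Proof. It suffices to take x = wd w. More generally for all p, by induction on w:
cop b a p w = II a (p ++ w) b tensor [] + sum over e and over w = u e v of step (II a (p ++ u) e) e (cop b e [] v).
cop b a p (c :: w) = cop b a (p ++ [c]) w + step (II a p c) c (cop b c [] w); the induction hypothesis for p ++ [c] gives the first term and the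
splittings with u = c u', the second summand is the splitting with u = [] (e = c). A convenient form: for all p,
cop b a p w = II a (p ++ w) b tensor [] + sum over e of GGp a b e p (pt e w), GGp = lift (..) with IL a e (preW p u) instead of IL a e u. -/
def St_copU : Prop := ∀ (a b : SignType) (x : V),
  copL b a x = IL a b x ⊗ₜ[ℝ] wd [] + ∑ e : SignType, GG a b e (ptL e x)

/-! ### A7 -/

/-- DHOM (file Dhom.lean). A cut with hom r c removes exactly r letters.
Proof: ev (hom r c) x p = 0 unless |p| = r; induction on the word. (n < r: no cut.) -/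
def St_Dhom : Prop := ∀ (c : V →ₗ[ℝ] ℝ) (a b : SignType) (r n : ℕ) (x : V), x ∈ lenEq n →
  (r ≤ n → DL (hom r c) a b x ∈ lenEq (n - r)) ∧ (n < r → DL (hom r c) a b x = 0)

/-- HOMINF (file Dhom.lean). sh u v is homogeneous (St_shLen), so hom r c (sh u v) is c (sh u v) or 0. -/
def St_homInf : Prop := ∀ (c : V →ₗ[ℝ] ℝ), InfChar c → ∀ r : ℕ, InfChar (hom r c)

/-- DSUM (file Dhom.lean). D c is the sum of the D (hom r c).
Proof: for words of length at most n every block p has 1 ≤ |p| ≤ n, and c(toPt x p) = sum over 1 ≤ r ≤ n of hom r c (toPt x p). -/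
def St_Dsum : Prop := ∀ (c : V →ₗ[ℝ] ℝ) (n : ℕ) (x : V), x ∈ lenLe n →
  D c x = ∑ r ∈ Finset.Icc 1 n, Dr c r x

/-- LEIB (file Leib.lean). chiF c is multiplicative if Per is.

Proof. D c maps lenLe (n+1) to lenLe n and kills wd []. So for x in lenLe n, chiF c x = sum over j < M of (-1)^j/j! Per(D^j x) for every M > n
((D c)^j x = 0 for j > n; words: the defining sum has the upper bound |w|, the further terms are 0). Leibniz (St_deriv, induction on j):
D^j (mul x y) = sum over k ≤ j of C(j,k) mul (D^k x) (D^(j-k) y). For words u, v: mul (wd u) (wd v) is in lenLe (|u| + |v|), so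
chiF c (mul u v) = sum_j (-1)^j/j! sum_k C(j,k) Per(D^k u) Per(D^(j-k) v) = chiF c u * chiF c v. Bilinearity. -/
def St_Leib : Prop := St_PerMul → St_PerOne → ∀ c : V →ₗ[ℝ] ℝ, InfChar c →
  (∀ x y : V, chiF c (mul x y) = chiF c x * chiF c y) ∧ chiF c (wd []) = 1 ∧
  (∀ (n : ℕ) (x : V), x ∈ lenLe n → ∀ M : ℕ, n < M →
    chiF c x = ∑ j ∈ Finset.range M, ((-1 : ℝ) ^ j / (j.factorial : ℝ)) * Per (((D c) ^ j) x)) ∧
  (∀ (n : ℕ) (x : V), x ∈ lenLe n → ∀ j : ℕ, n < j → ((D c) ^ j) x = 0) ∧
  (∀ (n : ℕ) (x : V), x ∈ lenLe (n + 1) → D c x ∈ lenLe n)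

/-! ### A8 -/

/-- SEP (file Sep.lean). Linear algebra.

Proof. Let q : V → V/B be the quotient map and (e_i) a basis of V/B. Every element of V tensor (V/B) is a unique finite sum of
p_i tensor e_i (p_i in V) (TensorProduct.equivFinsuppOfBasisRight). Let (id tensor q) t = sum p_i tensor e_i. For lam in S:
q (lft lam t) = sum lam(p_i) e_i = 0, so lam(p_i) = 0 for all i and all lam in S, so p_i in A. Choose e_i' in V with q e_i' = e_i. Then
(id tensor q)(t - sum p_i tensor e_i') = 0, so t - sum p_i tensor e_i' lies in tens T B (the kernel of id tensor q; right exactness: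
`lTensor_exact`, `LinearMap.lTensor_ker..`), and p_i tensor e_i' lies in tens A T. -/
def St_Sep : Prop := ∀ (A B : Submodule ℝ V) (S : Set (V →ₗ[ℝ] ℝ)),
  (∀ x : V, (∀ lam ∈ S, lam x = 0) → x ∈ A) →
  ∀ t : V ⊗[ℝ] V, (∀ lam ∈ S, lft lam t ∈ B) → t ∈ tens A ⊤ ⊔ tens ⊤ B

/-- COLEN (file CoLen.lean). The shape of the coaction.

Proof. First II a w b lies in lenEq |w| (St_shLen), II a [] b = wd [], II 0 w 1 = wd w (in the sum only the term i = 0 is not 0, for w nonempty).
By induction on w for all a, p: cop b a p w is II a (p ++ w) b tensor [] plus an element of the span of the u tensor v with v nonempty and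
|u| + |v| = |p| + |w|; more precisely (all letters chosen) cop b a [] w = II a w b tensor [] + [] tensor w + t for w nonempty, with t in the span
of the wd u tensor wd v, u, v nonempty, |u| + |v| = |w|: the subsequences different from the empty one and from w. For the induction: for p nonempty,
cop b a p w - II a (p ++ w) b tensor [] is in the span of the wd u tensor wd v with u, v nonempty and |u| + |v| = |p| + |w| (the first
left factor has positive weight: either II a p' c with p' ⊇ p, homogeneous of weight > 0). For p = []: the new summand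
step (II a [] c) c (cop b c [] w) = (id tensor pre c)(cop b c [] w). -/
def St_coLen : Prop := coact (wd []) = wd [] ⊗ₜ[ℝ] wd [] ∧ ∀ w : Word, w ≠ [] →
  coact (wd w) - wd w ⊗ₜ[ℝ] wd [] - wd [] ⊗ₜ[ℝ] wd w ∈
    Submodule.span ℝ {t | ∃ u v : Word, u ≠ [] ∧ v ≠ [] ∧ u.length + v.length = w.length ∧
      t = wd u ⊗ₜ[ℝ] wd v}

/-- ZETAD (file ZetaD.lean).

Proof. zeta2 = wd [1, 0]; the cuts of (0; 1, 0; 1): the block [1] has the neighbours 0, 0, the block [0] has the neighbours 1, 1, the block [1,0]
has the neighbours 0, 1 and its coefficient is c(wd [1,0]) - 0. So D c zeta2 = c(wd [1,0]) []. If c kills the words of even length, this is 0.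
Then St_deriv. The last claim: Split.exp with n = 2, D c zeta2 = 0. -/
def St_zetaD : Prop :=
  (∀ c : V →ₗ[ℝ] ℝ, InfChar c → c (wd [1, 0]) = 0 →
    D c zeta2 = 0 ∧ ∀ y : V, D c (mul zeta2 y) = mul zeta2 (D c y)) ∧
  (∀ c χ : V →ₗ[ℝ] ℝ, Split c χ → χ zeta2 = Per zeta2)

/-- KA (file KA.lean). The elements killed by all eps o D_l.

Proof. Let z2 = χ zeta2 = Per zeta2 ≠ 0. Write lam ⊗ mu for the functional on V ⊗ V.
(1) There is a functional xi on V with xi [] = 1 and (χ ⊗ xi)(coact x) = eps x for all x. Recursion over the length: xi_0 = eps; xi_(n+1) (w) =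
- (χ ⊗ xi_n)(coact w) if |w| = n + 1, else xi_n (w); xi_n vanishes on words longer than n. By St_coLen coact w = w ⊗ [] + [] ⊗ w + shorter right
factors, so for |w| = n + 1: (χ ⊗ xi_(n+1))(coact w) = (χ ⊗ xi_n)(coact w) + xi_(n+1)(w) = 0. Put xi(w) = xi_(|w|)(w).
(2) xi(w) = 0 for |w| odd: induction, in χ(u) xi(v) with |u| + |v| = |w| one of the lengths is odd.
(3) sig : V ⊗ V → V, sig (u ⊗ v) = xi(v)/z2^(|v|/2) (mul zeta2)^(|v|/2) u for words v (|v|/2 the integer part; only even |v| count), s := sig ∘ coact.
For r odd, c' = hom r c (InfChar by St_homInf, c'(wd [1,0]) = 0): D c' commutes with mul zeta2 (St_zetaD), so D c' (sig t) = sig ((D c' ⊗ id) t) and by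
St_copD D c' (s x) = s (D c' x). Hence Dl c l (s x) = s (Dl c l x) for all lists l of odd numbers.
(4) χ (s y) = (χ ⊗ xi)(coact y) = eps y, since χ((mul zeta2)^m u) = z2^m χ(u).
(5) So for the given x and k := s x: χ (Dl c l k) = eps (Dl c l x) = 0. k is in lenEq n (coact homogeneous, St_coLen; mul zeta2 adds 2, St_shLen).
(6) x - s x is in range (mul zeta2): for a word w the term w ⊗ [] of the coaction gives w (xi [] = 1), the term [] ⊗ w and the terms u ⊗ v with v nonempty give
0 (odd |v|) or an element of range (mul zeta2) (|v| ≥ 2). -/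
def St_KA : Prop := ∀ c χ : V →ₗ[ℝ] ℝ, Split c χ → ∀ n : ℕ, ∀ x ∈ lenEq n,
  (∀ l : List ℕ, (∀ r ∈ l, Odd r) → eps (Dl c l x) = 0) →
  ∃ k ∈ lenEq n, (∀ l : List ℕ, (∀ r ∈ l, Odd r) → χ (Dl c l k) = 0) ∧
    x - k ∈ LinearMap.range (mul zeta2)

/- K (file KK.lean): the statement St_K of StA.

Proof. Put KK := {x | for all n and all lists l of odd numbers χ (Dl c l (part n x)) = 0} (a submodule: part n and Dl are linear). It suffices that
IsRelations KK (then x ∈ KK ≤ relations by le_sSup).
graded: part m (part n x) = part n x or 0.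
period: for x ∈ KK and each n, y = part n x ∈ lenEq n; Split.exp: Per y = sum_j 1/j! χ((D c)^j y). D c y = sum over r ≤ n of Dr c r y (St_Dsum), Dr c r = 0 for
even r (Split.odd: hom r c = 0), so (D c)^j y is a sum of Dl c l y with l lists of odd numbers: χ of it is 0. So Per y = 0, x = sum of its parts.
stable: x = sum of its parts, so let x ∈ lenEq n, x ∈ KK. Let A := KK ⊔ range (mul zeta2), B := KK, S := {eps ∘ Dl c l | l a list of odd numbers} and apply St_Sep to
t = coact x. (a) The family S: let y satisfy eps (Dl c l y) = 0 for all l ∈ lists of odd numbers. Then the same holds for every part n y: Dl c l maps lenEq n to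
lenEq (n - sum l) or to 0 (St_Dhom), so eps (Dl c l (part n y)) = eps (Dl c l y) if sum l = n, and 0 otherwise (the sum of the parts). By St_KA part n y = k + mul zeta2 z,
k ∈ KK. So y ∈ A. (b) lft (eps ∘ Dl c l) (coact x) = lft eps ((Dl c l ⊗ id) (coact x)) = lft eps (coact (Dl c l x)) (St_copD for hom r c, St_homInf, induction on l)
= Dl c l x (lft eps (coact y) = y by St_coLen), and this is in KK: it is homogeneous, and χ (Dl c l' (Dl c l x)) = χ (Dl c (l ++ l') x) = 0. -/

end Pool.MTV
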