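import Pool.Agent.MTV.StX
import Pool.Agent.MTV.StA2
import Pool.Agent.MTV.LibA

/-!
# Sym: words of small block degree are killed; the leading symbols
-/

namespace Pool.MTV

private theorem Sym_pre_mem (a : SignType) (n : ℕ) (x : V) (hx : x ∈ lenEq n) :
    pre a x ∈ lenEq (n + 1) := by
  refine lib_lenEq_ind (P := fun x => pre a x ∈ lenEq (n + 1)) x hx ?_ ?_ ?_ ?_
  · rw [map_zero]
    exact Submodule.zero_mem _
  · intro w hw
    rw [lib_pre]
    exact lib_wd_mem_lenEq (by simp [hw])
  · intro x y h1 h2
    rw [map_add]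
    exact Submodule.add_mem _ h1 h2
  · intro r x h1
    rw [map_smul]
    exact Submodule.smul_mem _ _ h1

private theorem Sym_Ys_mem (s : List Bool) : Ys s ∈ lenEq s.length := by
  induction s with
  | nil => exact lib_wd_mem_lenEq rfl
  | cons b s ih =>
    cases b
    · exact Sym_pre_mem 0 _ _ ih
    · exact Submodule.add_mem _ (Sym_pre_mem 1 _ _ ih) (Sym_pre_mem (-1) _ _ ih)

private theorem Sym_E_mem (k : Kind) (s : List Bool) : E k s ∈ lenEq s.length := by
  cases k
  · exact lib_wd_mem_lenEq (by simp)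
  · exact Sym_Ys_mem s
  · cases s with
    | nil => exact lib_wd_mem_lenEq rfl
    | cons b s =>
      exact Submodule.sub_mem _ (Sym_pre_mem 1 _ _ (Sym_Ys_mem s))
        (Sym_pre_mem (-1) _ _ (Sym_Ys_mem s))

private theorem Sym_hom (c : V →ₗ[ℝ] ℝ) (r n : ℕ) (x : V) (hx : x ∈ lenEq n) :
    hom r c x = if n = r then c x else 0 := by
  refine lib_lenEq_ind (P := fun x => hom r c x = if n = r then c x else 0) x hx ?_ ?_ ?_ ?_
  · simp
  · intro w hw
    rw [lib_hom, hw]
  · intro x y h1 h2
    simp only [map_add, h1, h2]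
    split_ifs <;> simp
  · intro a x h1
    simp only [map_smul, h1]
    split_ifs <;> simp

private theorem Sym_homE (c : V →ₗ[ℝ] ℝ) (r : ℕ) (k : Kind) (s : List Bool) :
    hom r c (E k s) = if s.length = r then c (E k s) else 0 :=
  Sym_hom c r s.length _ (Sym_E_mem k s)

private theorem Sym_expand (hcut : St_cutK) (hh : St_homInf) {c : V →ₗ[ℝ] ℝ} (hc : InfChar c)
    (r : ℕ) (k : Kind) (s : List Bool) (hv : valid k s = true) (f : V →ₗ[ℝ] V) :
    f (Dr c r (E k s)) =
      ((cutsK k s).map (fun t =>
        ((t.1 : ℝ) * hom r c (E t.2.1 t.2.2.1)) • f (E k t.2.2.2))).sum := by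
  have h1 : Dr c r (E k s) = cutSum (hom r c) k s := hcut (hom r c) (hh c hc r) k s hv
  rw [h1]
  unfold cutSum
  rw [map_list_sum, List.map_map]
  congr 1
  apply List.map_congr_left
  intro t _
  simp

theorem thm_kill (hcut : St_cutK) (hbd : St_bd) (hh : St_homInf) : St_kill := by
  intro c χ hs k l
  induction l with
  | nil =>
    intro s _ _ h
    exact absurd h (Nat.not_lt_zero _)
  | cons r l ih =>
    intro s hv hodd hlt
    have hr : Odd r := hodd r List.mem_cons_self
    have hl : ∀ r' ∈ l, Odd r' := fun r' h => hodd r' (List.mem_cons_of_mem _ h)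
    show (Dl c l) (Dr c r (E k s)) = 0
    rw [Sym_expand hcut hh hs.inf r k s hv (Dl c l)]
    apply List.sum_eq_zero
    intro x hx
    obtain ⟨t, ht, rfl⟩ := List.mem_map.1 hx
    by_cases h0 : t.1 = 0
    · simp [h0]
    by_cases hlen : t.2.2.1.length = r
    · have hodd' : Odd t.2.2.1.length := by rw [hlen]; exact hr
      obtain ⟨-, -, hv', -, h1, h2, -⟩ := hbd k s hv t ht h0 hodd'
      have h3 : bd t.2.2.2 < l.length := by
        have : bd s < l.length + 1 := by simpa using hlt
        omega
      rw [ih t.2.2.2 hv' hl h3, smul_zero]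
    · rw [Sym_homE, if_neg hlen]
      simp

theorem thm_sym (hcut : St_cutK) (hbd : St_bd) (hh : St_homInf) (hk : St_kill) (hr : St_Erev)
    (hc : St_class) (hA : St_chiAlt) (ht : St_table) : St_sym := by
  intro c χ hs k l
  induction l with
  | nil =>
    intro s hv _ _ hlen
    have hb : bd s = 0 := by simpa using hlen.symm
    have h1 : s = alt (s.length / 2) := hc.1 s hb
    have h2 : ∀ n, (alt n).length = 2 * n := by
      intro n
      induction n with
      | zero => rfl
      | succ n ihn => simp [alt, ihn]; ring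
    have h3 : s.length = 2 * (s.length / 2) := by
      have := congrArg List.length h1
      rw [h2] at this
      exact this
    have h4 : χ (E k s) = (be k (s.length / 2) : ℝ) * Real.pi ^ (2 * (s.length / 2)) := by
      have := hA c χ hs k (s.length / 2)
      rw [← h1] at this
      exact this
    show χ (E k s) = _
    rw [h4]
    have h5 : sym k [] s = be k (s.length / 2) := by simp [sym, hb]
    rw [h5, ← h3]
    simp
  | cons r l ih =>
    intro s hv hodd hle hlen
    have hro : Odd r := hodd r List.mem_cons_self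
    have hr15 : r ≤ 15 := hle r List.mem_cons_self
    have hl : ∀ r' ∈ l, Odd r' := fun r' h => hodd r' (List.mem_cons_of_mem _ h)
    have hl15 : ∀ r' ∈ l, r' ≤ 15 := fun r' h => hle r' (List.mem_cons_of_mem _ h)
    have hlen' : l.length + 1 = bd s := by simpa using hlen
    have h1 : (Dl c (r :: l)) (E k s) =
        ((cutsK k s).map (fun t =>
          ((t.1 : ℝ) * hom r c (E t.2.1 t.2.2.1)) • (Dl c l) (E k t.2.2.2))).sum :=
      Sym_expand hcut hh hs.inf r k s hv (Dl c l)
    rw [h1, map_list_sum, List.map_map]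
    have h2 : ((sym k (r :: l) s : ℚ) : ℝ) =
        ((cutsK k s).map (fun t =>
          ((if t.1 ≠ 0 ∧ t.2.2.1.length = r ∧ bd (ori t.1 t.2.2.1) = 1 then
            (t.1 : ℚ) * al t.2.1 (ori t.1 t.2.2.1) * sym k l t.2.2.2 else 0 : ℚ) : ℝ))).sum := by
      show ((((cutsK k s).map (fun t =>
          if t.1 ≠ 0 ∧ t.2.2.1.length = r ∧ bd (ori t.1 t.2.2.1) = 1 then
            (t.1 : ℚ) * al t.2.1 (ori t.1 t.2.2.1) * sym k l t.2.2.2 else 0)).sum : ℚ) : ℝ) = _
      have := map_list_sum (Rat.castHom ℝ) ((cutsK k s).map (fun t =>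
          if t.1 ≠ 0 ∧ t.2.2.1.length = r ∧ bd (ori t.1 t.2.2.1) = 1 then
            (t.1 : ℚ) * al t.2.1 (ori t.1 t.2.2.1) * sym k l t.2.2.2 else 0))
      rw [List.map_map] at this
      exact this
    rw [h2, ← List.sum_map_mul_right, ← List.sum_map_mul_right]
    congr 1
    apply List.map_congr_left
    intro t hmem
    show χ (((t.1 : ℝ) * hom r c (E t.2.1 t.2.2.1)) • (Dl c l) (E k t.2.2.2)) = _
    rw [map_smul, smul_eq_mul, Sym_homE]
    by_cases h0 : t.1 = 0
    · simp [h0]
    by_cases hlr : t.2.2.1.length = r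
    · have hodd' : Odd t.2.2.1.length := by rw [hlr]; exact hro
      obtain ⟨hpm, hvo, hv', hll, hb1, hb2, hX⟩ := hbd k s hv t hmem h0 hodd'
      rw [if_pos hlr]
      by_cases hb : bd (ori t.1 t.2.2.1) = 1
      · rw [if_pos ⟨h0, hlr, hb⟩]
        have h3 : l.length = bd t.2.2.2 := by omega
        have h4 := ih t.2.2.2 hv' hl hl15 h3
        rw [h4]
        have hol : (ori t.1 t.2.2.1).length = r := by
          unfold ori
          split_ifs <;> simp [hlr]
        have h5 : c (E t.2.1 t.2.2.1) = c (E t.2.1 (ori t.1 t.2.2.1)) := by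
          rcases hpm with h | h
          · simp [ori, h]
          · have : ori t.1 t.2.2.1 = t.2.2.1.reverse := by simp [ori, h]
            rw [this]
            exact (hr c hs.inf t.2.1 t.2.2.1 (hX h) hodd').symm
        have h6 := ht c χ hs t.2.1 (ori t.1 t.2.2.1) hvo (by rw [hol]; exact hro)
          (by rw [hol]; exact hr15) hb
        rw [h5, h6, hol]
        have h7 : s.length - (r :: l).sum = t.2.2.2.length - l.sum := by
          rw [List.sum_cons]
          omega
        rw [h7]
        push_cast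
        simp only [List.map_cons, List.prod_cons]
        ring
      · rw [if_neg (fun h => hb h.2.2)]
        have h3 : bd t.2.2.2 < l.length := by omega
        rw [hk c χ hs k l t.2.2.2 hv' hl h3]
        simp
    · rw [if_neg hlr, if_neg (fun h => hlr h.2.1)]
      simp

end Pool.MTV
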