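import Pool.Agent.MTV.StX2
import Pool.Agent.MTV.LibA

/-!
# The table of the infinitesimal character: MTV Tab2
-/

namespace Pool.MTV

/-! ### lengths -/

theorem Tab_pre_mem (a : SignType) {n : ℕ} {x : V} (h : x ∈ lenEq n) : pre a x ∈ lenEq (n + 1) := by
  refine lib_lenEq_ind (P := fun x => pre a x ∈ lenEq (n + 1)) x h ?_ ?_ ?_ ?_
  · rw [map_zero]; exact Submodule.zero_mem _
  · intro w hw
    rw [lib_pre]
    exact lib_wd_mem_lenEq (by simp [hw])
  · intro x y hx hy
    rw [map_add]; exact Submodule.add_mem _ hx hy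
  · intro r x hx
    rw [map_smul]; exact Submodule.smul_mem _ _ hx

theorem Tab_Ys_mem (s : List Bool) : Ys s ∈ lenEq s.length := by
  induction s with
  | nil => exact lib_wd_mem_lenEq rfl
  | cons b s ih =>
    cases b
    · exact Tab_pre_mem _ ih
    · exact Submodule.add_mem _ (Tab_pre_mem _ ih) (Tab_pre_mem _ ih)

theorem Tab_E_mem (k : Kind) (s : List Bool) : E k s ∈ lenEq s.length := by
  cases k
  · exact lib_wd_mem_lenEq (by simp)
  · exact Tab_Ys_mem s
  · cases s with
    | nil => exact lib_wd_mem_lenEq rfl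
    | cons b s =>
      exact Submodule.sub_mem _ (Tab_pre_mem _ (Tab_Ys_mem s)) (Tab_pre_mem _ (Tab_Ys_mem s))

theorem Tab_c_even {c χ : V →ₗ[ℝ] ℝ} (hS : Split c χ) {n : ℕ} (hn : Even n) {x : V}
    (h : x ∈ lenEq n) : c x = 0 := by
  refine lib_lenEq_ind (P := fun x => c x = 0) x h (map_zero _) ?_ ?_ ?_
  · intro w hw
    exact hS.odd w (by rw [hw]; exact hn)
  · intro x y hx hy
    rw [map_add, hx, hy, add_zero]
  · intro r x hx
    rw [map_smul, hx, smul_zero]

theorem Tab_chi_odd {c χ : V →ₗ[ℝ] ℝ} (hS : Split c χ) {n : ℕ} (hn : Odd n) {x : V}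
    (h : x ∈ lenEq n) : χ x = 0 := by
  refine lib_lenEq_ind (P := fun x => χ x = 0) x h (map_zero _) ?_ ?_ ?_
  · intro w hw
    exact hS.even w (by rw [hw]; exact hn)
  · intro x y hx hy
    rw [map_add, hx, hy, add_zero]
  · intro r x hx
    rw [map_smul, hx, smul_zero]

/-! ### alternating words -/

theorem Tab_alt_length (n : ℕ) : (alt n).length = 2 * n := by
  induction n with
  | zero => rfl
  | succ n ih => simp [alt, ih]; ring

theorem Tab_bd_alt (n : ℕ) : bd (alt n) = 0 := by
  induction n with
  | zero => rfl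
  | succ n ih =>
    unfold bd at ih ⊢
    simp only [alt, List.cons_append, rep, ih]
    simp

theorem Tab_no11_alt' (n : ℕ) : no11 (alt n) = true ∧ no11 (false :: alt n) = true := by
  induction n with
  | zero => exact ⟨rfl, rfl⟩
  | succ n ih =>
    have h1 : no11 (alt (n + 1)) = true := by
      have e : alt (n + 1) = true :: false :: alt n := rfl
      rw [e]
      have e2 : no11 (true :: false :: alt n) = (!(true && false) && no11 (false :: alt n)) := rfl
      rw [e2, ih.2]
      rfl
    refine ⟨h1, ?_⟩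
    have e : alt (n + 1) = true :: false :: alt n := rfl
    have e2 : no11 (false :: true :: false :: alt n) =
        (!(false && true) && no11 (true :: false :: alt n)) := rfl
    rw [e, e2, ← e, h1]
    rfl

theorem Tab_no11_alt (n : ℕ) : no11 (alt n) = true := (Tab_no11_alt' n).1

theorem Tab_valid_alt (k : Kind) (n : ℕ) : valid k (alt n) = true := by
  cases k
  · exact Tab_no11_alt n
  · rfl
  · cases n <;> rfl

/-! ### cuts -/

theorem Tab_cuts_len (s : List Bool) : ∀ L : Bool, ∀ t ∈ cuts L s, t.2.1.length ≤ s.length := by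
  induction s with
  | nil => intro L t ht; simp [cuts] at ht
  | cons x s ih =>
    intro L t ht
    rw [cuts, List.mem_append] at ht
    rcases ht with ht | ht
    · rw [cutsP, List.mem_map] at ht
      obtain ⟨i, -, rfl⟩ := ht
      simp only [List.length_take]
      exact min_le_right _ _
    · rw [List.mem_map] at ht
      obtain ⟨u, hu, rfl⟩ := ht
      exact (ih x u hu).trans (Nat.le_succ _)

/-- The only cut with a block of full length. -/
theorem Tab_range_sum {N : ℕ} (G : ℕ → ℝ) :
    ((List.range (N + 1)).map (fun i => if i + 1 = N + 1 then G i else 0)).sum = G N := by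
  rw [List.range_succ, List.map_append, List.sum_append]
  have h : ((List.range N).map (fun i => if i + 1 = N + 1 then G i else 0)).sum = 0 := by
    apply List.sum_eq_zero
    intro x hx
    rw [List.mem_map] at hx
    obtain ⟨i, hi, rfl⟩ := hx
    rw [List.mem_range] at hi
    rw [if_neg (by omega)]
  rw [h]
  simp

theorem Tab_sum_zero {α M : Type} [AddCommMonoid M] (l : List α) (G : α → M)
    (h : ∀ t ∈ l, G t = 0) :
    (l.map G).sum = 0 := by
  apply List.sum_eq_zero
  intro x hx
  rw [List.mem_map] at hx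
  obtain ⟨t, ht, rfl⟩ := hx
  exact h t ht

theorem Tab_cuts_whole (L x : Bool) (s : List Bool) (G : ℤ × List Bool × List Bool → ℝ) :
    ((cuts L (x :: s)).map (fun t => if t.2.1.length = s.length + 1 then G t else 0)).sum =
      G (1 - kap L, x :: s, []) := by
  rw [cuts, List.map_append, List.sum_append]
  have h2 : (((cuts x s).map (fun t => (t.1, t.2.1, x :: t.2.2))).map
      (fun t => if t.2.1.length = s.length + 1 then G t else 0)).sum = 0 := by
    apply Tab_sum_zero
    intro t ht
    rw [List.mem_map] at ht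
    obtain ⟨u, hu, rfl⟩ := ht
    have := Tab_cuts_len s x u hu
    rw [if_neg]
    simp only
    omega
  rw [h2, add_zero, cutsP, List.map_map]
  have h3 : ((List.range (x :: s).length).map
      ((fun t => if t.2.1.length = s.length + 1 then G t else 0) ∘
        (fun i => (kap (hdB ((x :: s).drop (i + 1))) - kap L, (x :: s).take (i + 1),
          (x :: s).drop (i + 1))))) =
      ((List.range (s.length + 1)).map (fun i => if i + 1 = s.length + 1 then
        G (kap (hdB ((x :: s).drop (i + 1))) - kap L, (x :: s).take (i + 1),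
          (x :: s).drop (i + 1)) else 0)) := by
    apply List.map_congr_left
    intro i hi
    rw [List.mem_range] at hi
    simp only [Function.comp_apply, List.length_take, List.length_cons]
    have e : min (i + 1) (s.length + 1) = i + 1 := by
      simp only [List.length_cons] at hi
      omega
    rw [e]
  rw [h3, Tab_range_sum]
  simp [hdB, kap]

theorem Tab_whole (k : Kind) (s : List Bool) (hs : s ≠ [])
    (G : ℤ × Kind × List Bool × List Bool → ℝ) :
    ((cutsK k s).map (fun t => if t.2.2.1.length = s.length then G t else 0)).sum =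
      G (1, k, s, []) := by
  obtain ⟨x, s, rfl⟩ := List.exists_cons_of_ne_nil hs
  cases k
  · have h := Tab_cuts_whole false x s (fun t => G (t.1, Kind.Z, t.2.1, t.2.2))
    simp only [cutsK, List.map_map]
    have e : (1 : ℤ) - kap false = 1 := by simp [kap]
    rw [e] at h
    exact h
  · have h := Tab_cuts_whole false x s (fun t => G (t.1, Kind.Y, t.2.1, t.2.2))
    simp only [cutsK, List.map_map]
    have e : (1 : ℤ) - kap false = 1 := by simp [kap]
    rw [e] at h
    exact h
  · simp only [cutsK, List.map_append, List.sum_append, List.map_map]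
    have h2 : ((cuts true s).map ((fun t : ℤ × Kind × List Bool × List Bool =>
        if t.2.2.1.length = (x :: s).length then G t else 0) ∘
        (fun t => (t.1, Kind.Y, t.2.1, x :: t.2.2)))).sum = 0 := by
      apply Tab_sum_zero
      intro t ht
      have := Tab_cuts_len s true t ht
      simp only [Function.comp_apply, List.length_cons]
      rw [if_neg]
      omega
    rw [h2, add_zero]
    have h3 : ((List.range (s.length + 1)).map
        ((fun t : ℤ × Kind × List Bool × List Bool =>
          if t.2.2.1.length = (x :: s).length then G t else 0) ∘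
          (fun i => (kap (hdB ((x :: s).drop (i + 1))), Kind.X, (x :: s).take (i + 1),
            (x :: s).drop (i + 1))))) =
        ((List.range (s.length + 1)).map (fun i => if i + 1 = s.length + 1 then
          G (kap (hdB ((x :: s).drop (i + 1))), Kind.X, (x :: s).take (i + 1),
            (x :: s).drop (i + 1)) else 0)) := by
      apply List.map_congr_left
      intro i hi
      rw [List.mem_range] at hi
      simp only [Function.comp_apply, List.length_take, List.length_cons]
      have e : min (i + 1) (s.length + 1) = i + 1 := by omega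
      rw [e]
    rw [h3, Tab_range_sum]
    simp [hdB, kap]

/-! ### alternating words -/

theorem Tab_coef {c χ : V →ₗ[ℝ] ℝ} (hS : Split c χ) (t : ℤ × Kind × List Bool × List Bool)
    (h : ¬ (t.1 ≠ 0 ∧ Odd t.2.2.1.length)) : (t.1 : ℝ) * c (E t.2.1 t.2.2.1) = 0 := by
  by_cases h1 : t.1 = 0
  · simp [h1]
  · have h2 : Even t.2.2.1.length := by
      rw [← Nat.not_odd_iff_even]
      exact fun h3 => h ⟨h1, h3⟩
    rw [Tab_c_even hS h2 (Tab_E_mem _ _), mul_zero]

theorem Tab_D_bd0 (hcut : St_cutK) (hbd : St_bd) {c χ : V →ₗ[ℝ] ℝ} (hS : Split c χ) (k : Kind)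
    (s : List Bool) (hv : valid k s = true) (h0 : bd s = 0) : D c (E k s) = 0 := by
  rw [hcut c hS.inf k s hv]
  unfold cutSum
  apply List.sum_eq_zero
  intro x hx
  rw [List.mem_map] at hx
  obtain ⟨t, ht, rfl⟩ := hx
  by_cases h : t.1 ≠ 0 ∧ Odd t.2.2.1.length
  · obtain ⟨-, -, -, -, h5, h6, -⟩ := hbd k s hv t ht h.1 h.2
    omega
  · rw [Tab_coef hS t h, zero_smul]

theorem Tab_pow_zero (c : V →ₗ[ℝ] ℝ) (x : V) (h : D c x = 0) (j : ℕ) : ((D c) ^ (j + 1)) x = 0 := by
  rw [pow_succ, Module.End.mul_apply, h, map_zero]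

theorem thm_chiAlt (hcut : St_cutK) (hbd : St_bd) (hA : St_PerAlt) : St_chiAlt := by
  intro c χ hS k n
  have h0 : D c (E k (alt n)) = 0 :=
    Tab_D_bd0 hcut hbd hS k (alt n) (Tab_valid_alt k n) (Tab_bd_alt n)
  have hx : E k (alt n) ∈ lenLe (alt n).length :=
    lib_lenEq_le_lenLe le_rfl (Tab_E_mem k (alt n))
  have he := hS.exp _ _ hx
  rw [Finset.sum_range_succ'] at he
  have hz : ∑ j ∈ Finset.range (alt n).length,
      (1 / ((j + 1).factorial : ℝ)) * χ (((D c) ^ (j + 1)) (E k (alt n))) = 0 := by
    apply Finset.sum_eq_zero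
    intro j _
    rw [Tab_pow_zero c _ h0, map_zero, mul_zero]
  rw [hz] at he
  simp only [Nat.factorial_zero, Nat.cast_one, div_one, pow_zero, Module.End.one_apply, one_mul,
    zero_add] at he
  rw [← he, hA]

/-! ### the recursion -/

theorem Tab_core (hcut : St_cutK) (hbd : St_bd) {c χ : V →ₗ[ℝ] ℝ} (hS : Split c χ) (k : Kind)
    (p : List Bool) (n : ℕ) (hv : valid k p = true) (hl : p.length = 2 * n + 1) (hb : bd p = 1) :
    Per (E k p) =
      ((cutsK k p).map (fun t => (t.1 : ℝ) * c (E t.2.1 t.2.2.1) * χ (E k t.2.2.2))).sum := by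
  have h1 : D c (E k p) = cutSum c k p := hcut c hS.inf k p hv
  have h2 : D c (D c (E k p)) = 0 := by
    rw [h1]
    unfold cutSum
    rw [map_list_sum, List.map_map]
    apply Tab_sum_zero
    intro t ht
    rw [Function.comp_apply, map_smul]
    by_cases h : t.1 ≠ 0 ∧ Odd t.2.2.1.length
    · obtain ⟨-, -, h3, -, h5, h6, -⟩ := hbd k p hv t ht h.1 h.2
      rw [Tab_D_bd0 hcut hbd hS k t.2.2.2 h3 (by omega), smul_zero]
    · rw [Tab_coef hS t h, zero_smul]
  have hx : E k p ∈ lenLe (2 * n + 1) :=
    lib_lenEq_le_lenLe (le_of_eq hl) (Tab_E_mem k p)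
  have he := hS.exp _ _ hx
  rw [Finset.sum_range_succ', Finset.sum_range_succ'] at he
  have hz : ∑ j ∈ Finset.range (2 * n),
      (1 / ((j + 1 + 1).factorial : ℝ)) * χ (((D c) ^ (j + 1 + 1)) (E k p)) = 0 := by
    apply Finset.sum_eq_zero
    intro j _
    rw [pow_succ, Module.End.mul_apply, Tab_pow_zero c _ h2, map_zero, mul_zero]
  rw [hz] at he
  simp only [Nat.factorial_zero, Nat.cast_one, div_one, pow_zero, Module.End.one_apply, one_mul,
    zero_add, Nat.factorial_one, pow_one] at he
  rw [Tab_chi_odd hS ⟨n, hl⟩ (Tab_E_mem k p), add_zero, h1] at he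
  rw [he]
  unfold cutSum
  rw [map_list_sum, List.map_map]
  congr 1
  apply List.map_congr_left
  intro t _
  rw [Function.comp_apply, map_smul, smul_eq_mul]

theorem Tab_swap {α : Type} (l : List α) (n : ℕ) (F : ℕ → α → ℝ) :
    (l.map (fun t => ∑ j ∈ Finset.range n, F j t)).sum =
      ∑ j ∈ Finset.range n, (l.map (F j)).sum := by
  induction l with
  | nil => simp
  | cons a l ih => simp only [List.map_cons, List.sum_cons, ih, Finset.sum_add_distrib]

theorem Tab_term (hbd : St_bd) (hcl : St_class) (hr : St_Erev) (hA : St_chiAlt)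
    {c χ : V →ₗ[ℝ] ℝ} (hS : Split c χ) (k : Kind)
    (p : List Bool) (n : ℕ) (hv : valid k p = true) (hl : p.length = 2 * n + 1) (hb : bd p = 1)
    (j : ℕ) (hj : j < n)
    (IH : ∀ (k' : Kind) (q : List Bool), valid k' q = true → q.length = 2 * j + 1 → bd q = 1 →
      c (E k' q) = (al k' q : ℝ) * lam (2 * j + 1))
    (t : ℤ × Kind × List Bool × List Bool) (ht : t ∈ cutsK k p) :
    (if t.2.2.1.length = 2 * j + 1 then
      (t.1 : ℝ) * c (E t.2.1 t.2.2.1) * χ (E k t.2.2.2) else 0) =
    (((if t.1 ≠ 0 ∧ t.2.2.1.length = 2 * j + 1 then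
      (t.1 : ℚ) * al t.2.1 (ori t.1 t.2.2.1) * be k (t.2.2.2.length / 2) else 0 : ℚ)) : ℝ) *
      (lam (2 * j + 1) * Real.pi ^ (2 * (n - j))) := by
  by_cases h1 : t.2.2.1.length = 2 * j + 1
  · by_cases h0 : t.1 = 0
    · simp [h0]
    · rw [if_pos h1, if_pos ⟨h0, h1⟩]
      have hodd : Odd t.2.2.1.length := ⟨j, h1⟩
      obtain ⟨hpm, hvb, hvr, hlen, h5, h6, h7⟩ := hbd k p hv t ht h0 hodd
      have hb1 : bd (ori t.1 t.2.2.1) = 1 := by omega
      have hb2 : bd t.2.2.2 = 0 := by omega
      have hl2 : t.2.2.2.length / 2 = n - j := by omega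
      have hchi : χ (E k t.2.2.2) = (be k (n - j) : ℝ) * Real.pi ^ (2 * (n - j)) := by
        have := hcl.1 t.2.2.2 hb2
        rw [hl2] at this
        rw [this]
        exact hA c χ hS k (n - j)
      have hori : (ori t.1 t.2.2.1).length = 2 * j + 1 := by
        unfold ori
        split_ifs
        · exact h1
        · rw [List.length_reverse, h1]
      have hc : c (E t.2.1 t.2.2.1) = (al t.2.1 (ori t.1 t.2.2.1) : ℝ) * lam (2 * j + 1) := by
        rw [← IH t.2.1 (ori t.1 t.2.2.1) hvb hori hb1]
        unfold ori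
        rcases hpm with h | h
        · rw [if_pos h]
        · rw [if_neg (by rw [h]; decide), hr c hS.inf t.2.1 t.2.2.1 (h7 h) hodd]
      rw [hchi, hc, hl2]
      push_cast
      ring
  · rw [if_neg h1, if_neg (fun h => h1 h.2)]
    simp

theorem Tab_core2 (hcut : St_cutK) (hbd : St_bd) (hcl : St_class) (hr : St_Erev) (hA : St_chiAlt)
    {c χ : V →ₗ[ℝ] ℝ} (hS : Split c χ) (k : Kind)
    (p : List Bool) (n : ℕ) (hv : valid k p = true) (hl : p.length = 2 * n + 1) (hb : bd p = 1)
    (IH : ∀ j < n, ∀ (k' : Kind) (q : List Bool), valid k' q = true → q.length = 2 * j + 1 →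
      bd q = 1 → c (E k' q) = (al k' q : ℝ) * lam (2 * j + 1)) :
    Per (E k p) = (∑ j ∈ Finset.range n,
      (tabSum k p (2 * j + 1) : ℝ) * (lam (2 * j + 1) * Real.pi ^ (2 * (n - j)))) + c (E k p) := by
  rw [Tab_core hcut hbd hS k p n hv hl hb]
  have e1 : ((cutsK k p).map (fun t => (t.1 : ℝ) * c (E t.2.1 t.2.2.1) * χ (E k t.2.2.2))) =
      ((cutsK k p).map (fun t => ∑ j ∈ Finset.range (n + 1),
        if t.2.2.1.length = 2 * j + 1 then
          (t.1 : ℝ) * c (E t.2.1 t.2.2.1) * χ (E k t.2.2.2) else 0)) := by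
    apply List.map_congr_left
    intro t ht
    by_cases h : t.1 ≠ 0 ∧ Odd t.2.2.1.length
    · obtain ⟨-, -, -, hlen, -, -, -⟩ := hbd k p hv t ht h.1 h.2
      obtain ⟨m, hm⟩ := h.2
      rw [Finset.sum_eq_single_of_mem m (Finset.mem_range.2 (by omega))]
      · rw [if_pos hm]
      · intro b _ hbm
        rw [if_neg (by omega)]
    · rw [Tab_coef hS t h]
      simp
  rw [e1, Tab_swap, Finset.sum_range_succ]
  congr 1
  · apply Finset.sum_congr rfl
    intro j hj
    rw [Finset.mem_range] at hj
    have e2 : ((cutsK k p).map (fun t => if t.2.2.1.length = 2 * j + 1 then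
          (t.1 : ℝ) * c (E t.2.1 t.2.2.1) * χ (E k t.2.2.2) else 0)) =
        ((cutsK k p).map (fun t => (((if t.1 ≠ 0 ∧ t.2.2.1.length = 2 * j + 1 then
          (t.1 : ℚ) * al t.2.1 (ori t.1 t.2.2.1) * be k (t.2.2.2.length / 2) else 0 : ℚ)) : ℝ) *
          (lam (2 * j + 1) * Real.pi ^ (2 * (n - j))))) := by
      apply List.map_congr_left
      intro t ht
      exact Tab_term hbd hcl hr hA hS k p n hv hl hb j hj (IH j hj) t ht
    rw [e2, List.sum_map_mul_right]
    congr 1
    unfold tabSum
    rw [Rat.cast_list_sum, List.map_map]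
    rfl
  · have hp : p ≠ [] := by
      intro h
      rw [h] at hl
      simp at hl
    have h := Tab_whole k p hp (fun t => (t.1 : ℝ) * c (E t.2.1 t.2.2.1) * χ (E k t.2.2.2))
    rw [hl] at h
    rw [h]
    have he : E k [] = wd [] := by cases k <;> rfl
    rw [he, hS.one]
    simp

/-! ### the product of 0 and an alternating word -/

theorem Tab_mul_pre (b : SignType) (x : V) :
    mul (wd [0]) (pre b x) = pre 0 (pre b x) + pre b (mul (wd [0]) x) := by
  refine lib_ext' (f := (mul (wd [0])).comp (pre b))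
    (g := (pre 0).comp (pre b) + (pre b).comp (mul (wd [0]))) ?_ x
  intro w
  simp only [LinearMap.comp_apply, LinearMap.add_apply, lib_pre, lib_mul, lib_sh_cons,
    lib_sh_nil_left]

/-- Prefix a nonzero letter. -/
noncomputable def Tab_T : Kind → V →ₗ[ℝ] V
  | .Y => pre 1 + pre (-1)
  | _ => pre 1

theorem Tab_mul_TT (k : Kind) (x : V) :
    mul (wd [0]) (Tab_T k x) = pre 0 (Tab_T k x) + Tab_T k (mul (wd [0]) x) := by
  cases k
  · exact Tab_mul_pre 1 x
  · simp only [Tab_T, LinearMap.add_apply, map_add, Tab_mul_pre]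
    abel
  · exact Tab_mul_pre 1 x

theorem Tab_E_true (k : Kind) (hk : k ≠ Kind.X) (s : List Bool) :
    E k (true :: s) = Tab_T k (E k s) := by
  cases k
  · simp [E, Zs, Tab_T]
  · rfl
  · exact absurd rfl hk

theorem Tab_E_false (k : Kind) (hk : k ≠ Kind.X) (s : List Bool) :
    E k (false :: s) = pre 0 (E k s) := by
  cases k
  · simp [E, Zs]
  · rfl
  · exact absurd rfl hk

theorem thm_shuf0 : St_shuf0 := by
  intro k n hk
  induction n with
  | zero =>
    have h1 : E k (alt 0) = wd [] := by
      cases k <;> rfl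
    have h2 : E k (W0 0) = pre 0 (E k (alt 0)) := Tab_E_false k hk _
    rw [h2, h1, lib_mul_one_right, lib_pre]
    simp
  | succ n ih =>
    have e0 : E k (alt (n + 1)) = Tab_T k (pre 0 (E k (alt n))) := by
      have : alt (n + 1) = true :: false :: alt n := rfl
      rw [this, Tab_E_true k hk, Tab_E_false k hk]
    have e1 : E k (W0 (n + 1)) = pre 0 (Tab_T k (pre 0 (E k (alt n)))) := by
      have : W0 (n + 1) = false :: alt (n + 1) := rfl
      rw [this, Tab_E_false k hk, e0]
    have e2 : E k (W0 n) = pre 0 (E k (alt n)) := Tab_E_false k hk _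
    have e3 : E k (W3 0 n) = Tab_T k (pre 0 (pre 0 (E k (alt n)))) := by
      have : W3 0 n = true :: false :: false :: alt n := rfl
      rw [this, Tab_E_true k hk, Tab_E_false k hk, Tab_E_false k hk]
    have e4 : ∀ a b : ℕ, E k (W3 (a + 1) b) = Tab_T k (pre 0 (E k (W3 a b))) := by
      intro a b
      have : W3 (a + 1) b = true :: false :: W3 a b := rfl
      rw [this, Tab_E_true k hk, Tab_E_false k hk]
    rw [e0, Tab_mul_TT, Tab_mul_pre, ih, e1, e2, Finset.sum_range_succ']
    have e5 : ∑ a ∈ Finset.range n, E k (W3 (a + 1) (n + 1 - 1 - (a + 1))) =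
        Tab_T k (pre 0 (∑ a ∈ Finset.range n, E k (W3 a (n - 1 - a)))) := by
      rw [map_sum, map_sum]
      apply Finset.sum_congr rfl
      intro a _
      rw [e4]
      have : n + 1 - 1 - (a + 1) = n - 1 - a := by omega
      rw [this]
    rw [e5]
    have e6 : E k (W3 0 (n + 1 - 1 - 0)) = Tab_T k (pre 0 (pre 0 (E k (alt n)))) := e3
    rw [e6]
    simp only [map_add, map_smul, smul_add]
    rw [two_smul, two_smul]
    abel

theorem Tab_list_range (n : ℕ) (f : ℕ → ℝ) :
    ((List.range n).map f).sum = ∑ a ∈ Finset.range n, f a := by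
  induction n with
  | zero => simp
  | succ n ih =>
    rw [List.range_succ, List.map_append, List.sum_append, ih, Finset.sum_range_succ]
    simp

/-! ### the table -/

theorem Tab_validZ3 : ∀ n ≤ 7, ∀ a < n, valid Kind.Z (W3 a (n - 1 - a)) = true := by decide

theorem Tab_validZ1 : ∀ n ≤ 7, ∀ a ≤ n, valid Kind.Z (W1 a (n - a)) = false := by decide

theorem Tab_bd3 : ∀ n ≤ 7, ∀ a < n, bd (W3 a (n - 1 - a)) = 1 := by decide

theorem Tab_len3 : ∀ n ≤ 7, ∀ a < n, (W3 a (n - 1 - a)).length = 2 * n + 1 := by decide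

theorem Tab_lenEq_cons_span {n : ℕ} {x : V} (hx : x ∈ lenEq (n + 1)) {c : V →ₗ[ℝ] ℝ}
    (hc : InfChar c) : c (mul (wd [0]) x) = 0 := by
  refine lib_lenEq_ind (P := fun x => c (mul (wd [0]) x) = 0) x hx ?_ ?_ ?_ ?_
  · rw [map_zero, map_zero]
  · intro w hw
    rw [lib_mul]
    apply hc.sh
    · simp
    · intro h
      rw [h] at hw
      simp at hw
  · intro x y hx hy
    rw [map_add, map_add, hx, hy, add_zero]
  · intro r x hx
    rw [map_smul, map_smul, hx, smul_zero]

theorem Tab_w3 (hcut : St_cutK) (hbd : St_bd) (hcl : St_class) (hr : St_Erev) (h3 : St_Per3)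
    (hA : St_chiAlt) (hq3 : St_tabQ3)
    {c χ : V →ₗ[ℝ] ℝ} (hS : Split c χ) (k : Kind) (n a : ℕ) (hn : n ≤ 7) (ha : a < n)
    (hv : valid k (W3 a (n - 1 - a)) = true)
    (IH : ∀ j < n, ∀ (k' : Kind) (q : List Bool), valid k' q = true → q.length = 2 * j + 1 →
      bd q = 1 → c (E k' q) = (al k' q : ℝ) * lam (2 * j + 1)) :
    c (E k (W3 a (n - 1 - a))) = (Q3 k n a n : ℝ) * lam (2 * n + 1) := by
  have h := Tab_core2 hcut hbd hcl hr hA hS k (W3 a (n - 1 - a)) n hv (Tab_len3 n hn a ha)
    (Tab_bd3 n hn a ha) IH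
  rw [h3 k n a ha, Finset.sum_range_succ] at h
  have e : ∑ j ∈ Finset.range n, (Q3 k n a j : ℝ) * lam (2 * j + 1) * Real.pi ^ (2 * (n - j)) =
      ∑ j ∈ Finset.range n, (tabSum k (W3 a (n - 1 - a)) (2 * j + 1) : ℝ) *
        (lam (2 * j + 1) * Real.pi ^ (2 * (n - j))) := by
    apply Finset.sum_congr rfl
    intro j hj
    rw [Finset.mem_range] at hj
    rw [hq3 k n a j hn ha hj, mul_assoc]
  rw [e] at h
  have h' := add_left_cancel h
  rw [← h']
  simp

theorem Tab_w1 (hcut : St_cutK) (hbd : St_bd) (hcl : St_class) (hr : St_Erev) (h1 : St_Per1)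
    (hA : St_chiAlt) (hq1 : St_tabQ1)
    {c χ : V →ₗ[ℝ] ℝ} (hS : Split c χ) (k : Kind) (hk : k ≠ Kind.Z) (n a : ℕ) (hn : n ≤ 7)
    (ha : a ≤ n) (hl : (W1 a (n - a)).length = 2 * n + 1) (hb : bd (W1 a (n - a)) = 1)
    (hv : valid k (W1 a (n - a)) = true)
    (IH : ∀ j < n, ∀ (k' : Kind) (q : List Bool), valid k' q = true → q.length = 2 * j + 1 →
      bd q = 1 → c (E k' q) = (al k' q : ℝ) * lam (2 * j + 1)) :
    c (E k (W1 a (n - a))) = (Q1 k n a n : ℝ) * lam (2 * n + 1) := by
  have h := Tab_core2 hcut hbd hcl hr hA hS k (W1 a (n - a)) n hv hl hb IH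
  rw [h1 k n a hk ha, Finset.sum_range_succ] at h
  have e : ∑ j ∈ Finset.range n, (Q1 k n a j : ℝ) * lam (2 * j + 1) * Real.pi ^ (2 * (n - j)) =
      ∑ j ∈ Finset.range n, (tabSum k (W1 a (n - a)) (2 * j + 1) : ℝ) *
        (lam (2 * j + 1) * Real.pi ^ (2 * (n - j))) := by
    apply Finset.sum_congr rfl
    intro j hj
    rw [Finset.mem_range] at hj
    rw [hq1 k n a j hk hn ha hj, mul_assoc]
  rw [e] at h
  have h' := add_left_cancel h
  rw [← h']
  simp

theorem thm_table (hcut : St_cutK) (hbd : St_bd) (_hd1 : St_Dhom) (_hd2 : St_homInf)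
    (_hd3 : St_Dsum) (hcl : St_class) (hr : St_Erev) (h3 : St_Per3) (h1 : St_Per1)
    (hA : St_chiAlt) (h0 : St_PerZero) (hs : St_shuf0) (hq3 : St_tabQ3) (hq1 : St_tabQ1) :
    St_table := by
  intro c χ hS
  have main : ∀ n : ℕ, n ≤ 7 → ∀ (k : Kind) (p : List Bool), valid k p = true →
      p.length = 2 * n + 1 → bd p = 1 → c (E k p) = (al k p : ℝ) * lam (2 * n + 1) := by
    intro n
    induction n using Nat.strong_induction_on with
    | _ n ih =>
      intro hn k p hv hl hb
      have IH : ∀ j < n, ∀ (k' : Kind) (q : List Bool), valid k' q = true →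
          q.length = 2 * j + 1 → bd q = 1 → c (E k' q) = (al k' q : ℝ) * lam (2 * j + 1) :=
        fun j hj => ih j hj (by omega)
      have hl2 : p.length / 2 = n := by omega
      have hcl2 := hcl.2 p hb
      rw [hl2] at hcl2
      rcases hcl2 with ⟨hp, hd⟩ | ⟨a, ha, hp, hd⟩ | ⟨a, ha, hp, hd⟩
      · have hk : k ≠ Kind.X := by
          rintro rfl
          rw [hp] at hv
          exact absurd hv (by simp [valid, W0, hdB])
        have hal : al k p = -2 * ((List.range n).map (fun a => Q3 k n a n)).sum := by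
          unfold al
          rw [hd, hl2]
          simp
        rw [hal, hp]
        rcases Nat.eq_zero_or_pos n with h | h
        · subst h
          have he : E k (W0 0) = wd [0] := by
            cases k
            · rfl
            · simp [E, W0, alt, Ys]
            · exact absurd rfl hk
          rw [he]
          have hx : wd [0] ∈ lenLe 1 := lib_wd_mem_lenLe (by simp)
          have hexp := hS.exp 1 _ hx
          have hD : D c (wd [0]) = c (wd [0]) • wd [] := by
            rw [lib_D]
            simp [Dw, Pr, Pool.MTV.hd, ev, toPt]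
          rw [Finset.sum_range_succ, Finset.sum_range_one] at hexp
          simp only [Nat.factorial_zero, Nat.cast_one, div_one, pow_zero, Module.End.one_apply,
            one_mul, Nat.factorial_one, pow_one] at hexp
          rw [hD, map_smul, hS.one, hS.even [0] (by decide), h0, smul_eq_mul, mul_one,
            zero_add] at hexp
          rw [← hexp]
          simp
        · have hsh := hs k n hk
          have hc := congrArg c hsh
          have hz : c (mul (wd [0]) (E k (alt n))) = 0 := by
            have := Tab_E_mem k (alt n)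
            rw [Tab_alt_length] at this
            obtain ⟨m, hm⟩ : ∃ m, 2 * n = m + 1 := ⟨2 * n - 1, by omega⟩
            rw [hm] at this
            exact Tab_lenEq_cons_span this hS.inf
          rw [hz, map_add, map_smul, map_sum] at hc
          have hv3 : ∀ a < n, valid k (W3 a (n - 1 - a)) = true := by
            intro a ha
            cases k
            · exact Tab_validZ3 n hn a ha
            · rfl
            · exact absurd rfl hk
          have hsum : ∑ a ∈ Finset.range n, c (E k (W3 a (n - 1 - a))) =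
              ∑ a ∈ Finset.range n, (Q3 k n a n : ℝ) * lam (2 * n + 1) := by
            apply Finset.sum_congr rfl
            intro a ha
            rw [Finset.mem_range] at ha
            exact Tab_w3 hcut hbd hcl hr h3 hA hq3 hS k n a hn ha (hv3 a ha) IH
          rw [hsum, ← Finset.sum_mul] at hc
          have hcast : ((((List.range n).map (fun a => Q3 k n a n)).sum : ℚ) : ℝ) =
              ∑ a ∈ Finset.range n, (Q3 k n a n : ℝ) := by
            rw [Rat.cast_list_sum, List.map_map]
            exact Tab_list_range n _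
          rw [Rat.cast_mul, hcast]
          rw [smul_eq_mul] at hc
          push_cast
          linarith
      · subst hp
        rw [Tab_w3 hcut hbd hcl hr h3 hA hq3 hS k n a hn ha hv IH]
        congr 2
        unfold al
        rw [hd, hl2]
        have e1 : (2 * a + 2 : ℕ) ≠ 0 := by omega
        have e2 : (2 * a + 2) % 2 = 0 := by omega
        have e3 : (2 * a + 2) / 2 - 1 = a := by omega
        simp only [e1, e2, e3, if_false, if_true]
      · have hk : k ≠ Kind.Z := by
          rintro rfl
          rw [hp] at hv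
          rw [Tab_validZ1 n hn a ha] at hv
          exact absurd hv (by decide)
        subst hp
        rw [Tab_w1 hcut hbd hcl hr h1 hA hq1 hS k hk n a hn ha hl hb hv IH]
        congr 2
        unfold al
        rw [hd, hl2]
        have e1 : (2 * a + 1 : ℕ) ≠ 0 := by omega
        have e2 : ¬ (2 * a + 1) % 2 = 0 := by omega
        have e3 : (2 * a + 1) / 2 = a := by omega
        simp only [e1, e2, e3, if_false]
  intro k p hv hodd h15 hb
  obtain ⟨n, hn⟩ := hodd
  rw [main n (by omega) k p hv hn hb, hn]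

end Pool.MTV
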