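import Pool.Agent.MTV.Tab1
import Pool.Agent.MTV.Tab2

/-!
# Finite checks behind the table: MTV Tab (with Tab1: thm_tabQ1, Tab2: thm_shuf0, thm_chiAlt, thm_table)
-/

namespace Pool.MTV

theorem Tab_q3Z : ∀ n ≤ 7, ∀ a < n, ∀ j < n,
    tabSum Kind.Z (W3 a (n - 1 - a)) (2 * j + 1) = Q3 Kind.Z n a j := by decide +kernel

theorem Tab_q3Y : ∀ n ≤ 7, ∀ a < n, ∀ j < n,
    tabSum Kind.Y (W3 a (n - 1 - a)) (2 * j + 1) = Q3 Kind.Y n a j := by decide +kernel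

theorem Tab_q3X : ∀ n ≤ 7, ∀ a < n, ∀ j < n,
    tabSum Kind.X (W3 a (n - 1 - a)) (2 * j + 1) = Q3 Kind.X n a j := by decide +kernel

theorem thm_tabQ3 : St_tabQ3 := by
  intro k n a j hn ha hj
  cases k
  · exact Tab_q3Z n hn a ha j hj
  · exact Tab_q3Y n hn a ha j hj
  · exact Tab_q3X n hn a ha j hj

end Pool.MTV
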