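import Pool.Agent.MTV.StP

/-!
# Wallis integrals with a power of the angle
-/

open Filter Topology MeasureTheory

namespace Pool.MTV

/-- the integral of cos^m x^(2 b) / (2 b)! -/
private noncomputable def WalI (m b : ℕ) : ℝ :=
  ∫ θ in (0 : ℝ)..(Real.pi / 2), Real.cos θ ^ m * θ ^ (2 * b) / (2 * b).factorial

private lemma Wal_cont (m j : ℕ) (c : ℝ) :
    Continuous fun θ : ℝ => Real.cos θ ^ m * θ ^ j / c := by fun_prop

private lemma Wal_ii (m j : ℕ) (c : ℝ) : IntervalIntegrable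
    (fun θ : ℝ => Real.cos θ ^ m * θ ^ j / c) volume 0 (Real.pi / 2) :=
  (Wal_cont m j c).intervalIntegrable _ _

/-- derivative of x^(j+1)/(j+1)! -/
private lemma Wal_dpow (j : ℕ) (x : ℝ) :
    HasDerivAt (fun θ : ℝ => θ ^ (j + 1) / ((j + 1).factorial : ℝ)) (x ^ j / (j.factorial : ℝ)) x := by
  have h := (hasDerivAt_pow (j + 1) x).div_const (((j + 1).factorial : ℕ) : ℝ)
  have e : ((j + 1 : ℕ) : ℝ) * x ^ (j + 1 - 1) / (((j + 1).factorial : ℕ) : ℝ) =
      x ^ j / (j.factorial : ℝ) := by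
    rw [Nat.factorial_succ, Nat.add_sub_cancel]
    push_cast
    have h1 : ((j : ℝ) + 1) ≠ 0 := by positivity
    have h2 : (j.factorial : ℝ) ≠ 0 := by positivity
    field_simp
  rw [e] at h
  exact h

/-- derivative of cos^(N+2) -/
private lemma Wal_dcos (N : ℕ) (x : ℝ) :
    HasDerivAt (fun θ : ℝ => Real.cos θ ^ (N + 2))
      (-((N : ℝ) + 2) * (Real.cos x ^ (N + 1) * Real.sin x)) x := by
  have h := (Real.hasDerivAt_cos x).pow (N + 2)
  have e : ((N + 2 : ℕ) : ℝ) * Real.cos x ^ (N + 2 - 1) * -Real.sin x =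
      -((N : ℝ) + 2) * (Real.cos x ^ (N + 1) * Real.sin x) := by
    have : N + 2 - 1 = N + 1 := by omega
    rw [this]
    push_cast
    ring
  rw [e] at h
  exact h

/-- second derivative of cos^(N+2) -/
private lemma Wal_dcos2 (N : ℕ) (x : ℝ) :
    HasDerivAt (fun θ : ℝ => -((N : ℝ) + 2) * (Real.cos θ ^ (N + 1) * Real.sin θ))
      (((N : ℝ) + 2) * (N + 1) * Real.cos x ^ N - ((N : ℝ) + 2) ^ 2 * Real.cos x ^ (N + 2)) x := by
  have h := (((Real.hasDerivAt_cos x).pow (N + 1)).mul (Real.hasDerivAt_sin x)).const_mul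
    (-((N : ℝ) + 2))
  have hs : Real.sin x ^ 2 = 1 - Real.cos x ^ 2 := by
    have := Real.sin_sq_add_cos_sq x
    linarith
  have e : -((N : ℝ) + 2) * (((N + 1 : ℕ) : ℝ) * Real.cos x ^ (N + 1 - 1) * -Real.sin x *
      Real.sin x + Real.cos x ^ (N + 1) * Real.cos x) =
      ((N : ℝ) + 2) * (N + 1) * Real.cos x ^ N - ((N : ℝ) + 2) ^ 2 * Real.cos x ^ (N + 2) := by
    have e1 : N + 1 - 1 = N := by omega
    rw [e1]
    push_cast
    have e2 : ((N : ℝ) + 1) * Real.cos x ^ N * -Real.sin x * Real.sin x =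
        -(((N : ℝ) + 1) * Real.cos x ^ N * (1 - Real.cos x ^ 2)) := by
      rw [← hs]; ring
    rw [e2]
    ring
  exact e ▸ h

private lemma Wal_rec0 (N : ℕ) :
    ((N : ℝ) + 2) * (N + 1) * WalI N 0 = ((N : ℝ) + 2) ^ 2 * WalI (N + 2) 0 := by
  have h : ∫ x in (0 : ℝ)..(Real.pi / 2), (((N : ℝ) + 2) * (N + 1) * Real.cos x ^ N -
      ((N : ℝ) + 2) ^ 2 * Real.cos x ^ (N + 2)) =
      -((N : ℝ) + 2) * (Real.cos (Real.pi / 2) ^ (N + 1) * Real.sin (Real.pi / 2)) -
        -((N : ℝ) + 2) * (Real.cos 0 ^ (N + 1) * Real.sin 0) :=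
    intervalIntegral.integral_eq_sub_of_hasDerivAt (fun x _ => Wal_dcos2 N x)
      (Continuous.intervalIntegrable (by fun_prop) _ _)
  rw [intervalIntegral.integral_sub (Continuous.intervalIntegrable (by fun_prop) _ _)
    (Continuous.intervalIntegrable (by fun_prop) _ _),
    intervalIntegral.integral_const_mul, intervalIntegral.integral_const_mul] at h
  simp only [Real.cos_pi_div_two, Real.sin_zero] at h
  unfold WalI
  simp only [Nat.mul_zero, pow_zero, mul_one, Nat.factorial_zero, Nat.cast_one, div_one]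
  have h0 : (0 : ℝ) ^ (N + 1) = 0 := by simp
  rw [h0] at h
  linarith

private lemma Wal_rec (N b : ℕ) :
    ((N : ℝ) + 2) * (N + 1) * WalI N (b + 1) - ((N : ℝ) + 2) ^ 2 * WalI (N + 2) (b + 1) =
      WalI (N + 2) b := by
  have hd : ∀ x : ℝ, HasDerivAt (fun θ : ℝ =>
      -((N : ℝ) + 2) * (Real.cos θ ^ (N + 1) * Real.sin θ) *
        (θ ^ (2 * b + 1 + 1) / ((2 * b + 1 + 1).factorial : ℝ)) -
      Real.cos θ ^ (N + 2) * (θ ^ (2 * b + 1) / ((2 * b + 1).factorial : ℝ)))
      ((((N : ℝ) + 2) * (N + 1) * Real.cos x ^ N - ((N : ℝ) + 2) ^ 2 * Real.cos x ^ (N + 2)) *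
        (x ^ (2 * b + 1 + 1) / ((2 * b + 1 + 1).factorial : ℝ)) +
        -((N : ℝ) + 2) * (Real.cos x ^ (N + 1) * Real.sin x) *
          (x ^ (2 * b + 1) / ((2 * b + 1).factorial : ℝ)) -
        (-((N : ℝ) + 2) * (Real.cos x ^ (N + 1) * Real.sin x) *
          (x ^ (2 * b + 1) / ((2 * b + 1).factorial : ℝ)) +
          Real.cos x ^ (N + 2) * (x ^ (2 * b) / ((2 * b).factorial : ℝ)))) x := fun x =>
    ((Wal_dcos2 N x).mul (Wal_dpow (2 * b + 1) x)).sub
      ((Wal_dcos N x).mul (Wal_dpow (2 * b) x))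
  have h := intervalIntegral.integral_eq_sub_of_hasDerivAt (a := 0) (b := Real.pi / 2)
    (fun x _ => hd x) (Continuous.intervalIntegrable (by fun_prop) _ _)
  have e : ∀ x : ℝ, (((N : ℝ) + 2) * (N + 1) * Real.cos x ^ N -
        ((N : ℝ) + 2) ^ 2 * Real.cos x ^ (N + 2)) *
        (x ^ (2 * b + 1 + 1) / ((2 * b + 1 + 1).factorial : ℝ)) +
        -((N : ℝ) + 2) * (Real.cos x ^ (N + 1) * Real.sin x) *
          (x ^ (2 * b + 1) / ((2 * b + 1).factorial : ℝ)) -
        (-((N : ℝ) + 2) * (Real.cos x ^ (N + 1) * Real.sin x) *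
          (x ^ (2 * b + 1) / ((2 * b + 1).factorial : ℝ)) +
          Real.cos x ^ (N + 2) * (x ^ (2 * b) / ((2 * b).factorial : ℝ))) =
      ((N : ℝ) + 2) * (N + 1) *
        (Real.cos x ^ N * x ^ (2 * (b + 1)) / ((2 * (b + 1)).factorial : ℝ)) -
      ((N : ℝ) + 2) ^ 2 *
        (Real.cos x ^ (N + 2) * x ^ (2 * (b + 1)) / ((2 * (b + 1)).factorial : ℝ)) -
      Real.cos x ^ (N + 2) * x ^ (2 * b) / ((2 * b).factorial : ℝ) := by
    intro x
    have e1 : 2 * b + 1 + 1 = 2 * (b + 1) := by ring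
    rw [e1]
    ring
  simp only [e] at h
  rw [intervalIntegral.integral_sub (Continuous.intervalIntegrable (by fun_prop) _ _)
    (Continuous.intervalIntegrable (by fun_prop) _ _),
    intervalIntegral.integral_sub (Continuous.intervalIntegrable (by fun_prop) _ _)
    (Continuous.intervalIntegrable (by fun_prop) _ _),
    intervalIntegral.integral_const_mul, intervalIntegral.integral_const_mul] at h
  simp only [Real.cos_pi_div_two, Real.sin_zero] at h
  have h0 : (0 : ℝ) ^ (N + 1) = 0 := by simp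
  have h1 : (0 : ℝ) ^ (N + 2) = 0 := by simp
  have h2 : (0 : ℝ) ^ (2 * b + 1) = 0 := by simp
  have h3 : (0 : ℝ) ^ (2 * b + 1 + 1) = 0 := by simp
  rw [h0, h1, h2, h3] at h
  simp only [zero_mul, mul_zero, zero_div, sub_zero] at h
  unfold WalI
  linarith

private lemma Wal_pos (m : ℕ) : 0 < WalI m 0 := by
  induction m using Nat.strong_induction_on with
  | _ m ih =>
    match m, ih with
    | 0, _ =>
      unfold WalI
      simp
      positivity
    | 1, _ =>
      unfold WalI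
      simp
    | m + 2, ih =>
      have h := Wal_rec0 m
      have h1 := ih m (by omega)
      have h2 : 0 < ((m : ℝ) + 2) * (m + 1) * WalI m 0 := by positivity
      rw [h] at h2
      exact (mul_pos_iff_of_pos_left (by positivity)).1 h2

private lemma Wal_gam (m : ℕ) : gam (m + 1) * WalI (m + 1) 0 = kp (m + 1) / ((m : ℝ) + 1) ^ 2 := by
  induction m using Nat.strong_induction_on with
  | _ m ih =>
    match m, ih with
    | 0, _ =>
      unfold WalI
      simp [gam, kp]
    | 1, _ =>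
      have h := Wal_rec0 0
      have h0 : WalI 0 0 = Real.pi / 2 := by
        unfold WalI
        simp
      rw [h0] at h
      simp only [Nat.cast_zero, zero_add] at h
      have h1 : WalI (1 + 1) 0 = Real.pi / 4 := by
        show WalI 2 0 = _
        linarith
      rw [h1]
      simp [gam, kp]
      ring
    | m + 2, ih =>
      have h := Wal_rec0 (m + 1)
      have h1 := ih m (by omega)
      have e1 : gam (m + 2 + 1) = gam (m + 1) * ((m : ℝ) + 1) ^ 2 / (((m : ℝ) + 2) * ((m : ℝ) + 3)) :=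
        rfl
      have e2 : kp (m + 2 + 1) = kp (m + 1) := by
        unfold kp
        have : (m + 2 + 1) % 2 = (m + 1) % 2 := by omega
        rw [this]
      rw [e1, e2]
      push_cast at h ⊢
      have h2 : WalI (m + 2 + 1) 0 = ((m : ℝ) + 2) / (m + 3) * WalI (m + 1) 0 := by
        show WalI (m + 1 + 2) 0 = _
        have h3 : ((m : ℝ) + 1 + 2) ≠ 0 := by positivity
        have h4 : ((m : ℝ) + 3) ≠ 0 := by positivity
        field_simp
        have h5 : ((m : ℝ) + 1 + 2) * (((m : ℝ) + 1 + 1) * WalI (m + 1) 0) =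
            ((m : ℝ) + 1 + 2) * (((m : ℝ) + 1 + 2) * WalI (m + 1 + 2) 0) := by
          rw [pow_two] at h
          linarith
        have h6 := mul_left_cancel₀ h3 h5
        linarith
      rw [h2]
      have h3 : ((m : ℝ) + 2) ≠ 0 := by positivity
      have h4 : ((m : ℝ) + 3) ≠ 0 := by positivity
      have h5 : ((m : ℝ) + 1) ≠ 0 := by positivity
      have e3 : gam (m + 1) * ((m : ℝ) + 1) ^ 2 / (((m : ℝ) + 2) * ((m : ℝ) + 3)) *
          (((m : ℝ) + 2) / (m + 3) * WalI (m + 1) 0) =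
          (gam (m + 1) * WalI (m + 1) 0) * (((m : ℝ) + 1) ^ 2 / ((m : ℝ) + 3) ^ 2) := by
        field_simp
      rw [e3, h1]
      have e4 : ((m : ℝ) + 2 + 1) = (m : ℝ) + 3 := by ring
      rw [e4]
      field_simp

/-- the quotients -/
private noncomputable def WalB (b m : ℕ) : ℝ := WalI m b / WalI m 0

private lemma Wal_B0 (m : ℕ) : WalB 0 m = 1 := div_self (Wal_pos m).ne'

private lemma Wal_Brec (b m : ℕ) :
    WalB (b + 1) m - WalB (b + 1) (m + 2) = WalB b (m + 2) / ((m : ℝ) + 2) ^ 2 := by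
  unfold WalB
  have h := Wal_rec m b
  have h0 := Wal_rec0 m
  have p0 := Wal_pos m
  have p2 := Wal_pos (m + 2)
  have h3 : ((m : ℝ) + 2) ≠ 0 := by positivity
  have h4 : WalI (m + 2) 0 = ((m : ℝ) + 1) / (m + 2) * WalI m 0 := by
    field_simp
    have h5 : ((m : ℝ) + 2) * (((m : ℝ) + 1) * WalI m 0) =
        ((m : ℝ) + 2) * (((m : ℝ) + 2) * WalI (m + 2) 0) := by
      rw [pow_two] at h0
      linarith
    have h6 := mul_left_cancel₀ h3 h5
    linarith
  have h1 : ((m : ℝ) + 1) ≠ 0 := by positivity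
  rw [← h, h4]
  have q0 : WalI m 0 ≠ 0 := p0.ne'
  field_simp

private lemma Wal_Bnn (b m : ℕ) : 0 ≤ WalB b m := by
  refine div_nonneg ?_ (Wal_pos m).le
  unfold WalI
  refine intervalIntegral.integral_nonneg (by positivity) fun x hx => ?_
  have hc : 0 ≤ Real.cos x :=
    Real.cos_nonneg_of_neg_pi_div_two_le_of_le (by linarith [hx.1, Real.pi_pos]) hx.2
  have : 0 ≤ x := hx.1
  positivity

private lemma Wal_Bub (b : ℕ) : ∃ C : ℝ, ∀ m : ℕ, WalB (b + 1) m ≤ C / ((m : ℝ) + 2) := by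
  -- x^(2b+2)/(2b+2)! <= (pi/2)^(2b) x^2 <= (pi/2)^(2b+2) sin^2
  refine ⟨(Real.pi / 2) ^ (2 * b) * (Real.pi / 2) ^ 2, fun m => ?_⟩
  have p0 := Wal_pos m
  unfold WalB
  rw [div_le_iff₀ p0]
  have hint : WalI m (b + 1) ≤ ∫ x in (0 : ℝ)..(Real.pi / 2),
      (Real.pi / 2) ^ (2 * b) * (Real.pi / 2) ^ 2 *
        (Real.cos x ^ m - Real.cos x ^ (m + 2)) := by
    unfold WalI
    refine intervalIntegral.integral_mono_on (by positivity)
      (Continuous.intervalIntegrable (by fun_prop) _ _)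
      (Continuous.intervalIntegrable (by fun_prop) _ _) fun x hx => ?_
    have hc : 0 ≤ Real.cos x :=
      Real.cos_nonneg_of_neg_pi_div_two_le_of_le (by linarith [hx.1, Real.pi_pos]) hx.2
    have hx0 : 0 ≤ x := hx.1
    have hs : 2 / Real.pi * x ≤ Real.sin x := Real.mul_le_sin hx.1 hx.2
    have hs' : x ≤ Real.pi / 2 * Real.sin x := by
      have h1 : Real.pi / 2 * (2 / Real.pi * x) ≤ Real.pi / 2 * Real.sin x :=
        mul_le_mul_of_nonneg_left hs (by positivity)
      have h2 : Real.pi / 2 * (2 / Real.pi * x) = x := by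
        have := Real.pi_ne_zero
        field_simp
      linarith
    have h1 : x ^ (2 * (b + 1)) / ((2 * (b + 1)).factorial : ℝ) ≤ x ^ (2 * (b + 1)) := by
      refine div_le_self (by positivity) ?_
      exact_mod_cast Nat.one_le_iff_ne_zero.2 (Nat.factorial_ne_zero _)
    have h2 : x ^ (2 * (b + 1)) ≤ (Real.pi / 2) ^ (2 * b) * ((Real.pi / 2) ^ 2 * Real.sin x ^ 2) := by
      have e : x ^ (2 * (b + 1)) = x ^ (2 * b) * x ^ 2 := by ring
      rw [e, ← mul_pow]
      exact mul_le_mul (pow_le_pow_left₀ hx0 hx.2 _) (pow_le_pow_left₀ hx0 hs' _) (by positivity)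
        (by positivity)
    have e3 : Real.cos x ^ m - Real.cos x ^ (m + 2) = Real.cos x ^ m * Real.sin x ^ 2 := by
      have := Real.sin_sq_add_cos_sq x
      have h : Real.sin x ^ 2 = 1 - Real.cos x ^ 2 := by linarith
      rw [h]
      ring
    rw [e3, mul_div_assoc]
    calc Real.cos x ^ m * (x ^ (2 * (b + 1)) / ((2 * (b + 1)).factorial : ℝ))
        ≤ Real.cos x ^ m * ((Real.pi / 2) ^ (2 * b) * ((Real.pi / 2) ^ 2 * Real.sin x ^ 2)) :=
          mul_le_mul_of_nonneg_left (h1.trans h2) (by positivity)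
      _ = _ := by ring
  refine hint.trans ?_
  rw [intervalIntegral.integral_const_mul, intervalIntegral.integral_sub
    (Continuous.intervalIntegrable (by fun_prop) _ _)
    (Continuous.intervalIntegrable (by fun_prop) _ _)]
  have eW : ∀ n : ℕ, ∫ x in (0 : ℝ)..(Real.pi / 2), Real.cos x ^ n = WalI n 0 := by
    intro n
    unfold WalI
    simp
  rw [eW, eW]
  have h0 := Wal_rec0 m
  have h3 : (0 : ℝ) < (m : ℝ) + 2 := by positivity
  have h4 : WalI (m + 2) 0 = ((m : ℝ) + 1) / (m + 2) * WalI m 0 := by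
    field_simp
    have h5 : ((m : ℝ) + 2) * (((m : ℝ) + 1) * WalI m 0) =
        ((m : ℝ) + 2) * (((m : ℝ) + 2) * WalI (m + 2) 0) := by
      rw [pow_two] at h0
      linarith
    have h6 := mul_left_cancel₀ h3.ne' h5
    linarith
  rw [h4]
  refine le_of_eq ?_
  field_simp
  ring

private lemma Wal_tendsto (b m : ℕ) :
    Tendsto (fun j : ℕ => WalB (b + 1) (m + 2 * j)) atTop (𝓝 0) := by
  obtain ⟨C, hC⟩ := Wal_Bub b
  refine tendsto_of_tendsto_of_tendsto_of_le_of_le tendsto_const_nhds ?_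
    (fun j => Wal_Bnn _ _) (fun j => hC _)
  have h1 : Tendsto (fun j : ℕ => (((m + 2 * j : ℕ) : ℝ) + 2)) atTop atTop := by
    refine tendsto_atTop_add_const_right _ _ ?_
    refine tendsto_natCast_atTop_atTop.comp ?_
    exact tendsto_atTop_mono (fun j => show j ≤ m + 2 * j by omega) tendsto_id
  simpa using h1.const_div_atTop C

private lemma Wal_hasSum (b m : ℕ) :
    HasSum (fun n : ℕ => if m < n ∧ n % 2 = m % 2 then WalB b n / (n : ℝ) ^ 2 else 0)
      (WalB (b + 1) m) := by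
  have hinj : Function.Injective (fun j : ℕ => m + 2 * j + 2) := by
    intro i j h
    simp only at h
    omega
  rw [← hinj.hasSum_iff]
  · have e : ((fun n : ℕ => if m < n ∧ n % 2 = m % 2 then WalB b n / (n : ℝ) ^ 2 else 0) ∘
        fun j : ℕ => m + 2 * j + 2) =
        fun j : ℕ => WalB (b + 1) (m + 2 * j) - WalB (b + 1) (m + 2 * (j + 1)) := by
      funext j
      have hc : m < m + 2 * j + 2 ∧ (m + 2 * j + 2) % 2 = m % 2 := ⟨by omega, by omega⟩
      simp only [Function.comp, if_pos hc]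
      have := Wal_Brec b (m + 2 * j)
      have e2 : m + 2 * (j + 1) = m + 2 * j + 2 := by ring
      rw [e2, this]
      push_cast
      rfl
    rw [e]
    rw [hasSum_iff_tendsto_nat_of_nonneg]
    · have e3 : ∀ n : ℕ, ∑ i ∈ Finset.range n,
          (WalB (b + 1) (m + 2 * i) - WalB (b + 1) (m + 2 * (i + 1))) =
          WalB (b + 1) m - WalB (b + 1) (m + 2 * n) := by
        intro n
        have := Finset.sum_range_sub' (fun i => WalB (b + 1) (m + 2 * i)) n
        simpa using this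
      simp only [e3]
      have := (Wal_tendsto b m).const_sub (WalB (b + 1) m)
      simpa using this
    · intro j
      have h := Wal_Brec b (m + 2 * j)
      have e2 : m + 2 * (j + 1) = m + 2 * j + 2 := by ring
      rw [e2, h]
      exact div_nonneg (Wal_Bnn _ _) (by positivity)
  · intro n hn
    rw [if_neg]
    rintro ⟨h1, h2⟩
    apply hn
    exact ⟨(n - m - 2) / 2, by simp only; omega⟩

private lemma Wal_Bn (b : ℕ) : ∀ m : ℕ, WalB b m = Bn b m := by
  induction b with
  | zero => intro m; rw [Wal_B0]; rfl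
  | succ b ih =>
    intro m
    rw [← (Wal_hasSum b m).tsum_eq]
    show _ = ∑' n : ℕ, if m < n ∧ n % 2 = m % 2 then Bn b n / (n : ℝ) ^ 2 else 0
    refine tsum_congr fun n => ?_
    rw [ih]

theorem thm_wallis : St_wallis := by
  intro b m hm
  obtain ⟨m, rfl⟩ : ∃ m', m = m' + 1 := ⟨m - 1, by omega⟩
  have h := Wal_gam m
  have hB := Wal_Bn b (m + 1)
  have p := (Wal_pos (m + 1)).ne'
  show gam (m + 1) * WalI (m + 1) b = _
  have e : WalI (m + 1) b = WalI (m + 1) 0 * Bn b (m + 1) := by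
    rw [← hB]
    unfold WalB
    field_simp
  rw [e, ← mul_assoc, h]
  push_cast
  ring

end Pool.MTV
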