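import Pool.Agent.MTV.StP2
import Pool.Agent.MTV.Ser

/-!
# MTV: level one words from the words Y, convergent case (helper99)
-/

open Filter Topology

namespace Pool.MTV

theorem ZY_Z_app (s : List Bool) (b : Bool) :
    Zs (s ++ [b]) = Ser_app (if b then 1 else 0) (Zs s) := by
  simp [Zs, Ser_app_wd]

theorem ZY_N_Z {s : List Bool} (hs : true ∈ s) : Zs s ∈ Ser_N :=
  Ser_N_wd ⟨1, List.mem_map.2 ⟨true, hs, by simp⟩, by decide⟩

/-- chain rule with the square -/
theorem ZY_deriv (hd : St_Lderiv) (a : SignType) (x : V) (z : ℝ) (h0 : 0 < z) (h1 : z < 1) :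
    HasDerivAt (fun z => LV (z ^ 2) (Ser_app a x))
      (LV (z ^ 2) x / (z ^ 2 - ((a : SignType) : ℝ)) * (2 * z)) z := by
  have h2 : z ^ 2 < 1 := by nlinarith
  have h := Ser_deriv hd a x (z ^ 2) (by positivity) h2
  have h3 : HasDerivAt (fun z : ℝ => z ^ 2) (2 * z) z := by
    simpa using hasDerivAt_pow 2 z
  exact HasDerivAt.comp (h := fun z : ℝ => z ^ 2) (h₂ := fun z => LV z (Ser_app a x)) z h h3

theorem ZY_log (n : ℕ) (z : ℝ) :
    LV z (wd (List.replicate n 0)) = Real.log z ^ n / (n.factorial : ℝ) := by
  rw [Ser_LV_wd]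
  cases n with
  | zero =>
    simp only [List.replicate_zero, pow_zero, Nat.factorial_zero, Nat.cast_one, div_one]
    rfl
  | succ n =>
    unfold L
    rw [List.reverse_replicate, List.replicate_succ, Lr, if_pos, List.length_replicate]
    intro b hb
    rw [← List.replicate_succ] at hb
    exact List.eq_of_mem_replicate hb

theorem ZY_Y_rep (n : ℕ) : Ys (List.replicate n false) = wd (List.replicate n 0) := by
  induction n with
  | zero => rfl
  | succ n ih => rw [List.replicate_succ, Ys, ih, Ser_pre_wd, List.replicate_succ]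

theorem ZY_Z_rep (n : ℕ) : Zs (List.replicate n false) = wd (List.replicate n 0) := by
  simp [Zs]

theorem ZY_rep (n : ℕ) (z : ℝ) : LV z (Ys (List.replicate n false)) =
    (1 / 2) ^ ((List.replicate n false).count false) * LV (z ^ 2) (Zs (List.replicate n false)) := by
  rw [ZY_Y_rep, ZY_Z_rep, ZY_log, ZY_log, List.count_replicate_self, Real.log_pow, mul_pow]
  have h : ((1 : ℝ) / 2) ^ n * ((2 : ℕ) : ℝ) ^ n = 1 := by
    rw [← mul_pow]
    norm_num
  calc Real.log z ^ n / (n.factorial : ℝ)
      = (((1 : ℝ) / 2) ^ n * ((2 : ℕ) : ℝ) ^ n) * (Real.log z ^ n / (n.factorial : ℝ)) := by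
        rw [h, one_mul]
    _ = _ := by ring

theorem ZY_sq : Tendsto (fun z : ℝ => z ^ 2) (𝓝[>] 0) (𝓝[>] 0) := by
  rw [tendsto_nhdsWithin_iff]
  constructor
  · have h : Tendsto (fun z : ℝ => z ^ 2) (𝓝 0) (𝓝 (0 ^ 2)) := (continuous_pow 2).tendsto 0
    rw [zero_pow (by norm_num)] at h
    exact h.mono_left nhdsWithin_le_nhds
  · filter_upwards [self_mem_nhdsWithin] with z hz
    have : (0 : ℝ) < z := hz
    exact pow_pos this 2

theorem ZY_main (h0 : St_Lzero) (hd : St_Lderiv) (s : List Bool) : ∀ z : ℝ, 0 < z → z < 1 →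
    LV z (Ys s) = (1 / 2) ^ (s.count false) * LV (z ^ 2) (Zs s) := by
  induction s using List.reverseRecOn with
  | nil =>
    intro z _ _
    exact ZY_rep 0 z
  | append_singleton s b ih =>
    intro z hz0 hz1
    by_cases ht : true ∈ s ++ [b]
    · have key : LV z (Ys (s ++ [b])) -
          (1 / 2) ^ ((s ++ [b]).count false) * LV (z ^ 2) (Zs (s ++ [b])) = 0 := by
        refine Ser_const (F := fun z => LV z (Ys (s ++ [b])) -
          (1 / 2) ^ ((s ++ [b]).count false) * LV (z ^ 2) (Zs (s ++ [b])))
          (fun w hw0 hw1 => ?_) ?_ hz0 hz1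
        · have IH := ih w hw0 hw1
          have h6 : w - 1 ≠ 0 := by linarith
          have h7 : w - -1 ≠ 0 := by linarith
          have h8 : w ^ 2 - 1 ≠ 0 := by nlinarith
          have h9 : w ≠ 0 := hw0.ne'
          cases b with
          | true =>
            have h1 := ((Ser_deriv hd 1 (Ys s) w hw0 hw1).fun_add
              (Ser_deriv hd (-1) (Ys s) w hw0 hw1)).fun_sub
              ((ZY_deriv hd 1 (Zs s) w hw0 hw1).const_mul ((1 / 2) ^ (s.count false)))
            simp only [SignType.coe_one, SignType.coe_neg_one] at h1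
            have e1 : LV w (Ys s) / (w - 1) + LV w (Ys s) / (w - -1) -
                (1 / 2) ^ (s.count false) * (LV (w ^ 2) (Zs s) / (w ^ 2 - 1) * (2 * w)) = 0 := by
              rw [IH]
              generalize (1 / 2 : ℝ) ^ (s.count false) = c
              generalize LV (w ^ 2) (Zs s) = f
              field_simp
              ring
            rw [e1] at h1
            have e2 : (s ++ [true]).count false = s.count false := by simp
            have e3 : Zs (s ++ [true]) = Ser_app 1 (Zs s) := ZY_Z_app s true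
            rw [e2]
            simp only [Ser_Y_true, e3, map_add]
            exact h1
          | false =>
            have h1 := (Ser_deriv hd 0 (Ys s) w hw0 hw1).fun_sub
              ((ZY_deriv hd 0 (Zs s) w hw0 hw1).const_mul ((1 / 2) ^ (s.count false + 1)))
            simp only [SignType.coe_zero] at h1
            have e1 : LV w (Ys s) / (w - 0) -
                (1 / 2) ^ (s.count false + 1) * (LV (w ^ 2) (Zs s) / (w ^ 2 - 0) * (2 * w)) = 0 := by
              rw [IH, pow_succ (1 / 2 : ℝ) (s.count false)]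
              generalize (1 / 2 : ℝ) ^ (s.count false) = c
              generalize LV (w ^ 2) (Zs s) = f
              rw [sub_zero, sub_zero]
              field_simp
              ring
            rw [e1] at h1
            have e2 : (s ++ [false]).count false = s.count false + 1 := by simp
            have e3 : Zs (s ++ [false]) = Ser_app 0 (Zs s) := ZY_Z_app s false
            rw [e2]
            simp only [Ser_Y_false, e3]
            exact h1
        · have h1 := Ser_N_lim h0 (Ser_N_Y ht)
          have h2 := ((Ser_N_lim h0 (ZY_N_Z ht)).comp ZY_sq).const_mul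
            ((1 / 2 : ℝ) ^ ((s ++ [b]).count false))
          have h3 := h1.sub h2
          rw [mul_zero, sub_zero] at h3
          exact h3
      exact sub_eq_zero.1 key
    · have h1 : s ++ [b] = List.replicate (s ++ [b]).length false := by
        rw [List.eq_replicate_iff]
        refine ⟨rfl, fun x hx => ?_⟩
        cases x with
        | true => exact absurd hx ht
        | false => rfl
      rw [h1]
      exact ZY_rep _ z

theorem thm_ZY (h0 : St_Lzero) (hd : St_Lderiv) : St_ZY := fun s z hz0 hz1 =>
  ZY_main h0 hd s z hz0 hz1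

theorem ZY_sqrt : Tendsto (fun z : ℝ => √z) (𝓝[<] 1) (𝓝[<] 1) := by
  rw [tendsto_nhdsWithin_iff]
  constructor
  · have h : Tendsto (fun z : ℝ => √z) (𝓝 1) (𝓝 √1) := Real.continuous_sqrt.tendsto 1
    rw [Real.sqrt_one] at h
    exact h.mono_left nhdsWithin_le_nhds
  · filter_upwards [self_mem_nhdsWithin] with z hz
    have h1 : z < 1 := hz
    show √z < 1
    rw [Real.sqrt_lt' one_pos]
    linarith

theorem thm_PerZY (h : St_ZY) (hp : St_PerLim) : St_PerZY := by
  intro s A hA
  have key : ∀ (x : V) (B : ℝ), Tendsto (fun z => LV z x) (𝓝[<] 1) (𝓝 B) → Per x = B := by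
    intro x B hB
    have h1 := hp x (Polynomial.C B) (by
      have h2 := hB.sub_const B
      rw [sub_self] at h2
      simpa only [Polynomial.eval_C] using h2)
    rwa [Polynomial.coeff_C_zero] at h1
  refine ⟨key _ _ hA, key _ _ ?_⟩
  have h1 := (hA.comp ZY_sqrt).const_mul ((2 : ℝ) ^ (s.count false))
  refine h1.congr' ?_
  filter_upwards [Ioo_mem_nhdsLT (zero_lt_one' ℝ)] with u hu
  have h2 : 0 < √u := Real.sqrt_pos.2 hu.1
  have h3 : √u < 1 := by
    rw [Real.sqrt_lt' one_pos]
    linarith [hu.2]
  show (2 : ℝ) ^ (s.count false) * LV (√u) (E Kind.Y s) = LV u (E Kind.Z s)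
  rw [h s (√u) h2 h3, Real.sq_sqrt hu.1.le, ← mul_assoc, ← mul_pow]
  norm_num

end Pool.MTV
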