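import Pool.Agent.MTV.AlgAll
import Pool.Agent.MTV.L1
import Pool.Agent.MTV.L2
import Pool.Agent.MTV.L3
import Pool.Agent.MTV.L4
import Pool.Agent.MTV.Ser
import Pool.Agent.MTV.ZY
import Pool.Agent.MTV.PZ
import Pool.Agent.MTV.Phi
import Pool.Agent.MTV.Wal
import Pool.Agent.MTV.JI
import Pool.Agent.MTV.Sums
import Pool.Agent.MTV.PerJ
import Pool.Agent.MTV.PerQ
import Pool.Agent.MTV.Cut
import Pool.Agent.MTV.Bd
import Pool.Agent.MTV.Sym
import Pool.Agent.MTV.Tab
import Pool.Agent.MTV.Tab1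
import Pool.Agent.MTV.Tab2
import Pool.Agent.MTV.FinD
import Pool.Agent.MTV.FinE

/-!
# Final assembly from the statements on nested sums
-/

namespace Pool.MTV

theorem all_Lone : St_Lone := thm_Lone thm_Lzero thm_Lderiv

theorem all_PerLim : St_PerLim := thm_PerLim all_Lone

theorem all_Lshuffle : St_Lshuffle := thm_Lshuffle thm_shLast thm_Lzero thm_Lderiv

theorem all_PerMul : St_PerMul := thm_PerMul all_Lone all_Lshuffle all_PerLim

theorem all_series : St_series := thm_series thm_Lzero thm_Lderiv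

theorem all_ZY : St_ZY := thm_ZY thm_Lzero thm_Lderiv

theorem all_PerZY : St_PerZY := thm_PerZY all_ZY all_PerLim

theorem all_sum3 : St_sum3 := thm_sum3 (thm_phiI thm_phi) thm_wallis

theorem all_sum1 : St_sum1 := thm_sum1 (thm_phiD thm_phi) thm_wallis

theorem all_Ainf : St_Ainf := thm_Ainf thm_phi thm_wallis

theorem all_sum0 : St_sum0 := thm_sum0 (thm_phiD thm_phi) thm_wallis

theorem all_Per3 (c3 : St_co3) : St_Per3 :=
  thm_Per3 thm_J (thm_PerJ3 all_series all_PerLim c3 all_sum3) all_series c3 all_sum3 all_PerZY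

theorem all_Per1 (c1 : St_co1) (c0 : St_co0) : St_Per1 :=
  thm_Per1 thm_J (thm_PerJ1 all_series all_PerLim c1 all_sum1)
    (thm_PerJ0 all_series all_PerLim c0 all_Ainf all_sum0)

theorem all_PerAlt (c0 : St_co0) : St_PerAlt :=
  thm_PerAlt (thm_PerJA all_series all_PerLim c0 all_Ainf) all_series c0 all_Ainf all_PerZY

theorem all_Erev : St_Erev := thm_Erev thm_charRev

theorem all_kill : St_kill := thm_kill thm_cutK thm_bd all_homInf

theorem all_chiAlt (hA : St_PerAlt) : St_chiAlt := thm_chiAlt thm_cutK thm_bd hA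

theorem all_table (h3 : St_Per3) (h1 : St_Per1) (hA : St_PerAlt) : St_table :=
  thm_table thm_cutK thm_bd thm_Dhom all_homInf thm_Dsum thm_class all_Erev h3 h1
    (all_chiAlt hA) thm_PerZero thm_shuf0 thm_tabQ3 thm_tabQ1

theorem all_sym (h3 : St_Per3) (h1 : St_Per1) (hA : St_PerAlt) : St_sym :=
  thm_sym thm_cutK thm_bd all_homInf all_kill all_Erev thm_class (all_chiAlt hA)
    (all_table h3 h1 hA)

theorem unram_of (h3 : St_Per3) (h1 : St_Per1) (hA : St_PerAlt) : Unramified (tm kT) :=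
  tm_unram thm_shLen thm_Dhom all_homInf all_zetaD thm_Dsum thm_cutK thm_bd
    (all_table h3 h1 hA) all_kill (all_sym h3 h1 hA) h3 (thm_PerZeta2 hA)
    (all_K (thm_PerZeta2 hA)) (all_Split all_PerMul thm_PerOne)

end Pool.MTV
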