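import Pool.Agent.MTV.LibA

/-!
# Algebra: shuffles, first half (length, homotheties, first letters, commutativity)
-/

set_option autoImplicit false

open scoped TensorProduct

namespace Pool.MTV

private theorem ShA_pre_mem (a : SignType) {n : ℕ} {x : V} (hx : x ∈ lenEq n) :
    pre a x ∈ lenEq (n + 1) := by
  refine lib_lenEq_ind (P := fun x => pre a x ∈ lenEq (n + 1)) x hx ?_ ?_ ?_ ?_
  · rw [map_zero]
    exact Submodule.zero_mem _
  · intro w hw
    rw [lib_pre]
    exact lib_wd_mem_lenEq (by rw [List.length_cons, hw])
  · intro x y hx hy
    rw [map_add]
    exact Submodule.add_mem _ hx hy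
  · intro r x hx
    rw [map_smul]
    exact Submodule.smul_mem _ _ hx

theorem thm_shLen : St_shLen := by
  intro u
  induction u with
  | nil =>
    intro v
    rw [lib_sh_nil_left]
    exact lib_wd_mem_lenEq (by simp)
  | cons a u ih =>
    intro v
    induction v with
    | nil =>
      rw [lib_sh_nil_right]
      exact lib_wd_mem_lenEq (by simp)
    | cons b v ih' =>
      rw [lib_sh_cons]
      refine Submodule.add_mem _ ?_ ?_
      · have h := ShA_pre_mem a (ih (b :: v))
        have e : u.length + (b :: v).length + 1 = (a :: u).length + (b :: v).length := by
          simp only [List.length_cons]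
          omega
        rwa [e] at h
      · have h := ShA_pre_mem b ih'
        have e : (a :: u).length + v.length + 1 = (a :: u).length + (b :: v).length := by
          simp only [List.length_cons]
          omega
        rwa [e] at h

private theorem ShA_mp_pre (a b : SignType) (x : V) : mp a (pre b x) = pre (a * b) (mp a x) := by
  refine lib_ext' (f := (mp a).comp (pre b)) (g := (pre (a * b)).comp (mp a)) ?_ x
  intro w
  simp

theorem thm_shMap : St_shMap := by
  intro a u
  induction u with
  | nil =>
    intro v
    simp
  | cons b u ih =>
    intro v
    induction v with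
    | nil => simp
    | cons c v ih' =>
      rw [lib_sh_cons, map_add, ShA_mp_pre, ShA_mp_pre, ih, ih', List.map_cons, List.map_cons,
        lib_sh_cons]

theorem thm_mulFirst : St_mulFirst := by
  intro a b x v
  refine lib_ext' (f := (mul.flip (wd (b :: v))).comp (pre a))
    (g := (pre a).comp (mul.flip (wd (b :: v))) + (pre b).comp ((mul.flip (wd v)).comp (pre a))) ?_ x
  intro w
  simp only [LinearMap.comp_apply, LinearMap.add_apply, LinearMap.flip_apply, lib_pre, lib_mul]
  exact lib_sh_cons a b w v

private theorem ShA_comm (u : Word) : ∀ v : Word, sh u v = sh v u := by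
  induction u with
  | nil =>
    intro v
    simp
  | cons a u ih =>
    intro v
    induction v with
    | nil => simp
    | cons b v ih' =>
      rw [lib_sh_cons, lib_sh_cons, ih, ih', add_comm]

theorem thm_mulComm : St_mulComm := by
  intro x y
  have h : mul = mul.flip := by
    refine lib_ext fun u => lib_ext fun v => ?_
    rw [LinearMap.flip_apply, lib_mul, lib_mul]
    exact ShA_comm u v
  calc mul x y = mul.flip x y := by rw [← h]
    _ = mul y x := rfl

end Pool.MTV
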