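import Pool.Agent.MTV.Defs

/-!
# Skeleton words (true = nonzero letter, false = letter 0)
-/

namespace Pool.MTV

/-- Level one words: true = 1, false = 0. -/
noncomputable def Zs (s : List Bool) : V := wd (s.map (fun b => if b then (1 : SignType) else 0))

/-- Sum over all signs. -/
noncomputable def Ys : List Bool → V
  | [] => wd []
  | true :: s => pre 1 (Ys s) + pre (-1) (Ys s)
  | false :: s => pre 0 (Ys s)

/-- Sum over all signs, weighted with the sign of the first letter. -/
noncomputable def Xs : List Bool → V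
  | [] => wd []
  | _ :: s => pre 1 (Ys s) - pre (-1) (Ys s)

inductive Kind where
  | Z : Kind
  | Y : Kind
  | X : Kind
deriving DecidableEq

noncomputable def E : Kind → List Bool → V
  | .Z => Zs
  | .Y => Ys
  | .X => Xs

def kap (b : Bool) : ℤ := if b then 1 else 0

def hdB : List Bool → Bool
  | [] => true
  | x :: _ => x

/-- Cuts starting at the first letter; L is the left neighbour. -/
def cutsP (L : Bool) (s : List Bool) : List (ℤ × List Bool × List Bool) :=
  (List.range s.length).map (fun i => (kap (hdB (s.drop (i + 1))) - kap L, s.take (i + 1), s.drop (i + 1)))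

/-- All cuts of a Z or Y word with left neighbour L and right end point 1. -/
def cuts : Bool → List Bool → List (ℤ × List Bool × List Bool)
  | _, [] => []
  | L, x :: s => cutsP L (x :: s) ++ (cuts x s).map (fun t => (t.1, t.2.1, x :: t.2.2))

/-- Cuts of E k s: (sign, kind of the block, block, rest). -/
def cutsK : Kind → List Bool → List (ℤ × Kind × List Bool × List Bool)
  | .Z, s => (cuts false s).map (fun t => (t.1, Kind.Z, t.2.1, t.2.2))
  | .Y, s => (cuts false s).map (fun t => (t.1, Kind.Y, t.2.1, t.2.2))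
  | .X, [] => []
  | .X, x :: s =>
      (List.range (s.length + 1)).map
        (fun i => (kap (hdB ((x :: s).drop (i + 1))), Kind.X, (x :: s).take (i + 1), (x :: s).drop (i + 1)))
      ++ (cuts true s).map (fun t => (t.1, Kind.Y, t.2.1, x :: t.2.2))

/-- Number of equal adjacent letters. -/
def rep : List Bool → ℕ
  | a :: b :: l => (if a = b then 1 else 0) + rep (b :: l)
  | _ => 0

/-- The block degree of (0; s; 1). -/
def bd (s : List Bool) : ℕ := rep (false :: (s ++ [true]))

/-- Index of the first double letter. -/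
def dbl : List Bool → ℕ
  | a :: b :: l => if a = b then 0 else dbl (b :: l) + 1
  | _ => 0

def alt : ℕ → List Bool
  | 0 => []
  | n + 1 => true :: false :: alt n

def W3 (a b : ℕ) : List Bool := alt a ++ true :: false :: false :: alt b
def W1 (a b : ℕ) : List Bool := alt a ++ true :: alt b
def W0 (n : ℕ) : List Bool := false :: alt n

/-- No two adjacent letters 1 in (s; 1). -/
def no11 : List Bool → Bool
  | [] => true
  | [a] => !a
  | a :: b :: l => !(a && b) && no11 (b :: l)

/-- Valid skeletons. -/
def valid : Kind → List Bool → Bool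
  | .Z, s => no11 s
  | .Y, _ => true
  | .X, s => hdB s

/-- Coefficient of lam (2 j + 1) * pi ^ (2 (n - j)) in the period of the word W3 a (n - 1 - a). -/
def Q3 (k : Kind) (n a j : ℕ) : ℚ :=
  if j = 0 then 0 else
  match k with
  | .X => (-2) ^ n * (-1) ^ (j + 1) / 4 ^ j *
      ((2 * j).choose (2 * a + 1) + (1 - 1 / 4 ^ j) * (2 * j).choose (2 * (n - 1 - a) + 1)) /
      (4 ^ (n - j) * (2 * n - 2 * j).factorial)
  | .Y => (-2) ^ n * (-1) ^ j / 4 ^ j *
      ((2 * j).choose (2 * a + 2) - (1 - 1 / 4 ^ j) * (2 * j).choose (2 * (n - 1 - a) + 1)) /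
      (4 ^ (n - j) * (2 * n + 1 - 2 * j).factorial)
  | .Z => 2 ^ (n + 1) * ((-2) ^ n * (-1) ^ j / 4 ^ j *
      ((2 * j).choose (2 * a + 2) - (1 - 1 / 4 ^ j) * (2 * j).choose (2 * (n - 1 - a) + 1)) /
      (4 ^ (n - j) * (2 * n + 1 - 2 * j).factorial))

/-- Coefficient of lam (2 j + 1) * pi ^ (2 (n - j)) in the period of the word W1 a (n - a). -/
def Q1 (k : Kind) (n a j : ℕ) : ℚ :=
  match k with
  | .X =>
      if j = 0 then
        (-2) ^ (n + 1) *
          (if n = a then (if a = 0 then 1 / 2 else -1 / 2) else (if a = 0 then 1 else 0)) /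
          (4 ^ n * (2 * n).factorial)
      else (-2) ^ (n + 1) * (-1) ^ j / 4 ^ j *
        ((2 * j).choose (2 * (n - a)) + (1 - 1 / 4 ^ j) * (2 * j).choose (2 * a)) /
        (4 ^ (n - j) * (2 * n - 2 * j).factorial)
  | .Y =>
      if j = 0 then
        (-2) ^ (n + 1) * (if n = a then -1 / 2 else 0) / (4 ^ n * (2 * n + 1).factorial)
      else (-2) ^ (n + 1) * (-1) ^ j / 4 ^ j *
        ((2 * j).choose (2 * (n - a)) - (1 - 1 / 4 ^ j) * (2 * j).choose (2 * a + 1)) /
        (4 ^ (n - j) * (2 * n + 1 - 2 * j).factorial)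
  | .Z => 0

/-- Value of E k (alt n) in units of pi ^ (2 n). -/
def be (k : Kind) (n : ℕ) : ℚ :=
  match k with
  | .X => (-1) ^ n / (2 ^ n * (2 * n).factorial)
  | .Y => (-1) ^ n / (2 ^ n * (2 * n + 1).factorial)
  | .Z => (-1) ^ n / (2 * n + 1).factorial

/-- Value of the infinitesimal character on a word of odd length with one double letter, in units
of lam (length). -/
def al (k : Kind) (p : List Bool) : ℚ :=
  let i := dbl (false :: (p ++ [true]))
  let n := p.length / 2
  if i = 0 then -2 * ((List.range n).map (fun a => Q3 k n a n)).sum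
  else if i % 2 = 0 then Q3 k n (i / 2 - 1) n
  else Q1 k n (i / 2) n

/-- The block in the orientation (0; .. ; 1). -/
def ori (e : ℤ) (p : List Bool) : List Bool := if e = 1 then p else p.reverse

/-- Leading symbols. -/
def sym (k : Kind) : List ℕ → List Bool → ℚ
  | [], s => if bd s = 0 then be k (s.length / 2) else 0
  | r :: l, s =>
      ((cutsK k s).map (fun t =>
        if t.1 ≠ 0 ∧ t.2.2.1.length = r ∧ bd (ori t.1 t.2.2.1) = 1 then
          (t.1 : ℚ) * al t.2.1 (ori t.1 t.2.2.1) * sym k l t.2.2.2 else 0)).sum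

/-- log 2, zeta(3), zeta(5), ... -/
noncomputable def lam (r : ℕ) : ℝ := if r = 1 then Real.log 2 else ∑' n : ℕ, 1 / ((n : ℝ) + 1) ^ r

end Pool.MTV
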