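import Pool.Agent.MTV.StP

/-!
# Analysis: auxiliary statements
-/

open Filter Topology

namespace Pool.MTV

/-- 1 for X words (odd indices), 2 for Y words (even indices). -/
def eK : Kind → ℕ
  | .X => 1
  | _ => 2

/-- Nested sums of the words W3 a b. -/
def St_co3 : Prop := ∀ (k : Kind) (a b : ℕ) (S : ℝ), k ≠ Kind.Z →
  HasSum (fun m : ℕ => if 0 < m ∧ m % 2 = eK k % 2 then An a m * Bn b m / (m : ℝ) ^ 3 else 0) S →
    HasSum (fun n : ℕ => co k (W3 a b).reverse n) ((-2) ^ (a + b + 1) * S)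

/-- Nested sums of the words W1 a b, b > 0. -/
def St_co1 : Prop := ∀ (k : Kind) (a b : ℕ) (S : ℝ), k ≠ Kind.Z → 0 < b →
  HasSum (fun m : ℕ => if 0 < m ∧ m % 2 = eK k % 2 then An a m * Bn b m / (m : ℝ) else 0) S →
    HasSum (fun n : ℕ => co k (W1 a b).reverse n) ((-2) ^ (a + b + 1) * S)

/-- Coefficients of W1 a 0 and of alt (a + 1). -/
def St_co0 : Prop := ∀ (k : Kind) (a n : ℕ), k ≠ Kind.Z →
  co k (W1 a 0).reverse n =
    (if 0 < n ∧ n % 2 = eK k % 2 then (-2) ^ (a + 1) * An a n / (n : ℝ) else 0) ∧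
  co k (alt (a + 1)).reverse n =
    (if 0 < n ∧ n % 2 = eK k % 2 then (-2) ^ (a + 1) * An a n / (n : ℝ) ^ 2 else 0)

/-- Coefficients have constant sign: (-1)^(number of nonzero letters). -/
def St_coSign : Prop := ∀ (k : Kind) (s : List Bool) (n : ℕ), 0 ≤ (-1) ^ (s.count true) * co k s n ∨ s.getLast? ≠ some true

/-- Periods as integrals. -/
def St_PerJ3 : Prop := ∀ (k : Kind) (a b : ℕ), k ≠ Kind.Z →
  Per (E k (W3 a b)) = (-2) ^ (a + b + 1) * ((kp (eK k))⁻¹ * Jc (Rpq (2 * a + eK k) (2 * b + 1)))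

def St_PerJ1 : Prop := ∀ (k : Kind) (a b : ℕ), k ≠ Kind.Z → 0 < b →
  Per (E k (W1 a b)) = (-2) ^ (a + b + 1) * ((kp (eK k))⁻¹ * Jc (Rpq (2 * b) (2 * a + eK k - 1)))

def St_PerJ0 : Prop := ∀ (k : Kind) (a : ℕ), k ≠ Kind.Z →
  Per (E k (W1 a 0)) = (-2) ^ (a + 1) *
    (Ainf a (eK k) * (if k = Kind.X then Real.log 2 / 2 else - (Real.log 2 / 2)) -
      (kp (eK k))⁻¹ * Jc (Polynomial.C (Ainf a (eK k)) * Rpq 0 (eK k - 1) - Rpq 0 (2 * a + eK k - 1)))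

def St_PerJA : Prop := ∀ (k : Kind) (n : ℕ), k ≠ Kind.Z →
  Per (E k (alt n)) = (-2) ^ n * Ainf n (eK k)

/-- Convergent Z words from Y words: if LV z (E Y s) has a finite limit at 1. -/
def St_PerZY : Prop := ∀ (s : List Bool) (A : ℝ),
  Tendsto (fun z => LV z (E Kind.Y s)) (𝓝[<] 1) (𝓝 A) →
    Per (E Kind.Y s) = A ∧ Per (E Kind.Z s) = 2 ^ (s.count false) * A

/-- Abel: a power series with nonnegative coefficients and finite sum. -/
def St_abel : Prop := ∀ (a : ℕ → ℝ) (S : ℝ), HasSum a S →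
  Tendsto (fun z : ℝ => ∑' n, a n * z ^ n) (𝓝[<] 1) (𝓝 S)

end Pool.MTV
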