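import Pool.Agent.MTV.StX

/-!
# Finite checks behind the table
-/

namespace Pool.MTV

/-- Sum over the cuts with block of length r of sign * al(block) * be(rest). -/
def tabSum (k : Kind) (p : List Bool) (r : ℕ) : ℚ :=
  ((cutsK k p).map (fun t =>
    if t.1 ≠ 0 ∧ t.2.2.1.length = r then
      (t.1 : ℚ) * al t.2.1 (ori t.1 t.2.2.1) * be k (t.2.2.2.length / 2) else 0)).sum

def St_tabQ3 : Prop := ∀ (k : Kind) (n a j : ℕ), n ≤ 7 → a < n → j < n →
  tabSum k (W3 a (n - 1 - a)) (2 * j + 1) = Q3 k n a j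

def St_tabQ1 : Prop := ∀ (k : Kind) (n a j : ℕ), k ≠ Kind.Z → n ≤ 7 → a ≤ n → j < n →
  tabSum k (W1 a (n - a)) (2 * j + 1) = Q1 k n a j

end Pool.MTV
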