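import Pool.Agent.MTV.StP2
import Pool.Agent.MTV.FinA

/-!
# The period of the motivic multiple t-value is, up to the sign (-1)^d, the multiple t-value
-/

open Filter Topology

namespace Pool.MTV

/-- The multiple t-value of (k_1, ..., k_d): the sum over all odd numbers n_1 < ... < n_d of the
products of the 2 / n_j^(k_j). -/
noncomputable def tval {d : ℕ} (k : Fin d → ℕ) : ℝ :=
  ∑' n : {n : Fin d → ℕ // StrictMono n ∧ ∀ i, Odd (n i)}, ∏ i, (2 : ℝ) / (n.1 i : ℝ) ^ k i

private def tvS (d : ℕ) : Set (Fin d → ℕ) := {n | StrictMono n ∧ ∀ i, Odd (n i)}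

private noncomputable def tvF {d : ℕ} (k : Fin d → ℕ) (n : Fin d → ℕ) : ℝ :=
  (tvS d).indicator (fun n => ∏ i, (2 : ℝ) / (n i : ℝ) ^ k i) n

private theorem tval_eq {d : ℕ} (k : Fin d → ℕ) : tval k = ∑' n, tvF k n :=
  tsum_subtype (tvS d) (fun n => ∏ i, (2 : ℝ) / (n i : ℝ) ^ k i)

private theorem tvF_nonneg {d : ℕ} (k : Fin d → ℕ) (n : Fin d → ℕ) : 0 ≤ tvF k n := by
  apply Set.indicator_nonneg
  intro n _
  exact Finset.prod_nonneg (fun i _ => by positivity)

private theorem tv_snoc {d : ℕ} (n : Fin d → ℕ) (M : ℕ) :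
    StrictMono (Fin.snoc (α := fun _ => ℕ) n M) ↔ StrictMono n ∧ ∀ i, n i < M := by
  constructor
  · intro h
    refine ⟨fun i j hij => ?_, fun i => ?_⟩
    · have := h (Fin.castSucc_lt_castSucc_iff.2 hij)
      simpa [Fin.snoc_castSucc] using this
    · have := h (Fin.castSucc_lt_last i)
      simpa [Fin.snoc_castSucc, Fin.snoc_last] using this
  · rintro ⟨h1, h2⟩ i j hij
    induction i using Fin.lastCases with
    | last => exact absurd hij (not_lt.2 (Fin.le_last j))
    | cast i =>
      induction j using Fin.lastCases with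
      | last => simpa [Fin.snoc_castSucc, Fin.snoc_last] using h2 i
      | cast j =>
        have : i < j := Fin.castSucc_lt_castSucc_iff.1 hij
        simpa [Fin.snoc_castSucc] using h1 this

private theorem tv_mem {d : ℕ} (n : Fin d → ℕ) (M : ℕ) :
    (Fin.snoc (α := fun _ => ℕ) n M) ∈ tvS (d + 1) ↔ n ∈ tvS d ∧ (∀ i, n i < M) ∧ Odd M := by
  simp only [tvS, Set.mem_ofPred_eq, tv_snoc]
  constructor
  · rintro ⟨⟨h1, h2⟩, h3⟩
    refine ⟨⟨h1, fun i => ?_⟩, h2, ?_⟩
    · simpa [Fin.snoc_castSucc] using h3 i.castSucc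
    · simpa [Fin.snoc_last] using h3 (Fin.last d)
  · rintro ⟨⟨h1, h2⟩, h3, h4⟩
    refine ⟨⟨h1, h3⟩, fun i => ?_⟩
    induction i using Fin.lastCases with
    | last => simpa [Fin.snoc_last] using h4
    | cast i => simpa [Fin.snoc_castSucc] using h2 i

open Classical in
private theorem tvF_snoc {d : ℕ} (k : Fin (d + 1) → ℕ) (n : Fin d → ℕ) (M : ℕ) :
    tvF k (Fin.snoc (α := fun _ => ℕ) n M) =
      if (∀ i, n i < M) ∧ Odd M then
        (2 : ℝ) / (M : ℝ) ^ k (Fin.last d) * tvF (fun i => k i.castSucc) n else 0 := by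
  by_cases h : n ∈ tvS d
  · by_cases h2 : (∀ i, n i < M) ∧ Odd M
    · rw [if_pos h2, tvF, Set.indicator_of_mem ((tv_mem n M).2 ⟨h, h2⟩), tvF,
        Set.indicator_of_mem h, Fin.prod_univ_castSucc]
      simp only [Fin.snoc_castSucc, Fin.snoc_last]
      ring
    · rw [if_neg h2, tvF, Set.indicator_of_notMem]
      intro h3
      exact h2 ((tv_mem n M).1 h3).2
  · rw [tvF, Set.indicator_of_notMem (fun h3 => h ((tv_mem n M).1 h3).1), tvF,
      Set.indicator_of_notMem h, mul_zero, ite_self]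

/-- Finite sums. -/
private noncomputable def tvW {d : ℕ} (k : Fin d → ℕ) (N : ℕ) : ℝ :=
  ∑ n ∈ Fintype.piFinset (fun _ : Fin d => Finset.range N), tvF k n

/-- The sum over n with the last entry M. -/
private noncomputable def tvC {d : ℕ} (k : Fin (d + 1) → ℕ) (M : ℕ) : ℝ :=
  if Odd M then (2 : ℝ) / (M : ℝ) ^ k (Fin.last d) * tvW (fun i => k i.castSucc) M else 0

private theorem tv_fiber {d : ℕ} (k : Fin (d + 1) → ℕ) (M : ℕ) (A : Finset (Fin d → ℕ))
    (hA : Fintype.piFinset (fun _ : Fin d => Finset.range M) ⊆ A) :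
    ∑ n ∈ A, tvF k (Fin.snoc (α := fun _ => ℕ) n M) = tvC k M := by
  classical
  have h1 : ∑ n ∈ A, tvF k (Fin.snoc (α := fun _ => ℕ) n M) =
      ∑ n ∈ Fintype.piFinset (fun _ : Fin d => Finset.range M),
        tvF k (Fin.snoc (α := fun _ => ℕ) n M) := by
    symm
    apply Finset.sum_subset hA
    intro n _ hn
    rw [tvF_snoc, if_neg]
    rintro ⟨h, _⟩
    apply hn
    rw [Fintype.mem_piFinset]
    intro i
    exact Finset.mem_range.2 (h i)
  rw [h1, tvC, tvW]
  split_ifs with hM
  · rw [Finset.mul_sum]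
    apply Finset.sum_congr rfl
    intro n hn
    rw [tvF_snoc, if_pos]
    rw [Fintype.mem_piFinset] at hn
    exact ⟨fun i => Finset.mem_range.1 (hn i), hM⟩
  · apply Finset.sum_eq_zero
    intro n _
    rw [tvF_snoc, if_neg]
    rintro ⟨_, h⟩
    exact hM h

private theorem tvW_succ {d : ℕ} (k : Fin (d + 1) → ℕ) (N : ℕ) :
    tvW k N = ∑ M ∈ Finset.range N, tvC k M := by
  classical
  have h1 : tvW k N = ∑ M ∈ Finset.range N,
      ∑ n ∈ Fintype.piFinset (fun _ : Fin d => Finset.range N),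
        tvF k (Fin.snoc (α := fun _ => ℕ) n M) := by
    rw [tvW, ← Finset.sum_product']
    symm
    refine Finset.sum_nbij' (fun x => Fin.snoc (α := fun _ => ℕ) x.2 x.1)
      (fun n => (n (Fin.last d), fun i => n i.castSucc)) ?_ ?_ ?_ ?_ ?_
    · rintro ⟨M, n⟩ h
      rw [Finset.mem_product, Fintype.mem_piFinset] at h
      rw [Fintype.mem_piFinset]
      intro i
      induction i using Fin.lastCases with
      | last => simpa [Fin.snoc_last] using h.1
      | cast i => simpa [Fin.snoc_castSucc] using h.2 i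
    · intro n h
      rw [Fintype.mem_piFinset] at h
      rw [Finset.mem_product, Fintype.mem_piFinset]
      exact ⟨h _, fun i => h _⟩
    · rintro ⟨M, n⟩ _
      simp [Fin.snoc_castSucc, Fin.snoc_last]
    · intro n _
      exact Fin.snoc_init_self n
    · rintro ⟨M, n⟩ _
      rfl
  rw [h1]
  apply Finset.sum_congr rfl
  intro M hM
  apply tv_fiber
  intro n hn
  rw [Fintype.mem_piFinset] at hn ⊢
  intro i
  exact Finset.mem_range.2 ((Finset.mem_range.1 (hn i)).trans (Finset.mem_range.1 hM))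

private theorem tvW_nonneg {d : ℕ} (k : Fin d → ℕ) (N : ℕ) : 0 ≤ tvW k N :=
  Finset.sum_nonneg (fun n _ => tvF_nonneg k n)

private theorem tvC_nonneg {d : ℕ} (k : Fin (d + 1) → ℕ) (M : ℕ) : 0 ≤ tvC k M := by
  unfold tvC
  split_ifs
  · exact mul_nonneg (by positivity) (tvW_nonneg _ _)
  · exact le_rfl

private theorem tv_harm (N : ℕ) (hN : 1 ≤ N) :
    ∑ M ∈ Finset.range N, (1 : ℝ) / (M : ℝ) ≤ 1 + Real.log N := by
  have h := harmonic_le_one_add_log N
  have h2 : ((harmonic N : ℚ) : ℝ) = ∑ i ∈ Finset.range N, ((i + 1 : ℕ) : ℝ)⁻¹ := by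
    simp [harmonic]
  rw [h2] at h
  refine le_trans ?_ h
  obtain ⟨m, rfl⟩ : ∃ m, N = m + 1 := ⟨N - 1, by omega⟩
  rw [Finset.sum_range_succ', Finset.sum_range_succ]
  have h3 : ∀ i : ℕ, (1 : ℝ) / ((i + 1 : ℕ) : ℝ) = ((i + 1 : ℕ) : ℝ)⁻¹ := fun i => one_div _
  simp only [h3]
  have h4 : (0 : ℝ) ≤ ((m + 1 : ℕ) : ℝ)⁻¹ := by positivity
  simp only [Nat.cast_zero, div_zero, add_zero]
  linarith

private theorem tvW_le : ∀ (d : ℕ) (k : Fin d → ℕ), (∀ i, 1 ≤ k i) → ∀ N : ℕ, 1 ≤ N →
    tvW k N ≤ (2 * (1 + Real.log N)) ^ d := by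
  intro d
  induction d with
  | zero =>
    intro k _ N _
    rw [pow_zero, tvW]
    have : Fintype.piFinset (fun _ : Fin 0 => Finset.range N) = {Fin.elim0} := by
      ext n
      simp only [Fintype.mem_piFinset, Finset.mem_singleton]
      exact ⟨fun _ => Subsingleton.elim _ _, fun _ i => i.elim0⟩
    rw [this, Finset.sum_singleton, tvF, Set.indicator_of_mem]
    · simp
    · exact ⟨fun i => i.elim0, fun i => i.elim0⟩
  | succ d ih =>
    intro k hk N hN
    rw [tvW_succ]
    have hB : 0 ≤ 2 * (1 + Real.log N) := by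
      have : 0 ≤ Real.log N := Real.log_natCast_nonneg N
      linarith
    have h1 : ∀ M ∈ Finset.range N, tvC k M ≤ 2 * (2 * (1 + Real.log N)) ^ d * (1 / (M : ℝ)) := by
      intro M hM
      have hMN := Finset.mem_range.1 hM
      rcases Nat.eq_zero_or_pos M with h0 | h0
      · subst h0
        simp [tvC]
      · unfold tvC
        split_ifs with ho
        · have e1 : (2 : ℝ) / (M : ℝ) ^ k (Fin.last d) ≤ 2 / (M : ℝ) := by
            have hM1 : (1 : ℝ) ≤ (M : ℝ) := by exact_mod_cast h0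
            have : (M : ℝ) ≤ (M : ℝ) ^ k (Fin.last d) := by
              calc (M : ℝ) = (M : ℝ) ^ 1 := (pow_one _).symm
                _ ≤ _ := pow_le_pow_right₀ hM1 (hk _)
            exact div_le_div_of_nonneg_left (by norm_num) (by linarith) this
          have e2 : tvW (fun i => k i.castSucc) M ≤ (2 * (1 + Real.log N)) ^ d := by
            refine (ih _ (fun i => hk _) M h0).trans ?_
            apply pow_le_pow_left₀
            · have : 0 ≤ Real.log M := Real.log_natCast_nonneg M
              linarith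
            · have : Real.log M ≤ Real.log N :=
                Real.log_le_log (by exact_mod_cast h0) (by exact_mod_cast hMN.le)
              linarith
          calc (2 : ℝ) / (M : ℝ) ^ k (Fin.last d) * tvW (fun i => k i.castSucc) M
              ≤ 2 / (M : ℝ) * (2 * (1 + Real.log N)) ^ d :=
                mul_le_mul e1 e2 (tvW_nonneg _ _) (by positivity)
            _ = _ := by ring
        · positivity
    refine (Finset.sum_le_sum h1).trans ?_
    rw [← Finset.mul_sum]
    calc 2 * (2 * (1 + Real.log N)) ^ d * ∑ M ∈ Finset.range N, (1 : ℝ) / (M : ℝ)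
        ≤ 2 * (2 * (1 + Real.log N)) ^ d * (1 + Real.log N) :=
          mul_le_mul_of_nonneg_left (tv_harm N hN) (by positivity)
      _ = (2 * (1 + Real.log N)) ^ (d + 1) := by ring

private theorem tvC_summable {d : ℕ} (k : Fin (d + 1) → ℕ) (hk : ∀ i, 1 ≤ k i)
    (h2 : 2 ≤ k (Fin.last d)) : Summable (tvC k) := by
  obtain ⟨C, hC⟩ : ∃ C : ℝ, ∀ M : ℕ, 1 ≤ M → (2 * (1 + Real.log M)) ^ d ≤ C * (M : ℝ) ^ (1 / 2 : ℝ) := by
    set ε : ℝ := 1 / (2 * ((d : ℝ) + 1)) with hε
    have hε0 : 0 < ε := by positivity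
    refine ⟨(2 * (1 + 1 / ε)) ^ d, fun M hM => ?_⟩
    have hM1 : (1 : ℝ) ≤ (M : ℝ) := by exact_mod_cast hM
    have e1 : 1 + Real.log M ≤ (1 + 1 / ε) * (M : ℝ) ^ ε := by
      have a1 : Real.log M ≤ (M : ℝ) ^ ε / ε := Real.log_le_rpow_div (by linarith) hε0
      have a2 : 1 ≤ (M : ℝ) ^ ε := Real.one_le_rpow hM1 hε0.le
      calc 1 + Real.log M ≤ (M : ℝ) ^ ε + (M : ℝ) ^ ε / ε := add_le_add a2 a1
        _ = _ := by ring
    have e0 : 0 ≤ 1 + Real.log M := by
      have : 0 ≤ Real.log M := Real.log_natCast_nonneg M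
      linarith
    have e2 : ((M : ℝ) ^ ε) ^ d ≤ (M : ℝ) ^ (1 / 2 : ℝ) := by
      rw [← Real.rpow_natCast, ← Real.rpow_mul (by linarith)]
      apply Real.rpow_le_rpow_of_exponent_le hM1
      rw [hε]
      rw [div_mul_eq_mul_div, one_mul, div_le_div_iff₀ (by positivity) (by norm_num)]
      nlinarith
    calc (2 * (1 + Real.log M)) ^ d ≤ (2 * ((1 + 1 / ε) * (M : ℝ) ^ ε)) ^ d := by
          apply pow_le_pow_left₀ (by linarith)
          linarith
      _ = (2 * (1 + 1 / ε)) ^ d * ((M : ℝ) ^ ε) ^ d := by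
          rw [← mul_assoc, mul_pow]
      _ ≤ _ := mul_le_mul_of_nonneg_left e2 (by positivity)
  have hs : Summable (fun M : ℕ => 2 * C * (1 / (M : ℝ) ^ (3 / 2 : ℝ))) :=
    (Real.summable_one_div_nat_rpow.2 (by norm_num)).mul_left _
  refine Summable.of_nonneg_of_le (tvC_nonneg k) (fun M => ?_) hs
  rcases Nat.eq_zero_or_pos M with h0 | h0
  · subst h0
    have : tvC k 0 = 0 := by simp [tvC]
    rw [this]
    simp
  · have hM1 : (1 : ℝ) ≤ (M : ℝ) := by exact_mod_cast h0
    have hM0 : (0 : ℝ) < (M : ℝ) := by linarith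
    have hW := (tvW_le d (fun i => k i.castSucc) (fun i => hk _) M h0).trans (hC M h0)
    have hC0 : 0 ≤ C := by
      have := (tvW_nonneg (fun i : Fin d => k i.castSucc) 1).trans
        ((tvW_le d (fun i => k i.castSucc) (fun i => hk _) 1 le_rfl).trans (hC 1 le_rfl))
      simpa using this
    unfold tvC
    split_ifs
    · have e1 : (2 : ℝ) / (M : ℝ) ^ k (Fin.last d) ≤ 2 / (M : ℝ) ^ 2 :=
        div_le_div_of_nonneg_left (by norm_num) (by positivity) (pow_le_pow_right₀ hM1 h2)
      calc (2 : ℝ) / (M : ℝ) ^ k (Fin.last d) * tvW (fun i => k i.castSucc) M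
          ≤ 2 / (M : ℝ) ^ 2 * (C * (M : ℝ) ^ (1 / 2 : ℝ)) :=
            mul_le_mul e1 hW (tvW_nonneg _ _) (by positivity)
        _ = 2 * C * (1 / (M : ℝ) ^ (3 / 2 : ℝ)) := by
            have e3 : (M : ℝ) ^ 2 = (M : ℝ) ^ (1 / 2 : ℝ) * (M : ℝ) ^ (3 / 2 : ℝ) := by
              rw [← Real.rpow_add hM0]
              norm_num
            rw [e3]
            have e4 : (M : ℝ) ^ (1 / 2 : ℝ) ≠ 0 := (Real.rpow_pos_of_pos hM0 _).ne'
            have e5 : (M : ℝ) ^ (3 / 2 : ℝ) ≠ 0 := (Real.rpow_pos_of_pos hM0 _).ne'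
            field_simp
    · positivity

private theorem tv_hasSum {d : ℕ} (k : Fin (d + 1) → ℕ) (hk : ∀ i, 1 ≤ k i)
    (h2 : 2 ≤ k (Fin.last d)) : HasSum (tvC k) (tval k) := by
  classical
  have hfib : ∀ M : ℕ, HasSum (fun n : Fin d → ℕ => tvF k (Fin.snoc (α := fun _ => ℕ) n M))
      (tvC k M) := by
    intro M
    rw [← tv_fiber k M _ (Finset.Subset.refl _)]
    apply hasSum_sum_of_ne_finset_zero
    intro n hn
    rw [tvF_snoc, if_neg]
    rintro ⟨h, _⟩
    apply hn
    rw [Fintype.mem_piFinset]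
    intro i
    exact Finset.mem_range.2 (h i)
  have hsum : Summable (fun x : ℕ × (Fin d → ℕ) =>
      tvF k (Fin.snoc (α := fun _ => ℕ) x.2 x.1)) := by
    rw [summable_prod_of_nonneg (fun x => tvF_nonneg _ _)]
    refine ⟨fun M => (hfib M).summable, ?_⟩
    have : (fun M : ℕ => ∑' n : Fin d → ℕ, tvF k (Fin.snoc (α := fun _ => ℕ) n M)) = tvC k := by
      funext M
      exact (hfib M).tsum_eq
    rw [this]
    exact tvC_summable k hk h2
  have h3 : ∑' x : ℕ × (Fin d → ℕ), tvF k (Fin.snoc (α := fun _ => ℕ) x.2 x.1) = tval k := by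
    rw [tval_eq]
    exact (Fin.snocEquiv (fun _ : Fin (d + 1) => ℕ)).tsum_eq (tvF k)
  rw [← h3]
  exact hsum.hasSum.prod_fiberwise hfib

/-! ### coefficients -/

private theorem skel_append (l m : List ℕ) : skel (l ++ m) = skel l ++ skel m := by
  simp [skel]

private theorem co_zeros (s : List Bool) (hs : s ≠ []) (m n : ℕ) :
    co Kind.X (List.replicate m false ++ s) n = co Kind.X s n / (n : ℝ) ^ m := by
  induction m with
  | zero => simp
  | succ m ih =>
    have hne : List.replicate m false ++ s ≠ [] := by simp [hs]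
    rw [List.replicate_succ, List.cons_append]
    obtain ⟨a, l, hal⟩ := List.exists_cons_of_ne_nil hne
    rw [hal] at ih ⊢
    rw [co, ih, pow_succ, div_div]
    simp

private theorem tv_co : ∀ (d : ℕ) (k : Fin (d + 1) → ℕ), (∀ i, 1 ≤ k i) → ∀ N : ℕ,
    co Kind.X (skel (List.ofFn k)).reverse N = (-1) ^ (d + 1) * tvC k N := by
  intro d
  induction d with
  | zero =>
    intro k hk N
    have e0 : skel (List.ofFn k) = true :: List.replicate (k 0 - 1) false := by
      simp [skel]
    rw [e0, List.reverse_cons, List.reverse_replicate, co_zeros _ (by simp), co, tvC]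
    have hW : tvW (fun i : Fin 0 => k i.castSucc) N = 1 := by
      rw [tvW]
      have : Fintype.piFinset (fun _ : Fin 0 => Finset.range N) = {Fin.elim0} := by
        ext n
        simp only [Fintype.mem_piFinset, Finset.mem_singleton]
        exact ⟨fun _ => Subsingleton.elim _ _, fun _ i => i.elim0⟩
      rw [this, Finset.sum_singleton, tvF, Set.indicator_of_mem]
      · simp
      · exact ⟨fun i => i.elim0, fun i => i.elim0⟩
    rw [hW]
    have hlast : (Fin.last 0 : Fin (0 + 1)) = 0 := rfl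
    rw [hlast]
    obtain ⟨m, hm⟩ : ∃ m, k 0 = m + 1 := ⟨k 0 - 1, by have := hk 0; omega⟩
    rw [hm]
    by_cases ho : Odd N
    · have h1 : 0 < N ∧ N % 2 = (if Kind.X = Kind.X then 1 else 0) :=
        ⟨ho.pos, by simpa using Nat.odd_iff.1 ho⟩
      rw [if_pos h1, if_pos ho]
      have hN : (N : ℝ) ≠ 0 := by
        have := ho.pos
        positivity
      simp only [Nat.add_sub_cancel]
      field_simp
      ring
    · have h1 : ¬ (0 < N ∧ N % 2 = (if Kind.X = Kind.X then 1 else 0)) := by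
        rintro ⟨_, h⟩
        exact ho (Nat.odd_iff.2 (by simpa using h))
      rw [if_neg h1, if_neg ho]
      simp
  | succ d ih =>
    intro k hk N
    have e0 : List.ofFn k = List.ofFn (fun i => k i.castSucc) ++ [k (Fin.last (d + 1))] := by
      rw [List.ofFn_succ', List.concat_eq_append]
    have e1 : skel [k (Fin.last (d + 1))] =
        true :: List.replicate (k (Fin.last (d + 1)) - 1) false := by
      simp [skel]
    have hne : (skel (List.ofFn (fun i => k (Fin.castSucc i)))).reverse ≠ [] := by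
      rw [List.ofFn_succ]
      simp [skel]
    rw [e0, skel_append, e1, List.reverse_append, List.reverse_cons, List.reverse_replicate,
      List.append_assoc, List.singleton_append, co_zeros _ (by simp)]
    obtain ⟨a, l, hal⟩ := List.exists_cons_of_ne_nil hne
    rw [hal, co, ← hal]
    swap
    · intro h
      exact List.cons_ne_nil _ _ h
    simp only [ih (fun i => k i.castSucc) (fun i => hk _)]
    rw [tvC, tvW_succ]
    obtain ⟨m, hm⟩ : ∃ m, k (Fin.last (d + 1)) = m + 1 :=
      ⟨k (Fin.last (d + 1)) - 1, by have := hk (Fin.last (d + 1)); omega⟩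
    rw [hm]
    by_cases ho : Odd N
    · rw [if_pos ho]
      have hs : (∑ M ∈ Finset.range N, if M % 2 = N % 2 then
          (-1 : ℝ) ^ (d + 1) * tvC (fun i => k (Fin.castSucc i)) M else 0) =
          (-1 : ℝ) ^ (d + 1) * ∑ M ∈ Finset.range N, tvC (fun i => k (Fin.castSucc i)) M := by
        rw [Finset.mul_sum]
        apply Finset.sum_congr rfl
        intro M _
        split_ifs with h
        · rfl
        · have : ¬ Odd M := by
            intro h3
            apply h
            rw [Nat.odd_iff.1 h3, Nat.odd_iff.1 ho]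
          rw [tvC, if_neg this, mul_zero]
      rw [hs]
      have hN : (N : ℝ) ≠ 0 := by
        have := ho.pos
        positivity
      simp only [Nat.add_sub_cancel]
      field_simp
      ring
    · rw [if_neg ho]
      have hs : (∑ M ∈ Finset.range N, if M % 2 = N % 2 then
          (-1 : ℝ) ^ (d + 1) * tvC (fun i => k (Fin.castSucc i)) M else 0) = 0 := by
        apply Finset.sum_eq_zero
        intro M _
        split_ifs with h
        · have : ¬ Odd M := by
            intro h3
            apply ho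
            rw [Nat.odd_iff, ← h, Nat.odd_iff.1 h3]
          rw [tvC, if_neg this, mul_zero]
        · rfl
      rw [hs]
      simp

/-- The period of the motivic multiple t-value. -/
theorem Per_tm (hs : St_series) (hp : St_PerLim) {d : ℕ} (k : Fin (d + 1) → ℕ)
    (hk : ∀ i, 1 ≤ k i) (h2 : 2 ≤ k (Fin.last d)) :
    Per (tm (List.ofFn k)) = (-1) ^ (d + 1) * tval k := by
  have hne : skel (List.ofFn k) ≠ [] := by
    rw [List.ofFn_succ]
    simp [skel]
  have hhd : hdB (skel (List.ofFn k)) = true := by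
    rw [List.ofFn_succ]
    simp [skel, hdB]
  have h : HasSum (fun n : ℕ => co Kind.X (skel (List.ofFn k)).reverse n)
      ((-1) ^ (d + 1) * tval k) := by
    simp only [tv_co d k hk]
    exact (tv_hasSum k hk h2).mul_left _
  rw [← EX_skel]
  have h1 : Tendsto (fun z : ℝ => ∑' n, co Kind.X (skel (List.ofFn k)).reverse n * z ^ n)
      (𝓝[<] 1) (𝓝 ((-1) ^ (d + 1) * tval k)) :=
    Real.tendsto_tsum_powerSeries_nhdsWithin_lt h.tendsto_sum_nat
  have hpos : ∀ᶠ z : ℝ in 𝓝[<] (1 : ℝ), 0 < z :=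
    (eventually_gt_nhds (by norm_num : (0 : ℝ) < 1)).filter_mono nhdsWithin_le_nhds
  have h3 : ∀ᶠ z : ℝ in 𝓝[<] (1 : ℝ),
      (∑' n, co Kind.X (skel (List.ofFn k)).reverse n * z ^ n) = LV z (E Kind.X (skel (List.ofFn k))) := by
    filter_upwards [self_mem_nhdsWithin, hpos] with z hz1 hz0
    exact (hs Kind.X _ (by simp) hne hhd z hz0 hz1).tsum_eq
  have h4 := h1.congr' h3
  have h5 := hp (E Kind.X (skel (List.ofFn k))) (Polynomial.C ((-1) ^ (d + 1) * tval k))
    (by simpa using h4.sub_const ((-1) ^ (d + 1) * tval k))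
  rw [h5, Polynomial.coeff_C_zero]

/-- The period of the motivic multiple t-value, for lists. -/
theorem Per_tm_list (hs : St_series) (hp : St_PerLim) (k : List ℕ) (hne : k ≠ [])
    (hk : ∀ a ∈ k, 1 ≤ a) (h2 : 2 ≤ k.getLast hne) :
    Per (tm k) = (-1) ^ k.length * tval k.get := by
  cases k with
  | nil => exact absurd rfl hne
  | cons a l =>
    have h := Per_tm hs hp (d := l.length) (a :: l).get (fun i => hk _ (List.get_mem _ _)) (by
      rw [List.getLast_eq_getElem] at h2
      exact h2)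
    rw [List.ofFn_get] at h
    exact h

end Pool.MTV
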