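import Pool.Agent.MTV.StX2
import Pool.Agent.MTV.StA2

/-!
# Finite checks behind the table: MTV Tab1
-/

namespace Pool.MTV

theorem Tab_q1Y : ∀ n ≤ 7, ∀ a ≤ n, ∀ j < n,
    tabSum Kind.Y (W1 a (n - a)) (2 * j + 1) = Q1 Kind.Y n a j := by decide +kernel

theorem Tab_q1X : ∀ n ≤ 7, ∀ a ≤ n, ∀ j < n,
    tabSum Kind.X (W1 a (n - a)) (2 * j + 1) = Q1 Kind.X n a j := by decide +kernel

theorem thm_tabQ1 : St_tabQ1 := by
  intro k n a j hk hn ha hj
  cases k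
  · exact absurd rfl hk
  · exact Tab_q1Y n hn a ha j hj
  · exact Tab_q1X n hn a ha j hj

end Pool.MTV
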